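import Pool.Agent.SAF.A11

/-!
# SAF/A15: hulls of cofinite sets
-/

namespace Pool.Agent.SAF

open MulAction

variable {H : Type} [Group H] {X : Type} [MulAction H X] {G : SimpleGraph X}

/-- The hull of a cofinite set is cofinite, for cyclic groups. -/
theorem TAct.hull_cofinite (hG : TAct H G) (A : Subgroup H) (hA : IsCyclic ↥A) (s : Set X)
    (hs : ∀ a ∈ A, ∀ w ∈ s, a • w ∈ s) (hf : FinOrb ↥A s) : FinOrb ↥A (hull G s) := by
  classical
  obtain ⟨F, hF, hFs, hc⟩ := FinOrb_iff.1 hf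
  rcases s.eq_empty_or_nonempty with he | ⟨b0, hb0⟩
  · have h0 : hull G s = ∅ := by
      ext w
      constructor
      · rintro ⟨a, ha, _⟩
        rw [he] at ha
        exact ha.elim
      · intro h
        exact h.elim
    rw [h0]
    simp [FinOrb, orbs]
  obtain ⟨b, hb, -⟩ := hc b0 hb0
  obtain ⟨a, ha⟩ := hA.exists_generator
  obtain ⟨F0, hF0d⟩ : ∃ F0 : Set X, F0 = F ∪ {b, a • b} := ⟨_, rfl⟩
  have hF0 : F0.Finite := by
    rw [hF0d]
    exact hF.union (Set.toFinite _)
  have hbF : b ∈ F0 := by rw [hF0d]; exact Or.inl hb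
  have habF : a • b ∈ F0 := by rw [hF0d]; exact Or.inr (Or.inr rfl)
  have hF' : (hull G F0).Finite := hull_finite hG.tree hF0
  obtain ⟨C, hC⟩ : ∃ C : Set X, C = {x | ∃ g : ↥A, ∃ w ∈ hull G F0, g • w = x} := ⟨_, rfl⟩
  have hmem : ∀ (g : ↥A), ∀ w ∈ hull G F0, g • w ∈ C := by
    intro g w hw
    rw [hC]
    exact ⟨g, w, hw, rfl⟩
  have hpiece : ∀ g : ↥A, ∀ w ∈ hull G F0, ∀ w' ∈ hull G F0,
      Relation.ReflTransGen (fun u v => G.Adj u v ∧ u ∈ C ∧ v ∈ C) (g • w) (g • w') := by
    intro g w hw w' hw'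
    have h1 := (hull_conv hG.tree F0).rtg hG.tree hw hw'
    clear hw'
    induction h1 with
    | refl => exact Relation.ReflTransGen.refl
    | tail _ e ih =>
      exact Relation.ReflTransGen.tail ih
        ⟨hG.adj_smul (g : H) _ _ e.1, hmem g _ e.2.1, hmem g _ e.2.2⟩
  have hsymm : ∀ x y, Relation.ReflTransGen (fun u v => G.Adj u v ∧ u ∈ C ∧ v ∈ C) x y →
      Relation.ReflTransGen (fun u v => G.Adj u v ∧ u ∈ C ∧ v ∈ C) y x := by
    intro x y h
    induction h with
    | refl => exact Relation.ReflTransGen.refl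
    | tail _ e ih => exact Relation.ReflTransGen.head ⟨e.1.symm, e.2.2, e.2.1⟩ ih
  have hb' : b ∈ hull G F0 := subset_hull F0 hbF
  have hab' : a • b ∈ hull G F0 := subset_hull F0 habF
  have hstep : ∀ g : ↥A,
      Relation.ReflTransGen (fun u v => G.Adj u v ∧ u ∈ C ∧ v ∈ C) (g • b) ((g * a) • b) := by
    intro g
    have h1 := hpiece g b hb' (a • b) hab'
    rwa [← mul_smul] at h1
  have hpow : ∀ n : ℤ,
      Relation.ReflTransGen (fun u v => G.Adj u v ∧ u ∈ C ∧ v ∈ C) b (a ^ n • b) := by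
    intro n
    induction n using Int.induction_on with
    | zero =>
      rw [zpow_zero, one_smul]
    | succ n ih =>
      have h1 := hstep (a ^ (n : ℤ))
      rw [← zpow_add_one] at h1
      exact ih.trans h1
    | pred n ih =>
      have h1 := hstep (a ^ (-(n : ℤ) - 1))
      rw [← zpow_add_one, sub_add_cancel] at h1
      exact ih.trans (hsymm _ _ h1)
  have hall : ∀ x ∈ C, Relation.ReflTransGen (fun u v => G.Adj u v ∧ u ∈ C ∧ v ∈ C) b x := by
    intro x hx
    rw [hC] at hx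
    obtain ⟨g, w, hw, rfl⟩ := hx
    obtain ⟨n, hn⟩ := Subgroup.mem_zpowers_iff.1 (ha g)
    have h1 := hpow n
    rw [hn] at h1
    exact h1.trans (hpiece g b hb' w hw)
  have hconv : Conv G C := by
    apply conv_of_rtg hG.tree
    intro x hx y hy
    exact (hsymm _ _ (hall x hx)).trans (hall y hy)
  have hsC : s ⊆ C := by
    intro y hy
    obtain ⟨f, hf', g, e⟩ := hc y hy
    rw [← e]
    exact hmem g f (subset_hull F0 (by rw [hF0d]; exact Or.inl hf'))
  have hfin : FinOrb ↥A C := by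
    rw [FinOrb_iff]
    refine ⟨hull G F0, hF', ?_, ?_⟩
    · intro w hw
      have := hmem 1 w hw
      rwa [one_smul] at this
    · intro y hy
      rw [hC] at hy
      obtain ⟨g, w, hw, e⟩ := hy
      exact ⟨w, hw, g, e⟩
  exact hfin.mono (hconv.hull_sub hsC)

end Pool.Agent.SAF
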