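import Pool.Agent.SAF.A11

/-!
# SAF/A16: elements with a power fixing a vertex
-/

namespace Pool.Agent.SAF

open MulAction

section centre

variable {X : Type} {G : SimpleGraph X}

/-- a walk between the two sides of a cut crosses it -/
private theorem fiv_walk_cross {u v : X} {g : X → ZMod 2} (hG : G.IsTree)
    (hg : ∀ a b, G.Adj a b → (g a ≠ g b ↔ ((a = u ∧ b = v) ∨ (a = v ∧ b = u))))
    {a b : X} (p : G.Walk a b) : g a ≠ g b →
    ∃ x y, ((x = u ∧ y = v) ∨ (x = v ∧ y = u)) ∧ G.dist a x + 1 + G.dist y b ≤ p.length ∧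
      x ∈ p.support ∧ y ∈ p.support := by
  induction p with
  | nil => intro h; exact absurd rfl h
  | @cons a a' b h' p' ih =>
    intro h
    by_cases h2 : g a = g a'
    · obtain ⟨x, y, e, hl, hx, hy⟩ := ih (by rw [← h2]; exact h)
      refine ⟨x, y, e, ?_, ?_, ?_⟩
      · have h3 : G.dist a x ≤ G.dist a a' + G.dist a' x := hG.connected.dist_triangle
        have h4 : G.dist a a' = 1 := SimpleGraph.dist_eq_one_iff_adj.2 h'
        rw [SimpleGraph.Walk.length_cons]
        omega
      · rw [SimpleGraph.Walk.support_cons]; exact List.mem_cons_of_mem _ hx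
      · rw [SimpleGraph.Walk.support_cons]; exact List.mem_cons_of_mem _ hy
    · refine ⟨a, a', (hg a a' h').1 h2, ?_, ?_, ?_⟩
      · have h3 : G.dist a' b ≤ p'.length := SimpleGraph.dist_le p'
        rw [SimpleGraph.Walk.length_cons, SimpleGraph.dist_self]
        omega
      · exact SimpleGraph.Walk.start_mem_support _
      · rw [SimpleGraph.Walk.support_cons]
        exact List.mem_cons_of_mem _ (SimpleGraph.Walk.start_mem_support _)

/-- distances across an edge -/
theorem fiv_dist_cross (hG : G.IsTree) {u v a b : X} (h : G.Adj u v)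
    (h1 : G.dist a v = G.dist a u + 1) (h2 : G.dist b u = G.dist b v + 1) :
    G.dist a b = G.dist a u + 1 + G.dist v b := by
  obtain ⟨g, hg, hg0, hg1⟩ := exists_cut G hG u v h
  obtain ⟨p, hp⟩ := hG.connected.exists_walk_length_eq_dist a b
  have ha : g a = 0 := (hg0 a).2 h1
  have hb : g b = 1 := (hg1 b).2 h2
  have hne : g a ≠ g b := by rw [ha, hb]; decide
  obtain ⟨x, y, e, hl, -, -⟩ := fiv_walk_cross hG hg p hne
  have huv : G.dist u v = 1 := SimpleGraph.dist_eq_one_iff_adj.2 h
  have t1 : G.dist a b ≤ G.dist a u + G.dist u b := hG.connected.dist_triangle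
  have t2 : G.dist u b ≤ G.dist u v + G.dist v b := hG.connected.dist_triangle
  have c1 : G.dist u b = G.dist b u := SimpleGraph.dist_comm
  have c2 : G.dist v b = G.dist b v := SimpleGraph.dist_comm
  rcases e with ⟨rfl, rfl⟩ | ⟨rfl, rfl⟩
  · omega
  · omega

/-- two non adjacent points: an interior point of the segment is nearer to every point than one
of the two ends -/
theorem fiv_mid (hG : G.IsTree) {c d : X} (h : 2 ≤ G.dist c d) :
    ∃ m, ∀ o, G.dist m o + 1 ≤ G.dist c o ∨ G.dist m o + 1 ≤ G.dist d o := by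
  have hcd : c ≠ d := by
    rintro rfl
    rw [SimpleGraph.dist_self] at h
    omega
  obtain ⟨m, hm, em⟩ := exists_next hG hcd
  refine ⟨m, fun o => ?_⟩
  have hcm : G.dist c m = 1 := SimpleGraph.dist_eq_one_iff_adj.2 hm
  have hdm : G.dist d c = G.dist d m + 1 := by
    rw [SimpleGraph.dist_comm, em, SimpleGraph.dist_comm]
  rcases (dist_edge hG hm o).1 with h1 | h1
  · -- `o` is nearer to `c`
    right
    have c1 := fiv_dist_cross hG hm h1 hdm
    have c2 : G.dist o d = G.dist d o := SimpleGraph.dist_comm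
    have c3 : G.dist o m = G.dist m o := SimpleGraph.dist_comm
    omega
  · left
    have c2 : G.dist o c = G.dist c o := SimpleGraph.dist_comm
    have c3 : G.dist o m = G.dist m o := SimpleGraph.dist_comm
    omega

/-- a finite nonempty set has a centre: the points which minimise the largest distance -/
theorem fiv_centre (hG : G.IsTree) (O : Set X) (hO : O.Finite) (hne : O.Nonempty) :
    ∃ (c : X) (r : ℕ), (∀ o ∈ O, G.dist c o ≤ r) ∧
      ∀ d, (∀ o ∈ O, G.dist d o ≤ r) → G.dist c d ≤ 1 := by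
  classical
  have hex : ∃ r : ℕ, ∃ c : X, ∀ o ∈ O, G.dist c o ≤ r := by
    obtain ⟨x, hx⟩ := hne
    obtain ⟨b, hb⟩ := (hO.image (fun o => G.dist x o)).bddAbove
    exact ⟨b, x, fun o ho => hb ⟨o, ho, rfl⟩⟩
  obtain ⟨c, hc⟩ := Nat.find_spec hex
  refine ⟨c, Nat.find hex, hc, fun d hd => ?_⟩
  by_contra hcon
  obtain ⟨m, hm⟩ := fiv_mid hG (show 2 ≤ G.dist c d by omega)
  obtain ⟨x, hx⟩ := hne
  have hpos : 1 ≤ Nat.find hex := by
    rcases hm x with h | h
    · have := hc x hx
      omega
    · have := hd x hx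
      omega
  have hlt := Nat.find_min hex (show Nat.find hex - 1 < Nat.find hex by omega)
  apply hlt
  refine ⟨m, fun o ho => ?_⟩
  rcases hm o with h | h
  · have := hc o ho
    omega
  · have := hd o ho
    omega

end centre

variable {H : Type} [Group H] {X : Type} [MulAction H X] {G : SimpleGraph X}

/-- The elements which map a finite nonempty set to itself have a common fixed vertex. -/
theorem fix_of_finite_inv (hG : TAct H G) (O : Set X) (hO : O.Finite) (hne : O.Nonempty) :
    ∃ w : X, ∀ h : H, (∀ o ∈ O, h • o ∈ O) → h • w = w := by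
  obtain ⟨c, r, hc, hd⟩ := fiv_centre hG.tree O hO hne
  refine ⟨c, fun h hh => ?_⟩
  -- surjectivity
  have hsurj : ∀ o ∈ O, ∃ o' ∈ O, h • o' = o := by
    have hi : Set.InjOn (fun o => h • o) O := fun a _ b _ e => smul_left_cancel h e
    have hsub : (fun o => h • o) '' O ⊆ O := by
      rintro _ ⟨o, ho, rfl⟩
      exact hh o ho
    have heq := Set.eq_of_subset_of_ncard_le hsub hi.ncard_image.ge hO
    intro o ho
    rw [← heq] at ho
    obtain ⟨o', ho', e⟩ := ho
    exact ⟨o', ho', e⟩
  have hstep : ∀ d, (∀ o ∈ O, G.dist d o ≤ r) → ∀ o ∈ O, G.dist (h • d) o ≤ r := by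
    intro d hd o ho
    obtain ⟨o', ho', rfl⟩ := hsurj o ho
    rw [hG.dist_smul]
    exact hd o' ho'
  have h1 := hd _ (hstep c hc)
  have h2 := hd _ (hstep _ (hstep c hc))
  by_contra hne'
  have hadj : G.Adj c (h • c) := by
    apply SimpleGraph.dist_eq_one_iff_adj.1
    have h0 : G.dist c (h • c) ≠ 0 := fun e =>
      hne' ((hG.tree.connected.dist_eq_zero_iff).1 e).symm
    omega
  have hadj2 : G.Adj (h • c) (h • h • c) := hG.adj_smul h _ _ hadj
  have h3 : G.dist c (h • c) = 1 := SimpleGraph.dist_eq_one_iff_adj.2 hadj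
  have h4 : G.dist c (h • h • c) = 0 := by
    rcases (dist_edge hG.tree hadj2 c).1 with h5 | h5
    · omega
    · omega
  have h5 : c = h • h • c := (hG.tree.connected.dist_eq_zero_iff).1 h4
  exact hG.noinv h c (h • c) hadj ⟨rfl, h5.symm⟩

/-- An element of a group acting on a tree of which a power fixes a vertex fixes a vertex. -/
theorem fix_of_pow_fix (hG : TAct H G) (t : H) (n : ℕ) (hn : 0 < n) (x : X)
    (hx : t ^ n • x = x) : ∃ y : X, t • y = y := by
  have key : ∀ k : ℕ, t ^ (n * k) • x = x := by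
    intro k
    induction k with
    | zero => simp
    | succ k ih => rw [Nat.mul_succ, pow_add, mul_smul, hx, ih]
  obtain ⟨w, hw⟩ := fix_of_finite_inv hG ((fun k : ℕ => t ^ k • x) '' {k | k < n})
    ((Set.finite_lt_nat n).image _) ⟨_, ⟨0, hn, rfl⟩⟩
  refine ⟨w, hw t ?_⟩
  rintro _ ⟨k, hk, rfl⟩
  refine ⟨(k + 1) % n, Nat.mod_lt _ hn, ?_⟩
  change t ^ ((k + 1) % n) • x = t • t ^ k • x
  rw [← mul_smul, ← pow_succ']
  conv_rhs => rw [← Nat.mod_add_div (k + 1) n, pow_add, mul_smul, key]

end Pool.Agent.SAF
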