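import Pool.Agent.SAF.ABase

/-!
# SAF: orbit counting, and the relational form of the bad vertex lemma
-/

namespace Pool.Agent.SAF

open MulAction

section

variable {H : Type} [Group H] {Y : Type} [MulAction H Y]
variable {H' : Type} [Group H'] {Y' : Type} [MulAction H' Y']

theorem mk_eq_iff {a b : Y} :
    (Quotient.mk'' a : orbitRel.Quotient H Y) = Quotient.mk'' b ↔ ∃ h : H, h • b = a := by
  rw [Quotient.eq'']
  exact Iff.rfl

theorem exists_rep (s : Set Y) : ∃ r : orbitRel.Quotient H Y → Y, ∀ q ∈ orbs H s,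
    r q ∈ s ∧ (Quotient.mk'' (r q) : orbitRel.Quotient H Y) = q := by
  classical
  have : ∀ q : orbitRel.Quotient H Y, ∃ y : Y, q ∈ orbs H s →
      y ∈ s ∧ (Quotient.mk'' y : orbitRel.Quotient H Y) = q := by
    intro q
    by_cases hq : q ∈ orbs H s
    · obtain ⟨y, hy, e⟩ := hq
      exact ⟨y, fun _ => ⟨hy, e⟩⟩
    · exact ⟨Quotient.out q, fun h => absurd h hq⟩
  choose r hr using this
  exact ⟨r, hr⟩

theorem FinOrb_iff {s : Set Y} : FinOrb H s ↔
    ∃ F : Set Y, F.Finite ∧ F ⊆ s ∧ ∀ y ∈ s, ∃ f ∈ F, ∃ h : H, h • f = y := by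
  constructor
  · intro hs
    obtain ⟨r, hr⟩ := exists_rep (H := H) s
    have hr1 : ∀ q ∈ orbs H s, r q ∈ s := fun q hq => (hr q hq).1
    have hr2 : ∀ q ∈ orbs H s, (Quotient.mk'' (r q) : orbitRel.Quotient H Y) = q :=
      fun q hq => (hr q hq).2
    refine ⟨r '' orbs H s, Set.Finite.image _ hs, ?_, ?_⟩
    · rintro _ ⟨q, hq, rfl⟩
      exact hr1 q hq
    · intro y hy
      have hq : (Quotient.mk'' y : orbitRel.Quotient H Y) ∈ orbs H s := ⟨y, hy, rfl⟩
      refine ⟨_, ⟨_, hq, rfl⟩, ?_⟩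
      exact mk_eq_iff.1 (hr2 _ hq).symm
  · rintro ⟨F, hF, hFs, h⟩
    apply (hF.image (fun y => (Quotient.mk'' y : orbitRel.Quotient H Y))).subset
    rintro _ ⟨y, hy, rfl⟩
    obtain ⟨f, hf, g, hg⟩ := h y hy
    exact ⟨f, hf, (mk_eq_iff.2 ⟨g, hg⟩).symm⟩

theorem FinOrb.mono {s s' : Set Y} (h : s ⊆ s') (hs : FinOrb H s') : FinOrb H s :=
  Set.Finite.subset hs (Set.image_mono h)

theorem orbs_mono {s s' : Set Y} (h : s ⊆ s') : orbs H s ⊆ orbs H s' := Set.image_mono h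

theorem oc_mono {s s' : Set Y} (hs : FinOrb H s') (h : s ⊆ s') : oc H s ≤ oc H s' :=
  Set.ncard_le_ncard (orbs_mono h) hs

theorem ocf_le_oc {s : Set Y} (hs : FinOrb H s) : ocf H s ≤ oc H s :=
  oc_mono hs (fun _ h => h.1)

/-- comparison of orbit numbers by a map which is injective on orbits -/
theorem oc_le_of_inj {s : Set Y} {s' : Set Y'} (hs' : FinOrb H' s') (f : Y → Y')
    (hf : ∀ a ∈ s, f a ∈ s')
    (hinj : ∀ a ∈ s, ∀ b ∈ s, (∃ h : H', h • f a = f b) → ∃ h : H, h • a = b) :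
    oc H s ≤ oc H' s' := by
  obtain ⟨r, hr⟩ := exists_rep (H := H) s
  have hr1 : ∀ q ∈ orbs H s, r q ∈ s := fun q hq => (hr q hq).1
  have hr2 : ∀ q ∈ orbs H s, (Quotient.mk'' (r q) : orbitRel.Quotient H Y) = q :=
    fun q hq => (hr q hq).2
  apply Set.ncard_le_ncard_of_injOn
    (fun q => (Quotient.mk'' (f (r q)) : orbitRel.Quotient H' Y')) ?_ ?_ hs'
  · intro q hq
    exact ⟨_, hf _ (hr1 q hq), rfl⟩
  · intro q hq q' hq' e
    obtain ⟨h, hh⟩ := mk_eq_iff.1 e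
    obtain ⟨g, hg⟩ := hinj _ (hr1 q' hq') _ (hr1 q hq) ⟨h, hh⟩
    rw [← hr2 q hq, ← hr2 q' hq']
    exact mk_eq_iff.2 ⟨g, hg⟩

/-- the same, for a map defined on `s` only up to a relation -/
theorem oc_le_of_rel {s : Set Y} {s' : Set Y'} (hs' : FinOrb H' s') (R : Y → Y' → Prop)
    (hf : ∀ a ∈ s, ∃ b ∈ s', R a b)
    (hinj : ∀ a ∈ s, ∀ b ∈ s, ∀ a' ∈ s', ∀ b' ∈ s', R a a' → R b b' →
      (∃ h : H', h • a' = b') → ∃ h : H, h • a = b) :
    oc H s ≤ oc H' s' := by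
  classical
  by_cases hne : ∃ a, a ∈ s
  · obtain ⟨a0, ha0⟩ := hne
    obtain ⟨b0, _⟩ := hf a0 ha0
    have : ∀ a : Y, ∃ b : Y', a ∈ s → b ∈ s' ∧ R a b := by
      intro a
      by_cases ha : a ∈ s
      · obtain ⟨b, hb⟩ := hf a ha
        exact ⟨b, fun _ => hb⟩
      · exact ⟨b0, fun h => absurd h ha⟩
    choose f hf' using this
    exact oc_le_of_inj hs' f (fun a ha => (hf' a ha).1)
      (fun a ha b hb e => hinj a ha b hb _ (hf' a ha).1 _ (hf' b hb).1 (hf' a ha).2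
        (hf' b hb).2 e)
  · have : s = ∅ := by
      ext a; constructor
      · intro h; exact absurd ⟨a, h⟩ hne
      · intro h; exact h.elim
    subst this
    simp [oc, orbs]

/-- strict comparison: some orbit of `s'` is missed -/
theorem oc_lt_of_inj {s : Set Y} {s' : Set Y'} (hs' : FinOrb H' s') (f : Y → Y')
    (hf : ∀ a ∈ s, f a ∈ s')
    (hinj : ∀ a ∈ s, ∀ b ∈ s, (∃ h : H', h • f a = f b) → ∃ h : H, h • a = b)
    {b0 : Y'} (hb0 : b0 ∈ s') (hmiss : ∀ a ∈ s, ∀ h : H', h • f a ≠ b0) :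
    oc H s < oc H' s' := by
  have h1 : oc H s ≤ oc H' {y | y ∈ s' ∧ ∀ h : H', h • y ≠ b0} := by
    apply oc_le_of_inj (hs'.mono (fun _ h => h.1)) f
    · intro a ha
      exact ⟨hf a ha, hmiss a ha⟩
    · exact hinj
  refine lt_of_le_of_lt h1 ?_
  apply Set.ncard_lt_ncard ?_ hs'
  refine ⟨orbs_mono (fun _ h => h.1), ?_⟩
  intro hsub
  obtain ⟨y, hy, e⟩ := hsub ⟨b0, hb0, rfl⟩
  obtain ⟨h, hh⟩ := mk_eq_iff.1 e
  exact hy.2 h⁻¹ (by rw [← hh, inv_smul_smul])

/-- comparison of orbit numbers by a map which is surjective on orbits -/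
theorem oc_le_of_surj {s : Set Y} {s' : Set Y'} (hs : FinOrb H s) (f : Y → Y')
    (hsurj : ∀ b ∈ s', ∃ a ∈ s, ∃ h : H', h • f a = b)
    (heq : ∀ a ∈ s, ∀ b ∈ s, (∃ h : H, h • a = b) → ∃ h : H', h • f a = f b) :
    oc H' s' ≤ oc H s := by
  apply oc_le_of_rel hs (fun b a => ∃ h : H', h • f a = b)
  · exact hsurj
  · rintro b _ b' _ a ha a' ha' ⟨h1, e1⟩ ⟨h2, e2⟩ e
    obtain ⟨g, hg⟩ := heq a ha a' ha' e
    refine ⟨h2 * g * h1⁻¹, ?_⟩
    rw [← e1, mul_smul, inv_smul_smul, mul_smul, hg, e2]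

/-- finiteness of orbits is inherited by images -/
theorem FinOrb.image {s : Set Y} {s' : Set Y'} (hs : FinOrb H s) (f : Y → Y')
    (hsurj : ∀ b ∈ s', ∃ a ∈ s, ∃ h : H', h • f a = b)
    (heq : ∀ a ∈ s, ∀ b ∈ s, (∃ h : H, h • a = b) → ∃ h : H', h • f a = f b) :
    FinOrb H' s' := by
  obtain ⟨F, hF, hFs, hc⟩ := FinOrb_iff.1 hs
  apply (hF.image (fun y => (Quotient.mk'' (f y) : orbitRel.Quotient H' Y'))).subset
  rintro _ ⟨b, hb, rfl⟩
  obtain ⟨a, ha, h, e⟩ := hsurj b hb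
  obtain ⟨a', ha', g, e'⟩ := hc a ha
  refine ⟨a', ha', ?_⟩
  obtain ⟨k, hk⟩ := heq a' (hFs ha') a ha ⟨g, e'⟩
  show (Quotient.mk'' (f a') : orbitRel.Quotient H' Y') = Quotient.mk'' b
  symm
  exact mk_eq_iff.2 ⟨h * k, by rw [mul_smul, hk, e]⟩

/-- `FinOrb` for a group acting through an injective comparison -/
theorem FinOrb.of_inj {s : Set Y} {s' : Set Y'} (hs' : FinOrb H' s') (f : Y → Y')
    (hf : ∀ a ∈ s, f a ∈ s')
    (hinj : ∀ a ∈ s, ∀ b ∈ s, (∃ h : H', h • f a = f b) → ∃ h : H, h • a = b) :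
    FinOrb H s := by
  obtain ⟨r, hr⟩ := exists_rep (H := H) s
  have hr1 : ∀ q ∈ orbs H s, r q ∈ s := fun q hq => (hr q hq).1
  have hr2 : ∀ q ∈ orbs H s, (Quotient.mk'' (r q) : orbitRel.Quotient H Y) = q :=
    fun q hq => (hr q hq).2
  apply Set.Finite.of_finite_image
    (f := fun q => (Quotient.mk'' (f (r q)) : orbitRel.Quotient H' Y'))
  · apply Set.Finite.subset hs'
    rintro _ ⟨q, hq, rfl⟩
    exact ⟨_, hf _ (hr1 q hq), rfl⟩
  · intro q hq q' hq' e
    obtain ⟨h, hh⟩ := mk_eq_iff.1 e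
    obtain ⟨g, hg⟩ := hinj _ (hr1 q' hq') _ (hr1 q hq) ⟨h, hh⟩
    rw [← hr2 q hq, ← hr2 q' hq']
    exact mk_eq_iff.2 ⟨g, hg⟩

end

/-! ### A bad group acting on a tree has a bad vertex group -/

theorem SA.of_stabilizer_top {H X : Type} [Group H] [MulAction H X] {x : X}
    (hx : ∀ h : H, h • x = x) (h : SA (stabilizer H x)) : SA H := by
  have e : stabilizer H x = ⊤ := by
    rw [eq_top_iff]; intro g _; exact hx g
  rw [e] at h
  exact h.iso Subgroup.topEquiv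

theorem exists_bad_of_tree {H X : Type} [Group H] [MulAction H X] (G : SimpleGraph X)
    (tree : G.IsTree)
    (adj_smul : ∀ (h : H) (x y : X), G.Adj x y → G.Adj (h • x) (h • y))
    (noinv : ∀ (h : H) (x y : X), G.Adj x y → ¬ (h • x = y ∧ h • y = x))
    (finV : FinOrb H (Set.univ : Set X))
    (finE : FinOrb H {p : X × X | G.Adj p.1 p.2})
    (edgeC : ∀ x y : X, G.Adj x y → InC ↥(stabilizer H x ⊓ stabilizer H y))
    (hb : ¬ SA H) : ∃ x : X, ¬ SA (stabilizer H x) := by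
  by_cases hfix : ∃ x : X, ∀ h : H, h • x = x
  · obtain ⟨x, hx⟩ := hfix
    exact ⟨x, fun h => hb (SA.of_stabilizer_top hx h)⟩
  · push Not at hfix
    exact bad_vertex
      { X := X
        G := G
        tree := tree
        adj_smul := adj_smul
        noinv := noinv
        finV := finV
        finE := finE
        edgeC := edgeC
        nofix := hfix } hb

/-- relational form: the tree has vertex set `P` and adjacency `A` -/
theorem exists_bad_of_rel {H X : Type} [Group H] [MulAction H X] (P : Set X) (A : X → X → Prop)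
    (A_symm : ∀ x y, A x y → A y x) (A_irr : ∀ x, ¬ A x x) (A_P : ∀ x y, A x y → x ∈ P)
    (P_smul : ∀ (h : H) (x : X), x ∈ P → h • x ∈ P)
    (A_smul : ∀ (h : H) (x y : X), A x y → A (h • x) (h • y))
    (ne : P.Nonempty) (conn : ∀ x ∈ P, ∀ y ∈ P, Relation.ReflTransGen A x y)
    (cut : ∀ v w, A v w → ∃ g : X → ZMod 2, g v ≠ g w ∧
      ∀ a b, A a b → g a ≠ g b → (a = v ∧ b = w) ∨ (a = w ∧ b = v))
    (noinv : ∀ (h : H) (x y : X), A x y → ¬ (h • x = y ∧ h • y = x))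
    (finP : FinOrb H P) (finA : FinOrb H {p : X × X | A p.1 p.2})
    (edgeC : ∀ x y : X, A x y → InC ↥(stabilizer H x ⊓ stabilizer H y))
    (hb : ¬ SA H) : ∃ x ∈ P, ¬ SA (stabilizer H x) := by
  let X' := {x : X // x ∈ P}
  let act : MulAction H X' :=
    { smul := fun h x => ⟨h • x.1, P_smul h _ x.2⟩
      one_smul := fun x => Subtype.ext (one_smul H x.1)
      mul_smul := fun a b x => Subtype.ext (mul_smul a b x.1) }
  have hsm : ∀ (h : H) (x : X'), (h • x).1 = h • x.1 := fun _ _ => rfl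
  let G : SimpleGraph X' :=
    { Adj := fun x y => A x.1 y.1
      symm := ⟨fun x y h => A_symm _ _ h⟩
      loopless := ⟨fun x h => A_irr _ h⟩ }
  have hst : ∀ x : X', stabilizer H x = stabilizer H x.1 := by
    intro x
    ext h
    rw [mem_stabilizer_iff, mem_stabilizer_iff]
    exact ⟨fun e => by rw [← hsm, e], fun e => Subtype.ext e⟩
  have tree : G.IsTree := by
    apply isTree_of_cut
    · have hne : Nonempty X' := ⟨⟨ne.some, ne.some_mem⟩⟩
      refine ⟨fun a b => ?_⟩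
      have key : ∀ y : X, Relation.ReflTransGen A a.1 y → ∃ hy : y ∈ P,
          G.Reachable a ⟨y, hy⟩ := by
        intro y hy
        induction hy with
        | refl => exact ⟨a.2, SimpleGraph.Reachable.refl _⟩
        | tail _ h ih =>
          obtain ⟨h1, h2⟩ := ih
          refine ⟨A_P _ _ (A_symm _ _ h), h2.trans (SimpleGraph.Adj.reachable ?_)⟩
          exact h
      obtain ⟨_, h⟩ := key b.1 (conn _ a.2 _ b.2)
      exact h
    · intro v w hvw
      obtain ⟨g, h1, h2⟩ := cut v.1 w.1 hvw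
      refine ⟨fun x => g x.1, h1, fun a b hab hg => ?_⟩
      rcases h2 a.1 b.1 hab hg with ⟨e1, e2⟩ | ⟨e1, e2⟩
      · exact Or.inl ⟨Subtype.ext e1, Subtype.ext e2⟩
      · exact Or.inr ⟨Subtype.ext e1, Subtype.ext e2⟩
  obtain ⟨x, hx⟩ := exists_bad_of_tree (H := H) G tree
    (fun h x y e => A_smul h _ _ e)
    (fun h x y e hh => noinv h x.1 y.1 e ⟨congrArg Subtype.val hh.1, congrArg Subtype.val hh.2⟩)
    (FinOrb.of_inj finP (fun x => x.1) (fun x _ => x.2)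
      (fun a _ b _ ⟨h, e⟩ => ⟨h, Subtype.ext e⟩))
    (FinOrb.of_inj finA (fun p => (p.1.1, p.2.1)) (fun p hp => hp)
      (fun a _ b _ ⟨h, e⟩ => ⟨h, Prod.ext (Subtype.ext (congrArg Prod.fst e))
        (Subtype.ext (congrArg Prod.snd e))⟩))
    (fun x y e => by rw [hst, hst]; exact edgeC _ _ e) hb
  exact ⟨x.1, x.2, by rw [← hst]; exact hx⟩

end Pool.Agent.SAF
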