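import Pool.Agent.SAF.A10

/-!
# SAF/A11: convex sets and hulls in trees
-/

namespace Pool.Agent.SAF

open MulAction

section
variable {X : Type} {G : SimpleGraph X}

/-- a walk between the two sides of a cut crosses it -/
private theorem walk_cross {u v : X} {g : X → ZMod 2} (hG : G.IsTree)
    (hg : ∀ a b, G.Adj a b → (g a ≠ g b ↔ ((a = u ∧ b = v) ∨ (a = v ∧ b = u))))
    {a b : X} (p : G.Walk a b) : g a ≠ g b →
    ∃ x y, ((x = u ∧ y = v) ∨ (x = v ∧ y = u)) ∧ G.dist a x + 1 + G.dist y b ≤ p.length ∧
      x ∈ p.support ∧ y ∈ p.support := by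
  induction p with
  | nil => intro h; exact absurd rfl h
  | @cons a a' b h' p' ih =>
    intro h
    by_cases h2 : g a = g a'
    · obtain ⟨x, y, e, hl, hx, hy⟩ := ih (by rw [← h2]; exact h)
      refine ⟨x, y, e, ?_, ?_, ?_⟩
      · have h3 : G.dist a x ≤ G.dist a a' + G.dist a' x := hG.connected.dist_triangle
        have h4 : G.dist a a' = 1 := SimpleGraph.dist_eq_one_iff_adj.2 h'
        rw [SimpleGraph.Walk.length_cons]
        omega
      · rw [SimpleGraph.Walk.support_cons]; exact List.mem_cons_of_mem _ hx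
      · rw [SimpleGraph.Walk.support_cons]; exact List.mem_cons_of_mem _ hy
    · refine ⟨a, a', (hg a a' h').1 h2, ?_, ?_, ?_⟩
      · have h3 : G.dist a' b ≤ p'.length := SimpleGraph.dist_le p'
        rw [SimpleGraph.Walk.length_cons, SimpleGraph.dist_self]
        omega
      · exact SimpleGraph.Walk.start_mem_support _
      · rw [SimpleGraph.Walk.support_cons]
        exact List.mem_cons_of_mem _ (SimpleGraph.Walk.start_mem_support _)

private theorem cross (hG : G.IsTree) {u v a b : X} (h : G.Adj u v)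
    (h1 : G.dist a v = G.dist a u + 1) (h2 : G.dist b u = G.dist b v + 1) :
    G.dist a b = G.dist a u + 1 + G.dist v b := by
  obtain ⟨g, hg, hg0, hg1⟩ := exists_cut G hG u v h
  obtain ⟨p, hp⟩ := hG.connected.exists_walk_length_eq_dist a b
  have ha : g a = 0 := (hg0 a).2 h1
  have hb : g b = 1 := (hg1 b).2 h2
  have hne : g a ≠ g b := by rw [ha, hb]; decide
  obtain ⟨x, y, e, hl, -, -⟩ := walk_cross hG hg p hne
  have huv : G.dist u v = 1 := SimpleGraph.dist_eq_one_iff_adj.2 h
  have t1 : G.dist a b ≤ G.dist a u + G.dist u b := hG.connected.dist_triangle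
  have t2 : G.dist u b ≤ G.dist u v + G.dist v b := hG.connected.dist_triangle
  have c1 : G.dist u b = G.dist b u := SimpleGraph.dist_comm
  have c2 : G.dist v b = G.dist b v := SimpleGraph.dist_comm
  rcases e with ⟨rfl, rfl⟩ | ⟨rfl, rfl⟩
  · omega
  · omega

/-- a half tree is convex -/
private theorem half_conv (hG : G.IsTree) {u v a b w : X} (h : G.Adj u v)
    (h1 : G.dist a v = G.dist a u + 1) (h2 : G.dist b v = G.dist b u + 1)
    (hw : G.dist a w + G.dist w b = G.dist a b) : G.dist w v = G.dist w u + 1 := by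
  rcases hG.dist_eq_dist_add_one_of_adj w h with h3 | h3
  · exfalso
    have c1 := cross hG h h1 h3
    have c2 := cross hG h h2 h3
    have t1 : G.dist a b ≤ G.dist a u + G.dist u b := hG.connected.dist_triangle
    have c3 : G.dist u b = G.dist b u := SimpleGraph.dist_comm
    have c4 : G.dist w b = G.dist b w := SimpleGraph.dist_comm
    omega
  · exact h3

/-- the neighbour in the direction of `b` is unique -/
private theorem next_unique (hG : G.IsTree) {w c d b : X} (hc : G.Adj w c) (hd : G.Adj w d)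
    (h1 : G.dist b w = G.dist b c + 1) (h2 : G.dist b w = G.dist b d + 1) : c = d := by
  by_contra hne
  have hdw : G.dist d w = 1 := SimpleGraph.dist_eq_one_iff_adj.2 hd.symm
  have h3 : G.dist d c = G.dist d w + 1 := by
    rcases hG.dist_eq_dist_add_one_of_adj d hc with h3 | h3
    · exfalso
      have : G.dist d c = 0 := by omega
      exact hne ((hG.connected.dist_eq_zero_iff).1 this).symm
    · exact h3
  have c1 := cross hG hc h3 h1
  have c2 : G.dist d b = G.dist b d := SimpleGraph.dist_comm
  have c3 : G.dist c b = G.dist b c := SimpleGraph.dist_comm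
  omega

theorem subset_hull (s : Set X) : s ⊆ hull G s := by
  intro a ha
  refine ⟨a, ha, a, ha, ?_⟩
  rw [SimpleGraph.dist_self]

theorem hull_mono {s t : Set X} (h : s ⊆ t) : hull G s ⊆ hull G t := by
  rintro w ⟨a, ha, b, hb, e⟩
  exact ⟨a, h ha, b, h hb, e⟩

/-- The next vertex on the way from `a` to `b`. -/
private theorem exists_next' (hG : G.IsTree) {a b : X} (h : a ≠ b) :
    ∃ c, G.Adj a c ∧ G.dist a b = G.dist c b + 1 := by
  obtain ⟨p, hp⟩ := hG.connected.exists_walk_length_eq_dist a b
  cases p with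
  | nil => exact absurd rfl h
  | @cons _ c _ h' p' =>
    refine ⟨c, h', ?_⟩
    rw [SimpleGraph.Walk.length_cons] at hp
    have h1 : G.dist c b ≤ p'.length := SimpleGraph.dist_le p'
    have h2 : G.dist a b ≤ G.dist a c + G.dist c b := hG.connected.dist_triangle
    have h3 : G.dist a c = 1 := SimpleGraph.dist_eq_one_iff_adj.2 h'
    omega

/-- an element of the hull on one side of an edge gives an element of the set on that side -/
private theorem hull_side (hG : G.IsTree) {s : Set X} {u v x : X} (h : G.Adj u v)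
    (hx : x ∈ hull G s) (h1 : G.dist x v = G.dist x u + 1) :
    ∃ a ∈ s, G.dist a v = G.dist a u + 1 := by
  obtain ⟨a, ha, b, hb, e⟩ := hx
  rcases hG.dist_eq_dist_add_one_of_adj a h with h2 | h2
  · rcases hG.dist_eq_dist_add_one_of_adj b h with h3 | h3
    · exfalso
      have h4 := half_conv hG h.symm h2 h3 e
      omega
    · exact ⟨b, hb, h3⟩
  · exact ⟨a, ha, h2⟩

theorem hull_conv (hG : G.IsTree) (s : Set X) : Conv G (hull G s) := by
  intro x hx y hy w hw
  by_cases hwx : w = x
  · rw [hwx]; exact hx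
  by_cases hwy : w = y
  · rw [hwy]; exact hy
  obtain ⟨c, hc, ec⟩ := exists_next' hG hwx
  obtain ⟨d, hd, ed⟩ := exists_next' hG hwy
  have sx : G.dist x w = G.dist w x := SimpleGraph.dist_comm
  have sy : G.dist y w = G.dist w y := SimpleGraph.dist_comm
  have sxc : G.dist x c = G.dist c x := SimpleGraph.dist_comm
  have syd : G.dist y d = G.dist d y := SimpleGraph.dist_comm
  have hcd : c ≠ d := by
    rintro rfl
    have h4 := half_conv hG (u := c) (v := w) hc.symm (a := x) (b := y) (w := w)
      (by omega) (by omega) hw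
    rw [SimpleGraph.dist_self] at h4
    omega
  obtain ⟨a', ha', ea⟩ := hull_side hG hc.symm hx (by omega)
  obtain ⟨b', hb', eb⟩ := hull_side hG hd.symm hy (by omega)
  refine ⟨a', ha', b', hb', ?_⟩
  have hbc : G.dist b' c = G.dist b' w + 1 := by
    rcases hG.dist_eq_dist_add_one_of_adj b' hc with h3 | h3
    · exact absurd (next_unique hG hc hd h3 eb) hcd
    · exact h3
  have h5 := cross hG hc.symm ea hbc
  omega

theorem Conv.hull_sub {C : Set X} (hC : Conv G C) {s : Set X} (h : s ⊆ C) : hull G s ⊆ C := by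
  rintro w ⟨a, ha, b, hb, e⟩
  exact hC a (h ha) b (h hb) w e

theorem Conv.inter {C C' : Set X} (hC : Conv G C) (hC' : Conv G C') : Conv G (C ∩ C') := by
  intro a ha b hb w hw
  exact ⟨hC a ha.1 b hb.1 w hw, hC' a ha.2 b hb.2 w hw⟩

/-- A convex set is connected. -/
theorem Conv.rtg (hG : G.IsTree) {C : Set X} (hC : Conv G C) {a b : X} (ha : a ∈ C) (hb : b ∈ C) :
    Relation.ReflTransGen (fun u v => G.Adj u v ∧ u ∈ C ∧ v ∈ C) a b := by
  have key : ∀ n : ℕ, ∀ a : X, a ∈ C → G.dist a b = n →
      Relation.ReflTransGen (fun u v => G.Adj u v ∧ u ∈ C ∧ v ∈ C) a b := by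
    intro n
    induction n with
    | zero =>
      intro a _ h
      rw [(hG.connected.dist_eq_zero_iff).1 h]
    | succ n ih =>
      intro a ha h
      have hne : a ≠ b := by
        rintro rfl
        rw [SimpleGraph.dist_self] at h
        omega
      obtain ⟨c, hc, ec⟩ := exists_next' hG hne
      have hac : G.dist a c = 1 := SimpleGraph.dist_eq_one_iff_adj.2 hc
      have hcC : c ∈ C := hC a ha b hb c (by omega)
      exact Relation.ReflTransGen.head ⟨hc, ha, hcC⟩ (ih c hcC (by omega))
  exact key _ a ha rfl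

/-- A connected subset of a tree is convex. -/
theorem conv_of_rtg (hG : G.IsTree) {C : Set X} (h : ∀ a ∈ C, ∀ b ∈ C,
    Relation.ReflTransGen (fun u v => G.Adj u v ∧ u ∈ C ∧ v ∈ C) a b) : Conv G C := by
  intro a ha b hb w hw
  by_contra hwC
  have hwa : w ≠ a := by rintro rfl; exact hwC ha
  obtain ⟨c, hc, ec⟩ := exists_next' hG hwa
  obtain ⟨g, hg, hg0, hg1⟩ := exists_cut G hG w c hc
  have s1 : G.dist a w = G.dist w a := SimpleGraph.dist_comm
  have s2 : G.dist a c = G.dist c a := SimpleGraph.dist_comm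
  have ha1 : g a = 1 := (hg1 a).2 (by omega)
  have hb0 : g b = 0 := by
    apply (hg0 b).2
    rcases hG.dist_eq_dist_add_one_of_adj b hc with h3 | h3
    · exfalso
      have h4 := half_conv hG hc.symm (a := a) (b := b) (w := w) (by omega) h3 hw
      rw [SimpleGraph.dist_self] at h4
      omega
    · exact h3
  have key : ∀ z, Relation.ReflTransGen (fun u v => G.Adj u v ∧ u ∈ C ∧ v ∈ C) a z → g a = g z := by
    intro z hz
    induction hz with
    | refl => rfl
    | @tail y z _ e ih =>
      rw [ih]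
      by_contra hne
      rcases (hg y z e.1).1 hne with ⟨h5, -⟩ | ⟨-, h5⟩
      · exact hwC (h5 ▸ e.2.1)
      · exact hwC (h5 ▸ e.2.2)
  have := key b (h a ha b hb)
  rw [ha1, hb0] at this
  exact absurd this (by decide)

/-- The next vertex on the way from `a` to `b`. -/
theorem exists_next (hG : G.IsTree) {a b : X} (h : a ≠ b) :
    ∃ c, G.Adj a c ∧ G.dist a b = G.dist c b + 1 :=
  exists_next' hG h

/-- For an edge `u v` of a tree every vertex is nearer to exactly one of `u`, `v`. -/
theorem dist_edge (hG : G.IsTree) {u v : X} (h : G.Adj u v) (w : X) :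
    (G.dist w v = G.dist w u + 1 ∨ G.dist w u = G.dist w v + 1) ∧
      ¬ (G.dist w v = G.dist w u + 1 ∧ G.dist w u = G.dist w v + 1) := by
  refine ⟨?_, ?_⟩
  · rcases hG.dist_eq_dist_add_one_of_adj w h with h3 | h3
    · exact Or.inr h3
    · exact Or.inl h3
  · rintro ⟨h1, h2⟩
    omega

/-- The two vertices of an edge of the hull are separated by two elements of the set. -/
theorem hull_edge (hG : G.IsTree) {s : Set X} {u v : X} (hu : u ∈ hull G s) (hv : v ∈ hull G s)
    (h : G.Adj u v) : ∃ a ∈ s, ∃ b ∈ s, G.dist a v = G.dist a u + 1 ∧ G.dist b u = G.dist b v + 1 := by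
  have huv : G.dist u v = 1 := SimpleGraph.dist_eq_one_iff_adj.2 h
  have hvu : G.dist v u = 1 := SimpleGraph.dist_eq_one_iff_adj.2 h.symm
  obtain ⟨a, ha, ea⟩ := hull_side hG h hu (by rw [SimpleGraph.dist_self]; omega)
  obtain ⟨b, hb, eb⟩ := hull_side hG h.symm hv (by rw [SimpleGraph.dist_self]; omega)
  exact ⟨a, ha, b, hb, ea, eb⟩

/-- If `a` is on the side of `u` and `b` on the side of `v` of the edge `u v`, then every convex
set containing `a` and `b` contains `u` and `v`. -/
theorem Conv.edge (hG : G.IsTree) {C : Set X} (hC : Conv G C) {u v a b : X} (h : G.Adj u v)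
    (ha : a ∈ C) (hb : b ∈ C) (h1 : G.dist a v = G.dist a u + 1) (h2 : G.dist b u = G.dist b v + 1) :
    u ∈ C ∧ v ∈ C := by
  have c1 := cross hG h h1 h2
  have c2 : G.dist u b = G.dist b u := SimpleGraph.dist_comm
  have c3 : G.dist v b = G.dist b v := SimpleGraph.dist_comm
  exact ⟨hC a ha b hb u (by omega), hC a ha b hb v (by omega)⟩

private theorem interval_finite (hG : G.IsTree) (a b : X) :
    {w | G.dist a w + G.dist w b = G.dist a b}.Finite := by
  classical
  obtain ⟨p, hp⟩ := hG.connected.exists_walk_length_eq_dist a b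
  apply (List.finite_toSet p.support).subset
  intro w hw
  change G.dist a w + G.dist w b = G.dist a b at hw
  change w ∈ p.support
  by_cases hwa : w = a
  · rw [hwa]; exact SimpleGraph.Walk.start_mem_support _
  obtain ⟨c, hc, ec⟩ := exists_next' hG hwa
  obtain ⟨g, hg, hg0, hg1⟩ := exists_cut G hG w c hc
  have s1 : G.dist a w = G.dist w a := SimpleGraph.dist_comm
  have s2 : G.dist a c = G.dist c a := SimpleGraph.dist_comm
  have ha1 : g a = 1 := (hg1 a).2 (by omega)
  have hb0 : g b = 0 := by
    apply (hg0 b).2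
    rcases hG.dist_eq_dist_add_one_of_adj b hc with h3 | h3
    · exfalso
      have h4 := half_conv hG hc.symm (a := a) (b := b) (w := w) (by omega) h3 hw
      rw [SimpleGraph.dist_self] at h4
      omega
    · exact h3
  have hne : g a ≠ g b := by rw [ha1, hb0]; decide
  obtain ⟨x, y, e, -, hx, hy⟩ := walk_cross hG hg p hne
  rcases e with ⟨rfl, -⟩ | ⟨-, rfl⟩
  · exact hx
  · exact hy

theorem hull_finite (hG : G.IsTree) {s : Set X} (hs : s.Finite) : (hull G s).Finite := by
  have : hull G s ⊆ ⋃ a ∈ s, ⋃ b ∈ s, {w | G.dist a w + G.dist w b = G.dist a b} := by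
    rintro w ⟨a, ha, b, hb, e⟩
    simp only [Set.mem_iUnion]
    exact ⟨a, ha, b, hb, e⟩
  exact (hs.biUnion (fun a _ => hs.biUnion (fun b _ => interval_finite hG a b))).subset this

end

section
variable {H : Type} [Group H] {X : Type} [MulAction H X] {G : SimpleGraph X}

private theorem TAct.dist_smul_le (hG : TAct H G) (h : H) (x y : X) :
    G.dist (h • x) (h • y) ≤ G.dist x y := by
  obtain ⟨p, hp⟩ := hG.tree.connected.exists_walk_length_eq_dist x y
  let φ : G →g G := ⟨fun z => h • z, fun {a b} e => hG.adj_smul h a b e⟩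
  have h1 : G.dist (h • x) (h • y) ≤ (p.map φ).length := SimpleGraph.dist_le (p.map φ)
  rw [SimpleGraph.Walk.length_map, hp] at h1
  exact h1

theorem TAct.dist_smul (hG : TAct H G) (h : H) (x y : X) : G.dist (h • x) (h • y) = G.dist x y := by
  refine le_antisymm (hG.dist_smul_le h x y) ?_
  have h1 := hG.dist_smul_le h⁻¹ (h • x) (h • y)
  rw [inv_smul_smul, inv_smul_smul] at h1
  exact h1

theorem TAct.hull_smul (hG : TAct H G) (h : H) (s : Set X) (w : X) (hw : w ∈ hull G s) :
    h • w ∈ hull G ((fun x => h • x) '' s) := by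
  obtain ⟨a, ha, b, hb, e⟩ := hw
  refine ⟨h • a, ⟨a, ha, rfl⟩, h • b, ⟨b, hb, rfl⟩, ?_⟩
  rw [hG.dist_smul, hG.dist_smul, hG.dist_smul]
  exact e

end

end Pool.Agent.SAF
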