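import Pool.Agent.SAF.Defs

/-!
# SAF: groups, hierarchies, the tree criterion, the Rips complex
-/

namespace Pool.Agent.SAF

open MulAction

/-! ### Torsion-free and cyclic groups -/

theorem TF.fin {G : Type} [Group G] (h : TF G) (g : G) (hg : IsOfFinOrder g) : g = 1 := by
  obtain ⟨n, hn, e⟩ := isOfFinOrder_iff_pow_eq_one.1 hg
  exact h g n hn e

theorem TF.zpow {G : Type} [Group G] (h : TF G) {g : G} {k : ℤ} (hk : k ≠ 0) (e : g ^ k = 1) :
    g = 1 :=
  h.fin g (isOfFinOrder_iff_zpow_eq_one.2 ⟨k, hk, e⟩)

theorem TF.sub {G : Type} [Group G] (h : TF G) (S : Subgroup G) : TF S := by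
  intro g n hn e
  exact Subtype.ext (h g n hn (by simpa using congrArg Subtype.val e))

theorem TF.inj {G G' : Type} [Group G] [Group G'] (h : TF G') (f : G →* G')
    (hf : Function.Injective f) : TF G := by
  intro g n hn e
  apply hf
  rw [map_one]
  exact h _ n hn (by rw [← map_pow, e, map_one])

/-- a torsion-free group with a cyclic subgroup of finite index is cyclic -/
theorem cyclic_of_index {G : Type} [Group G] (htf : TF G)
    (C : Subgroup G) (hC : IsCyclic C) (hfi : C.index ≠ 0) : IsCyclic G := by
  have : C.FiniteIndex := ⟨hfi⟩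
  set N : Subgroup G := C.normalCore with hN
  have : N.FiniteIndex := by rw [hN]; infer_instance
  have hNC : N ≤ C := Subgroup.normalCore_le C
  have hNcyc : IsCyclic N :=
    isCyclic_of_injective (Subgroup.inclusion hNC) (Subgroup.inclusion_injective hNC)
  obtain ⟨t, ht⟩ := hNcyc.exists_generator
  have hpow : ∀ x ∈ N, ∃ k : ℤ, (t : G) ^ k = x := by
    intro x hx
    obtain ⟨k, hk⟩ := Subgroup.mem_zpowers_iff.1 (ht ⟨x, hx⟩)
    exact ⟨k, by simpa using congrArg Subtype.val hk⟩
  have hm : N.index ≠ 0 := Subgroup.FiniteIndex.index_ne_zero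
  have hmem : ∀ g : G, g ^ N.index ∈ N := fun g => Subgroup.pow_index_mem N g
  have hcen : ∀ g : G, g * (t : G) = t * g := by
    intro g
    by_cases ht1 : (t : G) = 1
    · simp [ht1]
    obtain ⟨k, hk⟩ := hpow (g * t * g⁻¹) (Subgroup.Normal.conj_mem inferInstance _ t.2 g)
    obtain ⟨l, hl⟩ := hpow (g⁻¹ * t * g) (by
      simpa using Subgroup.Normal.conj_mem (H := N) inferInstance _ t.2 g⁻¹)
    have e1 : (t : G) ^ (l * k) = t := by
      have : ((t : G) ^ k) ^ l = t := by
        rw [hk, conj_zpow, hl]; group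
      rw [mul_comm, zpow_mul]; exact this
    have e2 : l * k = 1 := by
      by_contra h
      apply ht1
      apply htf.zpow (k := l * k - 1) (by intro h0; apply h; omega)
      rw [zpow_sub, e1, zpow_one, mul_inv_cancel]
    rcases Int.eq_one_or_neg_one_of_mul_eq_one' e2 with ⟨_, h⟩ | ⟨_, h⟩
    · rw [h, zpow_one] at hk
      calc g * (t : G) = (g * t * g⁻¹) * g := by group
        _ = t * g := by rw [← hk]
    · exfalso
      rw [h] at hk
      obtain ⟨j, hj⟩ := hpow _ (hmem g)
      have e3 : (t : G) ^ j = (t : G) ^ (-j) := by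
        have a1 : g * (t : G) ^ j * g⁻¹ = (t : G) ^ j := by
          rw [hj]
          have := (Commute.refl g).pow_right N.index
          rw [this.eq]; group
        have a2 : g * (t : G) ^ j * g⁻¹ = (t : G) ^ (-j) := by
          rw [← conj_zpow, ← hk, ← zpow_mul]; congr 1; ring
        rw [← a1, a2]
      have e4 : j = 0 := by
        by_contra hj0
        apply ht1
        apply htf.zpow (k := j - (-j)) (by omega)
        rw [zpow_sub, e3, mul_inv_cancel]
      rw [e4, zpow_zero] at hj
      have hg1 : g = 1 := htf g N.index (Nat.pos_of_ne_zero hm) hj.symm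
      rw [hg1] at hk
      have : (t : G) ^ (-1 : ℤ) = t := by simpa using hk
      apply ht1
      apply htf.zpow (k := 2) (by norm_num)
      have h3 : (t : G)⁻¹ = t := by simpa using this
      calc (t : G) ^ (2 : ℤ) = t * t := by rw [show (2 : ℤ) = 1 + 1 from rfl, zpow_add, zpow_one]
        _ = (t : G)⁻¹ * t := by rw [h3]
        _ = 1 := inv_mul_cancel _
  have hNcen : N ≤ Subgroup.center G := by
    intro x hx
    obtain ⟨k, hk⟩ := hpow x hx
    rw [Subgroup.mem_center_iff]
    intro g
    rw [← hk]
    exact ((show Commute g (t : G) from hcen g).zpow_right k).eq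
  have : (Subgroup.center G).FiniteIndex := Subgroup.finiteIndex_of_le hNcen
  obtain ⟨f, hfapp⟩ : ∃ f : G →* G, ∀ g, f g = (g ^ (Subgroup.center G).index) ^ N.index := by
    refine ⟨{ toFun := fun g => ((MonoidHom.transferCenterPow G g : Subgroup.center G) : G) ^
                N.index
              map_one' := by simp
              map_mul' := ?_ }, ?_⟩
    · intro a b
      rw [map_mul, Subgroup.coe_mul, Commute.mul_pow]
      exact ((Subgroup.mem_center_iff.1 (MonoidHom.transferCenterPow G b).2) _)
    · intro g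
      show ((MonoidHom.transferCenterPow G g : Subgroup.center G) : G) ^ N.index = _
      rw [MonoidHom.transferCenterPow_apply]
  have hfN : ∀ g, f g ∈ N := by
    intro g; rw [hfapp]; exact hmem _
  have hinj : Function.Injective (f.codRestrict N hfN) := by
    rw [injective_iff_map_eq_one]
    intro g hg
    have h1 : f g = 1 := by simpa using congrArg Subtype.val hg
    rw [hfapp, ← pow_mul] at h1
    exact htf g _ (Nat.pos_of_ne_zero
      (mul_ne_zero Subgroup.FiniteIndex.index_ne_zero hm)) h1
  exact isCyclic_of_injective _ hinj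

/-- relative version -/
theorem cyclic_of_relIndex {G : Type} [Group G] (htf : TF G)
    {A B : Subgroup G} (hA : IsCyclic A) (hfi : A.relIndex B ≠ 0) : IsCyclic B := by
  have hAB : IsCyclic (A.subgroupOf B) := by
    have hinj : Function.Injective
        ((B.subtype.comp (A.subgroupOf B).subtype).codRestrict A (fun x => x.2)) := by
      intro x y h
      have := congrArg Subtype.val h
      exact Subtype.ext (Subtype.ext this)
    exact isCyclic_of_injective _ hinj
  exact cyclic_of_index (htf.sub B) (A.subgroupOf B) hAB hfi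

/-- subgroups of cyclic subgroups are cyclic -/
theorem cyclic_of_le {G : Type} [Group G] {A B : Subgroup G} (h : A ≤ B) (hB : IsCyclic B) :
    IsCyclic A :=
  isCyclic_of_injective (Subgroup.inclusion h) (Subgroup.inclusion_injective h)

/-- a subgroup with at most one element is cyclic -/
theorem cyclic_of_trivial {G : Type} [Group G] (h : ∀ g : G, g = 1) : IsCyclic G :=
  ⟨1, fun g => by rw [h g]; exact Subgroup.mem_zpowers (1 : G)⟩

/-- nontrivial elements of a cyclic torsion-free group have a common nontrivial power -/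
theorem exists_common {G : Type} [Group G] (htf : TF G) (hG : IsCyclic G) {a b : G}
    (ha : a ≠ 1) (hb : b ≠ 1) : ∃ i j : ℤ, a ^ i = b ^ j ∧ a ^ i ≠ 1 := by
  obtain ⟨c, hc⟩ := hG.exists_generator
  obtain ⟨i, hi⟩ := Subgroup.mem_zpowers_iff.1 (hc a)
  obtain ⟨j, hj⟩ := Subgroup.mem_zpowers_iff.1 (hc b)
  have hi0 : i ≠ 0 := by rintro rfl; exact ha (by rw [← hi, zpow_zero])
  have hj0 : j ≠ 0 := by rintro rfl; exact hb (by rw [← hj, zpow_zero])
  refine ⟨j, i, ?_, ?_⟩
  · rw [← hi, ← hj, ← zpow_mul, ← zpow_mul, mul_comm]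
  · intro e
    exact ha (htf.zpow hj0 e)

/-- nontrivial subgroups of a cyclic torsion-free group meet nontrivially -/
theorem inf_ne_bot {G : Type} [Group G] (htf : TF G)
    {A B C : Subgroup G} (hC : IsCyclic C) (hA : A ≤ C) (hB : B ≤ C) (hA1 : A ≠ ⊥)
    (hB1 : B ≠ ⊥) : A ⊓ B ≠ ⊥ := by
  obtain ⟨a, ha1⟩ := (Subgroup.ne_bot_iff_exists_ne_one).1 hA1
  obtain ⟨b, hb1⟩ := (Subgroup.ne_bot_iff_exists_ne_one).1 hB1
  obtain ⟨i, j, e, h⟩ := exists_common (htf.sub C) hC (a := ⟨a, hA a.2⟩) (b := ⟨b, hB b.2⟩)
    (fun h => ha1 (Subtype.ext (by simpa using congrArg Subtype.val h)))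
    (fun h => hb1 (Subtype.ext (by simpa using congrArg Subtype.val h)))
  have e' : (a : G) ^ i = (b : G) ^ j := by simpa using congrArg Subtype.val e
  intro hbot
  have h1 : (a : G) ^ i ∈ A ⊓ B := ⟨A.zpow_mem a.2 i, by rw [e']; exact B.zpow_mem b.2 j⟩
  rw [hbot, Subgroup.mem_bot] at h1
  exact h (Subtype.ext (by simpa using h1))

theorem InC.cyclic {G : Type} [Group G] (h : TF G) (h' : InC G) : IsCyclic G := by
  rcases h' with h' | ⟨g, _, h2⟩
  · exact cyclic_of_trivial (fun g => h.fin g (isOfFinOrder_of_finite g))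
  · exact cyclic_of_index h (Subgroup.zpowers g) inferInstance h2.index_ne_zero

theorem cyclic_InC {G : Type} [Group G] (h : TF G) (h' : IsCyclic G) : InC G := by
  obtain ⟨g, hg⟩ := h'.exists_generator
  by_cases h1 : g = 1
  · left
    have : ∀ x : G, x = 1 := by
      intro x
      obtain ⟨k, hk⟩ := Subgroup.mem_zpowers_iff.1 (hg x)
      rw [← hk, h1, one_zpow]
    have : Subsingleton G := ⟨fun a b => by rw [this a, this b]⟩
    infer_instance
  · right
    refine ⟨g, fun n hn e => h1 (h g n hn e), ?_⟩
    have : Subgroup.zpowers g = ⊤ := by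
      rw [eq_top_iff]; intro x _; exact hg x
    rw [this]; infer_instance

theorem InC.iso {G G' : Type} [Group G] [Group G'] (e : G ≃* G') (h : InC G) : InC G' := by
  rcases h with h | ⟨g, h1, h2⟩
  · left
    exact Finite.of_equiv G e.toEquiv
  · right
    refine ⟨e g, fun n hn hh => h1 n hn (e.injective (by rw [map_pow, hh, map_one])), ?_⟩
    have : Subgroup.zpowers (e g) = (Subgroup.zpowers g).map e.toMonoidHom := by
      rw [MonoidHom.map_zpowers]; rfl
    rw [this]
    refine ⟨?_⟩
    have := Subgroup.index_map_of_bijective (H := Subgroup.zpowers g) (f := e.toMonoidHom)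
      e.bijective
    rw [this]
    exact h2.index_ne_zero

/-! ### A criterion for trees -/

/-- a connected graph is a tree if for every edge there is a function with values in `ZMod 2`
which changes exactly across this edge -/
theorem isTree_of_cut {V : Type} (G : SimpleGraph V) (hc : G.Connected)
    (hcut : ∀ v w, G.Adj v w → ∃ g : V → ZMod 2, g v ≠ g w ∧
      ∀ a b, G.Adj a b → g a ≠ g b → (a = v ∧ b = w) ∨ (a = w ∧ b = v)) : G.IsTree := by
  rw [SimpleGraph.isTree_iff]
  refine ⟨hc, ?_⟩
  rw [SimpleGraph.isAcyclic_iff_forall_adj_isBridge]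
  intro v w hvw
  rw [SimpleGraph.isBridge_iff]
  rintro ⟨p⟩
  obtain ⟨g, hg, hg'⟩ := hcut v w hvw
  apply hg
  clear hg
  have key : ∀ a b, (G.deleteEdges {s(v, w)}).Walk a b → g a = g b := by
    intro a b q
    induction q with
    | nil => rfl
    | cons h _ ih =>
      rw [SimpleGraph.deleteEdges_adj] at h
      rw [← ih]
      by_contra hne
      apply h.2
      rcases hg' _ _ h.1 hne with ⟨rfl, rfl⟩ | ⟨rfl, rfl⟩
      · simp
      · simp [Sym2.eq_swap]
  exact key v w p

/-! ### Hierarchies -/

theorem SAn.mono {n : ℕ} : ∀ {G : Type} [Group G], SAn n G → SAn (n + 1) G := by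
  induction n with
  | zero => intro G _ h; exact Or.inl h
  | succ n ih =>
    intro G _ h
    rcases h with h | ⟨D, hD⟩
    · exact Or.inl h
    · exact Or.inr ⟨D, fun x => ih (hD x)⟩

theorem SAn.mono' {n m : ℕ} (hnm : n ≤ m) {G : Type} [Group G] (h : SAn n G) : SAn m G := by
  induction hnm with
  | refl => exact h
  | step _ ih => exact ih.mono

/-- transport of finiteness of orbits along an isomorphism of the acting groups -/
theorem FinOrb.of_iso {G G' Y : Type} [Group G] [Group G'] [MulAction G Y] [MulAction G' Y]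
    (e : G → G') (he : ∀ (g : G) (y : Y), e g • y = g • y) {s : Set Y}
    (h : FinOrb G s) : FinOrb G' s := by
  unfold FinOrb orbs at *
  have : ((fun y => (Quotient.mk'' y : orbitRel.Quotient G' Y)) '' s) ⊆
      (Quotient.map' (s₁ := orbitRel G Y) (s₂ := orbitRel G' Y) (fun y => y) (by
        intro a b hab
        obtain ⟨g, hg⟩ := hab
        exact ⟨e g, by simpa [he] using hg⟩)) ''
      ((fun y => (Quotient.mk'' y : orbitRel.Quotient G Y)) '' s) := by
    rintro _ ⟨y, hy, rfl⟩
    exact ⟨_, ⟨y, hy, rfl⟩, rfl⟩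
  exact (h.image _).subset this

/-- transport of a decomposition along an isomorphism -/
def Decomp.map {G G' : Type} [Group G] [Group G'] (e : G ≃* G') (D : Decomp G) : Decomp G' :=
  letI : MulAction G' D.X := MulAction.compHom D.X e.symm.toMonoidHom
  have hsm : ∀ (h : G') (x : D.X), h • x = e.symm h • x := fun _ _ => rfl
  have hsm' : ∀ (h : G) (x : D.X), e h • x = h • x := fun h x => by
    rw [hsm, MulEquiv.symm_apply_apply]
  { X := D.X
    G := D.G
    tree := D.tree
    adj_smul := fun h x y hxy => by rw [hsm, hsm]; exact D.adj_smul _ _ _ hxy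
    noinv := fun h x y hxy hh => D.noinv (e.symm h) x y hxy hh
    finV := FinOrb.of_iso e hsm' D.finV
    finE := FinOrb.of_iso (G := G) (G' := G') e
      (fun g p => Prod.ext (hsm' g p.1) (hsm' g p.2)) D.finE
    edgeC := fun x y hxy => by
      refine InC.iso ?_ (D.edgeC x y hxy)
      refine
        { toFun := fun g => ⟨e g, ⟨?_, ?_⟩⟩
          invFun := fun g => ⟨e.symm g, ⟨?_, ?_⟩⟩
          left_inv := fun g => Subtype.ext (e.symm_apply_apply _)
          right_inv := fun g => Subtype.ext (e.apply_symm_apply _)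
          map_mul' := fun a b => Subtype.ext (map_mul e _ _) }
      · show e g • x = x
        rw [hsm']; exact g.2.1
      · show e g • y = y
        rw [hsm']; exact g.2.2
      · exact g.2.1
      · exact g.2.2
    nofix := fun x => by
      obtain ⟨h, hh⟩ := D.nofix x
      exact ⟨e h, by rw [hsm']; exact hh⟩ }

/-- the stabilisers of the transported decomposition -/
def Decomp.mapStab {G G' : Type} [Group G] [Group G'] (e : G ≃* G') (D : Decomp G) (x : D.X) :
    stabilizer G x ≃* stabilizer G' (show (D.map e).X from x) :=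
  { toFun := fun g => ⟨e g, by
      show e.symm (e g) • x = x
      rw [e.symm_apply_apply]; exact g.2⟩
    invFun := fun g => ⟨e.symm g, g.2⟩
    left_inv := fun g => Subtype.ext (e.symm_apply_apply _)
    right_inv := fun g => Subtype.ext (e.apply_symm_apply _)
    map_mul' := fun a b => Subtype.ext (map_mul e _ _) }

theorem SAn.iso {n : ℕ} : ∀ {G G' : Type} [Group G] [Group G'] (_ : G ≃* G'),
    SAn n G → SAn n G' := by
  induction n with
  | zero =>
    intro G G' _ _ e h
    exact ⟨fun D => h.false (D.map e.symm)⟩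
  | succ n ih =>
    intro G G' _ _ e h
    rcases h with h | ⟨D, hD⟩
    · exact Or.inl ⟨fun D => h.false (D.map e.symm)⟩
    · exact Or.inr ⟨D.map e, fun x => ih (D.mapStab e x) (hD x)⟩

theorem SA.iso {G G' : Type} [Group G] [Group G'] (e : G ≃* G') (h : SA G) : SA G' := by
  obtain ⟨n, hn⟩ := h
  exact ⟨n, hn.iso e⟩

theorem SA.of_empty {G : Type} [Group G] (h : IsEmpty (Decomp G)) : SA G := ⟨0, h⟩

theorem exists_decomp {G : Type} [Group G] (h : ¬ SA G) : Nonempty (Decomp G) := by
  by_contra hh
  exact h (SA.of_empty (not_nonempty_iff.1 hh))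

theorem SA.of_decomp {G : Type} [Group G] (D : Decomp G)
    (h : ∀ x : D.X, SA (stabilizer G x)) : SA G := by
  choose n hn using h
  have hfin : (orbs G (Set.univ : Set D.X)).Finite := D.finV
  obtain ⟨N, hN⟩ : ∃ N, ∀ q ∈ orbs G (Set.univ : Set D.X), n (Quotient.out q) ≤ N := by
    obtain ⟨N, hN⟩ := (hfin.image (fun q => n (Quotient.out q))).bddAbove
    exact ⟨N, fun q hq => hN (Set.mem_image_of_mem _ hq)⟩
  refine ⟨N + 1, Or.inr ⟨D, fun x => ?_⟩⟩
  set q : orbitRel.Quotient G D.X := Quotient.mk'' x with hq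
  have h1 : SAn N (stabilizer G (Quotient.out q)) :=
    (hn _).mono' (hN q ⟨x, trivial, rfl⟩)
  have h2 : orbitRel G D.X (Quotient.out q) x := by
    have := Quotient.out_eq' q
    exact Quotient.exact' (by rw [this])
  exact h1.iso (stabilizerEquivStabilizerOfOrbitRel h2)

theorem bad_vertex {G : Type} [Group G] (D : Decomp G) (h : ¬ SA G) :
    ∃ x : D.X, ¬ SA (stabilizer G x) := by
  by_contra hh
  push Not at hh
  exact h (SA.of_decomp D hh)

theorem SAn.of_trivial {G : Type} [Group G] (h : ∀ g : G, g = 1) : SAn 0 G := by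
  refine ⟨fun D => ?_⟩
  obtain ⟨x⟩ := D.tree.connected.nonempty
  obtain ⟨g, hg⟩ := D.nofix x
  exact hg (by rw [h g, one_smul])

/-! ### Cyclic groups -/

section Line

/-- the line -/
def lineG : SimpleGraph ℤ where
  Adj a b := b = a + 1 ∨ a = b + 1
  symm := ⟨fun _ _ h => h.symm⟩
  loopless := ⟨fun a h => by rcases h with h | h <;> omega⟩

theorem lineG_reach (a : ℤ) (n : ℕ) : lineG.Reachable a (a + n) := by
  induction n with
  | zero => simp
  | succ n ih =>
    refine ih.trans (SimpleGraph.Adj.reachable ?_)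
    left
    push_cast; ring

theorem lineG_tree : lineG.IsTree := by
  apply isTree_of_cut
  · have : Nonempty ℤ := ⟨0⟩
    refine ⟨fun a b => ?_⟩
    rcases le_total a b with h | h
    · have := lineG_reach a (b - a).toNat
      rwa [Int.toNat_of_nonneg (by omega), add_sub_cancel] at this
    · have := lineG_reach b (a - b).toNat
      rw [Int.toNat_of_nonneg (by omega), add_sub_cancel] at this
      exact this.symm
  · have key : ∀ v w : ℤ, w = v + 1 → ∃ g : ℤ → ZMod 2, g v ≠ g w ∧
        ∀ a b, lineG.Adj a b → g a ≠ g b → (a = v ∧ b = w) ∨ (a = w ∧ b = v) := by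
      rintro v w rfl
      refine ⟨fun x => if x ≤ v then 0 else 1, by simp, ?_⟩
      intro a b hab hg
      rcases hab with h | h
      · left
        subst h
        by_cases h1 : a ≤ v <;> by_cases h2 : a + 1 ≤ v
        · simp [h1, h2] at hg
        · constructor <;> omega
        · omega
        · simp [h1, h2] at hg
      · right
        subst h
        by_cases h1 : b ≤ v <;> by_cases h2 : b + 1 ≤ v
        · simp [h1, h2] at hg
        · constructor <;> omega
        · omega
        · simp [h1, h2] at hg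
    intro v w hvw
    rcases hvw with h | h
    · exact key v w h
    · obtain ⟨g, h1, h2⟩ := key w v h
      exact ⟨g, h1.symm, fun a b hab hg => (h2 a b hab hg).symm⟩

theorem line_smul (h : Multiplicative ℤ) (x : ℤ) :
    h • x = Multiplicative.toAdd h + x := rfl

/-- the splitting of the infinite cyclic group -/
def lineD : Decomp (Multiplicative ℤ) where
  X := ℤ
  G := lineG
  tree := lineG_tree
  adj_smul h x y hxy := by
    rw [line_smul, line_smul]
    rcases hxy with h1 | h1
    · left; omega
    · right; omega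
  noinv h x y hxy := by
    rintro ⟨h1, h2⟩
    rw [line_smul] at h1 h2
    rcases hxy with h3 | h3 <;> omega
  finV := by
    unfold FinOrb orbs
    apply (Set.finite_singleton (Quotient.mk'' (0 : ℤ) :
      orbitRel.Quotient (Multiplicative ℤ) ℤ)).subset
    rintro _ ⟨y, _, rfl⟩
    rw [Set.mem_singleton_iff]
    apply Quotient.sound'
    exact ⟨Multiplicative.ofAdd y, by simp⟩
  finE := by
    unfold FinOrb orbs
    apply (Set.toFinite {(Quotient.mk'' ((0 : ℤ), (1 : ℤ)) :
      orbitRel.Quotient (Multiplicative ℤ) (ℤ × ℤ)), (Quotient.mk'' ((1 : ℤ), (0 : ℤ)) :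
      orbitRel.Quotient (Multiplicative ℤ) (ℤ × ℤ))}).subset
    rintro _ ⟨⟨x, y⟩, hxy, rfl⟩
    rw [Set.mem_insert_iff, Set.mem_singleton_iff]
    rcases hxy with h | h
    · left
      simp only at h
      subst h
      apply Quotient.sound'
      exact ⟨Multiplicative.ofAdd x, by simp⟩
    · right
      simp only at h
      subst h
      apply Quotient.sound'
      exact ⟨Multiplicative.ofAdd y, by simp⟩
  edgeC x y _ := by
    left
    have : ∀ g : ↥(stabilizer (Multiplicative ℤ) x ⊓ stabilizer (Multiplicative ℤ) y), g = 1 := by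
      rintro ⟨g, hg, -⟩
      have h1 : g • x = x := hg
      rw [line_smul] at h1
      apply Subtype.ext
      apply Multiplicative.toAdd.injective
      show Multiplicative.toAdd g = 0
      omega
    have : Subsingleton ↥(stabilizer (Multiplicative ℤ) x ⊓ stabilizer (Multiplicative ℤ) y) :=
      ⟨fun a b => by rw [this a, this b]⟩
    infer_instance
  nofix x := ⟨Multiplicative.ofAdd 1, by rw [line_smul]; simp⟩

end Line

theorem SA.of_trivial {G : Type} [Group G] (h : ∀ g : G, g = 1) : SA G := ⟨0, SAn.of_trivial h⟩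

theorem SA.line : SA (Multiplicative ℤ) := by
  refine SA.of_decomp lineD fun x => SA.of_trivial ?_
  rintro ⟨g, hg⟩
  have h1 : g • (show ℤ from x) = (show ℤ from x) := hg
  rw [line_smul] at h1
  apply Subtype.ext
  apply Multiplicative.toAdd.injective
  show Multiplicative.toAdd g = 0
  omega

theorem SA.of_cyclic {G : Type} [Group G] (h : TF G) (h' : IsCyclic G) : SA G := by
  obtain ⟨g, hg⟩ := h'.exists_generator
  have hpow : ∀ x : G, ∃ k : ℤ, g ^ k = x := fun x => Subgroup.mem_zpowers_iff.1 (hg x)
  by_cases h1 : g = 1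
  · apply SA.of_trivial
    intro x
    obtain ⟨k, hk⟩ := hpow x
    rw [← hk, h1, one_zpow]
  · refine SA.line.iso (MulEquiv.ofBijective (zpowersHom G g) ⟨?_, ?_⟩)
    · rw [injective_iff_map_eq_one]
      intro a ha
      rw [zpowersHom_apply] at ha
      by_contra hne
      exact h1 (h.zpow (k := Multiplicative.toAdd a) (fun h0 => hne (Multiplicative.toAdd.injective
        (by simpa using h0))) ha)
    · intro x
      obtain ⟨k, hk⟩ := hpow x
      exact ⟨Multiplicative.ofAdd k, by rw [zpowersHom_apply]; exact hk⟩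

end Pool.Agent.SAF
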