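import Pool.Agent.SAF.Basic

/-!
# SAF/A00: further definitions (part A)
-/

namespace Pool.Agent.SAF

open MulAction

/-- an action on a tree without inversions -/
structure TAct (H : Type) [Group H] {X : Type} [MulAction H X] (G : SimpleGraph X) : Prop where
  tree : G.IsTree
  adj_smul : ∀ (h : H) (x y : X), G.Adj x y → G.Adj (h • x) (h • y)
  noinv : ∀ (h : H) (x y : X), G.Adj x y → ¬ (h • x = y ∧ h • y = x)

theorem Decomp.tact {H : Type} [Group H] (D : Decomp H) : TAct H D.G :=
  ⟨D.tree, D.adj_smul, D.noinv⟩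

section Blocks

variable {H : Type} [Group H] {Y : Type} [MulAction H Y] (K : KS H Y)

/-- ordered edges -/
def KS.Ed : Type := {p : Y × Y // K.E p.1 p.2}

instance KS.actEd : MulAction H K.Ed where
  smul h p := ⟨(h • p.1.1, h • p.1.2), K.E_smul h _ _ p.2⟩
  one_smul p := Subtype.ext (Prod.ext (one_smul H p.1.1) (one_smul H p.1.2))
  mul_smul a b p := Subtype.ext (Prod.ext (mul_smul a b p.1.1) (mul_smul a b p.1.2))

/-- `p` and `q` are the same edge with opposite orientations, or have the same origin and span a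
triangle -/
def KS.er (p q : K.Ed) : Prop :=
  (q.1.1 = p.1.2 ∧ q.1.2 = p.1.1) ∨ (q.1.1 = p.1.1 ∧ K.T p.1.1 p.1.2 q.1.2)

theorem KS.er_smul (h : H) (p q : K.Ed) (e : K.er p q) : K.er (h • p) (h • q) := by
  rcases e with ⟨e1, e2⟩ | ⟨e1, e2⟩
  · exact Or.inl ⟨congrArg (h • ·) e1, congrArg (h • ·) e2⟩
  · exact Or.inr ⟨congrArg (h • ·) e1, K.T_smul h _ _ _ e2⟩

/-- classes of edges connected through triangles -/
def KS.es : Setoid K.Ed := Relation.EqvGen.setoid K.er

theorem KS.es_smul (h : H) (p q : K.Ed) (e : K.es p q) : K.es (h • p) (h • q) := by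
  induction e with
  | rel x y hxy => exact Relation.EqvGen.rel _ _ (K.er_smul h x y hxy)
  | refl x => exact Relation.EqvGen.refl _
  | symm x y _ ih => exact Relation.EqvGen.symm _ _ ih
  | trans x y z _ _ ih1 ih2 => exact Relation.EqvGen.trans _ _ _ ih1 ih2

/-- the blocks -/
def KS.Cl : Type := Quotient K.es

/-- the block of an edge -/
def KS.cl (p : K.Ed) : K.Cl := Quotient.mk K.es p

instance KS.actCl : MulAction H K.Cl where
  smul h := Quotient.map (fun p => h • p) (fun p q e => K.es_smul h p q e)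
  one_smul l := by
    induction l using Quotient.inductionOn with
    | h p => exact congrArg (Quotient.mk K.es) (one_smul H p)
  mul_smul a b l := by
    induction l using Quotient.inductionOn with
    | h p => exact congrArg (Quotient.mk K.es) (mul_smul a b p)

theorem KS.cl_smul (h : H) (p : K.Ed) : K.cl (h • p) = h • K.cl p := rfl

/-- the edge `x y` belongs to the block `b` -/
def KS.bE (b : K.Cl) (x y : Y) : Prop := ∃ h : K.E x y, K.cl ⟨(x, y), h⟩ = b

/-- the vertex `x` belongs to the block `b` -/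
def KS.bP (b : K.Cl) : Set Y := {x | ∃ y, K.bE b x y}

/-- the triangle `x y z` belongs to the block `b` -/
def KS.bT (b : K.Cl) (x y z : Y) : Prop := K.T x y z ∧ K.bE b x y

/-- vertices of the block tree: vertices and blocks -/
def KS.BV : Type := {x : Y // x ∈ K.P} ⊕ K.Cl

instance KS.actBV : MulAction H K.BV where
  smul h v := match v with
    | Sum.inl x => Sum.inl ⟨h • x.1, K.P_smul h _ x.2⟩
    | Sum.inr b => Sum.inr (h • b)
  one_smul v := by
    rcases v with x | b
    · exact congrArg Sum.inl (Subtype.ext (one_smul H x.1))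
    · exact congrArg Sum.inr (one_smul H b)
  mul_smul a b v := by
    rcases v with x | c
    · exact congrArg Sum.inl (Subtype.ext (mul_smul a b x.1))
    · exact congrArg Sum.inr (mul_smul a b c)

/-- the block tree -/
def KS.BG : SimpleGraph K.BV where
  Adj u v := (∃ (x : {x : Y // x ∈ K.P}) (b : K.Cl), u = Sum.inl x ∧ v = Sum.inr b ∧ x.1 ∈ K.bP b) ∨
    (∃ (x : {x : Y // x ∈ K.P}) (b : K.Cl), v = Sum.inl x ∧ u = Sum.inr b ∧ x.1 ∈ K.bP b)
  symm := ⟨fun _ _ h => h.symm⟩
  loopless := ⟨fun _ h => by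
    rcases h with ⟨x, b, h1, h2, -⟩ | ⟨x, b, h1, h2, -⟩
    · rw [h1] at h2; exact absurd h2 (by intro e; cases e)
    · rw [h1] at h2; exact absurd h2 (by intro e; cases e)⟩

end Blocks

section Tight

variable {H : Type} [Group H] {Y : Type} [MulAction H Y] {K : KS H Y} {D : Decomp H}
  (S : Sys H Y K D)

/-- vertical adjacency in the blown up complex -/
def Sys.vr (p q : S.V1) : Prop := p.1.1 = q.1.1 ∧ D.G.Adj p.1.2 q.1.2

/-- nothing is lost, and all triangles sit at the orbit of `l0`, whose stabiliser is bad -/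
def Sys.Tight (l0 : S.LV) : Prop :=
  ¬ SA ↥(stabilizer H l0) ∧ (∀ x y, K.E x y → ¬ LostF (S.f x) (S.f y)) ∧
    ∀ p q s, S.Tp (S.cm p) p q s → ∃ h : H, S.cm p = h • l0

end Tight

end Pool.Agent.SAF
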