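import Pool.Agent.SAF.A11

/-!
# SAF/A12: orientations (points and ends) of trees
-/

namespace Pool.Agent.SAF

open MulAction

section
variable {X : Type} {G : SimpleGraph X}

private theorem nx_unique (hG : G.IsTree) {a b c c' : X} (h1 : G.Adj a c) (h2 : G.Adj a c')
    (d1 : G.dist a b = G.dist c b + 1) (d2 : G.dist a b = G.dist c' b + 1) : c = c' := by
  obtain ⟨p, -, hp⟩ := hG.connected.exists_path_of_dist c b
  obtain ⟨p', -, hp'⟩ := hG.connected.exists_path_of_dist c' b
  have k1 : (SimpleGraph.Walk.cons h1 p).IsPath := by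
    apply SimpleGraph.Walk.isPath_of_length_eq_dist
    rw [SimpleGraph.Walk.length_cons, hp, d1]
  have k2 : (SimpleGraph.Walk.cons h2 p').IsPath := by
    apply SimpleGraph.Walk.isPath_of_length_eq_dist
    rw [SimpleGraph.Walk.length_cons, hp', d2]
  have e : SimpleGraph.Walk.cons h1 p = SimpleGraph.Walk.cons h2 p' :=
    (hG.existsUnique_path a b).unique k1 k2
  have e2 := congrArg (fun q : G.Walk a b => q.snd) e
  simpa using e2

private theorem adj_ne_self {f : X → X} {w : X} (h : G.Adj w (f w)) : f w ≠ w :=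
  fun e => G.ne_of_adj h e.symm

/-- the orientation with sink `v` -/
theorem exists_ori_vertex (hG : G.IsTree) (v : X) : ∃ f : X → X, Ori G f ∧ f v = v ∧
    ∀ w, w ≠ v → G.Adj w (f w) ∧ G.dist w v = G.dist (f w) v + 1 := by
  classical
  have hex : ∀ w : X, ∃ c : X, (w = v → c = v) ∧
      (w ≠ v → G.Adj w c ∧ G.dist w v = G.dist c v + 1) := by
    intro w
    by_cases h : w = v
    · exact ⟨v, fun _ => rfl, fun h' => absurd h h'⟩
    · obtain ⟨c, hc⟩ := exists_next hG h
      exact ⟨c, fun h' => absurd h' h, fun _ => hc⟩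
  choose f hf1 hf2 using hex
  refine ⟨f, ⟨?_, ?_, ?_⟩, hf1 v rfl, hf2⟩
  · intro w
    by_cases h : w = v
    · left
      rw [hf1 w h, h]
    · exact Or.inr (hf2 w h).1
  · intro w w' hadj
    rcases hG.dist_eq_dist_add_one_of_adj v hadj with e | e
    · left
      rw [SimpleGraph.dist_comm, SimpleGraph.dist_comm (u := v)] at e
      have hw : w ≠ v := by
        rintro rfl
        rw [SimpleGraph.dist_self] at e
        omega
      exact nx_unique hG (hf2 w hw).1 hadj (hf2 w hw).2 e
    · right
      rw [SimpleGraph.dist_comm, SimpleGraph.dist_comm (u := v)] at e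
      have hw : w' ≠ v := by
        rintro rfl
        rw [SimpleGraph.dist_self] at e
        omega
      exact nx_unique hG (hf2 w' hw).1 hadj.symm (hf2 w' hw).2 e
  · rintro w w' hadj ⟨e1, e2⟩
    have hw : w ≠ v := by
      rintro rfl
      rw [hf1 w rfl] at e1
      exact G.ne_of_adj hadj e1
    have hw' : w' ≠ v := by
      rintro rfl
      rw [hf1 w' rfl] at e2
      exact G.ne_of_adj hadj e2.symm
    have d1 := (hf2 w hw).2
    have d2 := (hf2 w' hw').2
    rw [e1] at d1
    rw [e2] at d2
    omega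

private theorem toward_aux (hG : G.IsTree) {f : X → X} (hf : Ori G f) (u : X) :
    ∀ (n : ℕ) (w : X), G.dist u w = n → u ≠ w →
      ¬ (G.Adj w (f w) ∧ G.dist u (f w) + 1 = G.dist u w) →
      G.Adj u (f u) ∧ G.dist u w = G.dist (f u) w + 1 := by
  intro n
  induction n with
  | zero =>
    intro w h1 h2
    exact absurd (hG.connected.dist_eq_zero_iff.1 h1) h2
  | succ n ih =>
    intro w h1 h2 h
    obtain ⟨c, hc1, hc2⟩ := exists_next hG h2.symm
    have d1 : G.dist u w = G.dist u c + 1 := by
      rw [SimpleGraph.dist_comm, hc2, SimpleGraph.dist_comm]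
    rcases hf.one w c hc1 with e | e
    · exact absurd ⟨e.symm ▸ hc1, by rw [e, d1]⟩ h
    · by_cases hcu : c = u
      · subst hcu
        rw [e]
        refine ⟨hc1.symm, ?_⟩
        rw [SimpleGraph.dist_self, zero_add]
        exact SimpleGraph.dist_eq_one_iff_adj.2 hc1.symm
      · obtain ⟨k1, k2⟩ := ih c (by omega) (Ne.symm hcu) (by
          rintro ⟨-, h4⟩
          rw [e] at h4
          omega)
        refine ⟨k1, ?_⟩
        have t1 : G.dist (f u) w ≤ G.dist (f u) c + G.dist c w := hG.connected.dist_triangle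
        have t2 : G.dist c w = 1 := SimpleGraph.dist_eq_one_iff_adj.2 hc1.symm
        have t3 : G.dist u w ≤ G.dist u (f u) + G.dist (f u) w := hG.connected.dist_triangle
        have t4 : G.dist u (f u) = 1 := SimpleGraph.dist_eq_one_iff_adj.2 k1
        omega

/-- If `f` leaves the convex set... : on the way from `u` to `w`, if `f w` is not nearer to `u`
then `f u` is the next vertex on the way to `w`. -/
theorem Ori.toward (hG : G.IsTree) {f : X → X} (hf : Ori G f) {u w : X} (huw : u ≠ w)
    (h : ¬ (G.Adj w (f w) ∧ G.dist u (f w) + 1 = G.dist u w)) :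
    G.Adj u (f u) ∧ G.dist u w = G.dist (f u) w + 1 :=
  toward_aux hG hf u _ w rfl huw h

theorem Ori.fix_unique (hG : G.IsTree) {f : X → X} (hf : Ori G f) {u v : X} (hu : f u = u)
    (hv : f v = v) : u = v := by
  by_contra hne
  have h := Ori.toward hG hf hne (by
    rintro ⟨h1, -⟩
    rw [hv] at h1
    exact G.ne_of_adj h1 rfl)
  have h1 := h.1
  rw [hu] at h1
  exact G.ne_of_adj h1 rfl

/-- an orientation with a sink is determined by the sink -/
theorem Ori.eq_of_fix (hG : G.IsTree) {f g : X → X} (hf : Ori G f) (hg : Ori G g) {v : X}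
    (hu : f v = v) (hv : g v = v) : f = g := by
  funext w
  by_cases hw : w = v
  · rw [hw, hu, hv]
  · have h1 := Ori.toward hG hf hw (by
      rintro ⟨h1, -⟩
      rw [hu] at h1
      exact G.ne_of_adj h1 rfl)
    have h2 := Ori.toward hG hg hw (by
      rintro ⟨h1, -⟩
      rw [hv] at h1
      exact G.ne_of_adj h1 rfl)
    exact nx_unique hG h1.1 h2.1 h1.2 h2.2

private theorem merge_aux (hG : G.IsTree) {f : X → X} (hf : Ori G f) :
    ∀ (n : ℕ) (u v : X), G.dist u v = n → ∃ i j : ℕ, f^[i] u = f^[j] v := by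
  intro n
  induction n with
  | zero =>
    intro u v h
    exact ⟨0, 0, hG.connected.dist_eq_zero_iff.1 h⟩
  | succ n ih =>
    intro u v h
    have hne : u ≠ v := by
      rintro rfl
      rw [SimpleGraph.dist_self] at h
      omega
    by_cases hc : G.Adj v (f v) ∧ G.dist u (f v) + 1 = G.dist u v
    · obtain ⟨i, j, e⟩ := ih u (f v) (by omega)
      exact ⟨i, j + 1, by rw [e, Function.iterate_succ_apply]⟩
    · obtain ⟨-, h2⟩ := Ori.toward hG hf hne hc
      obtain ⟨i, j, e⟩ := ih (f u) v (by omega)
      exact ⟨i + 1, j, by rw [← e, Function.iterate_succ_apply]⟩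

/-- Any two vertices flow together. -/
theorem Ori.merge (hG : G.IsTree) {f : X → X} (hf : Ori G f) (u v : X) :
    ∃ i j : ℕ, f^[i] u = f^[j] v :=
  merge_aux hG hf _ u v rfl

private theorem line_dist (hG : G.IsTree) {f : X → X} (hf : Ori G f) (hn : ∀ w, f w ≠ w) (u : X) :
    ∀ n : ℕ, G.dist u (f^[n + 1] u) = G.dist u (f^[n] u) + 1 := by
  have hadj : ∀ w, G.Adj w (f w) := fun w => (hf.ok w).resolve_left (hn w)
  intro n
  induction n with
  | zero =>
    rw [Function.iterate_one, Function.iterate_zero, id, SimpleGraph.dist_self]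
    exact SimpleGraph.dist_eq_one_iff_adj.2 (hadj u)
  | succ n ih =>
    have e1 : f^[n + 1] u = f (f^[n] u) := Function.iterate_succ_apply' f n u
    have e2 : f^[n + 1 + 1] u = f (f^[n + 1] u) := Function.iterate_succ_apply' f (n + 1) u
    rcases hG.dist_eq_dist_add_one_of_adj u (hadj (f^[n + 1] u)) with e | e
    · exfalso
      have d1 : G.dist (f^[n + 1] u) u = G.dist (f (f^[n + 1] u)) u + 1 := by
        rw [SimpleGraph.dist_comm, e, SimpleGraph.dist_comm]
      have d2 : G.dist (f^[n + 1] u) u = G.dist (f^[n] u) u + 1 := by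
        rw [SimpleGraph.dist_comm, ih, SimpleGraph.dist_comm]
      have a2 : G.Adj (f^[n + 1] u) (f^[n] u) := by
        rw [e1]
        exact (hadj _).symm
      have k := nx_unique hG (hadj (f^[n + 1] u)) a2 d1 d2
      exact hf.ntwo _ _ a2 ⟨k, e1.symm⟩
    · rw [e2]
      exact e

/-- `f` is injective along flow lines without sink. -/
theorem Ori.iterate_inj (hG : G.IsTree) {f : X → X} (hf : Ori G f) (hn : ∀ w, f w ≠ w) (u : X)
    {i j : ℕ} (h : f^[i] u = f^[j] u) : i = j := by
  have hd : ∀ (v : X) (n : ℕ), G.dist v (f^[n] v) = n := by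
    intro v n
    induction n with
    | zero => rw [Function.iterate_zero, id, SimpleGraph.dist_self]
    | succ n ih => rw [line_dist hG hf hn v n, ih]
  have key : ∀ (a b : ℕ), a ≤ b → f^[a] u = f^[b] u → a = b := by
    intro a b hab e
    obtain ⟨m, rfl⟩ := Nat.exists_eq_add_of_le hab
    have e3 : f^[m] (f^[a] u) = f^[a] u := by
      rw [← Function.iterate_add_apply, Nat.add_comm m a]
      exact e.symm
    have h4 := hd (f^[a] u) m
    rw [e3, SimpleGraph.dist_self] at h4
    omega
  rcases le_total i j with hij | hij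
  · exact key i j hij h
  · exact (key j i hij h.symm).symm

end

end Pool.Agent.SAF
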