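import Pool.Agent.SAF.A12
import Pool.Agent.SAF.A16

/-!
# SAF/A17: elements without fixed vertex
-/

namespace Pool.Agent.SAF

open MulAction

section

variable {X : Type} {G : SimpleGraph X}

private theorem nxu (hG : G.IsTree) {a b c c' : X} (h1 : G.Adj a c) (h2 : G.Adj a c')
    (d1 : G.dist a b = G.dist c b + 1) (d2 : G.dist a b = G.dist c' b + 1) : c = c' := by
  obtain ⟨p, -, hp⟩ := hG.connected.exists_path_of_dist c b
  obtain ⟨p', -, hp'⟩ := hG.connected.exists_path_of_dist c' b
  have k1 : (SimpleGraph.Walk.cons h1 p).IsPath := by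
    apply SimpleGraph.Walk.isPath_of_length_eq_dist
    rw [SimpleGraph.Walk.length_cons, hp, d1]
  have k2 : (SimpleGraph.Walk.cons h2 p').IsPath := by
    apply SimpleGraph.Walk.isPath_of_length_eq_dist
    rw [SimpleGraph.Walk.length_cons, hp', d2]
  have e : SimpleGraph.Walk.cons h1 p = SimpleGraph.Walk.cons h2 p' :=
    (hG.existsUnique_path a b).unique k1 k2
  have e2 := congrArg (fun q : G.Walk a b => q.snd) e
  simpa using e2

/-- a geodesic which crosses an edge passes through it -/
private theorem crossE (hG : G.IsTree) {u v a b : X} (h : G.Adj u v)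
    (h1 : G.dist a v = G.dist a u + 1) (h2 : G.dist b u = G.dist b v + 1) :
    G.dist a b = G.dist a u + G.dist u b := by
  have hu := (Conv.edge hG (hull_conv hG ({a, b} : Set X)) h (subset_hull _ (Or.inl rfl))
    (subset_hull _ (Or.inr rfl)) h1 h2).1
  obtain ⟨a', ha', b', hb', e⟩ := hu
  rcases ha' with rfl | ha'
  · rcases hb' with rfl | hb'
    · rw [SimpleGraph.dist_self] at e
      have e1 : G.dist b' u = 0 := by omega
      have e2 : b' = u := hG.connected.dist_eq_zero_iff.1 e1
      rw [e1, zero_add, e2]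
    · replace hb' : b' = b := hb'
      rw [hb'] at e
      exact e.symm
  · replace ha' : a' = b := ha'
    rcases hb' with rfl | hb'
    · rw [ha'] at e
      rw [SimpleGraph.dist_comm (u := b') (v := b), ← e, SimpleGraph.dist_comm (u := b),
        SimpleGraph.dist_comm (u := u) (v := b'), Nat.add_comm]
    · replace hb' : b' = b := hb'
      rw [ha', hb', SimpleGraph.dist_self] at e
      omega

private theorem through (hG : G.IsTree) {a b c p q : X} (hp : G.Adj b p) (hq : G.Adj b q)
    (dp : G.dist b a = G.dist p a + 1) (dq : G.dist b c = G.dist q c + 1) (hne : p ≠ q) :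
    G.dist a c = G.dist a b + G.dist b c := by
  have h1 : G.dist a b = G.dist a p + 1 := by
    rw [SimpleGraph.dist_comm, dp, SimpleGraph.dist_comm]
  have h2 : G.dist c p = G.dist c b + 1 := by
    rcases (dist_edge hG hp c).1 with h | h
    · exact h
    · exfalso
      apply hne
      refine nxu hG hp hq ?_ dq
      rw [SimpleGraph.dist_comm, h, SimpleGraph.dist_comm]
  have h3 := crossE hG hp.symm h1 h2
  have h4 : G.dist p c = G.dist b c + 1 := by
    rw [SimpleGraph.dist_comm, h2, SimpleGraph.dist_comm]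
  omega

/-- local geodesics are geodesics -/
private theorem concat (hG : G.IsTree) {a b c e : X} (hbc : b ≠ c)
    (h1 : G.dist a c = G.dist a b + G.dist b c) (h2 : G.dist b e = G.dist b c + G.dist c e) :
    G.dist a e = G.dist a c + G.dist c e := by
  by_cases hce : c = e
  · rw [hce, SimpleGraph.dist_self, Nat.add_zero]
  obtain ⟨p, hp, dp⟩ := exists_next hG hbc.symm
  obtain ⟨q, hq, dq⟩ := exists_next hG hce
  have t1 : G.dist a p ≤ G.dist a b + G.dist b p := hG.connected.dist_triangle
  have t2 : G.dist a c ≤ G.dist a p + G.dist p c := hG.connected.dist_triangle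
  have t3 : G.dist p c = 1 := SimpleGraph.dist_eq_one_iff_adj.2 hp.symm
  have t4 : G.dist c b = G.dist b c := SimpleGraph.dist_comm
  have t5 : G.dist p b = G.dist b p := SimpleGraph.dist_comm
  have t6 : G.dist c a = G.dist a c := SimpleGraph.dist_comm
  have t7 : G.dist p a = G.dist a p := SimpleGraph.dist_comm
  have dpa : G.dist c a = G.dist p a + 1 := by omega
  have hne : p ≠ q := by
    rintro rfl
    have s1 : G.dist b e ≤ G.dist b p + G.dist p e := hG.connected.dist_triangle
    omega
  exact through hG hp hq dpa dq hne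

end

variable {H : Type} [Group H] {X : Type} [MulAction H X] {G : SimpleGraph X}

/-- a vertex of minimal displacement lies on the axis -/
private theorem two_step (hG : TAct H G) (t : H) (ht : ∀ x : X, t • x ≠ x) (x : X)
    (hmin : ∀ y, G.dist x (t • x) ≤ G.dist y (t • y)) :
    G.dist x (t • t • x) = G.dist x (t • x) + G.dist (t • x) (t • t • x) := by
  have hT := hG.tree
  obtain ⟨r, hr, dr⟩ := exists_next hT (ht x).symm
  obtain ⟨p, hp, dp⟩ := exists_next hT (ht x)
  have hq : G.Adj (t • x) (t • r) := hG.adj_smul t x r hr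
  have dq : G.dist (t • x) (t • t • x) = G.dist (t • r) (t • t • x) + 1 := by
    rw [hG.dist_smul, hG.dist_smul, dr]
  refine through hT hp hq dp dq ?_
  rintro rfl
  -- `t r` is next to `t x` on the way to `x`
  by_cases hrx : t • x = r
  · -- `d = 1`: inversion
    have e1 : G.dist r (t • x) = 0 := by rw [hrx, SimpleGraph.dist_self]
    have e2 : G.dist (t • x) x = 1 := by
      rw [SimpleGraph.dist_comm, dr, e1]
    have e3 : G.dist (t • r) x = 0 := by omega
    have e4 : t • r = x := hT.connected.dist_eq_zero_iff.1 e3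
    exact hG.noinv t x r hr ⟨hrx, e4⟩
  · obtain ⟨p', hp', dp'⟩ := exists_next hT hrx
    have s1 : G.dist (t • x) r = G.dist r (t • x) := SimpleGraph.dist_comm
    have s2 : G.dist (t • x) x = G.dist x (t • x) := SimpleGraph.dist_comm
    have s3 : G.dist r x = 1 := SimpleGraph.dist_eq_one_iff_adj.2 hr.symm
    have s4 : G.dist p' x ≤ G.dist p' r + G.dist r x := hT.connected.dist_triangle
    have s5 : G.dist (t • x) x ≤ G.dist (t • x) p' + G.dist p' x := hT.connected.dist_triangle
    have s6 : G.dist (t • x) p' = 1 := SimpleGraph.dist_eq_one_iff_adj.2 hp'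
    have s7 : G.dist (t • x) x = G.dist p' x + 1 := by omega
    have e : p' = t • r := nxu hT hp' hp s7 dp
    rw [e] at dp'
    have s8 : G.dist r (t • r) = G.dist (t • r) r := SimpleGraph.dist_comm
    have := hmin r
    omega

/-- the orbit of a vertex on the axis is a geodesic -/
private theorem axis (hG : TAct H G) (t : H) (ht : ∀ x : X, t • x ≠ x) :
    ∃ (x : X) (d : ℕ), 0 < d ∧ ∀ m k : ℕ, G.dist (t ^ m • x) (t ^ (m + k) • x) = k * d := by
  classical
  have hT := hG.tree
  obtain ⟨x0⟩ := hT.connected.nonempty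
  obtain ⟨x, hx⟩ : ∃ x : X, ∀ y, G.dist x (t • x) ≤ G.dist y (t • y) := by
    have hne : ∃ n : ℕ, ∃ x : X, G.dist x (t • x) = n := ⟨_, x0, rfl⟩
    obtain ⟨x, hx⟩ := Nat.find_spec hne
    refine ⟨x, fun y => ?_⟩
    rw [hx]
    exact Nat.find_min' hne ⟨y, rfl⟩
  have hd0 : 0 < G.dist x (t • x) := by
    rw [Nat.pos_iff_ne_zero]
    intro h
    exact ht x (hT.connected.dist_eq_zero_iff.1 h).symm
  refine ⟨x, G.dist x (t • x), hd0, ?_⟩
  have h2 := two_step hG t ht x hx
  have hstep : ∀ n : ℕ, G.dist (t ^ n • x) (t ^ (n + 1) • x) = G.dist x (t • x) := by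
    intro n
    rw [pow_succ, mul_smul, hG.dist_smul]
  have hstep2 : ∀ n : ℕ, G.dist (t ^ n • x) (t ^ (n + 2) • x) =
      G.dist (t ^ n • x) (t ^ (n + 1) • x) + G.dist (t ^ (n + 1) • x) (t ^ (n + 2) • x) := by
    intro n
    rw [hstep n, hstep (n + 1), pow_add, mul_smul, hG.dist_smul, sq, mul_smul, h2, hG.dist_smul]
  intro m k
  have key : ∀ k : ℕ, G.dist (t ^ m • x) (t ^ (m + k) • x) = k * G.dist x (t • x) ∧
      G.dist (t ^ m • x) (t ^ (m + (k + 1)) • x) = (k + 1) * G.dist x (t • x) := by
    intro k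
    induction k with
    | zero =>
      refine ⟨?_, ?_⟩
      · rw [Nat.add_zero, SimpleGraph.dist_self, Nat.zero_mul]
      · rw [Nat.zero_add, hstep m, Nat.one_mul]
    | succ k ih =>
      refine ⟨ih.2, ?_⟩
      have e0 : G.dist (t ^ (m + k) • x) (t ^ (m + (k + 1)) • x) = G.dist x (t • x) :=
        hstep (m + k)
      have e1 : G.dist (t ^ (m + (k + 1)) • x) (t ^ (m + (k + 1 + 1)) • x) = G.dist x (t • x) :=
        hstep (m + (k + 1))
      have hne : t ^ (m + k) • x ≠ t ^ (m + (k + 1)) • x := by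
        intro e
        rw [e, SimpleGraph.dist_self] at e0
        omega
      have h3 : G.dist (t ^ (m + k) • x) (t ^ (m + (k + 1 + 1)) • x) =
          G.dist (t ^ (m + k) • x) (t ^ (m + (k + 1)) • x) +
          G.dist (t ^ (m + (k + 1)) • x) (t ^ (m + (k + 1 + 1)) • x) := hstep2 (m + k)
      have h1 : G.dist (t ^ m • x) (t ^ (m + (k + 1)) • x) =
          G.dist (t ^ m • x) (t ^ (m + k) • x) +
          G.dist (t ^ (m + k) • x) (t ^ (m + (k + 1)) • x) := by
        rw [ih.1, ih.2, e0, Nat.succ_mul]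
      rw [concat hT hne h1 h3, ih.2, e1]
      ring
  exact (key k).1

/-- the next vertex towards the end -/
private theorem next_end (hG : TAct H G) (t : H) (x : X) (d : ℕ) (hd : 0 < d)
    (hx : ∀ m k : ℕ, G.dist (t ^ m • x) (t ^ (m + k) • x) = k * d) (w : X) :
    ∃ c : X, G.Adj w c ∧ ∃ N : ℕ, ∀ n, N ≤ n →
      G.dist w (t ^ n • x) = G.dist c (t ^ n • x) + 1 := by
  have hT := hG.tree
  have hx0 : ∀ n, G.dist x (t ^ n • x) = n * d := by
    intro n
    have h := hx 0 n
    rw [pow_zero, one_smul, Nat.zero_add] at h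
    exact h
  have hbig : ∀ n, n ≤ n * d := fun n => Nat.le_mul_of_pos_right n hd
  have hne : ∀ n, G.dist x w < n → w ≠ t ^ n • x := by
    intro n hn e
    have h1 := hx0 n
    rw [← e] at h1
    have := hbig n
    omega
  obtain ⟨c, hc, dc⟩ := exists_next hT (hne (G.dist x w + 1) (by omega))
  refine ⟨c, hc, G.dist x w + 1, ?_⟩
  intro n hn
  obtain ⟨c', hc', dc'⟩ := exists_next hT (hne n (by omega))
  by_cases hcc : c = c'
  · rw [hcc]
    exact dc'
  exfalso
  have h1 := through hT hc hc' dc dc' hcc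
  obtain ⟨k, rfl⟩ := Nat.exists_eq_add_of_le hn
  have h2 := hx (G.dist x w + 1) k
  have h3 := hx0 (G.dist x w + 1 + k)
  have h4 := hx0 (G.dist x w + 1)
  have h5 : G.dist x (t ^ (G.dist x w + 1 + k) • x) ≤
      G.dist x w + G.dist w (t ^ (G.dist x w + 1 + k) • x) := hT.connected.dist_triangle
  have h6 := hbig (G.dist x w + 1)
  have h7 : (G.dist x w + 1 + k) * d = (G.dist x w + 1) * d + k * d := by ring
  omega

/-- An element without fixed vertex preserves an end. -/
theorem exists_end (hG : TAct H G) (t : H) (ht : ∀ x : X, t • x ≠ x) :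
    ∃ f : X → X, Ori G f ∧ (∀ w, f w ≠ w) ∧ ∀ w, f (t • w) = t • f w := by
  have hT := hG.tree
  obtain ⟨x, d, hd, hx⟩ := axis hG t ht
  choose f hf1 hf2 using next_end hG t x d hd hx
  have huniq : ∀ w c : X, G.Adj w c → (∃ N : ℕ, ∀ n, N ≤ n →
      G.dist w (t ^ n • x) = G.dist c (t ^ n • x) + 1) → f w = c := by
    rintro w c hc ⟨N, hN⟩
    obtain ⟨M, hM⟩ := hf2 w
    exact nxu hT (hf1 w) hc (hM (max M N) (le_max_left _ _)) (hN (max M N) (le_max_right _ _))
  refine ⟨f, ⟨fun w => Or.inr (hf1 w), ?_, ?_⟩, fun w e => G.ne_of_adj (hf1 w) e.symm, ?_⟩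
  · intro w w' h
    obtain ⟨M, hM⟩ := hf2 w
    obtain ⟨N, hN⟩ := hf2 w'
    have h1 := hM (max M N) (le_max_left _ _)
    have h2 := hN (max M N) (le_max_right _ _)
    rcases (dist_edge hT h (t ^ (max M N) • x)).1 with e | e
    · right
      refine nxu hT (hf1 w') h.symm h2 ?_
      rw [SimpleGraph.dist_comm, e, SimpleGraph.dist_comm]
    · left
      refine nxu hT (hf1 w) h h1 ?_
      rw [SimpleGraph.dist_comm, e, SimpleGraph.dist_comm]
  · rintro w w' h ⟨e1, e2⟩
    obtain ⟨M, hM⟩ := hf2 w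
    obtain ⟨N, hN⟩ := hf2 w'
    have h1 := hM (max M N) (le_max_left _ _)
    have h2 := hN (max M N) (le_max_right _ _)
    rw [e1] at h1
    rw [e2] at h2
    omega
  · intro w
    apply huniq
    · exact hG.adj_smul t _ _ (hf1 w)
    · obtain ⟨M, hM⟩ := hf2 w
      refine ⟨M + 1, fun n hn => ?_⟩
      obtain ⟨m, rfl⟩ : ∃ m, n = m + 1 := ⟨n - 1, by omega⟩
      rw [pow_succ', mul_smul, hG.dist_smul, hG.dist_smul]
      exact hM m (by omega)

end Pool.Agent.SAF
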