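import Pool.Agent.SAF.A14

/-!
# SAF/A30: equivariant choices; the family of points
-/

namespace Pool.Agent.SAF

open MulAction

/-- Equivariant choice: an invariant property has an equivariant choice if every element has a
choice which is invariant under its stabiliser. -/
theorem exists_equivariant {H Y Z : Type} [Group H] [MulAction H Y] [MulAction H Z]
    (p : Y → Z → Prop) (hp : ∀ (h : H) y z, p y z → p (h • y) (h • z))
    (hex : ∀ y, ∃ z, p y z ∧ ∀ h : H, h • y = y → h • z = z) :
    ∃ c : Y → Z, (∀ y, p y (c y)) ∧ ∀ (h : H) y, c (h • y) = h • c y := by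
  classical
  choose z hz1 hz2 using hex
  have hr : ∃ r : Y → Y, (∀ y, ∃ g : H, g • r y = y) ∧ ∀ (h : H) y, r (h • y) = r y := by
    refine ⟨fun y => Quotient.out (Quotient.mk'' y : orbitRel.Quotient H Y), ?_, ?_⟩
    · intro y
      have h1 : (Quotient.mk'' (Quotient.out (Quotient.mk'' y : orbitRel.Quotient H Y)) :
          orbitRel.Quotient H Y) = Quotient.mk'' y := Quotient.out_eq' _
      have h2 := Quotient.exact h1
      have h3 : (orbitRel H Y) (Quotient.out (Quotient.mk'' y : orbitRel.Quotient H Y)) y := h2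
      have h4 := (orbitRel H Y).symm h3
      obtain ⟨g, hg⟩ := h4
      exact ⟨g, hg⟩
    · intro h y
      have : (Quotient.mk'' (h • y) : orbitRel.Quotient H Y) = Quotient.mk'' y := by
        rw [Quotient.eq'']
        exact ⟨h, rfl⟩
      simp only [this]
  obtain ⟨r, hr1, hr2⟩ := hr
  choose g hg using hr1
  refine ⟨fun y => g y • z (r y), ?_, ?_⟩
  · intro y
    have h1 := hp (g y) (r y) (z (r y)) (hz1 (r y))
    rw [hg] at h1
    exact h1
  · intro h y
    have h1 : ((h * g y)⁻¹ * g (h • y)) • r y = r y := by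
      rw [mul_smul]
      have h2 : g (h • y) • r y = h • y := by
        have := hg (h • y)
        rw [hr2] at this
        exact this
      rw [h2, inv_smul_eq_iff, mul_smul, hg]
    have h3 := hz2 (r y) _ h1
    rw [mul_smul, inv_smul_eq_iff, mul_smul] at h3
    change g (h • y) • z (r (h • y)) = h • g y • z (r y)
    rw [hr2]
    exact h3

variable {H : Type} [Group H] {Y : Type} [MulAction H Y]

/-- self-maps of an `H`-set, with the conjugation action -/
def FnX (X : Type) : Type := X → X

instance FnX.act {X : Type} [MulAction H X] : MulAction H (FnX X) where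
  smul h f := fun w => h • f (h⁻¹ • w)
  one_smul f := by
    funext w
    change (1 : H) • f ((1 : H)⁻¹ • w) = f w
    rw [inv_one, one_smul, one_smul]
  mul_smul a b f := by
    funext w
    change (a * b) • f ((a * b)⁻¹ • w) = a • (b • f (b⁻¹ • (a⁻¹ • w)))
    rw [mul_inv_rev, mul_smul, mul_smul]

theorem FnX.smul_apply {X : Type} [MulAction H X] (h : H) (f : FnX X) (w : X) :
    (h • f : FnX X) w = h • f (h⁻¹ • w) := rfl

/-- An equivariant family of points, one for each vertex of the complex. -/
theorem exists_points (hTF : TF H) (K : KS H Y) (D : Decomp H) :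
    ∃ f : Y → D.X → D.X, (∀ x ∈ K.P, Ori D.G (f x)) ∧
      (∀ (h : H) (x : Y) (w : D.X), f (h • x) (h • w) = h • f x w) ∧
      ∀ x ∈ K.P, (∃ w, f x w = w) ∨ ((∃ t : H, t • x = x ∧ t ≠ 1) ∧
        ∀ h : H, h • x = x → h ≠ 1 → ∀ w : D.X, h • w ≠ w) := by
  classical
  have hne : Nonempty D.X := D.tree.1.nonempty
  have key : ∃ c : Y → FnX D.X, (∀ x, x ∈ K.P → Ori D.G (c x) ∧ ((∃ w, c x w = w) ∨
      ((∃ t : H, t • x = x ∧ t ≠ 1) ∧ ∀ h : H, h • x = x → h ≠ 1 → ∀ w : D.X, h • w ≠ w))) ∧
      ∀ (h : H) x, c (h • x) = h • c x := by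
    apply exists_equivariant (H := H) (Y := Y) (Z := FnX D.X)
      (fun x f => x ∈ K.P → Ori D.G f ∧ ((∃ w, f w = w) ∨ ((∃ t : H, t • x = x ∧ t ≠ 1) ∧
        ∀ h : H, h • x = x → h ≠ 1 → ∀ w : D.X, h • w ≠ w)))
    · intro h x f hf hx
      have hx' : x ∈ K.P := by
        have := K.P_smul h⁻¹ _ hx
        rwa [inv_smul_smul] at this
      obtain ⟨ho, hd⟩ := hf hx'
      have hadj : ∀ a b : D.X, D.G.Adj (h⁻¹ • a) b → D.G.Adj a (h • b) := by
        intro a b hab
        have := D.adj_smul h _ _ hab
        rwa [smul_inv_smul] at this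
      refine ⟨⟨?_, ?_, ?_⟩, ?_⟩
      · intro w
        rcases ho.ok (h⁻¹ • w) with e | e
        · left
          rw [FnX.smul_apply, e, smul_inv_smul]
        · right
          rw [FnX.smul_apply]
          exact hadj _ _ e
      · intro w w' hw
        have hw' := D.adj_smul h⁻¹ _ _ hw
        rcases ho.one _ _ hw' with e | e
        · left
          rw [FnX.smul_apply, e, smul_inv_smul]
        · right
          rw [FnX.smul_apply, e, smul_inv_smul]
      · intro w w' hw
        have hw' := D.adj_smul h⁻¹ _ _ hw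
        rintro ⟨e1, e2⟩
        rw [FnX.smul_apply] at e1 e2
        apply ho.ntwo _ _ hw'
        constructor
        · exact eq_inv_smul_iff.2 e1
        · exact eq_inv_smul_iff.2 e2
      · rcases hd with ⟨w, hw⟩ | ⟨⟨t, ht, ht1⟩, hd⟩
        · left
          refine ⟨h • w, ?_⟩
          rw [FnX.smul_apply, inv_smul_smul, hw]
        · right
          refine ⟨⟨h * t * h⁻¹, ?_, ?_⟩, ?_⟩
          · rw [mul_smul, mul_smul, inv_smul_smul, ht]
          · intro e
            apply ht1
            have : t = h⁻¹ * (h * t * h⁻¹) * h := by group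
            rw [this, e]
            group
          · intro g hg hg1 w hw
            apply hd (h⁻¹ * g * h) ?_ ?_ (h⁻¹ • w)
            · rw [mul_smul, mul_smul, smul_inv_smul, hw]
            · rw [mul_smul, mul_smul, hg, inv_smul_smul]
            · intro e
              apply hg1
              have : g = h * (h⁻¹ * g * h) * h⁻¹ := by group
              rw [this, e]
              group
    · intro x
      by_cases hx : x ∈ K.P
      · obtain ⟨f, hf1, hf2, hf3⟩ := exists_ori_cyclic hTF D.tact hne (stabilizer H x) (K.cyc x hx)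
        refine ⟨f, fun _ => ⟨hf1, ?_⟩, ?_⟩
        · rcases hf3 with hw | ⟨-, ⟨t, ht, ht1⟩, h3⟩
          · exact Or.inl hw
          · exact Or.inr ⟨⟨t, ht, ht1⟩, fun h hh h1 w => h3 h hh h1 w⟩
        · intro h hh
          funext w
          rw [FnX.smul_apply]
          have hh' : h⁻¹ ∈ stabilizer H x := Subgroup.inv_mem _ hh
          rw [hf2 _ hh' w, smul_inv_smul]
      · refine ⟨(id : D.X → D.X), fun h => absurd h hx, ?_⟩
        intro h _
        funext w
        rw [FnX.smul_apply]
        change h • (h⁻¹ • w) = w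
        rw [smul_inv_smul]
  obtain ⟨c, hc1, hc2⟩ := key
  · refine ⟨c, fun x hx => (hc1 x hx).1, ?_, fun x hx => (hc1 x hx).2⟩
    intro h x w
    rw [hc2]
    change h • c x (h⁻¹ • (h • w)) = h • c x w
    rw [inv_smul_smul]

end Pool.Agent.SAF
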