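import Pool.Agent.SAF.ABase

/-!
Block [P]: a finitely presented group has a Rips type complex: the group itself with the left
multiplication action, edges `g, g * s` with `s` in a finite symmetric set `B`, triangles
`g, g * s, g * s * t`, such that every `F_2` cocycle is a coboundary.
-/

namespace Pool.Agent.SAF

open FreeGroup (mk of toWord norm_mk_le norm_inv_eq mk_toWord toWord_injective mul_mk inv_mk invRev)

namespace PresRaw

set_option linter.unusedSectionVars false

variable {G : Type*} [Group G] {n : ℕ} (φ : FreeGroup (Fin n) →* G)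

/-- images of the words of length at most `L` -/
def W (L : ℕ) : Set G := φ '' {w | FreeGroup.norm w ≤ L}

theorem W_finite (L : ℕ) : (W φ L).Finite := by
  apply Set.Finite.image
  have h : (Set.Finite {l : List (Fin n × Bool) | l.length ≤ L}) := List.finite_length_le _ _
  have := h.preimage (f := (toWord : FreeGroup (Fin n) → List (Fin n × Bool)))
    (toWord_injective.injOn)
  exact this

theorem W_one (L : ℕ) : (1 : G) ∈ W φ L := ⟨1, by simp [FreeGroup.norm_one], map_one φ⟩

theorem W_inv {L : ℕ} {g : G} (h : g ∈ W φ L) : g⁻¹ ∈ W φ L := by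
  obtain ⟨w, hw, rfl⟩ := h
  exact ⟨w⁻¹, by simpa [norm_inv_eq] using hw, map_inv φ w⟩

theorem mk_mem_W {L : ℕ} {l : List (Fin n × Bool)} (h : l.length ≤ L) : φ (mk l) ∈ W φ L :=
  ⟨mk l, le_trans norm_mk_le h, rfl⟩

section action

variable (c : G → G → ZMod 2)

/-- the cocycle extended by zero to the diagonal -/
noncomputable def cc (x y : G) : ZMod 2 := by
  classical exact if x = y then 0 else c x y

theorem cc_self (x : G) : cc c x x = 0 := by simp [cc]

theorem cc_ne {x y : G} (h : x ≠ y) : cc c x y = c x y := by simp [cc, h]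

theorem cc_symm (hs : ∀ x y, c x y = c y x) (x y : G) : cc c x y = cc c y x := by
  by_cases h : x = y
  · subst h; rfl
  · rw [cc_ne c h, cc_ne c (Ne.symm h), hs]

theorem two (a : ZMod 2) : a + a = 0 := CharTwo.add_self_eq_zero a

/-- the permutation given by a group element (right multiplication, adding the cocycle) -/
noncomputable def P (u : G) : Equiv.Perm (G × ZMod 2) where
  toFun p := (p.1 * u, p.2 + cc c p.1 (p.1 * u))
  invFun p := (p.1 * u⁻¹, p.2 + cc c (p.1 * u⁻¹) p.1)
  left_inv p := by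
    ext
    · simp
    · simp [add_assoc, two]
  right_inv p := by
    ext
    · simp
    · simp [add_assoc, two]

/-- the right action of the free group -/
noncomputable def rho : FreeGroup (Fin n) →* (Equiv.Perm (G × ZMod 2))ᵐᵒᵖ :=
  FreeGroup.lift (fun i => MulOpposite.op (P c (φ (of i))))

noncomputable def act (w : FreeGroup (Fin n)) (p : G × ZMod 2) : G × ZMod 2 :=
  (rho φ c w).unop p

theorem act_mul (u v : FreeGroup (Fin n)) (p : G × ZMod 2) :
    act φ c (u * v) p = act φ c v (act φ c u p) := by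
  simp [act, map_mul]

theorem act_one (p : G × ZMod 2) : act φ c 1 p = p := by
  simp [act]

theorem act_single (hs : ∀ x y, c x y = c y x) (i : Fin n) (b : Bool) (p : G × ZMod 2) :
    act φ c (mk [(i, b)]) p =
      (p.1 * φ (mk [(i, b)]), p.2 + cc c p.1 (p.1 * φ (mk [(i, b)]))) := by
  cases b
  · have h1 : (mk [(i, false)] : FreeGroup (Fin n)) = (of i)⁻¹ := by
      simp [of, inv_mk, invRev]
    rw [h1, map_inv]
    have : act φ c (of i)⁻¹ p = (P c (φ (of i))).symm p := by
      simp only [act, map_inv, MulOpposite.unop_inv]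
      simp [rho, FreeGroup.lift_apply_of]
    rw [this]
    show (p.1 * (φ (of i))⁻¹, p.2 + cc c (p.1 * (φ (of i))⁻¹) p.1) = _
    rw [cc_symm c hs]
  · have h1 : (mk [(i, true)] : FreeGroup (Fin n)) = of i := rfl
    rw [h1]
    simp [act, rho, P]

variable {L : ℕ}
  (hs : ∀ x y, c x y = c y x)
  (hc : ∀ x y z : G, x ≠ y → y ≠ z → x ≠ z → x⁻¹ * y ∈ W φ L → y⁻¹ * z ∈ W φ L →
    x⁻¹ * z ∈ W φ L → c x y + c y z + c x z = 0)

include hs hc

theorem cc_tri (g u v : G) (hu : u ∈ W φ L) (hv : v ∈ W φ L) (huv : u * v ∈ W φ L) :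
    cc c g (g * u) + cc c (g * u) (g * u * v) = cc c g (g * u * v) := by
  by_cases h1 : u = 1
  · subst h1; simp [cc_self]
  by_cases h2 : v = 1
  · subst h2; simp [cc_self]
  by_cases h3 : u * v = 1
  · have : g * u * v = g := by rw [mul_assoc, h3, mul_one]
    rw [this, cc_self, cc_symm c hs (g * u) g, two]
  · have e1 : g ≠ g * u := by simpa using h1
    have e2 : g * u ≠ g * u * v := by simpa using h2
    have e3 : g ≠ g * u * v := by
      rw [mul_assoc]; simpa using h3
    have := hc g (g * u) (g * u * v) e1 e2 e3 (by simpa using hu) (by simpa [mul_assoc] using hv)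
      (by simpa [mul_assoc] using huv)
    rw [cc_ne c e1, cc_ne c e2, cc_ne c e3]
    have h4 := two (c g (g * u * v))
    linear_combination this - h4

theorem act_word (l : List (Fin n × Bool)) : l.length ≤ L → ∀ p : G × ZMod 2,
    act φ c (mk l) p = (p.1 * φ (mk l), p.2 + cc c p.1 (p.1 * φ (mk l))) := by
  induction l with
  | nil =>
    intro _ p
    have : (mk ([] : List (Fin n × Bool))) = (1 : FreeGroup (Fin n)) := rfl
    rw [this, act_one, map_one, mul_one, cc_self, add_zero]
  | cons x l ih =>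
    intro hl p
    obtain ⟨i, b⟩ := x
    have hx : (mk ((i, b) :: l) : FreeGroup (Fin n)) = mk [(i, b)] * mk l := by
      rw [mul_mk]; rfl
    have hl' : l.length ≤ L := by
      simp only [List.length_cons] at hl; omega
    have h1 : 1 ≤ L := by
      simp only [List.length_cons] at hl; omega
    have t := cc_tri φ c hs hc p.1 (φ (mk [(i, b)])) (φ (mk l))
      (mk_mem_W φ (by simpa using h1)) (mk_mem_W φ hl')
      (by rw [← map_mul, ← hx]; exact mk_mem_W φ hl)
    rw [hx, act_mul, act_single φ c hs, ih hl', map_mul]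
    simp only [mul_assoc] at t ⊢
    rw [← t, add_assoc]

theorem act_norm (w : FreeGroup (Fin n)) (hw : FreeGroup.norm w ≤ L) (p : G × ZMod 2) :
    act φ c w p = (p.1 * φ w, p.2 + cc c p.1 (p.1 * φ w)) := by
  have := act_word φ c hs hc w.toWord hw p
  rwa [mk_toWord] at this

/-- `H^1 = 0` for the Rips complex. -/
theorem potential (hsurj : Function.Surjective φ) (R : Set (FreeGroup (Fin n)))
    (hR : ∀ r ∈ R, FreeGroup.norm r ≤ L) (hker : Subgroup.normalClosure R = φ.ker) :
    ∃ f : G → ZMod 2, ∀ x y : G, x ≠ y → x⁻¹ * y ∈ W φ L → c x y = f x + f y := by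
  have hrho : φ.ker ≤ (rho φ c).ker := by
    rw [← hker]
    apply Subgroup.normalClosure_le_normal
    intro r hr
    have hφ : φ r = 1 := by
      have : r ∈ φ.ker := by rw [← hker]; exact Subgroup.subset_normalClosure hr
      exact this
    show rho φ c r = 1
    apply MulOpposite.unop_injective
    ext1 p
    have := act_norm φ c hs hc r (hR r hr) p
    rw [hφ, mul_one, cc_self, add_zero] at this
    exact this
  have hwd : ∀ u v : FreeGroup (Fin n), φ u = φ v → ∀ p, act φ c u p = act φ c v p := by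
    intro u v h p
    have : rho φ c u = rho φ c v := by
      have h1 : u * v⁻¹ ∈ φ.ker := by
        rw [MonoidHom.mem_ker, map_mul, map_inv, h, mul_inv_cancel]
      have h2 := hrho h1
      rw [MonoidHom.mem_ker, map_mul, map_inv, mul_inv_eq_one] at h2
      exact h2
    simp only [act, this]
  choose w hw using hsurj
  have hfst : ∀ u : FreeGroup (Fin n), ∀ p, (act φ c u p).1 = p.1 * φ u := by
    intro u
    induction u using FreeGroup.induction_on with
    | C1 => intro p; simp [act_one]
    | of i => intro p; rw [show (of i : FreeGroup (Fin n)) = mk [(i, true)] from rfl,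
        act_single φ c hs]
    | inv_of i _ =>
      intro p
      have h1 : (of i : FreeGroup (Fin n))⁻¹ = mk [(i, false)] := by
        simp [of, inv_mk, invRev]
      rw [h1, act_single φ c hs]
    | mul u v hu hv => intro p; rw [act_mul, hv, hu, map_mul, mul_assoc]
  refine ⟨fun g => (act φ c (w g) (1, 0)).2, ?_⟩
  intro x y hxy hB
  obtain ⟨u, hu, hu'⟩ := hB
  have h1 : φ (w x * u) = φ (w y) := by
    rw [map_mul, hw, hw, hu']; simp
  have h2 := hwd _ _ h1 (1, 0)
  rw [act_mul, act_norm φ c hs hc u hu, hfst, hw] at h2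
  have h3 := congrArg Prod.snd h2
  simp only at h3
  rw [hu'] at h3
  simp only [one_mul, mul_inv_cancel_left] at h3
  rw [cc_ne c hxy] at h3
  show c x y = (act φ c (w x) (1, 0)).2 + (act φ c (w y) (1, 0)).2
  rw [← h3, ← add_assoc, two, zero_add]

end action

end PresRaw

/-- Block [P], raw form. -/
theorem exists_rips (G : Type) [Group G] [hG : Group.IsFinitelyPresented G] :
    ∃ B : Set G, B.Finite ∧ (1 : G) ∉ B ∧ (∀ s ∈ B, s⁻¹ ∈ B) ∧
      (∀ x y : G, Relation.ReflTransGen (fun a b => a⁻¹ * b ∈ B) x y) ∧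
      ∀ c : G → G → ZMod 2, (∀ x y, c x y = c y x) →
        (∀ x y z : G, x⁻¹ * y ∈ B → y⁻¹ * z ∈ B → x⁻¹ * z ∈ B → c x y + c y z + c x z = 0) →
        ∃ f : G → ZMod 2, ∀ x y : G, x⁻¹ * y ∈ B → c x y = f x + f y := by
  obtain ⟨n, φ, hsurj, R, hRfin, hker⟩ := hG.out
  obtain ⟨L0, hL0⟩ : ∃ L0 : ℕ, ∀ r ∈ R, FreeGroup.norm r ≤ L0 := by
    obtain ⟨L0, h⟩ := (hRfin.image FreeGroup.norm).bddAbove
    exact ⟨L0, fun r hr => h (Set.mem_image_of_mem _ hr)⟩
  set L := L0 + 1 with hL
  have hBiff : ∀ x y : G, x⁻¹ * y ∈ PresRaw.W φ L \ {1} ↔ x ≠ y ∧ x⁻¹ * y ∈ PresRaw.W φ L := by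
    intro x y
    rw [Set.mem_sdiff, Set.mem_singleton_iff, inv_mul_eq_one, and_comm]
  refine ⟨PresRaw.W φ L \ {1}, (PresRaw.W_finite φ L).subset Set.sdiff_subset, by simp, ?_, ?_, ?_⟩
  · rintro s ⟨hs, h1⟩
    exact ⟨PresRaw.W_inv φ hs, by simpa using h1⟩
  · intro x y
    have key : ∀ l : List (Fin n × Bool), ∀ g : G,
        Relation.ReflTransGen (fun a b => a⁻¹ * b ∈ PresRaw.W φ L \ {1}) g (g * φ (mk l)) := by
      intro l
      induction l with
      | nil =>
        intro g
        have : (mk ([] : List (Fin n × Bool))) = (1 : FreeGroup (Fin n)) := rfl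
        rw [this, map_one, mul_one]
      | cons a l ih =>
        intro g
        have hx : (mk (a :: l) : FreeGroup (Fin n)) = mk [a] * mk l := by
          rw [mul_mk]; rfl
        rw [hx, map_mul, ← mul_assoc]
        by_cases h : φ (mk [a]) = 1
        · rw [h, mul_one]; exact ih g
        · refine Relation.ReflTransGen.head ?_ (ih _)
          refine ⟨?_, ?_⟩
          · rw [inv_mul_cancel_left]
            exact PresRaw.mk_mem_W φ (by simp [hL])
          · rw [inv_mul_cancel_left]; exact h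
    obtain ⟨w, hw⟩ := hsurj (x⁻¹ * y)
    have := key w.toWord x
    rw [mk_toWord, hw, mul_inv_cancel_left] at this
    exact this
  · intro c hs hc
    obtain ⟨f, hf⟩ := PresRaw.potential φ c (L := L) hs
      (fun x y z h1 h2 h3 h4 h5 h6 => hc x y z ((hBiff x y).2 ⟨h1, h4⟩) ((hBiff y z).2 ⟨h2, h5⟩)
        ((hBiff x z).2 ⟨h3, h6⟩)) hsurj R (fun r hr => le_trans (hL0 r hr) (by omega)) hker
    exact ⟨f, fun x y h => hf x y ((hBiff x y).1 h).1 ((hBiff x y).1 h).2⟩



open MulAction in
/-- Every finitely presented group acts on a complex with `H^1 = 0`, cofinitely and freely on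
vertices. -/
theorem exists_KS (G : Type) [Group G] [Group.IsFinitelyPresented G] :
    ∃ (Y : Type) (_ : MulAction G Y), Nonempty (KS G Y) := by
  obtain ⟨B, hfin, h1, hinv, hconn, hH⟩ := exists_rips G
  have hsm : ∀ (h x : G), h • x = h * x := fun _ _ => rfl
  have hcancel : ∀ h x y : G, (h • x)⁻¹ * (h • y) = x⁻¹ * y := by
    intro h x y; rw [hsm, hsm]; group
  have hsymm : ∀ x y : G, x⁻¹ * y ∈ B → y⁻¹ * x ∈ B := by
    intro x y h
    have := hinv _ h
    rwa [mul_inv_rev, inv_inv] at this
  refine ⟨G, inferInstance, ⟨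
    { P := Set.univ
      E := fun x y => x⁻¹ * y ∈ B
      T := fun x y z => x⁻¹ * y ∈ B ∧ y⁻¹ * z ∈ B ∧ x⁻¹ * z ∈ B
      E_symm := hsymm
      E_irr := fun x h => h1 (by simpa using h)
      E_P := fun _ _ _ => trivial
      T_swap := fun x y z h => ⟨hsymm _ _ h.1, h.2.2, h.2.1⟩
      T_rot := fun x y z h => ⟨h.2.1, hsymm _ _ h.2.2, hsymm _ _ h.1⟩
      T_E := fun x y z h => h.1
      P_smul := fun _ _ _ => trivial
      E_smul := fun h x y e => by rw [hcancel]; exact e
      T_smul := fun h x y z e => by rw [hcancel, hcancel, hcancel]; exact e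
      ne := ⟨1, trivial⟩
      conn := fun x _ y _ => hconn x y
      H1 := fun φ hs hc => hH φ hs (fun x y z a b c => hc x y z ⟨a, b, c⟩)
      finP := ?_
      finE := ?_
      finT := ?_
      cyc := ?_ }⟩⟩
  · unfold FinOrb orbs
    apply (Set.finite_singleton (Quotient.mk'' (1 : G) : orbitRel.Quotient G G)).subset
    rintro _ ⟨y, _, rfl⟩
    rw [Set.mem_singleton_iff]
    apply Quotient.sound'
    exact ⟨y, by simp⟩
  · unfold FinOrb orbs
    apply (hfin.image (fun b => (Quotient.mk'' ((1 : G), b) :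
      orbitRel.Quotient G (G × G)))).subset
    rintro _ ⟨⟨x, y⟩, hxy, rfl⟩
    refine ⟨x⁻¹ * y, hxy, ?_⟩
    apply Quotient.sound'
    refine ⟨x⁻¹, ?_⟩
    simp
  · unfold FinOrb orbs
    apply ((hfin.prod hfin).image (fun b => (Quotient.mk'' ((1 : G), b.1, b.2) :
      orbitRel.Quotient G (G × G × G)))).subset
    rintro _ ⟨⟨x, y, z⟩, hxy, rfl⟩
    refine ⟨(x⁻¹ * y, x⁻¹ * z), ⟨hxy.1, hxy.2.2⟩, ?_⟩
    apply Quotient.sound'
    refine ⟨x⁻¹, ?_⟩
    simp
  · intro x _
    apply cyclic_of_trivial
    rintro ⟨g, hg⟩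
    have : g • x = x := hg
    rw [hsm] at this
    exact Subtype.ext (by simpa using this)

end Pool.Agent.SAF
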