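import Pool.Agent.SAF.AOrb

/-!
# SAF/A34: finitely many orbits in fibred situations
-/

namespace Pool.Agent.SAF

open MulAction

/-- `FinOrb` in a fibred situation: finitely many orbits below, finitely many orbits of the
stabiliser in each fibre. -/
theorem finOrb_fibre {H Y Z : Type} [Group H] [MulAction H Y] [MulAction H Z]
    (s : Set Y) (hs : FinOrb H s) (F : Y → Set Z)
    (hF : ∀ (h : H) y, y ∈ s → ∀ z ∈ F y, h • z ∈ F (h • y))
    (hfin : ∀ y ∈ s, FinOrb ↥(stabilizer H y) (F y)) :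
    FinOrb H {p : Y × Z | p.1 ∈ s ∧ p.2 ∈ F p.1} := by
  classical
  obtain ⟨R, hR, hRs, hRr⟩ := FinOrb_iff.1 hs
  have hex : ∀ y : Y, ∃ T : Set Z, T.Finite ∧ (y ∈ s → T ⊆ F y ∧
      ∀ z ∈ F y, ∃ t ∈ T, ∃ h : ↥(stabilizer H y), h • t = z) := by
    intro y
    by_cases hy : y ∈ s
    · obtain ⟨T, h1, h2, h3⟩ := FinOrb_iff.1 (hfin y hy)
      exact ⟨T, h1, fun _ => ⟨h2, h3⟩⟩
    · exact ⟨∅, Set.finite_empty, fun h => absurd h hy⟩
  choose T hT1 hT2 using hex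
  apply FinOrb_iff.2
  refine ⟨{p : Y × Z | p.1 ∈ R ∧ p.2 ∈ T p.1}, ?_, ?_, ?_⟩
  · have : {p : Y × Z | p.1 ∈ R ∧ p.2 ∈ T p.1} = ⋃ y ∈ R, (fun z => (y, z)) '' T y := by
      ext ⟨y, z⟩
      simp only [Set.mem_iUnion, Set.mem_image, Prod.mk.injEq]
      constructor
      · rintro ⟨h1, h2⟩
        exact ⟨y, h1, z, h2, rfl, rfl⟩
      · rintro ⟨y', h1, z', h2, rfl, rfl⟩
        exact ⟨h1, h2⟩
    rw [this]
    exact hR.biUnion (fun y _ => (hT1 y).image _)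
  · rintro ⟨y, z⟩ ⟨h1, h2⟩
    exact ⟨hRs h1, (hT2 y (hRs h1)).1 h2⟩
  · rintro ⟨y, z⟩ ⟨h1, h2⟩
    obtain ⟨r, hr, h, rfl⟩ := hRr y h1
    have h3 : h⁻¹ • z ∈ F r := by
      have := hF h⁻¹ _ h1 z h2
      rwa [inv_smul_smul] at this
    obtain ⟨t, ht, g, hg⟩ := (hT2 r (hRs hr)).2 _ h3
    refine ⟨(r, t), ⟨hr, ht⟩, h * g.1, ?_⟩
    have h4 : g.1 • r = r := g.2
    have h5 : g.1 • t = h⁻¹ • z := hg
    refine Prod.ext ?_ ?_
    · change (h * g.1) • r = h • r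
      rw [mul_smul, h4]
    · change (h * g.1) • t = z
      rw [mul_smul, h5, smul_inv_smul]

/-- Finitely many orbits of pairs give finitely many orbits of the stabiliser in a fibre. -/
theorem finOrb_of_pair {H Y Z : Type} [Group H] [MulAction H Y] [MulAction H Z]
    (q : Set (Y × Z)) (hq : FinOrb H q) (y : Y) :
    FinOrb ↥(stabilizer H y) {z : Z | (y, z) ∈ q} := by
  apply FinOrb.of_inj hq (fun z => (y, z))
  · intro z hz
    exact hz
  · rintro a _ b _ ⟨h, e⟩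
    exact ⟨⟨h, congrArg Prod.fst e⟩, congrArg Prod.snd e⟩

theorem finOrb_union {H Y : Type} [Group H] [MulAction H Y] {s t : Set Y} (hs : FinOrb H s)
    (ht : FinOrb H t) : FinOrb H (s ∪ t) := by
  have : orbs H (s ∪ t) = orbs H s ∪ orbs H t := Set.image_union _ _ _
  unfold FinOrb
  rw [this]
  exact Set.Finite.union hs ht

end Pool.Agent.SAF
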