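import Pool.Agent.SAF.A00
import Pool.Agent.SAF.AOrb

/-!
# SAF/A10: trees: cuts and potentials
-/

namespace Pool.Agent.SAF

/-- a vertex closer to `u` than to `v` is joined to `u` without the edge `u v` -/
theorem reach_cut {X : Type} (G : SimpleGraph X) (hG : G.IsTree) (u v : X) (huv : G.Adj u v) :
    ∀ (n : ℕ) (w : X), G.dist w u = n → G.dist w v = n + 1 →
      (G.deleteEdges {s(u, v)}).Reachable w u := by
  intro n
  induction n with
  | zero =>
    intro w h1 _
    have : w = u := (hG.connected.dist_eq_zero_iff).1 h1
    subst this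
    exact SimpleGraph.Reachable.refl _
  | succ n ih =>
    intro w h1 h2
    obtain ⟨p, hp⟩ := hG.connected.exists_walk_length_eq_dist w u
    cases p with
    | nil =>
      exact SimpleGraph.Reachable.refl _
    | @cons _ w' _ hadj q =>
      rw [SimpleGraph.Walk.length_cons, h1] at hp
      have hq : G.dist w' u ≤ q.length := SimpleGraph.dist_le q
      have t1 : G.dist w u ≤ G.dist w w' + G.dist w' u := hG.connected.dist_triangle
      have t2 : G.dist w v ≤ G.dist w w' + G.dist w' v := hG.connected.dist_triangle
      have t3 : G.dist w w' = 1 := SimpleGraph.dist_eq_one_iff_adj.2 hadj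
      have h3 : G.dist w' u = n := by omega
      have h4 : G.dist w' v = n + 1 := by
        have := hG.dist_eq_dist_add_one_of_adj w' huv
        omega
      have hr := ih w' h3 h4
      refine SimpleGraph.Reachable.trans (SimpleGraph.Adj.reachable ?_) hr
      rw [SimpleGraph.deleteEdges_adj]
      refine ⟨hadj, ?_⟩
      intro hmem
      rw [Set.mem_singleton_iff, Sym2.eq_iff] at hmem
      rcases hmem with ⟨e1, e2⟩ | ⟨e1, e2⟩
      · rw [e1, SimpleGraph.dist_self] at h1
        omega
      · rw [e1, SimpleGraph.dist_self] at h2
        omega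

/-- In a tree every edge has a function on the vertices which changes exactly across it. -/
theorem exists_cut {X : Type} (G : SimpleGraph X) (hG : G.IsTree) (u v : X) (huv : G.Adj u v) :
    ∃ g : X → ZMod 2, (∀ a b, G.Adj a b →
      (g a ≠ g b ↔ ((a = u ∧ b = v) ∨ (a = v ∧ b = u)))) ∧
      (∀ w, g w = 0 ↔ G.dist w v = G.dist w u + 1) ∧ (∀ w, g w = 1 ↔ G.dist w u = G.dist w v + 1) := by
  classical
  have hbr : ¬ (G.deleteEdges {s(u, v)}).Reachable u v := by
    have := (SimpleGraph.isAcyclic_iff_forall_adj_isBridge.1 hG.isAcyclic) huv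
    rwa [SimpleGraph.isBridge_iff] at this
  have hdi : ∀ w, G.dist w u = G.dist w v + 1 ∨ G.dist w v = G.dist w u + 1 := fun w =>
    hG.dist_eq_dist_add_one_of_adj w huv
  have hru : ∀ w, G.dist w v = G.dist w u + 1 → (G.deleteEdges {s(u, v)}).Reachable w u :=
    fun w h => reach_cut G hG u v huv _ w rfl h
  have hrv : ∀ w, G.dist w u = G.dist w v + 1 → (G.deleteEdges {s(u, v)}).Reachable w v := by
    intro w h
    have := reach_cut G hG v u huv.symm _ w rfl h
    rwa [Sym2.eq_swap] at this
  have hexcl : ∀ a b, G.dist a v = G.dist a u + 1 → G.dist b u = G.dist b v + 1 →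
      G.Adj a b → a = u ∧ b = v := by
    intro a b ha hb hab
    by_contra hne
    have hnot : s(a, b) ≠ s(u, v) := by
      intro e
      rw [Sym2.eq_iff] at e
      rcases e with e | ⟨e1, e2⟩
      · exact hne e
      · rw [e1, SimpleGraph.dist_self] at ha
        omega
    have hadj : (G.deleteEdges {s(u, v)}).Adj a b := by
      rw [SimpleGraph.deleteEdges_adj]
      exact ⟨hab, fun h => hnot h⟩
    exact hbr ((hru a ha).symm.trans (hadj.reachable.trans (hrv b hb)))
  refine ⟨fun w => if G.dist w v = G.dist w u + 1 then 0 else 1, ?_, ?_, ?_⟩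
  · intro a b hab
    constructor
    · intro hne
      dsimp only at hne
      by_cases ha : G.dist a v = G.dist a u + 1
      · by_cases hb : G.dist b v = G.dist b u + 1
        · rw [if_pos ha, if_pos hb] at hne
          exact absurd rfl hne
        · have hb' : G.dist b u = G.dist b v + 1 := (hdi b).resolve_right hb
          exact Or.inl (hexcl a b ha hb' hab)
      · have ha' : G.dist a u = G.dist a v + 1 := (hdi a).resolve_right ha
        by_cases hb : G.dist b v = G.dist b u + 1
        · obtain ⟨e1, e2⟩ := hexcl b a hb ha' hab.symm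
          exact Or.inr ⟨e2, e1⟩
        · rw [if_neg ha, if_neg hb] at hne
          exact absurd rfl hne
    · have hu : G.dist u v = G.dist u u + 1 := by
        rw [SimpleGraph.dist_self, SimpleGraph.dist_eq_one_iff_adj.2 huv]
      have hv : ¬ G.dist v v = G.dist v u + 1 := by
        rw [SimpleGraph.dist_self]
        omega
      rintro (⟨rfl, rfl⟩ | ⟨rfl, rfl⟩)
      · dsimp only
        rw [if_pos hu, if_neg hv]
        exact zero_ne_one
      · dsimp only
        rw [if_pos hu, if_neg hv]
        exact one_ne_zero
  · intro w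
    dsimp only
    constructor
    · intro h
      by_contra hne
      rw [if_neg hne] at h
      exact one_ne_zero h
    · intro h
      rw [if_pos h]
  · intro w
    dsimp only
    constructor
    · intro h
      rcases hdi w with e | e
      · exact e
      · rw [if_pos e] at h
        exact absurd h zero_ne_one
    · intro h
      rw [if_neg (by omega)]

/-- Potentials on trees. -/
theorem tree_potential {X : Type} (G : SimpleGraph X) (hG : G.IsTree) (ψ : X → X → ZMod 2)
    (hs : ∀ u v, G.Adj u v → ψ u v = ψ v u) :
    ∃ p : X → ZMod 2, ∀ u v, G.Adj u v → ψ u v = p u + p v := by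
  classical
  obtain ⟨r⟩ := hG.connected.nonempty
  have hex : ∀ w, ∃ q : G.Walk r w, q.IsPath ∧ q.length = G.dist r w := fun w =>
    hG.connected.exists_path_of_dist r w
  choose P hP hPl using hex
  let σ : ∀ {a b : X}, G.Walk a b → ZMod 2 := fun q =>
    (q.darts.map (fun d => ψ d.fst d.snd)).sum
  have key : ∀ u v, G.Adj u v → G.dist r v = G.dist r u + 1 → σ (P v) = σ (P u) + ψ u v := by
    intro u v huv hd
    have hc : ((P u).concat huv).IsPath := by
      apply SimpleGraph.Walk.isPath_of_length_eq_dist
      rw [SimpleGraph.Walk.length_concat, hPl, hd]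
    have e : (P u).concat huv = P v :=
      (hG.existsUnique_path r v).unique hc (hP v)
    rw [← e]
    change ((((P u).concat huv).darts.map (fun d => ψ d.fst d.snd)).sum) = _
    rw [SimpleGraph.Walk.darts_concat]
    simp [σ]
  refine ⟨fun w => σ (P w), fun u v huv => ?_⟩
  have h2 : ∀ x : ZMod 2, x + x = 0 := CharTwo.add_self_eq_zero
  dsimp only
  rcases hG.dist_eq_dist_add_one_of_adj r huv with e | e
  · rw [key v u huv.symm e, hs u v huv]
    have := h2 (σ (P v))
    linear_combination -this
  · rw [key u v huv e]
    have := h2 (σ (P u))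
    linear_combination -this

/-- Connectivity of the relation of a graph. -/
theorem connected_of_rtg {X : Type} (G : SimpleGraph X) (hne : Nonempty X)
    (h : ∀ x y, Relation.ReflTransGen G.Adj x y) : G.Connected :=
  { preconnected := fun x y => (SimpleGraph.reachable_iff_reflTransGen x y).2 (h x y)
    nonempty := hne }

end Pool.Agent.SAF
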