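import Pool.Agent.SAF.BTree
import Pool.Agent.SAF.AOrb
import Pool.Agent.SAF.A10

/-!
# SAF, module BColl: collapsing the edges with nontrivial stabiliser of a tree

Proof of `tree_collapse`. Let `C a b` be: `a`, `b` adjacent and some `j` not `1` fixes both. The classes
of `EqvGen C` are subtrees; the new graph has the classes as vertices, two different classes are
adjacent if they contain adjacent vertices. It is a tree (use `isTree_of_cut`: the side function
of an edge `a b` of `D.G` which is not in `C` is constant on classes), without inversions (an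
inversion of classes would invert the unique edge of `D.G` between them), edge stabilisers are
trivial (they fix the unique edge of `D.G` between the classes).
-/

namespace Pool.Agent.SAF

open MulAction

/-- an edge with nontrivial stabiliser -/
def Cj (H : Type) [Group H] {X : Type} [MulAction H X] (G : SimpleGraph X) (a b : X) : Prop :=
  G.Adj a b ∧ ∃ j : H, j ≠ 1 ∧ j • a = a ∧ j • b = b

private theorem cj_symm {H : Type} [Group H] {X : Type} [MulAction H X] {G : SimpleGraph X}
    {a b : X} (h : Cj H G a b) : Cj H G b a := by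
  obtain ⟨h1, j, h2, h3, h4⟩ := h
  exact ⟨h1.symm, j, h2, h4, h3⟩

private theorem cj_smul {H : Type} [Group H] (D : Decomp H) (h : H) {a b : D.X}
    (e : Cj H D.G a b) : Cj H D.G (h • a) (h • b) := by
  obtain ⟨h1, j, h2, h3, h4⟩ := e
  refine ⟨D.adj_smul h _ _ h1, h * j * h⁻¹, ?_, ?_, ?_⟩
  · intro e
    apply h2
    have : j = h⁻¹ * (h * j * h⁻¹) * h := by group
    rw [this, e]
    group
  · rw [mul_smul, mul_smul, inv_smul_smul, h3]
  · rw [mul_smul, mul_smul, inv_smul_smul, h4]

private theorem cjr_smul {H : Type} [Group H] (D : Decomp H) (h : H) {a b : D.X}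
    (e : Relation.EqvGen (Cj H D.G) a b) : Relation.EqvGen (Cj H D.G) (h • a) (h • b) := by
  induction e with
  | rel x y hxy => exact Relation.EqvGen.rel _ _ (cj_smul D h hxy)
  | refl x => exact Relation.EqvGen.refl _
  | symm x y _ ih => exact Relation.EqvGen.symm _ _ ih
  | trans x y z _ _ ih1 ih2 => exact Relation.EqvGen.trans _ _ _ ih1 ih2

/-- the cut function of an edge which is not in `Cj` is constant on classes -/
private theorem cut_const {H : Type} [Group H] {D : Decomp H} {u v : D.X}
    (hnc : ¬ Cj H D.G u v) {g : D.X → ZMod 2}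
    (hg : ∀ a b, D.G.Adj a b → (g a ≠ g b ↔ ((a = u ∧ b = v) ∨ (a = v ∧ b = u))))
    {a b : D.X} (e : Relation.EqvGen (Cj H D.G) a b) : g a = g b := by
  induction e with
  | rel x y hxy =>
    by_contra hne
    rcases (hg x y hxy.1).1 hne with ⟨rfl, rfl⟩ | ⟨rfl, rfl⟩
    · exact hnc hxy
    · exact hnc (cj_symm hxy)
  | refl x => rfl
  | symm x y _ ih => exact ih.symm
  | trans x y z _ _ ih1 ih2 => exact ih1.trans ih2

/-- an adjacent pair in one class is in `Cj` -/
private theorem cj_of_class {H : Type} [Group H] {D : Decomp H} {u v : D.X}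
    (huv : D.G.Adj u v) (e : Relation.EqvGen (Cj H D.G) u v) : Cj H D.G u v := by
  by_contra hnc
  obtain ⟨g, hg, _, _⟩ := exists_cut D.G D.tree u v huv
  have h1 := cut_const hnc hg e
  exact (hg u v huv).2 (Or.inl ⟨rfl, rfl⟩) h1

/-- a walk between vertices with different values of `g` has an edge where `g` changes -/
private theorem exists_cross {X : Type} {G : SimpleGraph X} (hc : G.Connected)
    (g : X → ZMod 2) {a b : X} (p : G.Walk a b) (h : g a ≠ g b) :
    ∃ c d, G.Adj c d ∧ g c ≠ g d ∧ G.dist a c + 1 + G.dist d b ≤ p.length := by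
  induction p with
  | nil => exact absurd rfl h
  | @cons a a' b hadj q ih =>
    by_cases e : g a = g a'
    · rw [e] at h
      obtain ⟨c, d, h1, h2, h3⟩ := ih h
      refine ⟨c, d, h1, h2, ?_⟩
      have t1 : G.dist a c ≤ G.dist a a' + G.dist a' c := hc.dist_triangle
      have t2 : G.dist a a' = 1 := SimpleGraph.dist_eq_one_iff_adj.2 hadj
      rw [SimpleGraph.Walk.length_cons]
      omega
    · refine ⟨a, a', hadj, e, ?_⟩
      have := SimpleGraph.dist_le q
      rw [SimpleGraph.Walk.length_cons, SimpleGraph.dist_self]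
      omega

/-- the same for geodesics -/
private theorem exists_cross' {X : Type} {G : SimpleGraph X} (hc : G.Connected)
    (g : X → ZMod 2) {a b : X} (h : g a ≠ g b) :
    ∃ c d, G.Adj c d ∧ g c ≠ g d ∧ G.dist a c + 1 + G.dist d b ≤ G.dist a b := by
  obtain ⟨p, hp⟩ := hc.exists_walk_length_eq_dist a b
  rw [← hp]
  exact exists_cross hc g p h

/-- values of the cut function at the ends of a geodesic through the edge -/
private theorem cut_ends {X : Type} {G : SimpleGraph X} (hc : G.Connected) {u v : X}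
    {a b : X} (h1 : G.dist a u + 1 + G.dist v b = G.dist a b) (huv : G.Adj u v) :
    G.dist a v = G.dist a u + 1 ∧ G.dist b u = G.dist b v + 1 := by
  have t1 : G.dist a b ≤ G.dist a v + G.dist v b := hc.dist_triangle
  have t2 : G.dist a v ≤ G.dist a u + G.dist u v := hc.dist_triangle
  have t3 : G.dist a b ≤ G.dist a u + G.dist u b := hc.dist_triangle
  have t4 : G.dist u b ≤ G.dist u v + G.dist v b := hc.dist_triangle
  have t5 : G.dist u v = 1 := SimpleGraph.dist_eq_one_iff_adj.2 huv
  rw [G.dist_comm (u := b) (v := u), G.dist_comm (u := b) (v := v)]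
  omega

/-- an edge on a geodesic of a tree is determined by the distance from the origin -/
private theorem geod_unique {X : Type} {G : SimpleGraph X} (hG : G.IsTree) {y z u v u' v' : X}
    (huv : G.Adj u v) (huv' : G.Adj u' v') (h1 : G.dist y u + 1 + G.dist v z = G.dist y z)
    (h2 : G.dist y u' + 1 + G.dist v' z = G.dist y z) (h3 : G.dist y u' = G.dist y u) :
    u' = u ∧ v' = v := by
  have hc := hG.connected
  obtain ⟨g, hg, hg0, hg1⟩ := exists_cut G hG u v huv
  obtain ⟨e1, e2⟩ := cut_ends hc h1 huv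
  have gy : g y = 0 := (hg0 y).2 e1
  have gz : g z = 1 := (hg1 z).2 e2
  have hzu : G.dist u z = G.dist v z + 1 := by
    rw [G.dist_comm (u := u) (v := z), G.dist_comm (u := v) (v := z)]
    exact e2
  have gu' : g u' = g y := by
    by_contra hne
    obtain ⟨c, d, c1, c2, c3⟩ := exists_cross' hc g (fun e => hne e.symm : g y ≠ g u')
    rcases (hg c d c1).1 c2 with ⟨rfl, rfl⟩ | ⟨rfl, rfl⟩
    · omega
    · omega
  have gv' : g v' = g z := by
    by_contra hne
    obtain ⟨c, d, c1, c2, c3⟩ := exists_cross' hc g hne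
    rcases (hg c d c1).1 c2 with ⟨rfl, rfl⟩ | ⟨rfl, rfl⟩
    · omega
    · omega
  have hne : g u' ≠ g v' := by
    rw [gu', gv', gy, gz]
    exact zero_ne_one
  rcases (hg u' v' huv').1 hne with e | ⟨rfl, rfl⟩
  · exact e
  · exfalso
    have : g u' = 1 := (hg1 u').2 (by
      rw [SimpleGraph.dist_self, SimpleGraph.dist_eq_one_iff_adj.2 huv.symm])
    rw [gu', gy] at this
    exact zero_ne_one this

private theorem dist_smul_le {H : Type} [Group H] (D : Decomp H) (h : H) (a b : D.X) :
    D.G.dist (h • a) (h • b) ≤ D.G.dist a b := by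
  obtain ⟨p, hp⟩ := D.tree.connected.exists_walk_length_eq_dist a b
  let f : D.G →g D.G := ⟨fun x => h • x, fun {a b} e => D.adj_smul h a b e⟩
  have := SimpleGraph.dist_le (p.map f)
  rw [SimpleGraph.Walk.length_map, hp] at this
  exact this

private theorem dist_smul_eq {H : Type} [Group H] (D : Decomp H) (h : H) (a b : D.X) :
    D.G.dist (h • a) (h • b) = D.G.dist a b := by
  apply le_antisymm (dist_smul_le D h a b)
  have := dist_smul_le D h⁻¹ (h • a) (h • b)
  rwa [inv_smul_smul, inv_smul_smul] at this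

/-- an edge which is not in `Cj` separates: if `a`, `b` are in the same class of `Cj` then the
geodesic between them contains no edge outside `Cj` -/
theorem collapse_sep {H : Type} [Group H] (D : Decomp H) {a b u v : D.X}
    (hab : Relation.EqvGen (Cj H D.G) a b) (huv : D.G.Adj u v)
    (h1 : D.G.dist a u + 1 + D.G.dist v b = D.G.dist a b) : Cj H D.G u v := by
  by_contra hnc
  obtain ⟨g, hg, hg0, hg1⟩ := exists_cut D.G D.tree u v huv
  obtain ⟨e1, e2⟩ := cut_ends D.tree.connected h1 huv
  have e := cut_const hnc hg hab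
  rw [(hg0 a).2 e1, (hg1 b).2 e2] at e
  exact zero_ne_one e

/-- a geodesic between vertices of different classes contains an edge outside `Cj` -/
private theorem exists_out {H : Type} [Group H] {D : Decomp H} :
    ∀ (n : ℕ) (a b : D.X), D.G.dist a b = n → ¬ Relation.EqvGen (Cj H D.G) a b →
      ∃ u v, D.G.Adj u v ∧ ¬ Cj H D.G u v ∧ D.G.dist a u + 1 + D.G.dist v b = D.G.dist a b := by
  have hc := D.tree.connected
  intro n
  induction n with
  | zero =>
    intro a b h1 h2
    have : a = b := (hc.dist_eq_zero_iff).1 h1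
    subst this
    exact absurd (Relation.EqvGen.refl _) h2
  | succ n ih =>
    intro a b h1 h2
    obtain ⟨p, hp⟩ := hc.exists_walk_length_eq_dist a b
    cases p with
    | nil => exact absurd (Relation.EqvGen.refl _) h2
    | @cons _ a' _ hadj q =>
      rw [SimpleGraph.Walk.length_cons, h1] at hp
      have hq : D.G.dist a' b ≤ q.length := SimpleGraph.dist_le q
      have t1 : D.G.dist a b ≤ D.G.dist a a' + D.G.dist a' b := hc.dist_triangle
      have t3 : D.G.dist a a' = 1 := SimpleGraph.dist_eq_one_iff_adj.2 hadj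
      have h3 : D.G.dist a' b = n := by omega
      by_cases hC : Cj H D.G a a'
      · obtain ⟨u, v, c1, c2, c3⟩ := ih a' b h3 (fun e =>
          h2 (Relation.EqvGen.trans _ _ _ (Relation.EqvGen.rel _ _ hC) e))
        refine ⟨u, v, c1, c2, ?_⟩
        have t4 : D.G.dist a u ≤ D.G.dist a a' + D.G.dist a' u := hc.dist_triangle
        have t5 : D.G.dist a b ≤ D.G.dist a u + D.G.dist u b := hc.dist_triangle
        have t6 : D.G.dist u b ≤ D.G.dist u v + D.G.dist v b := hc.dist_triangle
        have t7 : D.G.dist u v = 1 := SimpleGraph.dist_eq_one_iff_adj.2 c1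
        omega
      · refine ⟨a, a', hadj, hC, ?_⟩
        rw [SimpleGraph.dist_self]
        omega

/-- Proof: let `h` fix `y`. The geodesic from `y` to `x` contains an edge `a b` not in `Cj`; it
separates `y` from the whole `Cj`-class of `x`, which contains `h • x`; so `h` fixes the first such
edge, `h = 1`. -/
theorem collapse_fixed {H : Type} [Group H] (D : Decomp H) (x : D.X)
    (hx : ∀ h : H, Relation.EqvGen (Cj H D.G) (h • x) x) (y : D.X)
    (hy : ∃ h : H, h ≠ 1 ∧ h • y = y) : Relation.EqvGen (Cj H D.G) y x := by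
  by_contra hn
  obtain ⟨h, h1, h2⟩ := hy
  have hc := D.tree.connected
  obtain ⟨u, v, huv, hnc, hd⟩ := exists_out _ y x rfl hn
  obtain ⟨g, hg, hg0, hg1⟩ := exists_cut D.G D.tree u v huv
  obtain ⟨e1, e2⟩ := cut_ends hc hd huv
  have gy : g y = 0 := (hg0 y).2 e1
  have gx : g x = 1 := (hg1 x).2 e2
  have ghx : g (h • x) = 1 := by rw [cut_const hnc hg (hx h), gx]
  have hne : g y ≠ g (h • x) := by
    rw [gy, ghx]
    exact zero_ne_one
  have hd1 : D.G.dist y u + 1 + D.G.dist v (h • x) = D.G.dist y (h • x) := by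
    obtain ⟨c, d, c1, c2, c3⟩ := exists_cross' hc g hne
    have t5 : D.G.dist y (h • x) ≤ D.G.dist y u + D.G.dist u (h • x) := hc.dist_triangle
    have t6 : D.G.dist u (h • x) ≤ D.G.dist u v + D.G.dist v (h • x) := hc.dist_triangle
    have t7 : D.G.dist u v = 1 := SimpleGraph.dist_eq_one_iff_adj.2 huv
    rcases (hg c d c1).1 c2 with ⟨rfl, rfl⟩ | ⟨rfl, rfl⟩
    · omega
    · have t8 : D.G.dist y (h • x) ≤ D.G.dist y d + D.G.dist d (h • x) := hc.dist_triangle
      omega
  have hd2 : D.G.dist y (h • u) + 1 + D.G.dist (h • v) (h • x) = D.G.dist y (h • x) := by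
    have k1 : D.G.dist y (h • u) = D.G.dist y u := by
      conv_lhs => rw [← h2]
      exact dist_smul_eq D h y u
    have k2 : D.G.dist y (h • x) = D.G.dist y x := by
      conv_lhs => rw [← h2]
      exact dist_smul_eq D h y x
    rw [k1, k2, dist_smul_eq, hd]
  have hd3 : D.G.dist y (h • u) = D.G.dist y u := by
    conv_lhs => rw [← h2]
    exact dist_smul_eq D h y u
  obtain ⟨f1, f2⟩ := geod_unique D.tree huv (D.adj_smul h _ _ huv) hd1 hd2 hd3
  exact hnc ⟨huv, h, h1, f1, f2⟩

section Collapse

variable {H : Type} [Group H] (D : Decomp H)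

/-- the classes -/
private def csD : Setoid D.X := Relation.EqvGen.setoid (Cj H D.G)

private def QX : Type := Quotient (csD D)

private def qm (a : D.X) : QX D := Quotient.mk (csD D) a

private theorem qm_eq {a b : D.X} : qm D a = qm D b ↔ Relation.EqvGen (Cj H D.G) a b :=
  ⟨fun h => Quotient.exact h, fun h => Quotient.sound h⟩

private instance actQX : MulAction H (QX D) where
  smul h := Quotient.map (fun p => h • p) (fun _ _ e => cjr_smul D h e)
  one_smul l := by
    induction l using Quotient.inductionOn with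
    | h p => exact congrArg (Quotient.mk (csD D)) (one_smul H p)
  mul_smul a b l := by
    induction l using Quotient.inductionOn with
    | h p => exact congrArg (Quotient.mk (csD D)) (mul_smul a b p)

private theorem qm_smul (h : H) (a : D.X) : qm D (h • a) = h • qm D a := rfl

private theorem qm_surj (c : QX D) : ∃ a, qm D a = c := by
  induction c using Quotient.inductionOn with
  | h p => exact ⟨p, rfl⟩

private def QG : SimpleGraph (QX D) where
  Adj c c' := c ≠ c' ∧ ∃ a b, qm D a = c ∧ qm D b = c' ∧ D.G.Adj a b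
  symm := ⟨fun _ _ h => ⟨h.1.symm, by
    obtain ⟨a, b, h1, h2, h3⟩ := h.2
    exact ⟨b, a, h2, h1, h3.symm⟩⟩⟩
  loopless := ⟨fun _ h => h.1 rfl⟩

/-- the edge of `D.G` under an edge of the new graph, and its cut function -/
private theorem QG_edge {c c' : QX D} (h : (QG D).Adj c c') :
    ∃ u v, qm D u = c ∧ qm D v = c' ∧ D.G.Adj u v ∧ ¬ Cj H D.G u v ∧
      ∀ a b, qm D a = c → qm D b = c' → D.G.Adj a b → a = u ∧ b = v := by
  obtain ⟨hne, u, v, h1, h2, huv⟩ := h
  have hnc : ¬ Cj H D.G u v := by
    intro hC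
    apply hne
    rw [← h1, ← h2]
    exact (qm_eq D).2 (Relation.EqvGen.rel _ _ hC)
  refine ⟨u, v, h1, h2, huv, hnc, ?_⟩
  intro a b ha hb hab
  obtain ⟨g, hg, hg0, hg1⟩ := exists_cut D.G D.tree u v huv
  have e1 : g a = g u := cut_const hnc hg ((qm_eq D).1 (ha.trans h1.symm))
  have e2 : g b = g v := cut_const hnc hg ((qm_eq D).1 (hb.trans h2.symm))
  have e3 : g u ≠ g v := (hg u v huv).2 (Or.inl ⟨rfl, rfl⟩)
  have e4 : g a ≠ g b := by rw [e1, e2]; exact e3
  rcases (hg a b hab).1 e4 with e | ⟨rfl, rfl⟩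
  · exact e
  · exact absurd e1.symm e3

private theorem QG_tree : (QG D).IsTree := by
  apply isTree_of_cut
  · obtain ⟨x0⟩ := D.tree.connected.nonempty
    apply connected_of_rtg _ ⟨qm D x0⟩
    intro x y
    obtain ⟨a, rfl⟩ := qm_surj D x
    obtain ⟨b, rfl⟩ := qm_surj D y
    have hr : Relation.ReflTransGen D.G.Adj a b :=
      (SimpleGraph.reachable_iff_reflTransGen a b).1 (D.tree.connected.preconnected a b)
    induction hr with
    | refl => exact Relation.ReflTransGen.refl
    | @tail c d _ hcd ih =>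
      by_cases e : qm D c = qm D d
      · rw [← e]; exact ih
      · exact ih.tail ⟨e, c, d, rfl, rfl, hcd⟩
  · intro c c' hcc
    obtain ⟨u, v, h1, h2, huv, hnc, -⟩ := QG_edge D hcc
    obtain ⟨g, hg, hg0, hg1⟩ := exists_cut D.G D.tree u v huv
    have hgc : ∀ a b : D.X, (csD D) a b → g a = g b := fun a b e => cut_const hnc hg e
    refine ⟨Quotient.lift g hgc, ?_, ?_⟩
    · rw [← h1, ← h2]
      exact (hg u v huv).2 (Or.inl ⟨rfl, rfl⟩)
    · rintro d d' ⟨-, a, b, rfl, rfl, hab⟩ hne
      rcases (hg a b hab).1 hne with ⟨rfl, rfl⟩ | ⟨rfl, rfl⟩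
      · exact Or.inl ⟨h1, h2⟩
      · exact Or.inr ⟨h2, h1⟩

private theorem QG_smul (h : H) (x y : QX D) (e : (QG D).Adj x y) :
    (QG D).Adj (h • x) (h • y) := by
  obtain ⟨hne, a, b, rfl, rfl, hab⟩ := e
  refine ⟨?_, h • a, h • b, rfl, rfl, D.adj_smul h _ _ hab⟩
  intro e
  apply hne
  exact smul_left_cancel h e

private theorem QG_noinv (h : H) (x y : QX D) (e : (QG D).Adj x y) :
    ¬ (h • x = y ∧ h • y = x) := by
  rintro ⟨e1, e2⟩
  obtain ⟨u, v, h1, h2, huv, hnc, hun⟩ := QG_edge D e
  have k1 : qm D (h • v) = x := by rw [qm_smul, h2, e2]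
  have k2 : qm D (h • u) = y := by rw [qm_smul, h1, e1]
  obtain ⟨f1, f2⟩ := hun _ _ k1 k2 (D.adj_smul h _ _ huv).symm
  exact D.noinv h u v huv ⟨f2, f1⟩

private theorem QG_stab (x y : QX D) (e : (QG D).Adj x y) (j : H) (hx : j • x = x)
    (hy : j • y = y) : j = 1 := by
  obtain ⟨u, v, h1, h2, huv, hnc, hun⟩ := QG_edge D e
  have k1 : qm D (j • u) = x := by rw [qm_smul, h1, hx]
  have k2 : qm D (j • v) = y := by rw [qm_smul, h2, hy]
  obtain ⟨f1, f2⟩ := hun _ _ k1 k2 (D.adj_smul j _ _ huv)
  by_contra hj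
  exact hnc ⟨huv, j, hj, f1, f2⟩

end Collapse

theorem tree_collapse {H : Type} [Group H] (D : Decomp H) :
    (∃ x : D.X, ∀ h : H, Relation.EqvGen (Cj H D.G) (h • x) x) ∨
    ∃ D' : Decomp H, ∀ x y, D'.G.Adj x y → ∀ j : H, j • x = x → j • y = y → j = 1 := by
  by_cases hfix : ∃ x : D.X, ∀ h : H, Relation.EqvGen (Cj H D.G) (h • x) x
  · exact Or.inl hfix
  right
  push Not at hfix
  refine ⟨{ X := QX D
            G := QG D
            tree := QG_tree D
            adj_smul := QG_smul D
            noinv := QG_noinv D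
            finV := ?_
            finE := ?_
            edgeC := ?_
            nofix := ?_ }, fun x y e j => QG_stab D x y e j⟩
  · apply D.finV.image (fun a => qm D a)
    · intro b _
      obtain ⟨a, rfl⟩ := qm_surj D b
      exact ⟨a, trivial, 1, one_smul _ _⟩
    · rintro a _ b _ ⟨h, rfl⟩
      exact ⟨h, rfl⟩
  · apply D.finE.image (fun p => (qm D p.1, qm D p.2))
    · rintro ⟨c, c'⟩ ⟨-, a, b, h1, h2, hab⟩
      refine ⟨(a, b), hab, 1, ?_⟩
      rw [one_smul]
      exact Prod.ext h1 h2
    · rintro a _ b _ ⟨h, rfl⟩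
      exact ⟨h, rfl⟩
  · intro x y e
    left
    have : ∀ j : ↥(stabilizer H x ⊓ stabilizer H y), j = 1 := by
      rintro ⟨j, hj1, hj2⟩
      exact Subtype.ext (QG_stab D x y e j hj1 hj2)
    have : Subsingleton ↥(stabilizer H x ⊓ stabilizer H y) :=
      ⟨fun a b => by rw [this a, this b]⟩
    infer_instance
  · intro c
    obtain ⟨a, rfl⟩ := qm_surj D c
    obtain ⟨h, hh⟩ := hfix a
    exact ⟨h, fun e => hh ((qm_eq D).1 e)⟩

end Pool.Agent.SAF
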