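import Pool.Agent.SAF.A12

/-!
# SAF/A13: the set between two points of a tree, centres
-/

namespace Pool.Agent.SAF

open MulAction

section
variable {X : Type} {G : SimpleGraph X}

theorem Zs_comm (f g : X → X) : Zs f g = Zs g f := by
  ext w
  simp only [Zs, Set.mem_ofPred_eq]
  constructor
  · rintro h ⟨h1, h2⟩
    exact h ⟨h1.symm, fun e => h2 (h1.trans e)⟩
  · rintro h ⟨h1, h2⟩
    exact h ⟨h1.symm, fun e => h2 (h1.trans e)⟩

/-- the next vertex on the way is unique -/
private theorem next_unique (hG : G.IsTree) {a c c' w : X} (h1 : G.Adj a c) (h2 : G.Adj a c')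
    (e1 : G.dist a w = G.dist c w + 1) (e2 : G.dist a w = G.dist c' w + 1) : c = c' := by
  by_contra hne
  have d1 : G.dist a c = 1 := SimpleGraph.dist_eq_one_iff_adj.2 h1
  have d2 : G.dist a c' = 1 := SimpleGraph.dist_eq_one_iff_adj.2 h2
  have hac : G.dist c' c = G.dist c' a + 1 ∨ G.dist c' a = G.dist c' c + 1 :=
    (dist_edge hG h1 c').1
  have d2' : G.dist c' a = 1 := by rw [SimpleGraph.dist_comm]; exact d2
  have hside : G.dist c' c = G.dist c' a + 1 := by
    rcases hac with h | h
    · exact h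
    · exfalso
      have : G.dist c' c = 0 := by omega
      exact hne ((hG.connected.dist_eq_zero_iff).1 this).symm
  have hw : G.dist w a = G.dist w c + 1 := by
    rw [SimpleGraph.dist_comm (u := w) (v := a), SimpleGraph.dist_comm (u := w) (v := c)]
    exact e1
  have hcv := (hull_conv hG ({c', w} : Set X))
  have hc' : c' ∈ hull G ({c', w} : Set X) := subset_hull _ (by simp)
  have hw' : w ∈ hull G ({c', w} : Set X) := subset_hull _ (by simp)
  have := (hcv.edge hG h1 hc' hw' hside hw).1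
  obtain ⟨p, hp, r, hr, e⟩ := this
  have k1 : G.dist w a = G.dist a w := SimpleGraph.dist_comm
  have k2 : G.dist w c' = G.dist c' w := SimpleGraph.dist_comm
  rcases hp with rfl | hp
  · rcases hr with rfl | hr
    · rw [SimpleGraph.dist_self] at e
      omega
    · rw [Set.mem_singleton_iff] at hr
      subst hr
      omega
  · rw [Set.mem_singleton_iff] at hp
    subst hp
    rcases hr with rfl | hr
    · omega
    · rw [Set.mem_singleton_iff] at hr
      subst hr
      rw [SimpleGraph.dist_self] at e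
      omega

theorem Zs_conv (hG : G.IsTree) {f g : X → X} (hf : Ori G f) (hg : Ori G g) :
    Conv G (Zs f g) := by
  intro a ha b hb w hw hz
  have key : ∀ c : X, c ∈ Zs f g → ¬ (G.dist c (f w) + 1 = G.dist c w) → False := by
    intro c hc hd
    by_cases hcw : c = w
    · subst hcw
      exact hc hz
    · have h1 := hf.toward hG hcw (fun h => hd h.2)
      have h2 := hg.toward hG hcw (fun h => hd (by rw [hz.1]; exact h.2))
      have := next_unique hG h1.1 h2.1 h1.2 h2.2
      exact hc ⟨this, h1.1.ne'⟩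
  have ha' : G.dist a (f w) + 1 = G.dist a w := by
    by_contra h
    exact key a ha h
  have hb' : G.dist b (f w) + 1 = G.dist b w := by
    by_contra h
    exact key b hb h
  have t : G.dist a b ≤ G.dist a (f w) + G.dist (f w) b := hG.connected.dist_triangle
  have k1 : G.dist (f w) b = G.dist b (f w) := SimpleGraph.dist_comm
  have k2 : G.dist w b = G.dist b w := SimpleGraph.dist_comm
  omega

theorem Zs_nonempty (hG : G.IsTree) {f g : X → X} (hf : Ori G f) (hg : Ori G g)
    (h : ¬ LostF f g) : (Zs f g).Nonempty := by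
  by_contra hne
  rw [Set.not_nonempty_iff_eq_empty] at hne
  have hall : ∀ w, f w = g w ∧ f w ≠ w := by
    intro w
    by_contra hw
    have : w ∈ Zs f g := hw
    rw [hne] at this
    exact this
  exact h ⟨funext fun w => (hall w).1, fun w => (hall w).2⟩

/-- Two adjacent vertices between `f` and `g`: the edge is used in opposite directions. -/
theorem Zs_adj {f g : X → X} (hf : Ori G f) (hg : Ori G g) {u w : X} (hu : u ∈ Zs f g)
    (hw : w ∈ Zs f g) (h : G.Adj u w) : (f u = w ↔ g w = u) ∧ (f w = u ↔ g u = w) ∧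
      (f u = w ∨ g u = w) ∧ ¬ (f u = w ∧ g u = w) := by
  have hu' : ¬ (f u = w ∧ g u = w) := by
    rintro ⟨h1, h2⟩
    exact hu ⟨h1.trans h2.symm, by rw [h1]; exact h.ne'⟩
  have hw' : ¬ (f w = u ∧ g w = u) := by
    rintro ⟨h1, h2⟩
    exact hw ⟨h1.trans h2.symm, by rw [h1]; exact h.ne⟩
  have f1 := hf.one u w h
  have f2 := hf.ntwo u w h
  have g1 := hg.one u w h
  have g2 := hg.ntwo u w h
  tauto

/-- `LostF` is an equivalence relation on ends. -/
theorem LostF.symm' {f g : X → X} (h : LostF f g) : LostF g f :=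
  ⟨h.1.symm, fun w => by rw [← h.1]; exact h.2 w⟩

private theorem ray_lost (hG : G.IsTree) {f g : X → X} (hf : Ori G f) (hg : Ori G g) (p : ℕ → X)
    (hp : ∀ n, p (n + 1) ≠ p n) (h1 : ∀ n, f (p n) = p (n + 1)) (h2 : ∀ n, g (p n) = p (n + 1)) :
    LostF f g := by
  have key : ∀ v, f v = g v ∧ f v ≠ v := by
    intro v
    have hex : ∃ N, ¬ (G.dist v (p (N + 1)) + 1 = G.dist v (p N)) := by
      by_contra hcon
      push Not at hcon
      have : ∀ n, G.dist v (p n) + n = G.dist v (p 0) := by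
        intro n
        induction n with
        | zero => rfl
        | succ n ih =>
          have := hcon n
          omega
      have := this (G.dist v (p 0) + 1)
      omega
    obtain ⟨N, hN⟩ := hex
    by_cases hv : v = p N
    · subst hv
      rw [h1, h2]
      exact ⟨rfl, hp N⟩
    · have a1 := hf.toward hG hv (fun h => hN (by rw [← h1]; exact h.2))
      have a2 := hg.toward hG hv (fun h => hN (by rw [← h2]; exact h.2))
      exact ⟨next_unique hG a1.1 a2.1 a1.2 a2.2, a1.1.ne'⟩
  exact ⟨funext fun v => (key v).1, fun v => (key v).2⟩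

/-- Three points, no two of them the same end, have exactly one centre. -/
theorem exists_centre (hG : G.IsTree) {f g k : X → X} (hf : Ori G f) (hg : Ori G g) (hk : Ori G k)
    (h1 : ¬ LostF f g) (h2 : ¬ LostF g k) (h3 : ¬ LostF f k) :
    ∃ c, c ∈ Zs f g ∧ c ∈ Zs g k ∧ c ∈ Zs f k := by
  classical
  by_contra hcon
  have hc : ∀ w, ∃ u, u ≠ w ∧ ((f w = u ∧ g w = u) ∨ (g w = u ∧ k w = u) ∨
      (f w = u ∧ k w = u)) := by
    intro w
    by_contra hw
    apply hcon
    refine ⟨w, ?_, ?_, ?_⟩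
    · rintro ⟨e1, e2⟩
      exact hw ⟨f w, e2, Or.inl ⟨rfl, e1.symm⟩⟩
    · rintro ⟨e1, e2⟩
      exact hw ⟨g w, e2, Or.inr (Or.inl ⟨rfl, e1.symm⟩)⟩
    · rintro ⟨e1, e2⟩
      exact hw ⟨f w, e2, Or.inr (Or.inr ⟨rfl, e1.symm⟩)⟩
  choose h hne hh using hc
  have hadj : ∀ w, G.Adj w (h w) := by
    intro w
    rcases hh w with ⟨e, -⟩ | ⟨e, -⟩ | ⟨e, -⟩
    · have := hf.ok w
      rw [e] at this
      exact this.resolve_left (hne w)
    · have := hg.ok w
      rw [e] at this
      exact this.resolve_left (hne w)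
    · have := hf.ok w
      rw [e] at this
      exact this.resolve_left (hne w)
  have hback : ∀ w, h (h w) ≠ w := by
    intro w hw
    have a := hh w
    have b := hh (h w)
    rw [hw] at b
    have f2 := hf.ntwo w (h w) (hadj w)
    have g2 := hg.ntwo w (h w) (hadj w)
    have k2 := hk.ntwo w (h w) (hadj w)
    tauto
  obtain ⟨w0⟩ := hG.connected.nonempty
  set p : ℕ → X := fun n => h^[n] w0 with hpdef
  have hps : ∀ n, p (n + 1) = h (p n) := by
    intro n
    simp only [hpdef, Function.iterate_succ_apply']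
  have hpne : ∀ n, p (n + 1) ≠ p n := by
    intro n
    rw [hps]
    exact hne _
  have hdown1 : ∀ o : X → X, Ori G o → ∀ n, o (p (n + 1)) = p (n + 2) → o (p n) = p (n + 1) := by
    intro o ho n hn
    have ha : G.Adj (p n) (p (n + 1)) := by
      rw [hps]
      exact hadj _
    rcases ho.one _ _ ha with e | e
    · exact e
    · exfalso
      apply hback (p n)
      rw [← hps n, ← hps (n + 1)]
      change p (n + 2) = p n
      rw [← hn, e]
  have hdown : ∀ o : X → X, Ori G o → ∀ m n, m ≤ n → o (p n) = p (n + 1) → o (p m) = p (m + 1) := by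
    intro o ho m n hmn
    induction n, hmn using Nat.le_induction with
    | base => exact id
    | succ n _ ih => exact fun e => ih (hdown1 o ho n e)
  have hpair : ∀ n, (f (p n) = p (n + 1) ∧ g (p n) = p (n + 1)) ∨
      (g (p n) = p (n + 1) ∧ k (p n) = p (n + 1)) ∨ (f (p n) = p (n + 1) ∧ k (p n) = p (n + 1)) := by
    intro n
    rw [hps]
    exact hh (p n)
  have n1 : ∃ n, ¬ (f (p n) = p (n + 1) ∧ g (p n) = p (n + 1)) := by
    by_contra hcc
    push Not at hcc
    exact h1 (ray_lost hG hf hg p hpne (fun n => (hcc n).1) (fun n => (hcc n).2))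
  have n2 : ∃ n, ¬ (g (p n) = p (n + 1) ∧ k (p n) = p (n + 1)) := by
    by_contra hcc
    push Not at hcc
    exact h2 (ray_lost hG hg hk p hpne (fun n => (hcc n).1) (fun n => (hcc n).2))
  have n3 : ∃ n, ¬ (f (p n) = p (n + 1) ∧ k (p n) = p (n + 1)) := by
    by_contra hcc
    push Not at hcc
    exact h3 (ray_lost hG hf hk p hpne (fun n => (hcc n).1) (fun n => (hcc n).2))
  obtain ⟨a, ha⟩ := n1
  obtain ⟨b, hb⟩ := n2
  obtain ⟨c, hc⟩ := n3
  have le1 : a ≤ a + b + c := by omega
  have le2 : b ≤ a + b + c := by omega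
  have le3 : c ≤ a + b + c := by omega
  rcases hpair (a + b + c) with ⟨e1, e2⟩ | ⟨e1, e2⟩ | ⟨e1, e2⟩
  · exact ha ⟨hdown f hf _ _ le1 e1, hdown g hg _ _ le1 e2⟩
  · exact hb ⟨hdown g hg _ _ le2 e1, hdown k hk _ _ le2 e2⟩
  · exact hc ⟨hdown f hf _ _ le3 e1, hdown k hk _ _ le3 e2⟩

theorem centre_unique (hG : G.IsTree) {f g k : X → X} (hf : Ori G f) (hg : Ori G g) (hk : Ori G k)
    {c c' : X} (h : c ∈ Zs f g ∧ c ∈ Zs g k ∧ c ∈ Zs f k)
    (h' : c' ∈ Zs f g ∧ c' ∈ Zs g k ∧ c' ∈ Zs f k) : c = c' := by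
  by_contra hne
  obtain ⟨u, hu, hd⟩ := exists_next hG hne
  have hdu : G.dist c u + G.dist u c' = G.dist c c' := by
    rw [SimpleGraph.dist_eq_one_iff_adj.2 hu]
    omega
  have u1 := Zs_conv hG hf hg c h.1 c' h'.1 u hdu
  have u2 := Zs_conv hG hg hk c h.2.1 c' h'.2.1 u hdu
  have u3 := Zs_conv hG hf hk c h.2.2 c' h'.2.2 u hdu
  obtain ⟨-, -, o1, m1⟩ := Zs_adj hf hg h.1 u1 hu
  obtain ⟨-, -, o2, m2⟩ := Zs_adj hg hk h.2.1 u2 hu
  obtain ⟨-, -, o3, m3⟩ := Zs_adj hf hk h.2.2 u3 hu
  rcases o1 with e | e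
  · rcases o2 with e' | e'
    · exact m1 ⟨e, e'⟩
    · exact m3 ⟨e, e'⟩
  · rcases o3 with e' | e'
    · exact m1 ⟨e', e⟩
    · exact m2 ⟨e, e'⟩

end

section
variable {H : Type} [Group H] {X : Type} [MulAction H X] {G : SimpleGraph X}

/-- An element which preserves `f` and `g` and fixes a vertex between them fixes all vertices
between them. -/
theorem Zs_fix (hG : TAct H G) {f g : X → X} (hf : Ori G f) (hg : Ori G g) (a : H)
    (haf : ∀ w, f (a • w) = a • f w) (hag : ∀ w, g (a • w) = a • g w) {w : X} (hw : w ∈ Zs f g)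
    (haw : a • w = w) {u : X} (hu : u ∈ Zs f g) : a • u = u := by
  have hr := (Zs_conv hG.tree hf hg).rtg hG.tree hw hu
  induction hr with
  | refl => exact haw
  | tail _ hbc ih =>
    have ih' := ih hbc.2.1
    rcases (Zs_adj hf hg hbc.2.1 hbc.2.2 hbc.1).2.2.1 with e | e
    · rw [← e, ← haf, ih']
    · rw [← e, ← hag, ih']

end

end Pool.Agent.SAF
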