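import Pool.Agent.SAF.A12
import Pool.Agent.SAF.A16
import Pool.Agent.SAF.A17

/-!
# SAF/A14: invariant points for cyclic groups
-/

namespace Pool.Agent.SAF

open MulAction

variable {H : Type} [Group H] {X : Type} [MulAction H X] {G : SimpleGraph X}

/-- the translate of an orientation -/
private theorem ori_conj14 (hG : TAct H G) {f : X → X} (hf : Ori G f) (h : H) :
    Ori G (fun w => h⁻¹ • f (h • w)) where
  ok w := by
    rcases hf.ok (h • w) with h1 | h1
    · left
      change h⁻¹ • f (h • w) = w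
      rw [h1, inv_smul_smul]
    · right
      have := hG.adj_smul h⁻¹ _ _ h1
      rwa [inv_smul_smul] at this
  one u v huv := by
    rcases hf.one _ _ (hG.adj_smul h u v huv) with h1 | h1
    · left
      change h⁻¹ • f (h • u) = v
      rw [h1, inv_smul_smul]
    · right
      change h⁻¹ • f (h • v) = u
      rw [h1, inv_smul_smul]
  ntwo u v huv := by
    rintro ⟨h1, h2⟩
    apply hf.ntwo _ _ (hG.adj_smul h u v huv)
    constructor
    · have := congrArg (h • ·) h1
      simpa using this
    · have := congrArg (h • ·) h2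
      simpa using this

/-- A cyclic subgroup of a torsion-free group preserves a point: a vertex, or an end, and in the
second case its nontrivial elements have no fixed vertex. -/
theorem exists_ori_cyclic (hTF : TF H) (hG : TAct H G) (hne : Nonempty X) (A : Subgroup H)
    (hA : IsCyclic ↥A) :
    ∃ f : X → X, Ori G f ∧ (∀ a ∈ A, ∀ w, f (a • w) = a • f w) ∧
      ((∃ w, f w = w) ∨ ((∀ w, f w ≠ w) ∧ (∃ t ∈ A, t ≠ 1) ∧
        ∀ a ∈ A, a ≠ 1 → ∀ w : X, a • w ≠ w)) := by
  obtain ⟨⟨g, hg⟩, hgen⟩ := hA.exists_generator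
  have hpow : ∀ a ∈ A, ∃ k : ℤ, g ^ k = a := by
    intro a ha
    obtain ⟨k, hk⟩ := hgen ⟨a, ha⟩
    refine ⟨k, ?_⟩
    have := congrArg Subtype.val hk
    simpa using this
  -- from invariance under the generator to invariance under `A`
  have hinv : ∀ f : X → X, (∀ w, f (g • w) = g • f w) → ∀ a ∈ A, ∀ w, f (a • w) = a • f w := by
    intro f hf
    have hneg : ∀ w, f (g⁻¹ • w) = g⁻¹ • f w := by
      intro w
      have := hf (g⁻¹ • w)
      rw [smul_inv_smul] at this
      rw [this, inv_smul_smul]
    have hn : ∀ (n : ℕ) w, f (g ^ n • w) = g ^ n • f w := by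
      intro n
      induction n with
      | zero => intro w; simp
      | succ n ih => intro w; rw [pow_succ, mul_smul, mul_smul, ih, hf]
    have hn' : ∀ (n : ℕ) w, f ((g⁻¹) ^ n • w) = (g⁻¹) ^ n • f w := by
      intro n
      induction n with
      | zero => intro w; simp
      | succ n ih => intro w; rw [pow_succ, mul_smul, mul_smul, ih, hneg]
    intro a ha w
    obtain ⟨k, rfl⟩ := hpow a ha
    obtain ⟨n, rfl | rfl⟩ := k.eq_nat_or_neg
    · rw [zpow_natCast]; exact hn n w
    · rw [zpow_neg, zpow_natCast, ← inv_pow]; exact hn' n w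
  by_cases hfix : ∃ v : X, g • v = v
  · obtain ⟨v, hv⟩ := hfix
    obtain ⟨f, hf, hfv, -⟩ := exists_ori_vertex hG.tree v
    refine ⟨f, hf, ?_, Or.inl ⟨v, hfv⟩⟩
    apply hinv
    have he : f = fun w => g⁻¹ • f (g • w) :=
      Ori.eq_of_fix hG.tree hf (ori_conj14 hG hf g) hfv (by
        change g⁻¹ • f (g • v) = v
        rw [hv, hfv, inv_smul_eq_iff, hv])
    intro w
    have := congrFun he w
    rw [this, smul_inv_smul]
  · have hfix' : ∀ x : X, g • x ≠ x := fun x hx => hfix ⟨x, hx⟩
    obtain ⟨f, hf, hfn, hfg⟩ := exists_end hG g hfix'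
    refine ⟨f, hf, hinv f hfg, Or.inr ⟨hfn, ⟨g, hg, ?_⟩, ?_⟩⟩
    · rintro rfl
      obtain ⟨x⟩ := hne
      exact hfix' x (one_smul H x)
    · intro a ha hane w haw
      obtain ⟨k, rfl⟩ := hpow a ha
      have hk : k ≠ 0 := by
        rintro rfl
        exact hane (zpow_zero g)
      have hkn : g ^ k.natAbs • w = w := by
        rcases Int.natAbs_eq k with h | h
        · rw [h, zpow_natCast] at haw
          exact haw
        · rw [h, zpow_neg, zpow_natCast, inv_smul_eq_iff] at haw
          exact haw.symm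
      obtain ⟨y, hy⟩ := fix_of_pow_fix hG g k.natAbs (Int.natAbs_pos.2 hk) w hkn
      exact hfix' y hy

end Pool.Agent.SAF
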