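import Pool.Agent.SAF.A00
import Pool.Agent.SAF.AOrb

/-!
# SAF/A20: collapse of a complex
-/

namespace Pool.Agent.SAF

open MulAction

variable {H : Type} [Group H] {Y : Type} [MulAction H Y]

/-- the quotient action -/
@[reducible] def qAct (r : Setoid Y) (inv : ∀ (h : H) (x y : Y), r x y → r (h • x) (h • y)) :
    MulAction H (Quotient r) where
  smul h := Quotient.map (fun x => h • x) (fun x y e => inv h x y e)
  one_smul c := by
    induction c using Quotient.inductionOn with
    | h x => exact congrArg (Quotient.mk r) (one_smul H x)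
  mul_smul a b c := by
    induction c using Quotient.inductionOn with
    | h x => exact congrArg (Quotient.mk r) (mul_smul a b x)

theorem z2_add_self (a : ZMod 2) : a + a = 0 := CharTwo.add_self_eq_zero a

theorem z2_eq_of_add {a b : ZMod 2} (h : a + b = 0) : a = b := CharTwo.add_eq_zero.1 h

open Classical in
/-- the collapsed complex -/
noncomputable def qKS (K : KS H Y) (r : Setoid Y)
    (inv : ∀ (h : H) (x y : Y), r x y → r (h • x) (h • y))
    (conn : ∀ x ∈ K.P, ∀ y ∈ K.P, r x y → Relation.ReflTransGen (fun a b => K.E a b ∧ r a b) x y)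
    (cyc : ∀ x ∈ K.P, ∀ A : Subgroup H, (∀ h ∈ A, r (h • x) x) → IsCyclic ↥A) :
    @KS H _ (Quotient r) (qAct r inv) :=
  letI := qAct r inv
  { P := {c | ∃ x ∈ K.P, Quotient.mk r x = c}
    E := fun c c' => c ≠ c' ∧ ∃ x y, K.E x y ∧ Quotient.mk r x = c ∧ Quotient.mk r y = c'
    T := fun c c' c'' => c ≠ c' ∧ c' ≠ c'' ∧ c ≠ c'' ∧ ∃ x y z, K.T x y z ∧
      Quotient.mk r x = c ∧ Quotient.mk r y = c' ∧ Quotient.mk r z = c''
    E_symm := by
      rintro _ _ ⟨hne, x, y, e, rfl, rfl⟩
      exact ⟨hne.symm, y, x, K.E_symm _ _ e, rfl, rfl⟩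
    E_irr := fun c h => h.1 rfl
    E_P := by
      rintro _ _ ⟨-, x, y, e, rfl, rfl⟩
      exact ⟨x, K.E_P _ _ e, rfl⟩
    T_swap := by
      rintro _ _ _ ⟨h1, h2, h3, x, y, z, e, rfl, rfl, rfl⟩
      exact ⟨h1.symm, h3, h2, y, x, z, K.T_swap _ _ _ e, rfl, rfl, rfl⟩
    T_rot := by
      rintro _ _ _ ⟨h1, h2, h3, x, y, z, e, rfl, rfl, rfl⟩
      exact ⟨h2, h3.symm, h1.symm, y, z, x, K.T_rot _ _ _ e, rfl, rfl, rfl⟩
    T_E := by
      rintro _ _ _ ⟨h1, h2, h3, x, y, z, e, rfl, rfl, rfl⟩
      exact ⟨h1, x, y, K.T_E _ _ _ e, rfl, rfl⟩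
    P_smul := by
      rintro h _ ⟨x, hx, rfl⟩
      exact ⟨h • x, K.P_smul h x hx, rfl⟩
    E_smul := by
      rintro h _ _ ⟨hne, x, y, e, rfl, rfl⟩
      refine ⟨fun hh => hne (smul_left_cancel h hh), h • x, h • y, K.E_smul h _ _ e, rfl, rfl⟩
    T_smul := by
      rintro h _ _ _ ⟨h1, h2, h3, x, y, z, e, rfl, rfl, rfl⟩
      exact ⟨fun hh => h1 (smul_left_cancel h hh), fun hh => h2 (smul_left_cancel h hh),
        fun hh => h3 (smul_left_cancel h hh), h • x, h • y, h • z, K.T_smul h _ _ _ e, rfl, rfl, rfl⟩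
    ne := by
      obtain ⟨x, hx⟩ := K.ne
      exact ⟨_, x, hx, rfl⟩
    conn := by
      rintro _ ⟨x, hx, rfl⟩ _ ⟨y, hy, rfl⟩
      have := K.conn x hx y hy
      induction this with
      | refl => exact Relation.ReflTransGen.refl
      | tail _ e ih =>
        rename_i b c h0
        have hb : b ∈ K.P := K.E_P _ _ e
        have ih' := ih hb
        by_cases hbc : (Quotient.mk r b) = Quotient.mk r c
        · rw [← hbc]; exact ih'
        · exact ih'.tail ⟨hbc, b, c, e, rfl, rfl⟩
    H1 := by
      intro φ hs hc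
      obtain ⟨h, hh⟩ := K.H1
        (fun x y => if Quotient.mk r x = Quotient.mk r y then 0
          else φ (Quotient.mk r x) (Quotient.mk r y))
        (by
          intro x y
          by_cases hxy : Quotient.mk r x = Quotient.mk r y
          · simp only [if_pos hxy, if_pos hxy.symm]
          · simp only [if_neg hxy, if_neg (fun hh => hxy (Eq.symm hh))]
            exact hs _ _)
        (by
          intro x y z e
          by_cases hxy : Quotient.mk r x = Quotient.mk r y
          · simp only [hxy, if_true, zero_add]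
            exact z2_add_self _
          · by_cases hyz : Quotient.mk r y = Quotient.mk r z
            · simp only [if_neg hxy, ← hyz, if_true, add_zero]
              exact z2_add_self _
            · by_cases hxz : Quotient.mk r x = Quotient.mk r z
              · simp only [if_pos hxz, if_neg hxy, if_neg hyz, add_zero]
                rw [hs (Quotient.mk r y) (Quotient.mk r z), ← hxz]
                exact z2_add_self _
              · simp only [if_neg hxz, if_neg hxy, if_neg hyz]
                exact hc _ _ _ ⟨hxy, hyz, hxz, x, y, z, e, rfl, rfl, rfl⟩)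
      have hconst : ∀ x ∈ K.P, ∀ y ∈ K.P, r x y → h x = h y := by
        intro x hx y hy hxy
        have hc := conn x hx y hy hxy
        clear hy hxy
        induction hc with
        | refl => rfl
        | tail _ e ih =>
          rename_i b c h0
          rw [ih]
          have h1 := hh _ _ e.1
          have h2 : Quotient.mk r b = Quotient.mk r c := Quotient.sound e.2
          rw [if_pos h2] at h1
          exact z2_eq_of_add h1.symm
      refine ⟨fun c => if hc : ∃ x ∈ K.P, Quotient.mk r x = c then h (Classical.choose hc) else 0, ?_⟩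
      have key : ∀ x ∈ K.P, (if hc : ∃ x' ∈ K.P, Quotient.mk r x' = Quotient.mk r x then
          h (Classical.choose hc) else 0) = h x := by
        intro x hx
        have hex : ∃ x' ∈ K.P, Quotient.mk r x' = Quotient.mk r x := ⟨x, hx, rfl⟩
        rw [dif_pos hex]
        have h3 := Classical.choose_spec hex
        exact hconst _ h3.1 _ hx (Quotient.exact h3.2)
      rintro _ _ ⟨hne, x, y, e, rfl, rfl⟩
      have h4 := hh _ _ e
      rw [if_neg hne] at h4
      have hx := K.E_P _ _ e
      have hy := K.E_P _ _ (K.E_symm _ _ e)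
      show φ _ _ = (if hc : ∃ x' ∈ K.P, Quotient.mk r x' = Quotient.mk r x then
          h (Classical.choose hc) else 0) + (if hc : ∃ x' ∈ K.P, Quotient.mk r x' = Quotient.mk r y then
          h (Classical.choose hc) else 0)
      rw [key x hx, key y hy]
      exact h4
    finP := by
      refine FinOrb.image K.finP (fun x => Quotient.mk r x) ?_ ?_
      · rintro _ ⟨x, hx, rfl⟩
        exact ⟨x, hx, 1, one_smul H _⟩
      · rintro a _ b _ ⟨h, rfl⟩
        exact ⟨h, rfl⟩
    finE := by
      refine FinOrb.image K.finE (fun p => (Quotient.mk r p.1, Quotient.mk r p.2)) ?_ ?_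
      · rintro ⟨_, _⟩ ⟨hne, x, y, e, rfl, rfl⟩
        exact ⟨(x, y), e, 1, one_smul H _⟩
      · rintro a _ b _ ⟨h, rfl⟩
        exact ⟨h, rfl⟩
    finT := by
      refine FinOrb.image K.finT
        (fun p => (Quotient.mk r p.1, Quotient.mk r p.2.1, Quotient.mk r p.2.2)) ?_ ?_
      · rintro ⟨_, _, _⟩ ⟨h1, h2, h3, x, y, z, e, rfl, rfl, rfl⟩
        exact ⟨(x, y, z), e, 1, one_smul H _⟩
      · rintro a _ b _ ⟨h, rfl⟩
        exact ⟨h, rfl⟩
    cyc := by
      rintro _ ⟨x, hx, rfl⟩
      refine cyc x hx _ ?_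
      intro h hh
      have h1 : h • (Quotient.mk r x) = Quotient.mk r x := hh
      exact Quotient.exact h1 }

/-- Quotient of a complex by an invariant equivalence relation whose classes are connected by edges
and have cyclic stabilisers. -/
theorem collapse (K : KS H Y) (r : Setoid Y) (inv : ∀ (h : H) (x y : Y), r x y → r (h • x) (h • y))
    (conn : ∀ x ∈ K.P, ∀ y ∈ K.P, r x y → Relation.ReflTransGen (fun a b => K.E a b ∧ r a b) x y)
    (cyc : ∀ x ∈ K.P, ∀ A : Subgroup H, (∀ h ∈ A, r (h • x) x) → IsCyclic ↥A) :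
    ∃ (Y' : Type) (_ : MulAction H Y') (K' : KS H Y'), K'.t ≤ K.t ∧
      ((∃ x y z, K.T x y z ∧ r x y) → K'.t < K.t) := by
  classical
  let _ := qAct (H := H) r inv
  refine ⟨Quotient r, qAct r inv, qKS K r inv conn cyc, ?_⟩
  have hex : ∀ a : Quotient r × Quotient r × Quotient r, ∃ b : Y × Y × Y,
      (qKS K r inv conn cyc).T a.1 a.2.1 a.2.2 → K.T b.1 b.2.1 b.2.2 ∧
        (Quotient.mk r b.1, Quotient.mk r b.2.1, Quotient.mk r b.2.2) = a := by
    rintro ⟨a1, a2, a3⟩
    by_cases ha : (qKS K r inv conn cyc).T a1 a2 a3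
    · obtain ⟨h1, h2, h3, x, y, z, e, rfl, rfl, rfl⟩ := ha
      exact ⟨(x, y, z), fun _ => ⟨e, rfl⟩⟩
    · exact ⟨(Quotient.out a1, Quotient.out a2, Quotient.out a3), fun h => absurd h ha⟩
  choose F hF using hex
  have hinj : ∀ a ∈ {p : Quotient r × Quotient r × Quotient r |
        (qKS K r inv conn cyc).T p.1 p.2.1 p.2.2},
      ∀ b ∈ {p : Quotient r × Quotient r × Quotient r |
        (qKS K r inv conn cyc).T p.1 p.2.1 p.2.2},
      (∃ h : H, h • F a = F b) → ∃ h : H, h • a = b := by
    rintro a ha b hb ⟨h, e⟩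
    refine ⟨h, ?_⟩
    rw [← (hF a ha).2, ← (hF b hb).2, ← e]
    rfl
  constructor
  · exact oc_le_of_inj K.finT F (fun a ha => (hF a ha).1) hinj
  · rintro ⟨x, y, z, e, hxy⟩
    refine oc_lt_of_inj K.finT F (fun a ha => (hF a ha).1) hinj (b0 := (x, y, z)) e ?_
    intro a ha h hh
    have h1 := (hF a ha).2
    have h2 : h • (F a).1 = x := congrArg Prod.fst hh
    have h3 : h • (F a).2.1 = y := congrArg (fun p => p.2.1) hh
    have h4 : a.1 ≠ a.2.1 := ha.1
    apply h4
    rw [← h1]
    show Quotient.mk r (F a).1 = Quotient.mk r (F a).2.1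
    apply Quotient.sound
    have h5 := inv h⁻¹ x y hxy
    rw [← h2, ← h3, inv_smul_smul, inv_smul_smul] at h5
    exact h5

end Pool.Agent.SAF
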