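import Pool.Agent.SAF.A20

/-!
# SAF/A21: no free vertex in a triangle of a minimal complex
-/

namespace Pool.Agent.SAF

open MulAction

variable {H : Type} [Group H] {Y : Type} [MulAction H Y]

theorem fr_cancel {x : Y} (hx : Fr H x) {a b : H} (e : a • x = b • x) : a = b := by
  have h1 : (b⁻¹ * a) • x = x := by rw [mul_smul, e, inv_smul_smul]
  have h2 := hx _ h1
  exact (inv_mul_eq_one.1 h2).symm

/-- First case: the neighbour is in another orbit. -/
theorem exists_lt_of_free_aux1 (K : KS H Y) {x y z : Y} (h : K.T x y z) (hx : Fr H x)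
    (hy : ∀ g : H, g • x ≠ y) :
    ∃ (Y' : Type) (_ : MulAction H Y') (K' : KS H Y'), K'.t < K.t := by
  classical
  have hE : K.E x y := K.T_E _ _ _ h
  have hex : ∀ u : Y, ∃ v : Y, (∀ g : H, u = g • x → v = g • y) ∧
      ((∀ g : H, u ≠ g • x) → v = u) := by
    intro u
    by_cases hu : ∃ g : H, u = g • x
    · obtain ⟨g, hg⟩ := hu
      refine ⟨g • y, ?_, ?_⟩
      · intro g' hg'
        have := fr_cancel hx (hg.symm.trans hg')
        rw [this]
      · intro hn
        exact absurd hg (hn g)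
    · refine ⟨u, ?_, fun _ => rfl⟩
      intro g hg
      exact absurd ⟨g, hg⟩ hu
  choose ρ hρ1 hρ2 using hex
  have hρx : ∀ g : H, ρ (g • x) = g • y := fun g => hρ1 _ g rfl
  have hρy : ∀ g : H, ρ (g • y) = g • y := by
    intro g
    apply hρ2
    intro k hk
    apply hy (g⁻¹ * k)
    rw [mul_smul, ← hk, inv_smul_smul]
  have hequi : ∀ (a : H) (u : Y), ρ (a • u) = a • ρ u := by
    intro a u
    by_cases hu : ∃ g : H, u = g • x
    · obtain ⟨g, rfl⟩ := hu
      rw [← mul_smul, hρx, hρx, mul_smul]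
    · have h1 : ∀ g : H, u ≠ g • x := fun g hg => hu ⟨g, hg⟩
      have h2 : ∀ g : H, a • u ≠ g • x := by
        intro g hg
        apply h1 (a⁻¹ * g)
        rw [mul_smul, ← hg, inv_smul_smul]
      rw [hρ2 _ h1, hρ2 _ h2]
  have hidem : ∀ u : Y, ρ (ρ u) = ρ u := by
    intro u
    by_cases hu : ∃ g : H, u = g • x
    · obtain ⟨g, rfl⟩ := hu
      rw [hρx, hρy]
    · have h1 : ∀ g : H, u ≠ g • x := fun g hg => hu ⟨g, hg⟩
      rw [hρ2 _ h1, hρ2 _ h1]
  have hstep : ∀ u : Y, u = ρ u ∨ K.E u (ρ u) := by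
    intro u
    by_cases hu : ∃ g : H, u = g • x
    · obtain ⟨g, rfl⟩ := hu
      right
      rw [hρx]
      exact K.E_smul g _ _ hE
    · have h1 : ∀ g : H, u ≠ g • x := fun g hg => hu ⟨g, hg⟩
      left
      rw [hρ2 _ h1]
  have hP : ∀ u ∈ K.P, ρ u ∈ K.P := by
    intro u hu
    rcases hstep u with e | e
    · rw [← e]; exact hu
    · exact K.E_P _ _ (K.E_symm _ _ e)
  let r : Setoid Y :=
    { r := fun u v => ρ u = ρ v
      iseqv :=
        { refl := fun _ => rfl
          symm := fun e => Eq.symm e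
          trans := fun e e' => Eq.trans e e' } }
  have hr : ∀ u v, r u v ↔ ρ u = ρ v := fun _ _ => Iff.rfl
  have inv : ∀ (a : H) (u v : Y), r u v → r (a • u) (a • v) := by
    intro a u v e
    rw [hr] at e ⊢
    rw [hequi, hequi, e]
  have conn : ∀ u ∈ K.P, ∀ v ∈ K.P, r u v →
      Relation.ReflTransGen (fun a b => K.E a b ∧ r a b) u v := by
    intro u _ v _ e
    rw [hr] at e
    have p1 : Relation.ReflTransGen (fun a b => K.E a b ∧ r a b) u (ρ u) := by
      rcases hstep u with e1 | e1
      · exact e1 ▸ Relation.ReflTransGen.refl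
      · refine Relation.ReflTransGen.single ⟨e1, ?_⟩
        rw [hr, hidem]
    have p2 : Relation.ReflTransGen (fun a b => K.E a b ∧ r a b) (ρ v) v := by
      rcases hstep v with e1 | e1
      · exact e1 ▸ Relation.ReflTransGen.refl
      · refine Relation.ReflTransGen.single ⟨K.E_symm _ _ e1, ?_⟩
        rw [hr, hidem]
    rw [← e] at p2
    exact p1.trans p2
  have cyc : ∀ u ∈ K.P, ∀ A : Subgroup H, (∀ a ∈ A, r (a • u) u) → IsCyclic ↥A := by
    intro u hu A hA
    apply cyclic_of_le (B := stabilizer H (ρ u)) ?_ (K.cyc _ (hP u hu))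
    intro a ha
    have := hA a ha
    rw [hr, hequi] at this
    exact this
  obtain ⟨Y', act, K', -, hlt⟩ := collapse K r inv conn cyc
  refine ⟨Y', act, K', hlt ⟨x, y, z, h, ?_⟩⟩
  rw [hr]
  have h1 := hρx 1
  have h2 := hρy 1
  rw [one_smul, one_smul] at h1
  rw [one_smul] at h2
  rw [h1, h2]

/-- Second case: the neighbour is in the same orbit. -/
theorem exists_lt_of_free_aux2 (K : KS H Y) {x z : Y} {g : H} (h : K.T x (g • x) z)
    (hx : Fr H x) :
    ∃ (Y' : Type) (_ : MulAction H Y') (K' : KS H Y'), K'.t < K.t := by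
  classical
  have hE : K.E x (g • x) := K.T_E _ _ _ h
  let r : Setoid Y :=
    { r := fun u v => u = v ∨ ∃ (a : H) (n : ℤ), u = a • x ∧ v = (a * g ^ n) • x
      iseqv :=
        { refl := fun _ => Or.inl rfl
          symm := by
            rintro u v (e | ⟨a, n, e1, e2⟩)
            · exact Or.inl e.symm
            · refine Or.inr ⟨a * g ^ n, -n, e2, ?_⟩
              rw [mul_assoc, ← zpow_add, add_neg_cancel, zpow_zero, mul_one]
              exact e1
          trans := by
            rintro u v w (rfl | ⟨a, n, e1, e2⟩) (rfl | ⟨b, m, e3, e4⟩)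
            · exact Or.inl rfl
            · exact Or.inr ⟨b, m, e3, e4⟩
            · exact Or.inr ⟨a, n, e1, e2⟩
            · refine Or.inr ⟨a, n + m, e1, ?_⟩
              have : a * g ^ n = b := fr_cancel hx (e2.symm.trans e3)
              rw [zpow_add, ← mul_assoc, this]
              exact e4 } }
  have hr : ∀ u v, r u v ↔ (u = v ∨ ∃ (a : H) (n : ℤ), u = a • x ∧ v = (a * g ^ n) • x) :=
    fun _ _ => Iff.rfl
  have inv : ∀ (a : H) (u v : Y), r u v → r (a • u) (a • v) := by
    intro a u v e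
    rw [hr] at e ⊢
    rcases e with rfl | ⟨b, n, e1, e2⟩
    · exact Or.inl rfl
    · refine Or.inr ⟨a * b, n, ?_, ?_⟩
      · rw [e1, mul_smul]
      · rw [e2, mul_assoc, mul_smul a]
  have step : ∀ (a : H) (n : ℕ),
      Relation.ReflTransGen (fun u v => K.E u v ∧ r u v) (a • x) ((a * g ^ (n : ℤ)) • x) := by
    intro a n
    induction n with
    | zero =>
      rw [Nat.cast_zero, zpow_zero, mul_one]
    | succ n ih =>
      refine ih.tail ⟨?_, ?_⟩
      · have := K.E_smul (a * g ^ (n : ℤ)) _ _ hE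
        rw [← mul_smul] at this
        rw [Nat.cast_succ, zpow_add, zpow_one, ← mul_assoc]
        exact this
      · rw [hr]
        refine Or.inr ⟨a * g ^ (n : ℤ), 1, rfl, ?_⟩
        rw [Nat.cast_succ, zpow_add, ← mul_assoc]
  have hsymm : ∀ u v, Relation.ReflTransGen (fun u v => K.E u v ∧ r u v) u v →
      Relation.ReflTransGen (fun u v => K.E u v ∧ r u v) v u := by
    intro u v p
    induction p with
    | refl => exact Relation.ReflTransGen.refl
    | tail _ e ih => exact Relation.ReflTransGen.head ⟨K.E_symm _ _ e.1, r.symm' e.2⟩ ih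
  have conn : ∀ u ∈ K.P, ∀ v ∈ K.P, r u v →
      Relation.ReflTransGen (fun a b => K.E a b ∧ r a b) u v := by
    intro u _ v _ e
    rw [hr] at e
    rcases e with rfl | ⟨a, n, e1, e2⟩
    · exact Relation.ReflTransGen.refl
    · obtain ⟨m, hm | hm⟩ := Int.eq_nat_or_neg n
      · rw [e1, e2, hm]
        exact step a m
      · apply hsymm
        have := step (a * g ^ n) m
        rw [← e2, mul_assoc, ← zpow_add, hm, neg_add_cancel, zpow_zero, mul_one, ← e1] at this
        exact this
  have cyc : ∀ u ∈ K.P, ∀ A : Subgroup H, (∀ a ∈ A, r (a • u) u) → IsCyclic ↥A := by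
    intro u hu A hA
    by_cases hu' : ∃ k : H, u = k • x
    · obtain ⟨k, rfl⟩ := hu'
      have hcyc : IsCyclic ↥(Subgroup.zpowers (k * g * k⁻¹)) := by infer_instance
      apply cyclic_of_le (B := Subgroup.zpowers (k * g * k⁻¹)) ?_ hcyc
      intro a ha
      have := hA a ha
      rw [hr] at this
      rcases this with e | ⟨b, n, e1, e2⟩
      · rw [← mul_smul] at e
        have h1 : a * k = k := fr_cancel hx e
        have h2 : a = 1 := by
          have := congrArg (· * k⁻¹) h1
          simpa using this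
        rw [h2]
        exact Subgroup.one_mem _
      · rw [← mul_smul] at e1
        have h1 : a * k = b := fr_cancel hx e1
        have h2 : k = b * g ^ n := fr_cancel hx e2
        refine ⟨-n, ?_⟩
        show (k * g * k⁻¹) ^ (-n) = a
        rw [conj_zpow]
        have h3 : b = k * g ^ (-n) := by
          rw [h2, mul_assoc, ← zpow_add, add_neg_cancel, zpow_zero, mul_one]
        rw [← h3, ← h1, mul_inv_cancel_right]
    · apply cyclic_of_le (B := stabilizer H u) ?_ (K.cyc _ hu)
      intro a ha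
      have := hA a ha
      rw [hr] at this
      rcases this with e | ⟨b, n, _, e2⟩
      · exact e
      · exact absurd ⟨_, e2⟩ hu'
  obtain ⟨Y', act, K', -, hlt⟩ := collapse K r inv conn cyc
  refine ⟨Y', act, K', hlt ⟨x, g • x, z, h, ?_⟩⟩
  rw [hr]
  refine Or.inr ⟨1, 1, (one_smul H x).symm, ?_⟩
  rw [one_mul, zpow_one]

/-- A free vertex of a triangle can be collapsed. -/
theorem exists_lt_of_free (hTF : TF H) (K : KS H Y) {x y z : Y} (h : K.T x y z) (hx : Fr H x) :
    ∃ (Y' : Type) (_ : MulAction H Y') (K' : KS H Y'), K'.t < K.t := by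
  by_cases hy : ∃ g : H, g • x = y
  · obtain ⟨g, rfl⟩ := hy
    exact exists_lt_of_free_aux2 K h hx
  · exact exists_lt_of_free_aux1 K h hx (fun g e => hy ⟨g, e⟩)

theorem no_free (hTF : TF H) (bad : ¬ SA H) (K : KS H Y) (hmin : MinT K.t) {x y z : Y}
    (h : K.T x y z) : ¬ Fr H x := by
  intro hx
  obtain ⟨Y', _, K', hK'⟩ := exists_lt_of_free hTF K h hx
  exact absurd (hmin H Y' K' hTF bad) (not_le.2 hK')

end Pool.Agent.SAF
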