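import Pool.Agent.SAF.AOrb

/-!
# SAF: the block lemma

The bipartite tree of the vertices and the triangle classes of edges of a complex; a bad group has
a bad block.
-/

namespace Pool.Agent.SAF

open MulAction

namespace Block

variable {H : Type} [Group H] {Y : Type} [MulAction H Y] (K : KS H Y)

/-- generating relation on ordered edges -/
def gr (p q : Y × Y) : Prop :=
  (K.E p.1 p.2 ∧ q = (p.2, p.1)) ∨ (∃ z, K.T p.1 p.2 z ∧ q = (p.2, z))

/-- triangle equivalence of ordered edges -/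
def cs : Setoid (Y × Y) := Relation.EqvGen.setoid (gr K)

/-- classes of ordered edges -/
def C : Type := Quotient (cs K)

/-- the class of an ordered edge -/
def mk (x y : Y) : C K := Quotient.mk (cs K) (x, y)

theorem gr_smul (h : H) (p q : Y × Y) (e : gr K p q) : gr K (h • p) (h • q) := by
  rcases e with ⟨e, rfl⟩ | ⟨z, e, rfl⟩
  · exact Or.inl ⟨K.E_smul h _ _ e, rfl⟩
  · exact Or.inr ⟨h • z, K.T_smul h _ _ _ e, rfl⟩

theorem cs_smul (h : H) (p q : Y × Y) (e : cs K p q) : cs K (h • p) (h • q) := by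
  induction e with
  | rel x y hxy => exact Relation.EqvGen.rel _ _ (gr_smul K h x y hxy)
  | refl x => exact Relation.EqvGen.refl _
  | symm x y _ ih => exact Relation.EqvGen.symm _ _ ih
  | trans x y z _ _ ih1 ih2 => exact Relation.EqvGen.trans _ _ _ ih1 ih2

instance actC : MulAction H (C K) where
  smul h := Quotient.map (fun p => h • p) (fun p q e => cs_smul K h p q e)
  one_smul l := by
    induction l using Quotient.inductionOn with
    | h p => exact congrArg (Quotient.mk (cs K)) (one_smul H p)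
  mul_smul a b l := by
    induction l using Quotient.inductionOn with
    | h p => exact congrArg (Quotient.mk (cs K)) (mul_smul a b p)

theorem mk_smul (h : H) (x y : Y) : h • mk K x y = mk K (h • x) (h • y) := rfl

theorem mk_symm {x y : Y} (e : K.E x y) : mk K x y = mk K y x :=
  Quotient.sound (Relation.EqvGen.rel _ _ (Or.inl ⟨e, rfl⟩))

theorem mk_T {x y z : Y} (e : K.T x y z) : mk K x y = mk K y z :=
  Quotient.sound (Relation.EqvGen.rel _ _ (Or.inr ⟨z, e, rfl⟩))

theorem T_E2 {x y z : Y} (e : K.T x y z) : K.E y z := K.T_E _ _ _ (K.T_rot _ _ _ e)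

theorem T_E3 {x y z : Y} (e : K.T x y z) : K.E x z := K.E_symm _ _ (T_E2 K (K.T_rot _ _ _ e))

theorem mk_T3 {x y z : Y} (e : K.T x y z) : mk K x y = mk K x z := by
  rw [mk_T K e, mk_T K (K.T_rot _ _ _ e)]
  exact mk_symm K (K.E_symm _ _ (T_E3 K e))

theorem E_ne {x y : Y} (e : K.E x y) : x ≠ y := by
  rintro rfl; exact K.E_irr _ e

open Classical in
/-- the value of a function at the end of an edge different from `x` -/
noncomputable def F (x : Y) (h : Y → ZMod 2) (p : Y × Y) : ZMod 2 :=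
  if p.1 = x then h p.2 else h p.1

theorem F_gr (x : Y) (h : Y → ZMod 2) (c : C K)
    (hh : ∀ a b, K.E a b → a ≠ x → b ≠ x → mk K a b = c → h a = h b) (p q : Y × Y)
    (e : gr K p q) (hp : Quotient.mk (cs K) p = c) : F x h p = F x h q := by
  obtain ⟨a, b⟩ := p
  rcases e with ⟨e, rfl⟩ | ⟨z, e, rfl⟩
  · simp only [F]
    by_cases h1 : a = x
    · have h2 : b ≠ x := by rintro rfl; exact E_ne K e h1
      simp [h1, h2]
    · by_cases h2 : b = x
      · simp [h1, h2]
      · simp [h1, h2, hh a b e h1 h2 hp]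
  · have e1 : K.E a b := K.T_E _ _ _ e
    have e2 := T_E2 K e
    have e3 := T_E3 K e
    simp only [F]
    by_cases h1 : a = x
    · have h2 : b ≠ x := by rintro rfl; exact E_ne K e1 h1
      simp [h1, h2]
    · by_cases h2 : b = x
      · have h3 : z ≠ x := by rintro rfl; exact E_ne K e2 h2
        have hz : mk K a z = c := by rw [← mk_T3 K e]; exact hp
        simp [h1, h2, hh a z e3 h1 h3 hz]
      · simp [h1, h2, hh a b e1 h1 h2 hp]

theorem F_const (x : Y) (h : Y → ZMod 2) (c : C K)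
    (hh : ∀ a b, K.E a b → a ≠ x → b ≠ x → mk K a b = c → h a = h b) (p q : Y × Y)
    (e : cs K p q) (hp : Quotient.mk (cs K) p = c) : F x h p = F x h q := by
  induction e with
  | rel p q hpq => exact F_gr K x h c hh p q hpq hp
  | refl p => rfl
  | symm p q hpq ih => exact (ih (by rw [← hp]; exact Quotient.sound hpq)).symm
  | trans p q s h1 h2 ih1 ih2 =>
    rw [ih1 hp]
    exact ih2 (by rw [← hp]; exact (Quotient.sound h1).symm)

theorem F_mk (x : Y) (h : Y → ZMod 2) (c : C K)
    (hh : ∀ a b, K.E a b → a ≠ x → b ≠ x → mk K a b = c → h a = h b) {a b a' b' : Y}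
    (h1 : mk K a b = c) (h2 : mk K a' b' = c) : F x h (a, b) = F x h (a', b') :=
  F_const K x h c hh _ _ (Quotient.exact (h1.trans h2.symm)) h1

/-! ### The tree -/

/-- vertices of the tree -/
def P : Set (Y ⊕ C K) := {v | (∃ x ∈ K.P, v = Sum.inl x) ∨ ∃ x y, K.E x y ∧ v = Sum.inr (mk K x y)}

/-- adjacency -/
def A (v w : Y ⊕ C K) : Prop :=
  ∃ x y, K.E x y ∧ ((v = Sum.inl x ∧ w = Sum.inr (mk K x y)) ∨
    (w = Sum.inl x ∧ v = Sum.inr (mk K x y)))

theorem A_symm (v w : Y ⊕ C K) (e : A K v w) : A K w v := by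
  obtain ⟨x, y, h, h'⟩ := e
  exact ⟨x, y, h, h'.symm⟩

theorem P_symm2 (x y : Y) (e : K.E x y) : y ∈ K.P := K.E_P _ _ (K.E_symm _ _ e)

theorem A_P (v w : Y ⊕ C K) (e : A K v w) : v ∈ P K := by
  obtain ⟨x, y, h, ⟨rfl, rfl⟩ | ⟨rfl, rfl⟩⟩ := e
  · exact Or.inl ⟨x, K.E_P _ _ h, rfl⟩
  · exact Or.inr ⟨x, y, h, rfl⟩

theorem two_ne : (1 : ZMod 2) ≠ 0 := by decide

theorem cut_aux (x y : Y) (hxy : K.E x y) : ∃ g : Y ⊕ C K → ZMod 2,
    g (Sum.inl x) ≠ g (Sum.inr (mk K x y)) ∧
    ∀ a b, K.E a b → g (Sum.inl a) ≠ g (Sum.inr (mk K a b)) → a = x ∧ mk K a b = mk K x y := by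
  classical
  set c := mk K x y with hc
  let φ : Y → Y → ZMod 2 := fun a b =>
    if (a = x ∨ b = x) ∧ K.E a b ∧ mk K a b = c then 1 else 0
  have hsymm : ∀ a b, φ a b = φ b a := by
    intro a b
    have : ((a = x ∨ b = x) ∧ K.E a b ∧ mk K a b = c) ↔
        ((b = x ∨ a = x) ∧ K.E b a ∧ mk K b a = c) := by
      constructor
      · rintro ⟨h1, h2, h3⟩
        exact ⟨h1.symm, K.E_symm _ _ h2, by rw [← mk_symm K h2]; exact h3⟩
      · rintro ⟨h1, h2, h3⟩
        exact ⟨h1.symm, K.E_symm _ _ h2, by rw [← mk_symm K h2]; exact h3⟩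
    simp only [φ, this]
  have hT : ∀ a b d, K.T a b d → φ a b + φ b d + φ a d = 0 := by
    intro a b d e
    have e1 : K.E a b := K.T_E _ _ _ e
    have e2 := T_E2 K e
    have e3 := T_E3 K e
    have m2 : mk K b d = mk K a b := (mk_T K e).symm
    have m3 : mk K a d = mk K a b := (mk_T3 K e).symm
    by_cases hm : mk K a b = c
    · have v1 : φ a b = if (a = x ∨ b = x) then 1 else 0 := by simp [φ, e1, hm]
      have v2 : φ b d = if (b = x ∨ d = x) then 1 else 0 := by simp [φ, e2, m2, hm]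
      have v3 : φ a d = if (a = x ∨ d = x) then 1 else 0 := by simp [φ, e3, m3, hm]
      rw [v1, v2, v3]
      have n1 := E_ne K e1
      have n2 := E_ne K e2
      have n3 := E_ne K e3
      by_cases ha : a = x
      · have hb : b ≠ x := fun h => n1 (ha.trans h.symm)
        have hd : d ≠ x := fun h => n3 (ha.trans h.symm)
        simp [ha, hb, hd]; decide
      · by_cases hb : b = x
        · have hd : d ≠ x := fun h => n2 (hb.trans h.symm)
          simp [ha, hb, hd]; decide
        · by_cases hd : d = x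
          · simp [ha, hb, hd]; decide
          · simp [ha, hb, hd]
    · have v1 : φ a b = 0 := by simp [φ, hm]
      have v2 : φ b d = 0 := by simp [φ, m2, hm]
      have v3 : φ a d = 0 := by simp [φ, m3, hm]
      rw [v1, v2, v3]; simp
  obtain ⟨h, hh⟩ := K.H1 φ hsymm hT
  have hFc : ∀ a b, K.E a b → a ≠ x → b ≠ x → mk K a b = c → h a = h b := by
    intro a b e h1 h2 _
    have := hh a b e
    simp only [φ, h1, h2, or_self, false_and, if_false] at this
    exact (CharTwo.add_eq_zero.1 this.symm)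
  have hF0 : ∀ c' : C K, c' ≠ c → ∀ a b, K.E a b → mk K a b = c' → h a = h b := by
    intro c' hc' a b e hm
    have := hh a b e
    have hne : ¬ mk K a b = c := by rw [hm]; exact hc'
    simp only [φ, hne, and_false, if_false] at this
    exact (CharTwo.add_eq_zero.1 this.symm)
  have hxy1 : h x + h y = 1 := by
    rw [← hh x y hxy]
    simp [φ, hxy, hc]
  -- values on classes
  have hout : ∀ c' : C K, ∃ p : Y × Y, Quotient.mk (cs K) p = c' := fun c' =>
    ⟨Quotient.out c', Quotient.out_eq c'⟩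
  choose o ho using hout
  refine ⟨Sum.elim h (fun c' => F x h (o c')), ?_, ?_⟩
  · simp only [Sum.elim_inl, Sum.elim_inr]
    have : F x h (o c) = F x h (x, y) :=
      F_const K x h c hFc _ _ (Quotient.exact ((ho c).trans rfl)) (ho c)
    rw [this]
    simp only [F, if_true]
    intro e
    rw [e, CharTwo.add_self_eq_zero] at hxy1
    exact two_ne hxy1.symm
  · intro a b e hne
    simp only [Sum.elim_inl, Sum.elim_inr] at hne
    have heq : F x h (o (mk K a b)) = F x h (a, b) := by
      by_cases hm : mk K a b = c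
      · exact F_const K x h c hFc _ _ (Quotient.exact (ho _)) ((ho _).trans hm)
      · exact F_const K x h (mk K a b) (fun a' b' e' _ _ hm' => hF0 _ hm a' b' e' hm') _ _
          (Quotient.exact (ho _)) (ho _)
    rw [heq] at hne
    by_cases hm : mk K a b = c
    · refine ⟨?_, hm⟩
      by_contra hax
      exact hne (by simp [F, hax])
    · exfalso
      apply hne
      simp only [F]
      by_cases hax : a = x
      · simp only [hax, if_true]
        rw [← hax]
        exact hF0 _ hm a b e rfl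
      · simp [hax]

theorem exists_bad_class (htf : TF H) (hb : ¬ SA H) :
    ∃ x y, K.E x y ∧ ¬ SA (stabilizer H (mk K x y)) := by
  classical
  obtain ⟨v, hv, hbad⟩ := exists_bad_of_rel (H := H) (X := Y ⊕ C K) (P K) (A K) (A_symm K)
    (by
      rintro v ⟨x, y, _, ⟨h1, h2⟩ | ⟨h1, h2⟩⟩
      · rw [h1] at h2; simp at h2
      · rw [h1] at h2; simp at h2)
    (A_P K)
    (by
      rintro h v (⟨x, hx, rfl⟩ | ⟨x, y, hxy, rfl⟩)
      · exact Or.inl ⟨h • x, K.P_smul h x hx, rfl⟩
      · exact Or.inr ⟨h • x, h • y, K.E_smul h _ _ hxy, rfl⟩)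
    (by
      rintro h v w ⟨x, y, hxy, ⟨rfl, rfl⟩ | ⟨rfl, rfl⟩⟩
      · exact ⟨h • x, h • y, K.E_smul h _ _ hxy, Or.inl ⟨rfl, rfl⟩⟩
      · exact ⟨h • x, h • y, K.E_smul h _ _ hxy, Or.inr ⟨rfl, rfl⟩⟩)
    (by
      obtain ⟨x, hx⟩ := K.ne
      exact ⟨Sum.inl x, Or.inl ⟨x, hx, rfl⟩⟩)
    (by
      have step : ∀ x y, K.E x y → Relation.ReflTransGen (A K) (Sum.inl x) (Sum.inl y) := by
        intro x y e
        refine Relation.ReflTransGen.tail (Relation.ReflTransGen.single
          (b := Sum.inr (mk K x y)) ⟨x, y, e, Or.inl ⟨rfl, rfl⟩⟩) ?_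
        exact ⟨y, x, K.E_symm _ _ e, Or.inr ⟨rfl, by rw [mk_symm K e]⟩⟩
      have path : ∀ x y, Relation.ReflTransGen K.E x y →
          Relation.ReflTransGen (A K) (Sum.inl x) (Sum.inl y) := by
        intro x y e
        induction e with
        | refl => exact Relation.ReflTransGen.refl
        | tail _ h ih => exact ih.trans (step _ _ h)
      have ll : ∀ x ∈ K.P, ∀ y ∈ K.P, Relation.ReflTransGen (A K) (Sum.inl x) (Sum.inl y) :=
        fun x hx y hy => path x y (K.conn x hx y hy)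
      rintro v (⟨x, hx, rfl⟩ | ⟨x, y, hxy, rfl⟩) w (⟨x', hx', rfl⟩ | ⟨x', y', hxy', rfl⟩)
      · exact ll x hx x' hx'
      · exact (ll x hx x' (K.E_P _ _ hxy')).tail ⟨x', y', hxy', Or.inl ⟨rfl, rfl⟩⟩
      · exact Relation.ReflTransGen.head ⟨x, y, hxy, Or.inr ⟨rfl, rfl⟩⟩
          (ll x (K.E_P _ _ hxy) x' hx')
      · exact Relation.ReflTransGen.head ⟨x, y, hxy, Or.inr ⟨rfl, rfl⟩⟩
          ((ll x (K.E_P _ _ hxy) x' (K.E_P _ _ hxy')).tail ⟨x', y', hxy', Or.inl ⟨rfl, rfl⟩⟩))
    (by
      rintro v w ⟨x, y, hxy, h⟩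
      obtain ⟨g, h1, h2⟩ := cut_aux K x y hxy
      refine ⟨g, ?_, ?_⟩
      · rcases h with ⟨rfl, rfl⟩ | ⟨rfl, rfl⟩
        · exact h1
        · exact h1.symm
      · rintro a b ⟨x', y', hxy', ⟨rfl, rfl⟩ | ⟨rfl, rfl⟩⟩ hg
        · obtain ⟨rfl, e⟩ := h2 x' y' hxy' hg
          rw [e]
          rcases h with ⟨rfl, rfl⟩ | ⟨rfl, rfl⟩
          · exact Or.inl ⟨rfl, rfl⟩
          · exact Or.inr ⟨rfl, rfl⟩
        · obtain ⟨rfl, e⟩ := h2 x' y' hxy' hg.symm
          rw [e]
          rcases h with ⟨rfl, rfl⟩ | ⟨rfl, rfl⟩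
          · exact Or.inr ⟨rfl, rfl⟩
          · exact Or.inl ⟨rfl, rfl⟩)
    (by
      rintro h v w ⟨x, y, hxy, ⟨rfl, rfl⟩ | ⟨rfl, rfl⟩⟩ ⟨h1, h2⟩
      · simp at h1
      · simp at h1)
    (by
      obtain ⟨F1, hF1, hs1, hc1⟩ := FinOrb_iff.1 K.finP
      obtain ⟨F2, hF2, hs2, hc2⟩ := FinOrb_iff.1 K.finE
      refine FinOrb_iff.2 ⟨Sum.inl '' F1 ∪ (fun p : Y × Y => Sum.inr (mk K p.1 p.2)) '' F2,
        (hF1.image _).union (hF2.image _), ?_, ?_⟩
      · rintro _ (⟨x, hx, rfl⟩ | ⟨p, hp, rfl⟩)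
        · exact Or.inl ⟨x, hs1 hx, rfl⟩
        · exact Or.inr ⟨p.1, p.2, hs2 hp, rfl⟩
      · rintro v (⟨x, hx, rfl⟩ | ⟨x, y, hxy, rfl⟩)
        · obtain ⟨f, hf, h, e⟩ := hc1 x hx
          exact ⟨_, Or.inl ⟨f, hf, rfl⟩, h, by rw [← e]; rfl⟩
        · obtain ⟨f, hf, h, e⟩ := hc2 (x, y) hxy
          refine ⟨_, Or.inr ⟨f, hf, rfl⟩, h, ?_⟩
          have e1 : h • f.1 = x := congrArg Prod.fst e
          have e2 : h • f.2 = y := congrArg Prod.snd e
          rw [← e1, ← e2]; rfl)
    (by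
      obtain ⟨F2, hF2, hs2, hc2⟩ := FinOrb_iff.1 K.finE
      refine FinOrb_iff.2 ⟨(fun p : Y × Y => ((Sum.inl p.1 : Y ⊕ C K),
          (Sum.inr (mk K p.1 p.2) : Y ⊕ C K))) '' F2 ∪
        (fun p : Y × Y => ((Sum.inr (mk K p.1 p.2) : Y ⊕ C K), (Sum.inl p.1 : Y ⊕ C K))) '' F2,
        (hF2.image _).union (hF2.image _), ?_, ?_⟩
      · rintro _ (⟨p, hp, rfl⟩ | ⟨p, hp, rfl⟩)
        · exact ⟨p.1, p.2, hs2 hp, Or.inl ⟨rfl, rfl⟩⟩
        · exact ⟨p.1, p.2, hs2 hp, Or.inr ⟨rfl, rfl⟩⟩
      · rintro ⟨v, w⟩ ⟨x, y, hxy, ⟨h1, h2⟩ | ⟨h1, h2⟩⟩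
        · obtain ⟨f, hf, h, e⟩ := hc2 (x, y) hxy
          refine ⟨_, Or.inl ⟨f, hf, rfl⟩, h, ?_⟩
          have e1 : h • f.1 = x := congrArg Prod.fst e
          have e2 : h • f.2 = y := congrArg Prod.snd e
          simp only at h1 h2
          rw [h1, h2, ← e1, ← e2]; rfl
        · obtain ⟨f, hf, h, e⟩ := hc2 (x, y) hxy
          refine ⟨_, Or.inr ⟨f, hf, rfl⟩, h, ?_⟩
          have e1 : h • f.1 = x := congrArg Prod.fst e
          have e2 : h • f.2 = y := congrArg Prod.snd e
          simp only at h1 h2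
          rw [h1, h2, ← e1, ← e2]; rfl)
    (by
      have key : ∀ x ∈ K.P, IsCyclic ↥(stabilizer H (Sum.inl x : Y ⊕ C K)) := by
        intro x hx
        apply cyclic_of_le ?_ (K.cyc x hx)
        intro h hh
        have : h • (Sum.inl x : Y ⊕ C K) = Sum.inl x := hh
        exact Sum.inl_injective this
      rintro v w ⟨x, y, hxy, ⟨rfl, rfl⟩ | ⟨rfl, rfl⟩⟩
      · exact cyclic_InC (htf.sub _) (cyclic_of_le inf_le_left (key x (K.E_P _ _ hxy)))
      · exact cyclic_InC (htf.sub _) (cyclic_of_le inf_le_right (key x (K.E_P _ _ hxy))))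
    hb
  rcases hv with ⟨x, hx, rfl⟩ | ⟨x, y, hxy, rfl⟩
  · exfalso
    apply hbad
    apply SA.of_cyclic (htf.sub _)
    apply cyclic_of_le ?_ (K.cyc x hx)
    intro h hh
    have : h • (Sum.inl x : Y ⊕ C K) = Sum.inl x := hh
    exact Sum.inl_injective this
  · refine ⟨x, y, hxy, ?_⟩
    have : stabilizer H (Sum.inr (mk K x y) : Y ⊕ C K) = stabilizer H (mk K x y) := by
      ext h
      rw [mem_stabilizer_iff, mem_stabilizer_iff]
      constructor
      · intro e; exact Sum.inr_injective e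
      · intro e
        show Sum.inr (h • mk K x y) = _
        rw [e]
    rw [← this]
    exact hbad

/-! ### The block -/

/-- an element of `H` which maps an edge of the class `c` to an edge of the class `c` is in the
stabiliser -/
theorem mem_stab {c : C K} {h : H} {x y : Y} (h1 : mk K x y = c) (h2 : mk K (h • x) (h • y) = c) :
    h ∈ stabilizer H c := by
  rw [mem_stabilizer_iff, ← h1, mk_smul, h2, h1]

theorem mk_stab {c : C K} (s : stabilizer H c) {x y : Y} (h1 : mk K x y = c) :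
    mk K (s • x) (s • y) = c := by
  have h3 : (s : H) • c = c := s.2
  have : mk K ((s : H) • x) ((s : H) • y) = c := by
    rw [← mk_smul, h1, h3]
  exact this

theorem conn_class {c : C K} : ∀ p q : Y × Y, cs K p q → Quotient.mk (cs K) p = c →
    Relation.ReflTransGen (fun x y => K.E x y ∧ mk K x y = c) p.1 q.1 := by
  have hsymm : Std.Symm (fun x y => K.E x y ∧ mk K x y = c) :=
    ⟨fun x y h => ⟨K.E_symm _ _ h.1, by rw [← mk_symm K h.1]; exact h.2⟩⟩
  intro p q e
  induction e with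
  | rel p q hpq =>
    intro hp
    rcases hpq with ⟨e, rfl⟩ | ⟨z, e, rfl⟩
    · exact Relation.ReflTransGen.single ⟨e, hp⟩
    · exact Relation.ReflTransGen.single ⟨K.T_E _ _ _ e, hp⟩
  | refl p => intro _; exact Relation.ReflTransGen.refl
  | symm p q hpq ih =>
    intro hp
    exact (Relation.ReflTransGen.stdSymm (r := fun x y => K.E x y ∧ mk K x y = c)).symm _ _
      (ih (by rw [← hp]; exact Quotient.sound hpq))
  | trans p q s h1 h2 ih1 ih2 =>
    intro hp
    exact (ih1 hp).trans (ih2 (by rw [← hp]; exact (Quotient.sound h1).symm))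

/-- the block as a complex for its stabiliser -/
def blk (x0 y0 : Y) (h0 : K.E x0 y0) : KS (stabilizer H (mk K x0 y0)) Y where
  P := {x | ∃ y, K.E x y ∧ mk K x y = mk K x0 y0}
  E x y := K.E x y ∧ mk K x y = mk K x0 y0
  T x y z := K.T x y z ∧ mk K x y = mk K x0 y0
  E_symm x y h := ⟨K.E_symm _ _ h.1, by rw [← mk_symm K h.1]; exact h.2⟩
  E_irr x h := K.E_irr x h.1
  E_P x y h := ⟨y, h⟩
  T_swap x y z h := ⟨K.T_swap _ _ _ h.1, by rw [← mk_symm K (K.T_E _ _ _ h.1)]; exact h.2⟩
  T_rot x y z h := ⟨K.T_rot _ _ _ h.1, by rw [← mk_T K h.1]; exact h.2⟩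
  T_E x y z h := ⟨K.T_E _ _ _ h.1, h.2⟩
  P_smul h x hx := by
    obtain ⟨y, h1, h2⟩ := hx
    exact ⟨h • y, K.E_smul (h : H) _ _ h1, mk_stab K h h2⟩
  E_smul h x y e := ⟨K.E_smul (h : H) _ _ e.1, mk_stab K h e.2⟩
  T_smul h x y z e := ⟨K.T_smul (h : H) _ _ _ e.1, mk_stab K h e.2⟩
  ne := ⟨x0, y0, h0, rfl⟩
  conn x hx x' hx' := by
    obtain ⟨y, _, h2⟩ := hx
    obtain ⟨y', _, h2'⟩ := hx'
    exact conn_class K (x, y) (x', y') (Quotient.exact (h2.trans h2'.symm)) h2
  H1 φ hs hc := by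
    classical
    obtain ⟨h, hh⟩ := K.H1 (fun a b => if K.E a b ∧ mk K a b = mk K x0 y0 then φ a b else 0)
      (by
        intro a b
        have : (K.E a b ∧ mk K a b = mk K x0 y0) ↔ (K.E b a ∧ mk K b a = mk K x0 y0) := by
          constructor
          · rintro ⟨h1, h2⟩
            exact ⟨K.E_symm _ _ h1, by rw [← mk_symm K h1]; exact h2⟩
          · rintro ⟨h1, h2⟩
            exact ⟨K.E_symm _ _ h1, by rw [← mk_symm K h1]; exact h2⟩
        simp only [this, hs a b])
      (by
        intro a b d e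
        have e1 : K.E a b := K.T_E _ _ _ e
        have e2 := T_E2 K e
        have e3 := T_E3 K e
        have m2 : mk K b d = mk K a b := (mk_T K e).symm
        have m3 : mk K a d = mk K a b := (mk_T3 K e).symm
        by_cases hm : mk K a b = mk K x0 y0
        · simp only [e1, e2, e3, m2, m3, hm, and_self, if_true]
          exact hc a b d ⟨e, hm⟩
        · simp [m2, m3, hm])
    refine ⟨h, fun a b e => ?_⟩
    have := hh a b e.1
    simp only [e.1, e.2, and_self, if_true] at this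
    exact this
  finP := by
    have hE : FinOrb (stabilizer H (mk K x0 y0))
        {p : Y × Y | K.E p.1 p.2 ∧ mk K p.1 p.2 = mk K x0 y0} := by
      apply FinOrb.of_inj K.finE (fun p => p)
      · intro a ha; exact ha.1
      · rintro a ha b hb ⟨h, e⟩
        have e' : h • a = b := e
        refine ⟨⟨h, mem_stab K ha.2 ?_⟩, e⟩
        have : mk K (h • a).1 (h • a).2 = mk K x0 y0 := by rw [e']; exact hb.2
        exact this
    apply FinOrb.image hE (fun p => p.1)
    · rintro b ⟨y, hy⟩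
      exact ⟨(b, y), hy, 1, one_smul _ _⟩
    · rintro a _ b _ ⟨h, e⟩
      exact ⟨h, congrArg Prod.fst e⟩
  finE := by
    apply FinOrb.of_inj K.finE (fun p => p)
    · intro a ha; exact ha.1
    · rintro a ha b hb ⟨h, e⟩
      have e' : h • a = b := e
      refine ⟨⟨h, mem_stab K ha.2 ?_⟩, e⟩
      have : mk K (h • a).1 (h • a).2 = mk K x0 y0 := by rw [e']; exact hb.2
      exact this
  finT := by
    apply FinOrb.of_inj K.finT (fun p => p)
    · intro a ha; exact ha.1
    · rintro a ha b hb ⟨h, e⟩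
      have e' : h • a = b := e
      refine ⟨⟨h, mem_stab K ha.2 ?_⟩, e⟩
      have : mk K (h • a).1 (h • a).2.1 = mk K x0 y0 := by rw [e']; exact hb.2
      exact this
  cyc x hx := by
    obtain ⟨y, hy, _⟩ := hx
    have := K.cyc x (K.E_P _ _ hy)
    apply isCyclic_of_injective
      ((((stabilizer H (mk K x0 y0)).subtype).comp
        (stabilizer (stabilizer H (mk K x0 y0)) x).subtype).codRestrict (stabilizer H x)
        (fun s => s.2))
    intro a b e
    exact Subtype.ext (Subtype.ext (by simpa using congrArg Subtype.val e))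

end Block

open Block in
/-- Block lemma. -/
theorem block_lemma {H Y : Type} [Group H] [MulAction H Y] (K : KS H Y) (htf : TF H)
    (hb : ¬ SA H) : ∃ (S : Subgroup H) (K' : KS S Y), ¬ SA S ∧ K'.AllTri ∧ K'.LinkConn ∧
      (∃ x y z, K'.T x y z) ∧ K'.t ≤ K.t ∧ K'.ef ≤ K.ef ∧ (K'.t = K.t → K.nv ≤ K'.nv) := by
  classical
  obtain ⟨x0, y0, h0, hbad⟩ := exists_bad_class K htf hb
  set c := mk K x0 y0 with hc
  have hTne : ∀ x y, K.E x y → mk K x y = c → ∃ z, K.T x y z := by
    intro x y e hm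
    by_contra hno
    push Not at hno
    apply hbad
    -- the class consists of the two orientations of one edge
    have hcl : ∀ p q : Y × Y, cs K p q → (p = (x, y) ∨ p = (y, x) ↔ q = (x, y) ∨ q = (y, x)) := by
      intro p q hpq
      induction hpq with
      | rel p q hpq =>
        obtain ⟨a, b⟩ := p
        rcases hpq with ⟨e', rfl⟩ | ⟨z, e', rfl⟩
        · simp only [Prod.mk.injEq]
          constructor
          · rintro (⟨rfl, rfl⟩ | ⟨rfl, rfl⟩) <;> simp
          · rintro (⟨rfl, rfl⟩ | ⟨rfl, rfl⟩) <;> simp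
        · simp only [Prod.mk.injEq]
          constructor
          · rintro (⟨rfl, rfl⟩ | ⟨rfl, rfl⟩)
            · exact absurd e' (hno z)
            · exact absurd (K.T_swap _ _ _ e') (hno z)
          · rintro (⟨rfl, rfl⟩ | ⟨rfl, rfl⟩)
            · exact absurd (K.T_rot _ _ _ e') (hno a)
            · exact absurd (K.T_swap _ _ _ (K.T_rot _ _ _ e')) (hno a)
      | refl p => exact Iff.rfl
      | symm p q _ ih => exact ih.symm
      | trans p q s _ _ ih1 ih2 => exact ih1.trans ih2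
    apply SA.of_cyclic (htf.sub _)
    have hS : ∀ s : stabilizer H c, s • x = x ∨ s • x = y := by
      intro s
      have h1 : mk K (s • x) (s • y) = c := mk_stab K s hm
      have h2 : cs K (s • x, s • y) (x, y) := Quotient.exact (h1.trans hm.symm)
      rcases (hcl _ _ h2).2 (Or.inl rfl) with h3 | h3
      · exact Or.inl (congrArg Prod.fst h3)
      · exact Or.inr (congrArg Prod.fst h3)
    apply cyclic_of_index (htf.sub _) (stabilizer (stabilizer H c) x)
    · have := K.cyc x (K.E_P _ _ e)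
      apply isCyclic_of_injective
        ((((stabilizer H c).subtype).comp
          (stabilizer (stabilizer H c) x).subtype).codRestrict (stabilizer H x)
          (fun s => s.2))
      intro a b e
      exact Subtype.ext (Subtype.ext (by simpa using congrArg Subtype.val e))
    · rw [index_stabilizer]
      have hfin : (orbit (stabilizer H c) x).Finite := by
        apply (Set.toFinite {x, y}).subset
        rintro _ ⟨s, rfl⟩
        rcases hS s with h | h
        · left; exact h
        · right; exact h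
      exact (Set.ncard_pos hfin).2 ⟨x, 1, one_smul _ _⟩ |>.ne'
  refine ⟨stabilizer H c, blk K x0 y0 h0, hbad, ?_, ?_, ?_, ?_, ?_, ?_⟩
  · intro x y e
    obtain ⟨z, hz⟩ := hTne x y e.1 e.2
    exact ⟨z, hz, e.2⟩
  · -- links are connected
    rintro x y y' ⟨z, hz⟩ ⟨z', hz'⟩
    by_contra hno
    let R : Y → Y → Prop := fun a b => K.T x a b ∧ mk K x a = c
    let L : Set Y := {a | Relation.ReflTransGen R y a}
    have hyL : y ∈ L := Relation.ReflTransGen.refl
    have hy'L : y' ∉ L := hno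
    have hL : ∀ a ∈ L, K.E x a ∧ mk K x a = c := by
      intro a ha
      induction ha with
      | refl => exact ⟨K.T_E _ _ _ hz.1, hz.2⟩
      | tail _ h ih => exact ⟨T_E3 K h.1, by rw [← mk_T3 K h.1]; exact h.2⟩
    have hLT : ∀ a b, K.T x a b → a ∈ L → b ∈ L := by
      intro a b e ha
      exact Relation.ReflTransGen.tail ha ⟨e, (hL a ha).2⟩
    have hxL : x ∉ L := fun h => K.E_irr x (hL x h).1
    let φ : Y → Y → ZMod 2 := fun a b => if (a = x ∧ b ∈ L) ∨ (b = x ∧ a ∈ L) then 1 else 0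
    have φ0 : ∀ a b, a ≠ x → b ≠ x → φ a b = 0 := by
      intro a b h1 h2; simp [φ, h1, h2]
    have φ1 : ∀ b, φ x b = if b ∈ L then 1 else 0 := by
      intro b
      simp only [φ, hxL, true_and, and_false, or_false]
    have φs : ∀ a b, φ a b = φ b a := by
      intro a b; simp only [φ, or_comm]
    have hTx : ∀ a b, K.T x a b → φ x a + φ a b + φ x b = 0 := by
      intro a b e
      have n1 : a ≠ x := (E_ne K (K.T_E _ _ _ e)).symm
      have n2 : b ≠ x := (E_ne K (T_E3 K e)).symm
      rw [φ0 a b n1 n2, φ1, φ1]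
      have : a ∈ L ↔ b ∈ L :=
        ⟨hLT a b e, hLT b a (K.T_swap _ _ _ (K.T_rot _ _ _ (K.T_rot _ _ _ e)))⟩
      simp only [this, add_zero]
      exact CharTwo.add_self_eq_zero _
    have hT : ∀ a b d, K.T a b d → φ a b + φ b d + φ a d = 0 := by
      intro a b d e
      by_cases ha : a = x
      · subst ha; exact hTx b d e
      · by_cases hb' : b = x
        · subst hb'
          have := hTx a d (K.T_swap _ _ _ e)
          rw [φs a b]
          linear_combination this
        · by_cases hd : d = x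
          · subst hd
            have := hTx a b (K.T_rot _ _ _ (K.T_rot _ _ _ e))
            rw [φs b d, φs a d]
            linear_combination this
          · rw [φ0 a b ha hb', φ0 b d hb' hd, φ0 a d ha hd]; simp
    obtain ⟨h, hh⟩ := K.H1 φ φs hT
    have hF := F_mk K x h c (fun a b e h1 h2 _ => by
      have := hh a b e
      rw [φ0 a b h1 h2] at this
      exact CharTwo.add_eq_zero.1 this.symm) hz.2 hz'.2
    have f1 : F x h (x, y) = h y := by simp [F]
    have f2 : F x h (x, y') = h y' := by simp [F]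
    rw [f1, f2] at hF
    have g1 := hh x y (K.T_E _ _ _ hz.1)
    have g2 := hh x y' (K.T_E _ _ _ hz'.1)
    rw [φ1] at g1 g2
    simp only [hyL, if_true] at g1
    simp only [hy'L, if_false] at g2
    rw [hF, ← g2] at g1
    exact two_ne g1
  · obtain ⟨z, hz⟩ := hTne x0 y0 h0 rfl
    exact ⟨x0, y0, z, hz, rfl⟩
  · apply oc_le_of_inj K.finT (fun p => p)
    · intro a ha; exact ha.1
    · rintro a ha b hb' ⟨h, e⟩
      have e' : h • a = b := e
      refine ⟨⟨h, mem_stab K ha.2 ?_⟩, e⟩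
      have : mk K (h • a).1 (h • a).2.1 = mk K x0 y0 := by rw [e']; exact hb'.2
      exact this
  · unfold KS.ef ocf
    apply oc_le_of_inj (K.finE.mono (fun _ h => h.1.1)) (fun p => p)
    · rintro a ⟨⟨ha, z, hz⟩, hf⟩
      refine ⟨⟨ha.1, z, hz.1⟩, ?_⟩
      intro h e
      have hm : h ∈ stabilizer H (mk K x0 y0) := by
        apply mem_stab K ha.2
        have : mk K (h • a).1 (h • a).2 = mk K x0 y0 := by rw [e]; exact ha.2
        exact this
      exact congrArg Subtype.val (hf ⟨h, hm⟩ e)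
    · rintro a ha b hb' ⟨h, e⟩
      have e' : h • a = b := e
      refine ⟨⟨h, mem_stab K ha.1.1.2 ?_⟩, e⟩
      have : mk K (h • a).1 (h • a).2 = mk K x0 y0 := by rw [e']; exact hb'.1.1.2
      exact this
  · intro ht
    have hcov : ∀ b ∈ {p : Y × Y × Y | K.T p.1 p.2.1 p.2.2},
        ∃ a ∈ {p : Y × Y × Y | (blk K x0 y0 h0).T p.1 p.2.1 p.2.2}, ∃ h : H, h • a = b := by
      intro b hb'
      by_contra hno
      push Not at hno
      have : (blk K x0 y0 h0).t < K.t := by
        apply oc_lt_of_inj K.finT (fun p => p) (b0 := b) ?_ ?_ hb' ?_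
        · intro a ha; exact ha.1
        · rintro a ha b hb' ⟨h, e⟩
          have e' : h • a = b := e
          refine ⟨⟨h, mem_stab K ha.2 ?_⟩, e⟩
          have : mk K (h • a).1 (h • a).2.1 = mk K x0 y0 := by rw [e']; exact hb'.2
          exact this
        · intro a ha h; exact hno a ha h
      omega
    apply oc_le_of_surj (H := stabilizer H c) (H' := H) (f := fun p : Y => p)
    · apply FinOrb.mono (s' := (blk K x0 y0 h0).P)
      · rintro a ⟨y, z, e⟩
        exact (blk K x0 y0 h0).E_P _ _ ((blk K x0 y0 h0).T_E _ _ _ e)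
      · exact (blk K x0 y0 h0).finP
    · rintro b ⟨y, z, e⟩
      obtain ⟨a, ha, h, e'⟩ := hcov (b, y, z) e
      exact ⟨a.1, ⟨a.2.1, a.2.2, ha⟩, h, congrArg Prod.fst e'⟩
    · rintro a _ b _ ⟨h, e⟩
      exact ⟨h, e⟩

/-- A group with a complex without triangles is strongly accessible. -/
theorem SA_of_t_zero {H Y : Type} [Group H] [MulAction H Y] (K : KS H Y) (htf : TF H)
    (ht : K.t = 0) : SA H := by
  by_contra hb
  obtain ⟨S, K', _, _, _, ⟨x, y, z, h⟩, h1, _⟩ := block_lemma K htf hb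
  have h2 : 0 < K'.t := by
    apply (Set.ncard_pos K'.finT).2
    exact ⟨_, (x, y, z), h, rfl⟩
  omega

end Pool.Agent.SAF
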