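import Pool.Agent.SAF.A15
import Pool.Agent.SAF.A34

/-!
# SAF/A32: finiteness of hulls of the subtrees of triangles
-/

namespace Pool.Agent.SAF

open MulAction

variable {H : Type} [Group H] {Y : Type} [MulAction H Y]

theorem finOrb_SV (K : KS H Y) (D : Decomp H) (ST : Y → Y → Y → Set D.X)
    (hsmul : ∀ (h : H) (x y z : Y) (w : D.X), w ∈ ST x y z → h • w ∈ ST (h • x) (h • y) (h • z))
    (hfin : ∀ x y z, K.T x y z →
        FinOrb ↥(stabilizer H x ⊓ stabilizer H y ⊓ stabilizer H z) (ST x y z)) :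
    FinOrb H {p : Y × D.X | p.1 ∈ K.P ∧
      p.2 ∈ hull D.G {w | ∃ y z, K.T p.1 y z ∧ w ∈ ST p.1 y z}} := by
  refine finOrb_fibre (H := H) (Y := Y) (Z := D.X) K.P K.finP
    (fun x => hull D.G {w | ∃ y z, K.T x y z ∧ w ∈ ST x y z}) ?_ ?_
  · intro h x _ w hw
    refine hull_mono ?_ (D.tact.hull_smul h _ w hw)
    rintro _ ⟨u, ⟨y, z, hT, hu⟩, rfl⟩
    exact ⟨h • y, h • z, K.T_smul h _ _ _ hT, hsmul h _ _ _ _ hu⟩
  · intro x hx
    refine D.tact.hull_cofinite (stabilizer H x) (K.cyc x hx) _ ?_ ?_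
    · rintro a ha w ⟨y, z, hT, hw⟩
      have ha' : a • x = x := ha
      refine ⟨a • y, a • z, ?_, ?_⟩
      · have := K.T_smul a _ _ _ hT
        rwa [ha'] at this
      · have := hsmul a _ _ _ _ hw
        rwa [ha'] at this
    · have h1 : FinOrb ↥(stabilizer H x) {p : Y × Y | K.T x p.1 p.2} :=
        finOrb_of_pair {p : Y × (Y × Y) | K.T p.1 p.2.1 p.2.2} K.finT x
      have h2 : FinOrb ↥(stabilizer H x)
          {p : (Y × Y) × D.X | p.1 ∈ {p : Y × Y | K.T x p.1 p.2} ∧ p.2 ∈ ST x p.1.1 p.1.2} := by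
        refine finOrb_fibre (H := ↥(stabilizer H x)) (Y := Y × Y) (Z := D.X)
          {p : Y × Y | K.T x p.1 p.2} h1 (fun p => ST x p.1 p.2) ?_ ?_
        · rintro ⟨h, hh⟩ ⟨y, z⟩ _ w hw
          have hh' : h • x = x := hh
          have := hsmul h x y z w hw
          rw [hh'] at this
          exact this
        · rintro ⟨y, z⟩ hT
          exact FinOrb.of_iso (fun g => ⟨⟨g.1, g.2.1.1⟩, Prod.ext g.2.1.2 g.2.2⟩)
            (fun _ _ => rfl) (hfin x y z hT)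
      refine h2.image (fun p => p.2) ?_ ?_
      · rintro w ⟨y, z, hT, hw⟩
        exact ⟨((y, z), w), ⟨hT, hw⟩, 1, one_smul _ _⟩
      · rintro a _ b _ ⟨h, e⟩
        exact ⟨h, congrArg Prod.snd e⟩

theorem finOrb_SE (K : KS H Y) (D : Decomp H) (ST : Y → Y → Y → Set D.X)
    (hsmul : ∀ (h : H) (x y z : Y) (w : D.X), w ∈ ST x y z → h • w ∈ ST (h • x) (h • y) (h • z))
    (hfin : ∀ x y z, K.T x y z →
        FinOrb ↥(stabilizer H x ⊓ stabilizer H y ⊓ stabilizer H z) (ST x y z)) :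
    FinOrb H {p : (Y × Y) × D.X | K.E p.1.1 p.1.2 ∧
      p.2 ∈ hull D.G {w | ∃ z, K.T p.1.1 p.1.2 z ∧ w ∈ ST p.1.1 p.1.2 z}} := by
  have h0 : FinOrb H {p : (Y × Y) × Y | K.T p.1.1 p.1.2 p.2} := by
    refine K.finT.image (fun p => ((p.1, p.2.1), p.2.2)) ?_ ?_
    · rintro ⟨⟨x, y⟩, z⟩ hT
      exact ⟨(x, y, z), hT, 1, one_smul _ _⟩
    · rintro ⟨x, y, z⟩ _ ⟨x', y', z'⟩ _ ⟨h, e⟩
      refine ⟨h, ?_⟩
      have e1 : h • x = x' := congrArg Prod.fst e
      have e2 : h • y = y' := congrArg (fun p => p.2.1) e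
      have e3 : h • z = z' := congrArg (fun p => p.2.2) e
      exact Prod.ext (Prod.ext e1 e2) e3
  refine finOrb_fibre (H := H) (Y := Y × Y) (Z := D.X) {p : Y × Y | K.E p.1 p.2} K.finE
    (fun p => hull D.G {w | ∃ z, K.T p.1 p.2 z ∧ w ∈ ST p.1 p.2 z}) ?_ ?_
  · rintro h ⟨x, y⟩ _ w hw
    refine hull_mono ?_ (D.tact.hull_smul h _ w hw)
    rintro _ ⟨u, ⟨z, hT, hu⟩, rfl⟩
    exact ⟨h • z, K.T_smul h _ _ _ hT, hsmul h _ _ _ _ hu⟩
  · rintro ⟨x, y⟩ hxy
    have hst : ∀ a : H, a ∈ stabilizer H (x, y) → a • x = x ∧ a • y = y := fun a ha =>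
      ⟨congrArg Prod.fst (show a • (x, y) = (x, y) from ha),
        congrArg Prod.snd (show a • (x, y) = (x, y) from ha)⟩
    have hcyc : IsCyclic ↥(stabilizer H (x, y)) :=
      cyclic_of_le (fun a ha => (hst a ha).1) (K.cyc x (K.E_P _ _ hxy))
    refine D.tact.hull_cofinite (stabilizer H (x, y)) hcyc _ ?_ ?_
    · rintro a ha w ⟨z, hT, hw⟩
      obtain ⟨e1, e2⟩ := hst a ha
      refine ⟨a • z, ?_, ?_⟩
      · have := K.T_smul a _ _ _ hT
        rwa [e1, e2] at this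
      · have := hsmul a _ _ _ _ hw
        rwa [e1, e2] at this
    · have h1 : FinOrb ↥(stabilizer H (x, y)) {z : Y | K.T x y z} :=
        finOrb_of_pair {p : (Y × Y) × Y | K.T p.1.1 p.1.2 p.2} h0 (x, y)
      have h2 : FinOrb ↥(stabilizer H (x, y))
          {p : Y × D.X | p.1 ∈ {z : Y | K.T x y z} ∧ p.2 ∈ ST x y p.1} := by
        refine finOrb_fibre (H := ↥(stabilizer H (x, y))) (Y := Y) (Z := D.X)
          {z : Y | K.T x y z} h1 (fun z => ST x y z) ?_ ?_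
        · rintro ⟨h, hh⟩ z _ w hw
          obtain ⟨e1, e2⟩ := hst h hh
          have := hsmul h x y z w hw
          rw [e1, e2] at this
          exact this
        · intro z hT
          exact FinOrb.of_iso (fun g => ⟨⟨g.1, Prod.ext g.2.1.1 g.2.1.2⟩, g.2.2⟩)
            (fun _ _ => rfl) (hfin x y z hT)
      refine h2.image (fun p => p.2) ?_ ?_
      · rintro w ⟨z, hT, hw⟩
        exact ⟨(z, w), ⟨hT, hw⟩, 1, one_smul _ _⟩
      · rintro a _ b _ ⟨h, e⟩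
        exact ⟨h, congrArg Prod.snd e⟩

end Pool.Agent.SAF
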