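import Pool.Agent.SAF.A30
import Pool.Agent.SAF.A31
import Pool.Agent.SAF.A32

/-!
# SAF/A33: the system of subtrees exists
-/

namespace Pool.Agent.SAF

open MulAction

variable {H : Type} [Group H] {Y : Type} [MulAction H Y]

/-- An invariant convex set is closed under the flow to an end which is fixed by an element without
fixed vertices. -/
theorem fwd_of_invariant {X : Type} [MulAction H X] {G : SimpleGraph X} (hG : TAct H G)
    {f : X → X} (hf : Ori G f) (t : H) (ht : ∀ w : X, t • w ≠ w)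
    (htf : ∀ w, f (t • w) = t • f w) (C : Set X) (hC : Conv G C) (hCt : ∀ w, w ∈ C ↔ t • w ∈ C) :
    ∀ w ∈ C, f w ∈ C := by
  intro w hw
  by_contra hfw
  have hne : f w ≠ w := fun e => hfw (by rw [e]; exact hw)
  have hadj : G.Adj w (f w) := (hf.ok w).resolve_left hne
  have hu : t • w ∈ C := (hCt w).1 hw
  have h1 : ¬ (G.Adj w (f w) ∧ G.dist (t • w) (f w) + 1 = G.dist (t • w) w) := by
    rintro ⟨-, h⟩
    apply hfw
    refine hC (t • w) hu w hw (f w) ?_
    have : G.dist (f w) w = 1 := SimpleGraph.dist_eq_one_iff_adj.2 hadj.symm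
    rw [this]
    exact h
  obtain ⟨h2, h3⟩ := Ori.toward hG.tree hf (ht w) h1
  have h4 : f (t • w) ∈ C := by
    refine hC (t • w) hu w hw _ ?_
    have : G.dist (t • w) (f (t • w)) = 1 := SimpleGraph.dist_eq_one_iff_adj.2 h2
    rw [this, h3, Nat.add_comm]
  rw [htf] at h4
  exact hfw ((hCt _).2 h4)

/-- every vertex lies in a triangle -/
theorem exists_tri_at (K : KS H Y) (h1 : K.AllTri) (h3 : ∃ x y z, K.T x y z) (x : Y)
    (hx : x ∈ K.P) : ∃ y z, K.T x y z := by
  obtain ⟨a, b, c, hT⟩ := h3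
  have ha : a ∈ K.P := K.E_P _ _ (K.T_E _ _ _ hT)
  rcases Relation.ReflTransGen.cases_head (K.conn x hx a ha) with e | ⟨y, hy, -⟩
  · subst e
    exact ⟨b, c, hT⟩
  · obtain ⟨z, hz⟩ := h1 x y hy
    exact ⟨y, z, hz⟩

theorem LostF_smul {X : Type} [MulAction H X] {f : Y → X → X}
    (hs : ∀ (h : H) (x : Y) (w : X), f (h • x) (h • w) = h • f x w) (h : H) (x y : Y)
    (hl : LostF (f x) (f y)) : LostF (f (h • x)) (f (h • y)) := by
  have key : ∀ (a : Y) (w : X), f (h • a) w = h • f a (h⁻¹ • w) := by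
    intro a w
    have := hs h a (h⁻¹ • w)
    rwa [smul_inv_smul] at this
  refine ⟨?_, ?_⟩
  · funext w
    rw [key x w, key y w, hl.1]
  · intro w e
    rw [key] at e
    exact hl.2 (h⁻¹ • w) (eq_inv_smul_iff.2 e)

/-- The system of subtrees, for a given family of points. -/
theorem exists_sys' (hTF : TF H) (K : KS H Y) (D : Decomp H) (h1 : K.AllTri) (h2 : K.LinkConn)
    (h3 : ∃ x y z, K.T x y z) (f : Y → D.X → D.X)
    (hf : ∀ x ∈ K.P, Ori D.G (f x))
    (hs : ∀ (h : H) (x : Y) (w : D.X), f (h • x) (h • w) = h • f x w)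
    (hh : ∀ x ∈ K.P, (∃ w, f x w = w) ∨ ((∃ t : H, t • x = x ∧ t ≠ 1) ∧
        ∀ h : H, h • x = x → h ≠ 1 → ∀ w : D.X, h • w ≠ w)) :
    ∃ S : Sys H Y K D, S.f = f := by
  classical
  obtain ⟨ST, conv, ne, swap, rot, smul, sub, cen, fin⟩ := exists_ST hTF K D f hf hs
  have hG : D.G.IsTree := D.tree
  -- the subtrees of the vertices
  let SV : Y → Set D.X := fun x => hull D.G {w | ∃ y z, K.T x y z ∧ w ∈ ST x y z}
  let HE : Y → Y → Set D.X := fun x y => hull D.G {w | ∃ z, K.T x y z ∧ w ∈ ST x y z}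
  let SE : Y → Y → Set D.X := fun x y => if LostF (f x) (f y) then SV x ∩ SV y else HE x y
  have SEpos : ∀ x y, LostF (f x) (f y) → SE x y = SV x ∩ SV y := fun x y h => if_pos h
  have SEneg : ∀ x y, ¬ LostF (f x) (f y) → SE x y = HE x y := fun x y h => if_neg h
  have lsymm : ∀ x y, LostF (f x) (f y) → LostF (f y) (f x) := fun x y h =>
    ⟨h.1.symm, fun w => by rw [← h.1]; exact h.2 w⟩
  have ST_SV : ∀ x y z, K.T x y z → ST x y z ⊆ SV x := fun x y z hT w hw =>
    subset_hull _ ⟨y, z, hT, hw⟩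
  have ST_SV' : ∀ x y z, K.T x y z → ST x y z ⊆ SV y := fun x y z hT w hw =>
    subset_hull _ ⟨x, z, K.T_swap _ _ _ hT, by rw [← swap x y z]; exact hw⟩
  have ST_HE : ∀ x y z, K.T x y z → ST x y z ⊆ HE x y := fun x y z hT w hw =>
    subset_hull _ ⟨z, hT, hw⟩
  have HE_SV : ∀ x y, HE x y ⊆ SV x := fun x y => hull_mono (by
    rintro w ⟨z, hT, hw⟩
    exact ⟨y, z, hT, hw⟩)
  have SV_smul : ∀ (h : H) (x : Y) (w : D.X), w ∈ SV x → h • w ∈ SV (h • x) := by
    intro h x w hw
    refine hull_mono ?_ (D.tact.hull_smul h _ w hw)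
    rintro _ ⟨u, ⟨y, z, hT, hu⟩, rfl⟩
    exact ⟨h • y, h • z, K.T_smul h _ _ _ hT, smul h _ _ _ _ hu⟩
  have HE_smul : ∀ (h : H) (x y : Y) (w : D.X), w ∈ HE x y → h • w ∈ HE (h • x) (h • y) := by
    intro h x y w hw
    refine hull_mono ?_ (D.tact.hull_smul h _ w hw)
    rintro _ ⟨u, ⟨z, hT, hu⟩, rfl⟩
    exact ⟨h • z, K.T_smul h _ _ _ hT, smul h _ _ _ _ hu⟩
  have HE_symm : ∀ x y, HE x y = HE y x := by
    have : ∀ x y, HE x y ⊆ HE y x := fun x y => hull_mono (by
      rintro w ⟨z, hT, hw⟩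
      exact ⟨z, K.T_swap _ _ _ hT, by rw [← swap x y z]; exact hw⟩)
    exact fun x y => Set.Subset.antisymm (this x y) (this y x)
  have lost_iff : ∀ (h : H) (x y : Y), LostF (f (h • x)) (f (h • y)) → LostF (f x) (f y) := by
    intro h x y hl
    have := LostF_smul hs h⁻¹ (h • x) (h • y) hl
    rwa [inv_smul_smul, inv_smul_smul] at this
  refine ⟨{ f := f, SV := SV, SE := SE, ST := ST, ori := hf, f_smul := hs, f_hyp := ?_,
            SV_conv := ?_, SE_conv := ?_, ST_conv := conv, SV_ne := ?_, SE_ne := ?_,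
            ST_ne := ne, SE_sub := ?_, ST_sub := ?_, SE_symm := ?_,
            ST_swap := fun x y z _ => swap x y z, ST_rot := fun x y z _ => rot x y z,
            SV_smul := ?_, SE_smul := ?_, ST_smul := fun h x y z w _ hw => smul h x y z w hw,
            fwd := ?_, finV := ?_, finE := ?_, SE_lost := ?_, SE_Z := ?_, ST_c := cen,
            SV_hull := fun _ _ => rfl, SE_hull := ?_ }, rfl⟩
  · intro x hx
    rcases hh x hx with h | h
    · exact Or.inl h
    · exact Or.inr h.2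
  · intro x _
    exact hull_conv hG _
  · intro x y _
    by_cases hl : LostF (f x) (f y)
    · rw [SEpos x y hl]
      exact (hull_conv hG _).inter (hull_conv hG _)
    · rw [SEneg x y hl]
      exact hull_conv hG _
  · intro x hx
    obtain ⟨y, z, hT⟩ := exists_tri_at K h1 h3 x hx
    exact (ne x y z hT).mono (ST_SV x y z hT)
  · intro x y hxy
    obtain ⟨z, hT⟩ := h1 x y hxy
    obtain ⟨w, hw⟩ := ne x y z hT
    by_cases hl : LostF (f x) (f y)
    · rw [SEpos x y hl]
      exact ⟨w, ST_SV x y z hT hw, ST_SV' x y z hT hw⟩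
    · rw [SEneg x y hl]
      exact ⟨w, ST_HE x y z hT hw⟩
  · intro x y _
    by_cases hl : LostF (f x) (f y)
    · rw [SEpos x y hl]
      exact Set.inter_subset_left
    · rw [SEneg x y hl]
      exact HE_SV x y
  · intro x y z hT
    by_cases hl : LostF (f x) (f y)
    · rw [SEpos x y hl]
      exact fun w hw => ⟨ST_SV x y z hT hw, ST_SV' x y z hT hw⟩
    · rw [SEneg x y hl]
      exact ST_HE x y z hT
  · intro x y _
    by_cases hl : LostF (f x) (f y)
    · rw [SEpos x y hl, SEpos y x (lsymm x y hl), Set.inter_comm]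
    · rw [SEneg x y hl, SEneg y x (fun h => hl (lsymm y x h)), HE_symm]
  · intro h x w _ hw
    exact SV_smul h x w hw
  · intro h x y w _ hw
    by_cases hl : LostF (f x) (f y)
    · rw [SEpos x y hl] at hw
      rw [SEpos _ _ (LostF_smul hs h x y hl)]
      exact ⟨SV_smul h x w hw.1, SV_smul h y w hw.2⟩
    · rw [SEneg x y hl] at hw
      rw [SEneg _ _ (fun hl' => hl (lost_iff h x y hl'))]
      exact HE_smul h x y w hw
  · intro x hx hn
    rcases hh x hx with ⟨w, hw⟩ | ⟨⟨t, ht, ht1⟩, hfree⟩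
    · exact absurd hw (hn w)
    · refine fwd_of_invariant D.tact (hf x hx) t (hfree t ht ht1) ?_ (SV x) (hull_conv hG _) ?_
      · intro w
        have := hs t x w
        rwa [ht] at this
      · intro w
        constructor
        · intro hw
          have := SV_smul t x w hw
          rwa [ht] at this
        · intro hw
          have := SV_smul t⁻¹ x (t • w) hw
          rwa [inv_smul_smul, inv_smul_eq_iff.2 ht.symm] at this
  · exact finOrb_SV K D ST smul fin
  · refine (finOrb_SE K D ST smul fin).mono ?_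
    rintro ⟨⟨x, y⟩, w⟩ ⟨hE, hl, hw⟩
    refine ⟨hE, ?_⟩
    have hw' : w ∈ SE x y := hw
    rw [SEneg x y hl] at hw'
    exact hw'
  · intro x y _ hl
    exact SEpos x y hl
  · intro x y hxy hl
    rw [SEneg x y hl]
    refine (Zs_conv hG (hf x (K.E_P _ _ hxy)) (hf y (K.E_P _ _ (K.E_symm _ _ hxy)))).hull_sub ?_
    rintro w ⟨z, hT, hw⟩
    exact sub x y z hT hl hw
  · intro x y _ hl
    exact SEneg x y hl

theorem exists_sys (hTF : TF H) (K : KS H Y) (D : Decomp H) (h1 : K.AllTri) (h2 : K.LinkConn)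
    (h3 : ∃ x y z, K.T x y z) : Nonempty (Sys H Y K D) := by
  obtain ⟨f, hf, hs, hh⟩ := exists_points hTF K D
  obtain ⟨S, -⟩ := exists_sys' hTF K D h1 h2 h3 f hf hs hh
  exact ⟨S⟩

end Pool.Agent.SAF
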