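import Pool.Agent.SAF.A11

/-!
# SAF/A40: first cohomology of the blown up complex
-/

namespace Pool.Agent.SAF

open MulAction

variable {H : Type} [Group H] {Y : Type} [MulAction H Y] {K : KS H Y} {D : Decomp H}
  (S : Sys H Y K D)

/-- vertical connectivity over one vertex -/
private theorem vert_conn {x : Y} (hx : x ∈ K.P) {a b : D.X} (ha : a ∈ S.SV x)
    (hb : b ∈ S.SV x) :
    Relation.ReflTransGen (fun a b => S.hr a b ∨ S.vr a b)
      (⟨(x, a), hx, ha⟩ : S.V1) ⟨(x, b), hx, hb⟩ := by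
  have h := (S.SV_conv x hx).rtg D.tree ha hb
  have key : ∀ c, Relation.ReflTransGen (fun u v => D.G.Adj u v ∧ u ∈ S.SV x ∧ v ∈ S.SV x) a c →
      ∀ hc : c ∈ S.SV x, Relation.ReflTransGen (fun a b => S.hr a b ∨ S.vr a b)
        (⟨(x, a), hx, ha⟩ : S.V1) ⟨(x, c), hx, hc⟩ := by
    intro c hc
    induction hc with
    | refl =>
      intro _
      exact Relation.ReflTransGen.refl
    | tail _ h2 ih =>
      intro hc
      exact Relation.ReflTransGen.tail (ih h2.2.1) (Or.inr ⟨rfl, h2.1⟩)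
  exact key b h hb

/-- The blown up complex is connected by horizontal and vertical edges. -/
theorem Sys.V1_conn (p q : S.V1) :
    Relation.ReflTransGen (fun a b => S.hr a b ∨ S.vr a b) p q := by
  obtain ⟨⟨x, w⟩, hx, hw⟩ := p
  obtain ⟨⟨y, u⟩, hy, hu⟩ := q
  have h := K.conn x hx y hy
  have key : ∀ z, Relation.ReflTransGen K.E x z → ∀ (hz : z ∈ K.P) (v : D.X) (hv : v ∈ S.SV z),
      Relation.ReflTransGen (fun a b => S.hr a b ∨ S.vr a b)
        (⟨(x, w), hx, hw⟩ : S.V1) ⟨(z, v), hz, hv⟩ := by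
    intro z hz
    induction hz with
    | refl =>
      intro hz v hv
      exact vert_conn S hz hw hv
    | @tail b c _ h2 ih =>
      intro hc v hv
      obtain ⟨m, hm⟩ := S.SE_ne b c h2
      have hb : b ∈ K.P := K.E_P b c h2
      have hmb : m ∈ S.SV b := S.SE_sub b c h2 hm
      have hmc : m ∈ S.SV c := by
        have hm' := hm
        rw [S.SE_symm b c h2] at hm'
        exact S.SE_sub c b (K.E_symm b c h2) hm'
      have hstep : S.hr (⟨(b, m), hb, hmb⟩ : S.V1) ⟨(c, m), hc, hmc⟩ := ⟨rfl, h2, hm⟩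
      exact ((ih hb m hmb).tail (Or.inl hstep)).trans (vert_conn S hc hmc hv)
  exact key y h hy u hu

/-- First cohomology of the blown up complex vanishes: a function on horizontal edges and a function
on vertical edges which satisfy the conditions for triangles and squares come from one function on
the vertices. -/
theorem Sys.H1V1 (φ : S.V1 → S.V1 → ZMod 2) (hsymm : ∀ p q, φ p q = φ q p)
    (hT : ∀ l p q s, S.Tp l p q s → φ p q + φ q s + φ p s = 0)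
    (hSq : ∀ p q p' q', S.hr p q → S.hr p' q' → S.vr p p' → S.vr q q' →
      φ p q + φ p' q' = φ p p' + φ q q') :
    ∃ g : S.V1 → ZMod 2, (∀ p q, S.hr p q → φ p q = g p + g q) ∧
      ∀ p q, S.vr p q → φ p q = g p + g q := by
  classical
  have h2 : ∀ a : ZMod 2, a + a = 0 := CharTwo.add_self_eq_zero
  -- potentials on the vertical trees
  obtain ⟨ψ, hψ⟩ : ∃ ψ : Y → D.X → D.X → ZMod 2, ψ = fun x u v =>
      if h : (x ∈ K.P ∧ u ∈ S.SV x) ∧ (x ∈ K.P ∧ v ∈ S.SV x) then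
        φ ⟨(x, u), h.1⟩ ⟨(x, v), h.2⟩ else 0 := ⟨_, rfl⟩
  have hψs : ∀ x u v, ψ x u v = ψ x v u := by
    intro x u v
    rw [hψ]
    dsimp only
    by_cases h : (x ∈ K.P ∧ u ∈ S.SV x) ∧ (x ∈ K.P ∧ v ∈ S.SV x)
    · rw [dif_pos h, dif_pos h.symm]
      exact hsymm _ _
    · rw [dif_neg h, dif_neg (fun h' => h h'.symm)]
  have hex : ∀ x, ∃ p : D.X → ZMod 2, ∀ u v, D.G.Adj u v → ψ x u v = p u + p v := fun x =>
    tree_potential D.G D.tree (ψ x) (fun u v _ => hψs x u v)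
  choose pp hpp using hex
  have hv : ∀ p q : S.V1, S.vr p q → φ p q = pp p.1.1 p.1.2 + pp p.1.1 q.1.2 := by
    rintro ⟨⟨x, u⟩, hu⟩ ⟨⟨y, v⟩, hv⟩ ⟨e1, e2⟩
    dsimp only at e1 e2
    subst e1
    rw [← hpp x u v e2, hψ]
    dsimp only
    rw [dif_pos ⟨hu, hv⟩]
  -- the cochain on `K`
  obtain ⟨F, hF⟩ : ∃ F : Y → Y → D.X → ZMod 2, F = fun x y w =>
      if h : (x ∈ K.P ∧ w ∈ S.SV x) ∧ (y ∈ K.P ∧ w ∈ S.SV y) then
        φ ⟨(x, w), h.1⟩ ⟨(y, w), h.2⟩ + pp x w + pp y w else 0 := ⟨_, rfl⟩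
  have hFs : ∀ x y w, F x y w = F y x w := by
    intro x y w
    rw [hF]
    dsimp only
    by_cases h : (x ∈ K.P ∧ w ∈ S.SV x) ∧ (y ∈ K.P ∧ w ∈ S.SV y)
    · rw [dif_pos h, dif_pos h.symm, hsymm]
      ring
    · rw [dif_neg h, dif_neg (fun h' => h h'.symm)]
  have hmem : ∀ x y w, K.E x y → w ∈ S.SE x y →
      (x ∈ K.P ∧ w ∈ S.SV x) ∧ (y ∈ K.P ∧ w ∈ S.SV y) := by
    intro x y w e hw
    refine ⟨⟨K.E_P x y e, S.SE_sub x y e hw⟩, ⟨K.E_P y x (K.E_symm x y e), ?_⟩⟩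
    rw [S.SE_symm x y e] at hw
    exact S.SE_sub y x (K.E_symm x y e) hw
  have hFv : ∀ x y w (e : K.E x y) (hw : w ∈ S.SE x y), F x y w =
      φ ⟨(x, w), (hmem x y w e hw).1⟩ ⟨(y, w), (hmem x y w e hw).2⟩ + pp x w + pp y w := by
    intro x y w e hw
    rw [hF]
    dsimp only
    rw [dif_pos (hmem x y w e hw)]
  have hadj : ∀ x y u v, K.E x y → u ∈ S.SE x y → v ∈ S.SE x y → D.G.Adj u v →
      F x y u = F x y v := by
    intro x y u v e hu hv' huv
    rw [hFv x y u e hu, hFv x y v e hv']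
    have k1 := hSq ⟨(x, u), (hmem x y u e hu).1⟩ ⟨(y, u), (hmem x y u e hu).2⟩
      ⟨(x, v), (hmem x y v e hv').1⟩ ⟨(y, v), (hmem x y v e hv').2⟩ ⟨rfl, e, hu⟩ ⟨rfl, e, hv'⟩
      ⟨rfl, huv⟩ ⟨rfl, huv⟩
    have k2 := hv ⟨(x, u), (hmem x y u e hu).1⟩ ⟨(x, v), (hmem x y v e hv').1⟩ ⟨rfl, huv⟩
    have k3 := hv ⟨(y, u), (hmem x y u e hu).2⟩ ⟨(y, v), (hmem x y v e hv').2⟩ ⟨rfl, huv⟩
    dsimp only at k2 k3
    rw [k2, k3] at k1
    have c1 := h2 (φ ⟨(x, v), (hmem x y v e hv').1⟩ ⟨(y, v), (hmem x y v e hv').2⟩)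
    have c2 := h2 (pp x u)
    have c3 := h2 (pp y u)
    linear_combination k1 - c1 + c2 + c3
  have hind : ∀ x y u v, K.E x y → u ∈ S.SE x y → v ∈ S.SE x y → F x y u = F x y v := by
    intro x y u v e hu hv'
    have h := (S.SE_conv x y e).rtg D.tree hu hv'
    induction h with
    | refl => rfl
    | tail _ h2 ih => exact (ih h2.2.1).trans (hadj x y _ _ e h2.2.1 h2.2.2 h2.1)
  obtain ⟨Φ, hΦ⟩ : ∃ Φ : Y → Y → ZMod 2, Φ = fun x y =>
      if h : K.E x y then F x y (S.SE_ne x y h).choose else 0 := ⟨_, rfl⟩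
  have hΦv : ∀ x y w, K.E x y → w ∈ S.SE x y → Φ x y = F x y w := by
    intro x y w e hw
    rw [hΦ]
    dsimp only
    rw [dif_pos e]
    exact hind x y _ _ e (S.SE_ne x y e).choose_spec hw
  have hΦs : ∀ x y, Φ x y = Φ y x := by
    intro x y
    by_cases e : K.E x y
    · obtain ⟨w, hw⟩ := S.SE_ne x y e
      rw [hΦv x y w e hw, hΦv y x w (K.E_symm x y e) (by rw [← S.SE_symm x y e]; exact hw), hFs]
    · rw [hΦ]
      dsimp only
      rw [dif_neg e, dif_neg (fun e' => e (K.E_symm y x e'))]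
  obtain ⟨h, hh⟩ := K.H1 Φ hΦs (by
    intro x y z t
    have t1 : K.T y z x := K.T_rot x y z t
    have t2 : K.T z x y := K.T_rot y z x t1
    have exy := K.T_E x y z t
    have eyz := K.T_E y z x t1
    have ezx := K.T_E z x y t2
    have exz := K.E_symm z x ezx
    obtain ⟨w, hw⟩ := S.ST_ne x y z t
    have w1 : w ∈ S.SE x y := S.ST_sub x y z t hw
    have hw2 : w ∈ S.ST y z x := by rw [← S.ST_rot x y z t]; exact hw
    have w2 : w ∈ S.SE y z := S.ST_sub y z x t1 hw2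
    have hw3 : w ∈ S.ST z x y := by rw [← S.ST_rot y z x t1]; exact hw2
    have w3 : w ∈ S.SE x z := by
      rw [← S.SE_symm z x ezx]
      exact S.ST_sub z x y t2 hw3
    rw [hΦv x y w exy w1, hΦv y z w eyz w2, hΦv x z w exz w3, hFv x y w exy w1,
      hFv y z w eyz w2, hFv x z w exz w3]
    have k := hT (S.cm ⟨(x, w), (hmem x y w exy w1).1⟩) ⟨(x, w), (hmem x y w exy w1).1⟩
      ⟨(y, w), (hmem x y w exy w1).2⟩ ⟨(z, w), (hmem y z w eyz w2).2⟩ ⟨rfl, rfl, t, hw, rfl⟩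
    have c1 := h2 (pp x w)
    have c2 := h2 (pp y w)
    have c3 := h2 (pp z w)
    linear_combination k + c1 + c2 + c3)
  refine ⟨fun p => h p.1.1 + pp p.1.1 p.1.2, ?_, ?_⟩
  · rintro ⟨⟨x, w⟩, hx⟩ ⟨⟨y, w'⟩, hy⟩ ⟨e1, e2, e3⟩
    dsimp only at e1 e2 e3
    subst e1
    have k := hh x y e2
    rw [hΦv x y w e2 e3, hFv x y w e2 e3] at k
    dsimp only
    have c1 := h2 (pp x w)
    have c2 := h2 (pp y w)
    linear_combination k - c1 - c2
  · rintro ⟨⟨x, w⟩, hx⟩ ⟨⟨y, w'⟩, hy⟩ hvr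
    rw [hv _ _ hvr]
    obtain ⟨e1, e2⟩ := hvr
    dsimp only at e1 e2 ⊢
    subst e1
    have c1 := h2 (h x)
    linear_combination -c1

end Pool.Agent.SAF
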