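import Pool.Agent.SAF.A40

/-!
# SAF/A41: the new tree and its strips
-/

namespace Pool.Agent.SAF

open MulAction

variable {H : Type} [Group H] {Y : Type} [MulAction H Y] {K : KS H Y} {D : Decomp H}
  (S : Sys H Y K D)

private theorem in_cm (p : S.V1) : S.In p.1.1 (S.cm p) := ⟨p.2, rfl⟩

private theorem cm_of_hr {p q : S.V1} (h : S.hr p q) : S.cm p = S.cm q :=
  Quotient.sound (Relation.EqvGen.rel _ _ h)

private theorem PE_of_hr {p q : S.V1} (h : S.hr p q) : S.PE (S.cm p) p.1.1 q.1.1 :=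
  ⟨h.2.1, h.2.2, in_cm S p, by rw [cm_of_hr S h]; exact in_cm S q⟩

private theorem PE_symm' {l : S.LV} {x y : Y} (h : S.PE l x y) : S.PE l y x :=
  ⟨K.E_symm x y h.1, by rw [← S.SE_symm x y h.1]; exact h.2.1, h.2.2.2, h.2.2.1⟩

private theorem rtg_symm {X : Type} {r : X → X → Prop} (hr : ∀ x y, r x y → r y x) {x y : X}
    (h : Relation.ReflTransGen r x y) : Relation.ReflTransGen r y x := by
  induction h with
  | refl => exact Relation.ReflTransGen.refl
  | tail _ h2 ih => exact Relation.ReflTransGen.head (hr _ _ h2) ih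

private theorem rtg_of_eqv (p q : S.V1) (h : Relation.EqvGen S.hr p q) :
    Relation.ReflTransGen (S.PE (S.cm p)) p.1.1 q.1.1 := by
  induction h with
  | rel x y hxy => exact Relation.ReflTransGen.single (PE_of_hr S hxy)
  | refl x => exact Relation.ReflTransGen.refl
  | symm x y hxy ih =>
    have e : S.cm x = S.cm y := Quotient.sound hxy
    rw [← e]
    exact rtg_symm (fun _ _ h => PE_symm' S h) ih
  | trans x y z hxy _ ih1 ih2 =>
    have e : S.cm x = S.cm y := Quotient.sound hxy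
    rw [← e] at ih2
    exact ih1.trans ih2

/-- The slice at a vertex of the new tree is connected. -/
theorem Sys.slice_conn (l : S.LV) (x y : Y) (hx : S.In x l) (hy : S.In y l) :
    Relation.ReflTransGen (S.PE l) x y := by
  obtain ⟨hx1, hx2⟩ := hx
  obtain ⟨hy1, hy2⟩ := hy
  have e : Relation.EqvGen S.hr (⟨(x, S.pr l), hx1⟩ : S.V1) ⟨(y, S.pr l), hy1⟩ :=
    Quotient.exact (hx2.trans hy2.symm)
  have k := rtg_of_eqv S _ _ e
  rw [hx2] at k
  exact k

private theorem vr_LAdj {p q : S.V1} (h : S.vr p q) : S.LAdj (S.cm p) (S.cm q) :=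
  ⟨h.2, p.1.1, in_cm S p, by rw [h.1]; exact in_cm S q⟩

private theorem LAdj_ne {l l' : S.LV} (h : S.LAdj l l') : S.pr l ≠ S.pr l' := h.1.ne

/-- the cut function of an edge of the new tree, relative to a set of vertices closed in the
strip -/
private theorem cut (l l' : S.LV) (hl : S.LAdj l l') (C : Y → Prop)
    (hC : ∀ x y, S.DE l l' x y → (C x ↔ C y)) :
    ∃ g : S.LV → ZMod 2,
      (∀ p q : S.V1, S.vr p q →
        (((S.cm p = l ∧ S.cm q = l') ∨ (S.cm p = l' ∧ S.cm q = l)) ∧ C p.1.1) →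
          g (S.cm p) + g (S.cm q) = 1) ∧
      (∀ p q : S.V1, S.vr p q →
        ¬ (((S.cm p = l ∧ S.cm q = l') ∨ (S.cm p = l' ∧ S.cm q = l)) ∧ C p.1.1) →
          g (S.cm p) + g (S.cm q) = 0) := by
  classical
  have h2 : ∀ a : ZMod 2, a + a = 0 := CharTwo.add_self_eq_zero
  obtain ⟨φ, hφ⟩ : ∃ φ : S.V1 → S.V1 → ZMod 2, φ = fun p q =>
      if ((S.cm p = l ∧ S.cm q = l') ∨ (S.cm p = l' ∧ S.cm q = l)) ∧ p.1.1 = q.1.1 ∧ C p.1.1
      then 1 else 0 := ⟨_, rfl⟩
  have h0 : ∀ p q : S.V1, p.1.2 = q.1.2 → φ p q = 0 := by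
    intro p q e
    rw [hφ]
    dsimp only
    rw [if_neg]
    rintro ⟨⟨a, b⟩ | ⟨a, b⟩, -⟩
    · apply LAdj_ne S hl
      rw [← a, ← b]
      exact e
    · apply LAdj_ne S hl
      rw [← a, ← b]
      exact e.symm
  obtain ⟨g, hg1, hg2⟩ := S.H1V1 φ (by
      intro p q
      rw [hφ]
      dsimp only
      have : (((S.cm p = l ∧ S.cm q = l') ∨ (S.cm p = l' ∧ S.cm q = l)) ∧ p.1.1 = q.1.1 ∧ C p.1.1)
          ↔ (((S.cm q = l ∧ S.cm p = l') ∨ (S.cm q = l' ∧ S.cm p = l)) ∧ q.1.1 = p.1.1 ∧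
            C q.1.1) := by
        constructor
        · rintro ⟨a, b, c⟩
          refine ⟨?_, b.symm, by rw [← b]; exact c⟩
          rcases a with ⟨a1, a2⟩ | ⟨a1, a2⟩
          · exact Or.inr ⟨a2, a1⟩
          · exact Or.inl ⟨a2, a1⟩
        · rintro ⟨a, b, c⟩
          refine ⟨?_, b.symm, by rw [← b]; exact c⟩
          rcases a with ⟨a1, a2⟩ | ⟨a1, a2⟩
          · exact Or.inr ⟨a2, a1⟩
          · exact Or.inl ⟨a2, a1⟩
      simp only [this])
    (by
      intro l0 p q s h
      rw [h0 p q h.1, h0 q s h.2.1, h0 p s (h.1.trans h.2.1)]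
      simp)
    (by
      intro p q p' q' hpq hpq' v1 v2
      rw [h0 p q hpq.1, h0 p' q' hpq'.1]
      have e1 := cm_of_hr S hpq
      have e2 := cm_of_hr S hpq'
      have k1 := PE_of_hr S hpq
      have k2 := PE_of_hr S hpq'
      have e3 : p.1.1 = p'.1.1 := v1.1
      have e4 : q.1.1 = q'.1.1 := v2.1
      have key : φ p p' = φ q q' := by
        rw [hφ]
        dsimp only
        have : (((S.cm p = l ∧ S.cm p' = l') ∨ (S.cm p = l' ∧ S.cm p' = l)) ∧ p.1.1 = p'.1.1 ∧
            C p.1.1) ↔ (((S.cm q = l ∧ S.cm q' = l') ∨ (S.cm q = l' ∧ S.cm q' = l)) ∧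
            q.1.1 = q'.1.1 ∧ C q.1.1) := by
          rw [← e1, ← e2]
          constructor
          · rintro ⟨a, b, c⟩
            refine ⟨a, e4, ?_⟩
            apply (hC p.1.1 q.1.1 ?_).1 c
            rw [← e3, ← e4] at k2
            rcases a with ⟨a1, a2⟩ | ⟨a1, a2⟩
            · rw [a1] at k1
              rw [a2] at k2
              exact ⟨k1, k2⟩
            · rw [a1] at k1
              rw [a2] at k2
              exact ⟨k2, k1⟩
          · rintro ⟨a, b, c⟩
            refine ⟨a, e3, ?_⟩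
            apply (hC p.1.1 q.1.1 ?_).2 c
            rw [← e3, ← e4] at k2
            rcases a with ⟨a1, a2⟩ | ⟨a1, a2⟩
            · rw [a1] at k1
              rw [a2] at k2
              exact ⟨k1, k2⟩
            · rw [a1] at k1
              rw [a2] at k2
              exact ⟨k2, k1⟩
        simp only [this]
      rw [key, h2 (φ q q'), add_zero])
  have hgs : ∀ p q : S.V1, Relation.EqvGen S.hr p q → g p = g q := by
    intro p q h
    induction h with
    | rel x y hxy =>
      have := hg1 x y hxy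
      rw [h0 x y hxy.1] at this
      have c := h2 (g y)
      linear_combination -this - c
    | refl x => rfl
    | symm x y _ ih => exact ih.symm
    | trans x y z _ _ ih1 ih2 => exact ih1.trans ih2
  refine ⟨Quotient.lift g hgs, ?_, ?_⟩
  · intro p q v hc
    have k := hg2 p q v
    rw [hφ] at k
    dsimp only at k
    rw [if_pos ⟨hc.1, v.1, hc.2⟩] at k
    exact k.symm
  · intro p q v hc
    have k := hg2 p q v
    rw [hφ] at k
    dsimp only at k
    rw [if_neg (fun h => hc ⟨h.1, h.2.2⟩)] at k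
    exact k.symm

theorem Sys.LG_tree : S.LG.IsTree := by
  classical
  apply isTree_of_cut
  · obtain ⟨x0, hx0⟩ := K.ne
    obtain ⟨w0, hw0⟩ := S.SV_ne x0 hx0
    have hne : Nonempty S.LV := ⟨S.cm ⟨(x0, w0), hx0, hw0⟩⟩
    refine ⟨fun a b => ?_⟩
    induction a using Quotient.inductionOn with
    | h p =>
      induction b using Quotient.inductionOn with
      | h q =>
        change S.LG.Reachable (S.cm p) (S.cm q)
        have h := S.V1_conn p q
        induction h with
        | refl => exact SimpleGraph.Reachable.refl _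
        | tail _ h2 ih =>
          rcases h2 with h2 | h2
          · rw [← cm_of_hr S h2]
            exact ih
          · exact ih.trans (SimpleGraph.Adj.reachable (vr_LAdj S h2))
  · intro l l' hl
    have hl' : S.LAdj l l' := hl
    obtain ⟨g, hg1, hg0⟩ := cut S l l' hl' (fun _ => True) (fun _ _ _ => Iff.rfl)
    have rep : ∀ a b, S.LAdj a b → ∃ p q : S.V1, S.vr p q ∧ S.cm p = a ∧ S.cm q = b := by
      rintro a b ⟨hab, x, ⟨hxa, ea⟩, ⟨hxb, eb⟩⟩
      exact ⟨⟨(x, S.pr a), hxa⟩, ⟨(x, S.pr b), hxb⟩, ⟨rfl, hab⟩, ea, eb⟩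
    refine ⟨g, ?_, ?_⟩
    · obtain ⟨p, q, v, ep, eq⟩ := rep l l' hl'
      have k := hg1 p q v ⟨Or.inl ⟨ep, eq⟩, trivial⟩
      rw [ep, eq] at k
      intro e
      rw [e, CharTwo.add_self_eq_zero] at k
      exact zero_ne_one k
    · intro a b hab hne
      obtain ⟨p, q, v, ep, eq⟩ := rep a b hab
      by_contra hcon
      have k := hg0 p q v (by
        rw [ep, eq]
        intro h
        exact hcon h.1)
      rw [ep, eq] at k
      apply hne
      have c := CharTwo.add_self_eq_zero (g b)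
      have : g a = g a + (g b + g b) := by rw [c, add_zero]
      rw [this, ← add_assoc, k, zero_add]

/-- The strip over an edge of the new tree is connected. -/
theorem Sys.strip_conn (l l' : S.LV) (h : S.LAdj l l') (x y : Y) (hx : S.In x l) (hx' : S.In x l')
    (hy : S.In y l) (hy' : S.In y l') : Relation.ReflTransGen (S.DE l l') x y := by
  classical
  by_contra hcon
  obtain ⟨g, hg1, hg0⟩ := cut S l l' h (fun z => Relation.ReflTransGen (S.DE l l') x z) (by
    intro u v huv
    constructor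
    · intro k
      exact k.tail huv
    · intro k
      exact k.tail ⟨PE_symm' S huv.1, PE_symm' S huv.2⟩)
  obtain ⟨a1, a2⟩ := hx
  obtain ⟨b1, b2⟩ := hx'
  obtain ⟨c1, c2⟩ := hy
  obtain ⟨d1, d2⟩ := hy'
  have k1 := hg1 ⟨(x, S.pr l), a1⟩ ⟨(x, S.pr l'), b1⟩ ⟨rfl, h.1⟩
    ⟨Or.inl ⟨a2, b2⟩, Relation.ReflTransGen.refl⟩
  have k0 := hg0 ⟨(y, S.pr l), c1⟩ ⟨(y, S.pr l'), d1⟩ ⟨rfl, h.1⟩ (fun k => hcon k.2)
  rw [a2, b2] at k1
  rw [c2, d2, k1] at k0
  exact one_ne_zero k0

end Pool.Agent.SAF
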