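import Pool.Agent.SAF.A34
import Pool.Agent.SAF.A41

/-!
# SAF/A42: the new tree as a decomposition
-/

namespace Pool.Agent.SAF

open MulAction

variable {H : Type} [Group H] {Y : Type} [MulAction H Y] {K : KS H Y} {D : Decomp H}
  (S : Sys H Y K D)

theorem Sys.V1_fin : FinOrb H (Set.univ : Set S.V1) := by
  apply FinOrb.of_inj S.finV (fun p : S.V1 => p.1) (fun p _ => p.2)
  rintro a _ b _ ⟨h, e⟩
  exact ⟨h, Subtype.ext e⟩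

theorem Sys.LG_finV : FinOrb H (Set.univ : Set S.LV) := by
  apply FinOrb.image S.V1_fin S.cm
  · intro b _
    obtain ⟨p, rfl⟩ := Quotient.exists_rep b
    exact ⟨p, Set.mem_univ _, 1, one_smul H _⟩
  · rintro a _ b _ ⟨h, rfl⟩
    exact ⟨h, rfl⟩

open Classical in
/-- the oriented edge of the new tree starting at a vertex of the blown up complex -/
noncomputable def Sys.nxt (p : S.V1) : S.LV × S.LV :=
  if h : p.1.1 ∈ K.P ∧ S.f p.1.1 p.1.2 ∈ S.SV p.1.1 then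
    (S.cm p, S.cm ⟨(p.1.1, S.f p.1.1 p.1.2), h⟩)
  else (S.cm p, S.cm p)

theorem Sys.nxt_eq (p : S.V1) (h : p.1.1 ∈ K.P ∧ S.f p.1.1 p.1.2 ∈ S.SV p.1.1) :
    S.nxt p = (S.cm p, S.cm ⟨(p.1.1, S.f p.1.1 p.1.2), h⟩) := by
  unfold Sys.nxt
  rw [dif_pos h]

theorem Sys.nxt_smul (g : H) (p : S.V1) (h : p.1.1 ∈ K.P ∧ S.f p.1.1 p.1.2 ∈ S.SV p.1.1) :
    S.nxt (g • p) = g • S.nxt p := by
  have h2 : g • S.f p.1.1 p.1.2 = S.f (g • p.1.1) (g • p.1.2) := (S.f_smul g _ _).symm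
  have h' : (g • p).1.1 ∈ K.P ∧ S.f (g • p).1.1 (g • p).1.2 ∈ S.SV (g • p).1.1 := by
    refine ⟨(g • p).2.1, ?_⟩
    show S.f (g • p.1.1) (g • p.1.2) ∈ S.SV (g • p.1.1)
    rw [← h2]
    exact S.SV_smul g _ _ h.1 h.2
  rw [S.nxt_eq p h, S.nxt_eq (g • p) h']
  refine Prod.ext rfl ?_
  show S.cm _ = g • S.cm _
  rw [← S.cm_smul]
  refine congrArg S.cm (Subtype.ext (Prod.ext rfl ?_))
  exact h2.symm

theorem Sys.cm_eq {x : Y} {w w' : D.X} (h : x ∈ K.P ∧ w ∈ S.SV x) (h' : x ∈ K.P ∧ w' ∈ S.SV x)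
    (e : w = w') : S.cm ⟨(x, w), h⟩ = S.cm ⟨(x, w'), h'⟩ := by
  subst e
  rfl

theorem Sys.LG_finE : FinOrb H {p : S.LV × S.LV | S.LG.Adj p.1 p.2} := by
  have h1 : FinOrb H (S.nxt '' {p : S.V1 | p.1.1 ∈ K.P ∧ S.f p.1.1 p.1.2 ∈ S.SV p.1.1}) := by
    apply FinOrb.image (S.V1_fin.mono (Set.subset_univ
      {p : S.V1 | p.1.1 ∈ K.P ∧ S.f p.1.1 p.1.2 ∈ S.SV p.1.1})) S.nxt
    · rintro _ ⟨a, ha, rfl⟩
      exact ⟨a, ha, 1, one_smul H _⟩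
    · rintro a ha b _ ⟨h, rfl⟩
      exact ⟨h, (S.nxt_smul h a ha).symm⟩
  have h2 : FinOrb H ((fun q : S.LV × S.LV => (q.2, q.1)) ''
      (S.nxt '' {p : S.V1 | p.1.1 ∈ K.P ∧ S.f p.1.1 p.1.2 ∈ S.SV p.1.1})) := by
    apply FinOrb.image h1 (fun q : S.LV × S.LV => (q.2, q.1))
    · rintro _ ⟨a, ha, rfl⟩
      exact ⟨a, ha, 1, one_smul H _⟩
    · rintro a _ b _ ⟨h, rfl⟩
      exact ⟨h, rfl⟩
  apply (finOrb_union h1 h2).mono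
  rintro ⟨l, l'⟩ hl
  obtain ⟨hadj, x, hx, hx'⟩ := (hl : S.LAdj l l')
  obtain ⟨a, ha⟩ := id hx
  obtain ⟨b, hb⟩ := id hx'
  rcases (S.ori x a.1).one _ _ hadj with e | e
  · left
    have h3 : x ∈ K.P ∧ S.f x (S.pr l) ∈ S.SV x := ⟨a.1, by rw [e]; exact b.2⟩
    refine ⟨⟨(x, S.pr l), a⟩, h3, ?_⟩
    rw [S.nxt_eq ⟨(x, S.pr l), a⟩ h3]
    refine Prod.ext ha ?_
    exact (S.cm_eq h3 b e).trans hb
  · right
    have h3 : x ∈ K.P ∧ S.f x (S.pr l') ∈ S.SV x := ⟨a.1, by rw [e]; exact a.2⟩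
    refine ⟨_, ⟨⟨(x, S.pr l'), b⟩, h3, rfl⟩, ?_⟩
    rw [S.nxt_eq ⟨(x, S.pr l'), b⟩ h3]
    refine Prod.ext ?_ hb
    exact (S.cm_eq h3 a e).trans ha

theorem Sys.stab_le (l : S.LV) : stabilizer H l ≤ stabilizer H (S.pr l) := by
  intro h hh
  have hh' : h • l = l := hh
  show h • S.pr l = S.pr l
  rw [← S.pr_smul, hh']

theorem Sys.J_le (l l' : S.LV) :
    S.J l l' ≤ stabilizer H (S.pr l) ⊓ stabilizer H (S.pr l') :=
  inf_le_inf (S.stab_le l) (S.stab_le l')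

theorem Sys.J_cyc (hTF : TF H) (l l' : S.LV) (h : S.LAdj l l') : IsCyclic ↥(S.J l l') :=
  cyclic_of_le (S.J_le l l') ((D.edgeC _ _ h.1).cyclic (hTF.sub _))

theorem Sys.LG_edgeC (hTF : TF H) (l l' : S.LV) (h : S.LG.Adj l l') :
    InC ↥(stabilizer H l ⊓ stabilizer H l') :=
  cyclic_InC (hTF.sub _) (S.J_cyc hTF l l' h)

theorem Sys.LG_nofix (l : S.LV) : ∃ h : H, h • l ≠ l := by
  obtain ⟨h, hh⟩ := D.nofix (S.pr l)
  refine ⟨h, fun e => hh ?_⟩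
  rw [← S.pr_smul, e]

theorem Sys.LG_noinv (h : H) (l l' : S.LV) (hl : S.LG.Adj l l') : ¬ (h • l = l' ∧ h • l' = l) := by
  rintro ⟨h1, h2⟩
  have hl' : S.LAdj l l' := hl
  apply D.noinv h _ _ hl'.1
  rw [← S.pr_smul, ← S.pr_smul, h1, h2]
  exact ⟨rfl, rfl⟩

/-- The new tree, as a decomposition. -/
def Sys.LD (hTF : TF H) : Decomp H where
  X := S.LV
  G := S.LG
  tree := S.LG_tree
  adj_smul h x y e := S.LAdj_smul h x y e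
  noinv := S.LG_noinv
  finV := S.LG_finV
  finE := S.LG_finE
  edgeC := S.LG_edgeC hTF
  nofix := S.LG_nofix

theorem Sys.exists_bad (hTF : TF H) (bad : ¬ SA H) : ∃ l : S.LV, ¬ SA ↥(stabilizer H l) :=
  bad_vertex (S.LD hTF) bad

end Pool.Agent.SAF
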