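import Pool.Agent.SAF.A41

/-!
# SAF/A50: the merge lemma
-/

namespace Pool.Agent.SAF

open MulAction

variable {H : Type} [Group H] {Y : Type} [MulAction H Y] {K : KS H Y} {D : Decomp H}
  (S : Sys H Y K D)

/-- horizontally adjacent vertices lie in the same component -/
private theorem a50_cm_hr {p q : S.V1} (h : S.hr p q) : S.cm p = S.cm q :=
  Quotient.sound (Relation.EqvGen.rel _ _ h)

/-- vertically adjacent vertices lie in different components -/
private theorem a50_cm_vr {p q : S.V1} (h : S.vr p q) : S.cm p ≠ S.cm q := by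
  intro e
  have e' : p.1.2 = q.1.2 := by
    rw [← S.pr_cm p, ← S.pr_cm q, e]
  have h2 := h.2
  rw [e'] at h2
  exact D.G.loopless.irrefl _ h2

/-- sides of a triangle -/
private theorem a50_Tp_hr {l : S.LV} {p q s : S.V1} (h : S.Tp l p q s) : S.hr p q ∧ S.hr q s := by
  obtain ⟨h1, h2, h3, h4, -⟩ := h
  have t1 : K.T q.1.1 s.1.1 p.1.1 := K.T_rot _ _ _ h3
  refine ⟨⟨h1, K.T_E _ _ _ h3, S.ST_sub _ _ _ h3 h4⟩, ⟨h2, K.T_E _ _ _ t1, ?_⟩⟩
  apply S.ST_sub _ _ _ t1
  rw [← S.ST_rot _ _ _ h3, ← h1]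
  exact h4

/-- the edge of the strip below a square -/
private theorem a50_DE {l l' : S.LV} {p q p' q' : S.V1} (h : S.hr p q) (h' : S.hr p' q')
    (hp : S.vr p p') (hq : S.vr q q') (e : S.cm p = l) (e' : S.cm p' = l') :
    S.LAdj l l' ∧ S.DE l l' p.1.1 q.1.1 := by
  have eq1 : S.cm q = l := (a50_cm_hr S h).symm.trans e
  have eq2 : S.cm q' = l' := (a50_cm_hr S h').symm.trans e'
  have i1 : S.In p.1.1 l := (S.In_iff _ _).2 ⟨p, rfl, e⟩
  have i2 : S.In q.1.1 l := (S.In_iff _ _).2 ⟨q, rfl, eq1⟩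
  have i3 : S.In p.1.1 l' := (S.In_iff _ _).2 ⟨p', hp.1.symm, e'⟩
  have i4 : S.In q.1.1 l' := (S.In_iff _ _).2 ⟨q', hq.1.symm, eq2⟩
  have r1 : S.pr l = p.1.2 := by rw [← e]; rfl
  have r2 : S.pr l' = p'.1.2 := by rw [← e']; rfl
  refine ⟨⟨?_, p.1.1, i1, i3⟩, ⟨h.2.1, ?_, i1, i2⟩, ⟨h.2.1, ?_, i3, i4⟩⟩
  · rw [r1, r2]
    exact hp.2
  · rw [r1]
    exact h.2.2
  · rw [r2, hp.1, hq.1]
    exact h'.2.2

/-- The merge lemma: a cochain `ψ` on the slice at `l` which satisfies the triangle condition and is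
a coboundary of `hh l'` on the strip of every edge `l l'` is a coboundary, of a function which
differs from `hh l'` by a constant on the strip over `l l'`. -/
theorem Sys.merge (l : S.LV) (ψ : S.V1 → S.V1 → ZMod 2) (hsymm : ∀ p q, ψ p q = ψ q p)
    (hT : ∀ p q s, S.Tp l p q s → ψ p q + ψ q s + ψ p s = 0)
    (hh : S.LV → Y → ZMod 2)
    (hstrip : ∀ l', S.LAdj l l' → ∀ p q : S.V1, S.hr p q → S.cm p = l →
      S.DE l l' p.1.1 q.1.1 → ψ p q = hh l' p.1.1 + hh l' q.1.1) :
    ∃ g : S.V1 → ZMod 2, (∀ p q, S.hr p q → S.cm p = l → ψ p q = g p + g q) ∧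
      ∀ l', S.LAdj l l' → ∀ p q : S.V1, S.cm p = l → S.cm q = l → S.In p.1.1 l' → S.In q.1.1 l' →
        g p + g q = hh l' p.1.1 + hh l' q.1.1 := by
  classical
  obtain ⟨φ, hφ⟩ : ∃ φ : S.V1 → S.V1 → ZMod 2, φ = fun p q =>
      if S.cm p = S.cm q then (if S.cm p = l then ψ p q else 0)
      else if p.1.1 = q.1.1 then
        (if S.cm p = l then hh (S.cm q) p.1.1
          else if S.cm q = l then hh (S.cm p) p.1.1 else 0)
      else 0 := ⟨_, rfl⟩
  -- the values
  have v1 : ∀ p q, S.cm p = S.cm q → S.cm p = l → φ p q = ψ p q := by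
    intro p q e e'
    rw [hφ]
    dsimp only
    rw [if_pos e, if_pos e']
  have v2 : ∀ p q, S.cm p = S.cm q → S.cm p ≠ l → φ p q = 0 := by
    intro p q e e'
    rw [hφ]
    dsimp only
    rw [if_pos e, if_neg e']
  have v3 : ∀ p q, S.cm p ≠ S.cm q → p.1.1 = q.1.1 → S.cm p = l →
      φ p q = hh (S.cm q) p.1.1 := by
    intro p q e e' e''
    rw [hφ]
    dsimp only
    rw [if_neg e, if_pos e', if_pos e'']
  have v4 : ∀ p q, S.cm p ≠ S.cm q → p.1.1 = q.1.1 → S.cm q = l →
      φ p q = hh (S.cm p) p.1.1 := by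
    intro p q e e' e''
    have e3 : S.cm p ≠ l := fun h => e (h.trans e''.symm)
    rw [hφ]
    dsimp only
    rw [if_neg e, if_pos e', if_neg e3, if_pos e'']
  have v5 : ∀ p q, S.cm p ≠ S.cm q → p.1.1 = q.1.1 → S.cm p ≠ l → S.cm q ≠ l →
      φ p q = 0 := by
    intro p q e e' e'' e3
    rw [hφ]
    dsimp only
    rw [if_neg e, if_pos e', if_neg e'', if_neg e3]
  have v6 : ∀ p q, S.cm p ≠ S.cm q → p.1.1 ≠ q.1.1 → φ p q = 0 := by
    intro p q e e'
    rw [hφ]
    dsimp only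
    rw [if_neg e, if_neg e']
  have hs : ∀ p q, φ p q = φ q p := by
    intro p q
    by_cases e : S.cm p = S.cm q
    · by_cases e' : S.cm p = l
      · rw [v1 p q e e', v1 q p e.symm (e.symm.trans e'), hsymm]
      · rw [v2 p q e e', v2 q p e.symm (fun h => e' (e.trans h))]
    · have ne : S.cm q ≠ S.cm p := fun h => e h.symm
      by_cases e' : p.1.1 = q.1.1
      · by_cases a : S.cm p = l
        · rw [v3 p q e e' a, v4 q p ne e'.symm a, e']
        · by_cases b : S.cm q = l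
          · rw [v4 p q e e' b, v3 q p ne e'.symm b, e']
          · rw [v5 p q e e' a b, v5 q p ne e'.symm b a]
      · rw [v6 p q e e', v6 q p ne (fun h => e' h.symm)]
  have hTT : ∀ l1 p q s, S.Tp l1 p q s → φ p q + φ q s + φ p s = 0 := by
    intro l1 p q s t
    obtain ⟨h1, h2⟩ := a50_Tp_hr S t
    have e1 := a50_cm_hr S h1
    have e2 := a50_cm_hr S h2
    have t5 : S.cm p = l1 := t.2.2.2.2
    by_cases a : l1 = l
    · subst a
      rw [v1 p q e1 t5, v1 q s e2 (e1.symm.trans t5), v1 p s (e1.trans e2) t5]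
      exact hT p q s t
    · have a1 : S.cm p ≠ l := fun h => a (t5.symm.trans h)
      rw [v2 p q e1 a1, v2 q s e2 (fun h => a1 (e1.trans h)), v2 p s (e1.trans e2) a1]
      simp
  have hSq : ∀ p q p' q', S.hr p q → S.hr p' q' → S.vr p p' → S.vr q q' →
      φ p q + φ p' q' = φ p p' + φ q q' := by
    intro p q p' q' h h' hp hq
    have e := a50_cm_hr S h
    have e' := a50_cm_hr S h'
    have n1 := a50_cm_vr S hp
    have n2 := a50_cm_vr S hq
    by_cases a : S.cm p = l
    · have b : S.cm p' ≠ l := fun h => n1 (a.trans h.symm)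
      have a2 : S.cm q = l := e.symm.trans a
      rw [v1 p q e a, v2 p' q' e' b, v3 p p' n1 hp.1 a, v3 q q' n2 hq.1 a2, ← e', add_zero]
      obtain ⟨k1, k2⟩ := a50_DE S h h' hp hq a rfl
      exact hstrip _ k1 p q h a k2
    · have a2 : S.cm q ≠ l := fun h => a (e.trans h)
      by_cases b : S.cm p' = l
      · have b2 : S.cm q' = l := e'.symm.trans b
        rw [v2 p q e a, v1 p' q' e' b, v4 p p' n1 hp.1 b, v4 q q' n2 hq.1 b2, ← e, zero_add]
        obtain ⟨k1, k2⟩ := a50_DE S h' h ⟨hp.1.symm, hp.2.symm⟩ ⟨hq.1.symm, hq.2.symm⟩ b rfl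
        rw [hp.1, hq.1]
        exact hstrip _ k1 p' q' h' b k2
      · have b2 : S.cm q' ≠ l := fun h => b (e'.trans h)
        rw [v2 p q e a, v2 p' q' e' b, v5 p p' n1 hp.1 a b, v5 q q' n2 hq.1 a2 b2]
  obtain ⟨g, hg1, hg2⟩ := S.H1V1 φ hs hTT hSq
  refine ⟨g, ?_, ?_⟩
  · intro p q h e
    rw [← hg1 p q h, v1 p q (a50_cm_hr S h) e]
  · intro l' hl p q ep eq ip iq
    have hne : l' ≠ l := by
      intro h
      have h1 := hl.1
      rw [h] at h1
      exact D.G.loopless.irrefl _ h1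
    -- `g` is constant on the slice at `l'`
    have hconst : ∀ a b : S.V1, Relation.EqvGen S.hr a b → S.cm a = l' → g a = g b := by
      intro a b hab
      induction hab with
      | rel x y hxy =>
        intro ha
        have k := hg1 x y hxy
        rw [v2 x y (a50_cm_hr S hxy) (fun h => hne (ha.symm.trans h))] at k
        exact (CharTwo.add_eq_zero.1 k.symm)
      | refl x =>
        intro _
        rfl
      | symm x y hxy ih =>
        intro ha
        have : S.cm x = S.cm y := Quotient.sound hxy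
        exact (ih (this.trans ha)).symm
      | trans x y z hxy _ ih1 ih2 =>
        intro ha
        have : S.cm x = S.cm y := Quotient.sound hxy
        exact (ih1 ha).trans (ih2 (this.symm.trans ha))
    obtain ⟨p', ep', cp'⟩ := (S.In_iff _ _).1 ip
    obtain ⟨q', eq', cq'⟩ := (S.In_iff _ _).1 iq
    have hadj : ∀ a b : S.V1, b.1.1 = a.1.1 → S.cm a = l → S.cm b = l' → S.vr a b := by
      intro a b h1 h2 h3
      refine ⟨h1.symm, ?_⟩
      have h4 := hl.1
      rw [← h2, ← h3] at h4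
      exact h4
    have w1 := hadj p p' ep' ep cp'
    have w2 := hadj q q' eq' eq cq'
    have k1 := hg2 p p' w1
    have k2 := hg2 q q' w2
    rw [v3 p p' (a50_cm_vr S w1) w1.1 ep, cp'] at k1
    rw [v3 q q' (a50_cm_vr S w2) w2.1 eq, cq'] at k2
    have k3 : g p' = g q' := hconst p' q' (Quotient.exact (cp'.trans cq'.symm)) cp'
    rw [k1, k2, k3]
    have c := CharTwo.add_self_eq_zero (g q')
    linear_combination -c

end Pool.Agent.SAF
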