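import Pool.Agent.SAF.A42

/-!
# SAF/A54: counting the triangles of quotient complexes
-/

namespace Pool.Agent.SAF

open MulAction

variable {H : Type} [Group H] {Y : Type} [MulAction H Y] {K : KS H Y} {D : Decomp H}
  {S : Sys H Y K D}

private theorem c_eq_iff (R : IRel S) (p q : S.V1) : R.c p = R.c q ↔ R.r p q :=
  Quotient.eq (r := R.r)

private theorem tp_hr {l : S.LV} {p q s : S.V1} (h : S.Tp l p q s) : S.hr p q := by
  obtain ⟨h1, h2, h3, h4, h5⟩ := h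
  exact ⟨h1, K.T_E _ _ _ h3, S.ST_sub _ _ _ h3 h4⟩

private theorem tp_rot {l : S.LV} {p q s : S.V1} (h : S.Tp l p q s) : S.Tp l q s p := by
  have hpq := tp_hr h
  obtain ⟨h1, h2, h3, h4, h5⟩ := h
  refine ⟨h2, (h1.trans h2).symm, K.T_rot _ _ _ h3, ?_, ?_⟩
  · rw [← S.ST_rot _ _ _ h3, ← h1]
    exact h4
  · rw [← h5]
    exact (Quotient.sound (Relation.EqvGen.rel _ _ hpq)).symm

private theorem tp_swap {l : S.LV} {p q s : S.V1} (h : S.Tp l p q s) : S.Tp l q p s := by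
  have hpq := tp_hr h
  obtain ⟨h1, h2, h3, h4, h5⟩ := h
  refine ⟨h1.symm, h1.trans h2, K.T_swap _ _ _ h3, ?_, ?_⟩
  · rw [← S.ST_swap _ _ _ h3, ← h1]
    exact h4
  · rw [← h5]
    exact (Quotient.sound (Relation.EqvGen.rel _ _ hpq)).symm

/-- The triangles of the quotient complex at `l` are at most the triangles of `K` which do not
degenerate and sit at the orbit of `l`. -/
theorem IRel.t_le (R : IRel S) (l : S.LV)
    (hlost : ∀ p q, S.hr p q → LostF (S.f p.1.1) (S.f q.1.1) → R.r p q)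
    (K' : KS ↥(stabilizer H l) R.Q) (hT : K'.T = R.T l) :
    K'.t ≤ oc H {t : Y × Y × Y | ∃ p q s : S.V1, p.1.1 = t.1 ∧ q.1.1 = t.2.1 ∧ s.1.1 = t.2.2 ∧
      S.Tp (S.cm p) p q s ∧ ¬ R.r p q ∧ ¬ R.r q s ∧ ¬ R.r p s ∧ ∃ h : H, S.cm p = h • l} := by
  unfold KS.t
  rw [hT]
  apply oc_le_of_rel (H := ↥(stabilizer H l)) (H' := H) ?_
    (fun (c : R.Q × R.Q × R.Q) (t : Y × Y × Y) => ∃ p q s, S.Tp l p q s ∧
      R.c p = c.1 ∧ R.c q = c.2.1 ∧ R.c s = c.2.2 ∧ p.1.1 = t.1 ∧ q.1.1 = t.2.1 ∧ s.1.1 = t.2.2)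
  · rintro ⟨c, c', c''⟩ ⟨n1, n2, n3, p, q, s, hp, rfl, rfl, rfl⟩
    have hl : S.cm p = l := hp.2.2.2.2
    refine ⟨(p.1.1, q.1.1, s.1.1), ⟨p, q, s, rfl, rfl, rfl, ?_, ?_, ?_, ?_, 1, ?_⟩,
      p, q, s, hp, rfl, rfl, rfl, rfl, rfl, rfl⟩
    · rw [hl]; exact hp
    · exact fun e => n1 ((c_eq_iff R _ _).2 e)
    · exact fun e => n2 ((c_eq_iff R _ _).2 e)
    · exact fun e => n3 ((c_eq_iff R _ _).2 e)
    · rw [one_smul, hl]
  · rintro ⟨c1, c2, c3⟩ ha ⟨d1, d2, d3⟩ hb ⟨a1, a2, a3⟩ - ⟨b1, b2, b3⟩ -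
      ⟨p, q, s, hp, e1, e2, e3, e4, e5, e6⟩ ⟨p', q', s', hp', e1', e2', e3', e4', e5', e6'⟩
      ⟨h, hh⟩
    obtain ⟨n1, n2, n3, -⟩ := hb
    simp only at e1 e2 e3 e4 e5 e6 e1' e2' e3' e4' e5' e6' n1 n2 n3
    subst e1 e2 e3 e4 e5 e6 e1' e2' e3' e4' e5' e6'
    have g1 : h • p.1.1 = p'.1.1 := congrArg Prod.fst hh
    have g2 : h • q.1.1 = q'.1.1 := congrArg (fun t => t.2.1) hh
    have g3 : h • s.1.1 = s'.1.1 := congrArg (fun t => t.2.2) hh
    have hc : ∃ c, S.ST p'.1.1 q'.1.1 s'.1.1 = {c} := by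
      rcases S.ST_c _ _ _ hp'.2.2.1 with h1 | h1 | h1 | h1
      · exact absurd ((c_eq_iff R _ _).2 (hlost p' q' (tp_hr hp') h1)) n1
      · exact absurd ((c_eq_iff R _ _).2 (hlost q' s' (tp_hr (tp_rot hp')) h1)) n2
      · exact absurd ((c_eq_iff R _ _).2 (hlost p' s' (tp_hr (tp_rot (tp_swap hp'))) h1)) n3
      · exact h1
    obtain ⟨c, hc⟩ := hc
    have m1 : p'.1.2 = c := by
      have := hp'.2.2.2.1
      rw [hc] at this
      exact this
    have m2 : h • p.1.2 = c := by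
      have := S.ST_smul h _ _ _ _ hp.2.2.1 hp.2.2.2.1
      rw [g1, g2, g3, hc] at this
      exact this
    have k1 : h • p = p' := by
      apply Subtype.ext
      apply Prod.ext
      · exact g1
      · exact m2.trans m1.symm
    have k2 : h • q = q' := by
      apply Subtype.ext
      apply Prod.ext
      · exact g2
      · show h • q.1.2 = q'.1.2
        rw [← hp.1, ← hp'.1, m2, m1]
    have k3 : h • s = s' := by
      apply Subtype.ext
      apply Prod.ext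
      · exact g3
      · show h • s.1.2 = s'.1.2
        rw [← hp.2.1, ← hp'.2.1, ← hp.1, ← hp'.1, m2, m1]
    have hl : h • l = l := by
      have h1 : S.cm p = l := hp.2.2.2.2
      have h2 : S.cm p' = l := hp'.2.2.2.2
      rw [← k1, S.cm_smul, h1] at h2
      exact h2
    refine ⟨⟨h, hl⟩, ?_⟩
    subst k1 k2 k3
    rfl
  · apply K.finT.mono
    rintro ⟨a, b, c⟩ ⟨p, q, s, rfl, rfl, rfl, h, -⟩
    exact h.2.2.1

end Pool.Agent.SAF
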