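import Pool.Agent.SAF.BTree

/-!
# SAF, module BBound: edges which are no `Q`-edges cross boundedly many edges of the new tree
-/

namespace Pool.Agent.SAF

open MulAction

section

variable {H : Type} [Group H] {Y : Type} [MulAction H Y] {K : KS H Y} {D : Decomp H}
  (S : Sys H Y K D)

/-- a set of vertices containing a sink and closed under adjacency is everything: all iterates
lead to the sink -/
theorem Ori.bb_reach_sink {X : Type} {G : SimpleGraph X} (hG : G.IsTree) {f : X → X}
    (hf : Ori G f) {s : X} (hs : f s = s) (w : X) : ∃ k, f^[k] w = s := by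
  have hstep : ∀ u v : X, G.Adj u v → (∃ k, f^[k] u = s) → ∃ k, f^[k] v = s := by
    rintro u v huv ⟨k, hk⟩
    rcases hf.one u v huv with e | e
    · cases k with
      | zero =>
        exfalso
        have hus : u = s := hk
        rw [hus, hs] at e
        rw [hus, ← e] at huv
        exact G.loopless.irrefl _ huv
      | succ k =>
        refine ⟨k, ?_⟩
        rw [Function.iterate_succ_apply, e] at hk
        exact hk
    · refine ⟨k + 1, ?_⟩
      rw [Function.iterate_succ_apply, e]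
      exact hk
  have hwalk : ∀ u v : X, G.Walk u v → (∃ k, f^[k] u = s) → ∃ k, f^[k] v = s := by
    intro u v p
    induction p with
    | nil => exact id
    | cons h _ ih => exact fun hu => ih (hstep _ _ h hu)
  obtain ⟨p⟩ := hG.connected s w
  exact hwalk s w p ⟨0, rfl⟩

theorem Ori.bb_sink_unique {X : Type} {G : SimpleGraph X} (hG : G.IsTree) {f : X → X}
    (hf : Ori G f) {s s' : X} (hs : f s = s) (hs' : f s' = s') : s' = s := by
  obtain ⟨k, hk⟩ := hf.bb_reach_sink hG hs s'
  rw [Function.iterate_fixed hs' k] at hk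
  exact hk

/-- on the way to the sink of `f` a point between `f` and `g` can be recovered by `g` -/
theorem Ori.bb_back {X : Type} {G : SimpleGraph X} {f g : X → X}
    (hf : Ori G f) (hg : Ori G g) {w : X} (hw : w ∈ Zs f g) :
    ∀ k : ℕ, (∀ i < k, f (f^[i] w) ≠ f^[i] w) →
      g^[k] (f^[k] w) = w ∧ (0 < k → g (f^[k] w) = f^[k - 1] w) := by
  intro k
  induction k with
  | zero => exact fun _ => ⟨rfl, fun h => absurd h (lt_irrefl 0)⟩
  | succ k ih =>
    intro hk
    obtain ⟨h1, h2⟩ := ih fun i hi => hk i (hi.trans (Nat.lt_succ_self k))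
    have h3 : f (f^[k] w) ≠ f^[k] w := hk k (Nat.lt_succ_self k)
    have hadj : G.Adj (f^[k] w) (f (f^[k] w)) := (hf.ok (f^[k] w)).resolve_left h3
    have h4 : g (f (f^[k] w)) = f^[k] w := by
      rcases hg.one _ _ hadj with e | e
      · exfalso
        rcases Nat.eq_zero_or_pos k with h0 | h0
        · subst h0
          exact hw ⟨e.symm, h3⟩
        · rw [h2 h0] at e
          obtain ⟨m, rfl⟩ : ∃ m, k = m + 1 := ⟨k - 1, (Nat.succ_pred_eq_of_pos h0).symm⟩
          have e1 : f^[m + 1] w = f (f^[m] w) := Function.iterate_succ_apply' f m w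
          have e' : f^[m] w = f (f^[m + 1] w) := e
          refine hf.ntwo _ _ hadj ⟨rfl, ?_⟩
          rw [← e', ← e1]
      · exact e
    have h5 : f^[k + 1] w = f (f^[k] w) := Function.iterate_succ_apply' f k w
    refine ⟨?_, fun _ => ?_⟩
    · rw [Function.iterate_succ_apply, h5, h4, h1]
    · rw [h5, h4]
      rfl

theorem Sys.bb_iter_smul {h : H} {x : Y} (hx : h • x = x) (k : ℕ) (w : D.X) :
    (S.f x)^[k] (h • w) = h • (S.f x)^[k] w := by
  induction k with
  | zero => rfl
  | succ k ih =>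
    rw [Function.iterate_succ_apply', Function.iterate_succ_apply', ih]
    have := S.f_smul h x ((S.f x)^[k] w)
    rw [hx] at this
    exact this

/-- elements which fix the two ends of an edge which is no `Q`-edge fix its subtree -/
theorem Sys.bb_fix_SE (hL : S.NoLost) {x y : Y} (hE : K.E x y) (hQ : ¬ S.Qe x y) {h : H}
    (hx : h • x = x) (hy : h • y = y) {w : D.X} (hw : w ∈ S.SE x y) : h • w = w := by
  by_cases h1 : h = 1
  · rw [h1, one_smul]
  have hP := K.E_P _ _ hE
  have hs : ∃ s, S.f x s = s := by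
    by_contra hcon
    push Not at hcon
    exact hQ ⟨hE, ⟨h, h1, hx, hy⟩, hcon⟩
  obtain ⟨s, hs⟩ := hs
  have hf := S.ori x hP
  have hg := S.ori y (K.E_P _ _ (K.E_symm _ _ hE))
  have hhs : h • s = s := by
    apply hf.bb_sink_unique D.tree hs
    have := S.f_smul h x s
    rw [hx, hs] at this
    exact this
  have hZ : w ∈ Zs (S.f x) (S.f y) := S.SE_Z x y hE (hL x y hE) hw
  classical
  have hk := hf.bb_reach_sink D.tree hs w
  have hmin : ∀ i < Nat.find hk, S.f x ((S.f x)^[i] w) ≠ (S.f x)^[i] w := by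
    intro i hi e
    exact Nat.find_min hk hi (hf.bb_sink_unique D.tree hs e)
  have hb := (hf.bb_back hg hZ (Nat.find hk) hmin).1
  rw [Nat.find_spec hk] at hb
  rw [← hb, ← S.bb_iter_smul hy, hhs]

theorem Sys.bb_Lv_Fl {n : ℕ} {l l' : S.LV} {x y : Y} (h : S.Lv n l l' x y) : S.Fl l l' x y := by
  cases n with
  | zero => exact h
  | succ n => exact h.1

theorem Sys.bb_Lv_swap {n : ℕ} : ∀ {l l' : S.LV} {x y : Y}, S.Lv n l l' x y → S.Lv n l l' y x := by
  induction n with
  | zero => exact fun h => S.Fl_swap h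
  | succ n ih =>
    rintro l l' x y ⟨h, l'', hne, h'⟩
    exact ⟨S.Fl_swap h, l'', hne, ih h'⟩

theorem Sys.bb_Lv_pts (hL : S.NoLost) {n : ℕ} : ∀ {l l' : S.LV} {x y : Y}, S.Lv n l l' x y →
    S.Far l l' x → ∀ i ≤ n + 1, (S.f x)^[i] (S.pr l) ∈ S.SE x y ∧
      (i ≤ n → S.f x ((S.f x)^[i] (S.pr l)) ≠ (S.f x)^[i] (S.pr l)) := by
  induction n with
  | zero =>
    intro l l' x y h hF i hi
    have h' : S.Fl l l' x y := h
    rcases Nat.eq_zero_or_pos i with h0 | h0
    · subst h0
      refine ⟨h'.2.1.2.1, fun _ => ?_⟩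
      change S.f x (S.pr l) ≠ S.pr l
      rw [hF.2.2.2]
      exact hF.1.1.ne'
    · obtain rfl : i = 1 := by omega
      refine ⟨?_, fun h => absurd h (by omega)⟩
      change S.f x (S.pr l) ∈ _
      rw [hF.2.2.2]
      exact h'.2.2.2.1
  | succ n ih =>
    rintro l l' x y ⟨h, l'', hne, h'⟩ hF i hi
    have hF' : S.Far l' l'' x := by
      rcases S.Fl_corner hL (S.Fl_symm h) (S.bb_Lv_Fl h') (Ne.symm hne) with e | e
      · exact absurd e.1 (S.not_both hF)
      · exact e.1
    rcases Nat.eq_zero_or_pos i with h0 | h0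
    · subst h0
      refine ⟨h.2.1.2.1, fun _ => ?_⟩
      change S.f x (S.pr l) ≠ S.pr l
      rw [hF.2.2.2]
      exact hF.1.1.ne'
    · obtain ⟨m, rfl⟩ : ∃ m, i = m + 1 := ⟨i - 1, by omega⟩
      have := ih h' hF' m (by omega)
      rw [Function.iterate_succ_apply, hF.2.2.2]
      exact ⟨this.1, fun hm => this.2 (by omega)⟩

/-- a long chain of points in the subtree of an edge which is no `Q`-edge -/
theorem Sys.bb_chain (hL : S.NoLost) {x y : Y} (hE : K.E x y) (hQ : ¬ S.Qe x y) {n : ℕ}
    (hn : n = (orbs H {p : (Y × Y) × D.X | K.E p.1.1 p.1.2 ∧ ¬ LostF (S.f p.1.1) (S.f p.1.2) ∧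
      p.2 ∈ S.SE p.1.1 p.1.2}).ncard) (w : ℕ → D.X) (hw : ∀ i ≤ n + 1, w i ∈ S.SE x y)
    (hinj : ∀ i ≤ n + 1, ∀ j ≤ n + 1, w i = w j → i = j) : False := by
  set A : Set ((Y × Y) × D.X) := {p : (Y × Y) × D.X | K.E p.1.1 p.1.2 ∧
    ¬ LostF (S.f p.1.1) (S.f p.1.2) ∧ p.2 ∈ S.SE p.1.1 p.1.2} with hA
  have hfin : (orbs H A).Finite := S.finE
  have hmem : ∀ i ∈ Finset.range (n + 2),
      (Quotient.mk'' (((x, y), w i) : (Y × Y) × D.X) : orbitRel.Quotient H ((Y × Y) × D.X)) ∈
        hfin.toFinset := by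
    intro i hi
    rw [Finset.mem_range] at hi
    rw [Set.Finite.mem_toFinset]
    exact ⟨((x, y), w i), ⟨hE, hL x y hE, hw i (by omega)⟩, rfl⟩
  have hle := Finset.card_le_card_of_injOn
    (fun i => (Quotient.mk'' (((x, y), w i) : (Y × Y) × D.X) :
      orbitRel.Quotient H ((Y × Y) × D.X))) hmem (by
    intro i hi j hj hij
    rw [Finset.coe_range, Set.mem_Iio] at hi hj
    have h1 : (orbitRel H ((Y × Y) × D.X)) ((x, y), w i) ((x, y), w j) := Quotient.eq''.1 hij
    rw [orbitRel_apply, mem_orbit_iff] at h1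
    obtain ⟨g, hg⟩ := h1
    have hg1 : g • x = x := congrArg (fun p : (Y × Y) × D.X => p.1.1) hg
    have hg2 : g • y = y := congrArg (fun p : (Y × Y) × D.X => p.1.2) hg
    have hg3 : g • w j = w i := congrArg (fun p : (Y × Y) × D.X => p.2) hg
    rw [S.bb_fix_SE hL hE hQ hg1 hg2 (hw j (by omega))] at hg3
    exact hinj i (by omega) j (by omega) hg3.symm)
  rw [Finset.card_range, ← Set.ncard_eq_toFinset_card _ hfin] at hle
  omega

/-- Proof: if `Lv n l l' x y` then (up to exchanging `x` and `y`) the points `f x^[i] (pr l)`,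
`i <= n + 1`, are different points of `SE x y` (`Fl_corner`: the direction persists;
`Ori.iter_inj`). If `x y` is no `Q`-edge then every `h` fixing `x` and `y` fixes every point of
`SE x y` (trivial `h`, or `f x` has a sink; then `f y` has a sink by `f_hyp`, `SE x y` lies in
`Zs (f x) (f y)`, the path between the sinks, which `h` fixes). So different points of `SE x y`
are in different orbits of the pairs `((x, y), w)`, hence `n + 2` is at most the number of those
orbits (`S.finE`). -/
theorem Sys.bound (hL : S.NoLost) : ∃ n, ∀ l l' x y, S.Lv n l l' x y → S.Qe x y := by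
  obtain ⟨n, hn⟩ : ∃ n, n = (orbs H {p : (Y × Y) × D.X | K.E p.1.1 p.1.2 ∧
      ¬ LostF (S.f p.1.1) (S.f p.1.2) ∧ p.2 ∈ S.SE p.1.1 p.1.2}).ncard := ⟨_, rfl⟩
  refine ⟨n, fun l l' x y h => ?_⟩
  by_contra hQ
  have hFl := S.bb_Lv_Fl h
  have hE : K.E x y := hFl.2.1.1
  have key : ∀ a b : Y, S.Lv n l l' a b → S.SE a b = S.SE x y → S.Far l l' a → False := by
    intro a b hab hSE hF
    have hp := S.bb_Lv_pts hL hab hF
    refine S.bb_chain hL hE hQ hn (fun i => (S.f a)^[i] (S.pr l)) ?_ ?_
    · intro i hi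
      rw [← hSE]
      exact (hp i hi).1
    · intro i hi j hj hij
      by_contra hne
      have hori := S.ori a (S.In_P hF.2.1)
      rcases lt_or_gt_of_ne hne with hlt | hlt
      · exact (hp i hi).2 (by omega) (hori.iter_inj D.tree hlt hij)
      · exact (hp j hj).2 (by omega) (hori.iter_inj D.tree hlt hij.symm)
  rcases S.Fl_far hL hFl with hF | hF
  · exact key x y h rfl hF.1
  · exact key y x (S.bb_Lv_swap h) (S.SE_symm x y hE).symm hF.1

end

end Pool.Agent.SAF
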