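import Pool.Agent.SAF.BInc

/-!
# SAF, module BColoop: an orbit of free edges which does not contribute to `N2` consists of bridges

Proof. Put `F' := delE H F u v`; `addE H F' u v = F`. By `N2_addE_cl` the edge is not in the
closure of `F'`: `u`, `v` are in different components of `F'` and one of the components, say `A` of
`u`, has trivial stabiliser. If `v` is in no translate of `A`, let `σ` be the indicator function of
`A`. If `v` is in `g A` (`g` is not `1`, so it has infinite order by `TF`), let `σ` be the indicator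
function of the union of all `g ^ k A`, `k >= 1`: for `h` in `H`, `h u` is in the union iff
`h = g ^ k`, `k >= 1`, and `h v` iff `h = g ^ k`, `k >= 0`.
-/

namespace Pool.Agent.SAF

open MulAction

section

variable {H : Type} [Group H] {Z : Type} [MulAction H Z]

open Classical in
/-- a set of vertices which separates exactly the edge `u v` gives the function `σ` -/
theorem coloop_of_set (hT : TF H) {F : Z → Z → Prop} {u v : Z} (hne : u ≠ v)
    (hF1 : ¬ F u v) (hF2 : ¬ F v u) (hfr : FrE H u v) (S : Z → Prop)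
    (hS : ∀ a b, F a b → (S a ↔ S b)) (hS1 : ∀ h : H, h ≠ 1 → (S (h • u) ↔ S (h • v)))
    (hS2 : ¬ (S u ↔ S v)) :
    ∃ σ : Z → ZMod 2, ∀ a b, addE H F u v a b →
      σ a + σ b = 1 ∧ ((a = u ∧ b = v) ∨ (a = v ∧ b = u)) ∨
      σ a + σ b = 0 ∧ ¬ ((a = u ∧ b = v) ∨ (a = v ∧ b = u)) := by
  have hh : ∀ h : H, ((h • u = u ∧ h • v = v) ∨ (h • u = v ∧ h • v = u)) → h = 1 := by
    rintro h (⟨e1, e2⟩ | ⟨e1, e2⟩)
    · exact hfr h e1 e2
    · have h3 : h * h = 1 := by
        apply hfr
        · rw [mul_smul, e1, e2]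
        · rw [mul_smul, e2, e1]
      exact hT h 2 (by norm_num) (by rw [pow_two]; exact h3)
  have hsum0 : ∀ a b, (S a ↔ S b) →
      (if S a then (1 : ZMod 2) else 0) + (if S b then (1 : ZMod 2) else 0) = 0 := by
    intro a b hab
    by_cases h : S a
    · rw [if_pos h, if_pos (hab.1 h)]
      decide
    · rw [if_neg h, if_neg (fun k => h (hab.2 k))]
      decide
  have hsum1 : ∀ a b, ¬ (S a ↔ S b) →
      (if S a then (1 : ZMod 2) else 0) + (if S b then (1 : ZMod 2) else 0) = 1 := by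
    intro a b hab
    by_cases h : S a
    · have h' : ¬ S b := fun k => hab ⟨fun _ => k, fun _ => h⟩
      rw [if_pos h, if_neg h']
      decide
    · have h' : S b := by
        by_contra k
        exact hab ⟨fun e => absurd e h, fun e => absurd e k⟩
      rw [if_neg h, if_pos h']
      decide
  refine ⟨fun z => if S z then 1 else 0, ?_⟩
  rintro a b (e | ⟨h, rfl, rfl⟩ | ⟨h, rfl, rfl⟩)
  · right
    refine ⟨hsum0 a b (hS a b e), ?_⟩
    rintro (⟨rfl, rfl⟩ | ⟨rfl, rfl⟩)
    · exact hF1 e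
    · exact hF2 e
  · by_cases h1 : h = 1
    · left
      subst h1
      rw [one_smul, one_smul]
      exact ⟨hsum1 u v hS2, Or.inl ⟨rfl, rfl⟩⟩
    · right
      exact ⟨hsum0 _ _ (hS1 h h1), fun k => h1 (hh h k)⟩
  · by_cases h1 : h = 1
    · left
      subst h1
      rw [one_smul, one_smul]
      refine ⟨?_, Or.inr ⟨rfl, rfl⟩⟩
      exact hsum1 v u (fun k => hS2 k.symm)
    · right
      refine ⟨hsum0 _ _ (hS1 h h1).symm, fun k => h1 (hh h ?_)⟩
      rcases k with ⟨k1, k2⟩ | ⟨k1, k2⟩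
      · exact Or.inr ⟨k2, k1⟩
      · exact Or.inl ⟨k2, k1⟩

/-- the case that the component of `u` has trivial stabiliser -/
theorem coloop_core (hT : TF H) {F : Z → Z → Prop}
    (inv : ∀ (h : H) (a b : Z), F a b → F (h • a) (h • b)) {u v : Z}
    (h0 : ¬ Relation.EqvGen F u v) (h1 : FrC H F u) (hfr : FrE H u v) :
    ∃ σ : Z → ZMod 2, ∀ a b, addE H F u v a b →
      σ a + σ b = 1 ∧ ((a = u ∧ b = v) ∨ (a = v ∧ b = u)) ∨
      σ a + σ b = 0 ∧ ¬ ((a = u ∧ b = v) ∨ (a = v ∧ b = u)) := by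
  have hne : u ≠ v := by
    rintro rfl
    exact h0 (Relation.EqvGen.refl _)
  have hF1 : ¬ F u v := fun k => h0 (Relation.EqvGen.rel _ _ k)
  have hF2 : ¬ F v u := fun k => h0 (Relation.EqvGen.symm _ _ (Relation.EqvGen.rel _ _ k))
  by_cases hc : ∃ k : H, Relation.EqvGen F v (k • u)
  · obtain ⟨k, hk⟩ := hc
    have hk1 : k ≠ 1 := by
      rintro rfl
      rw [one_smul] at hk
      exact h0 (Relation.EqvGen.symm _ _ hk)
    have hu : ∀ h : H, (∃ n : ℕ, 1 ≤ n ∧ Relation.EqvGen F (h • u) (k ^ n • u)) ↔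
        ∃ n : ℕ, 1 ≤ n ∧ h = k ^ n := by
      intro h
      constructor
      · rintro ⟨n, hn, e⟩
        refine ⟨n, hn, ?_⟩
        have e2 := binc_smul inv (k ^ n)⁻¹ e
        rw [inv_smul_smul, ← mul_smul] at e2
        have e3 := h1 _ e2
        rw [inv_mul_eq_one] at e3
        exact e3.symm
      · rintro ⟨n, hn, rfl⟩
        exact ⟨n, hn, Relation.EqvGen.refl _⟩
    have hv : ∀ h : H, (∃ n : ℕ, 1 ≤ n ∧ Relation.EqvGen F (h • v) (k ^ n • u)) ↔
        ∃ n : ℕ, h = k ^ n := by
      intro h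
      have e1 : Relation.EqvGen F (h • v) ((h * k) • u) := by
        rw [mul_smul]
        exact binc_smul inv h hk
      constructor
      · rintro ⟨n, hn, e⟩
        obtain ⟨n', hn', e4⟩ := (hu (h * k)).1 ⟨n, hn,
          Relation.EqvGen.trans _ _ _ (Relation.EqvGen.symm _ _ e1) e⟩
        obtain ⟨m, rfl⟩ : ∃ m, n' = m + 1 := ⟨n' - 1, by omega⟩
        refine ⟨m, ?_⟩
        rw [pow_succ] at e4
        exact mul_right_cancel e4
      · rintro ⟨n, rfl⟩
        refine ⟨n + 1, by omega, ?_⟩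
        rw [pow_succ]
        exact e1
    refine coloop_of_set hT hne hF1 hF2 hfr
      (fun z => ∃ n : ℕ, 1 ≤ n ∧ Relation.EqvGen F z (k ^ n • u)) ?_ ?_ ?_
    · intro a b hab
      constructor
      · rintro ⟨n, hn, e⟩
        exact ⟨n, hn, Relation.EqvGen.trans _ _ _
          (Relation.EqvGen.symm _ _ (Relation.EqvGen.rel _ _ hab)) e⟩
      · rintro ⟨n, hn, e⟩
        exact ⟨n, hn, Relation.EqvGen.trans _ _ _ (Relation.EqvGen.rel _ _ hab) e⟩
    · intro h hh1
      change (∃ n : ℕ, 1 ≤ n ∧ Relation.EqvGen F (h • u) (k ^ n • u)) ↔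
        (∃ n : ℕ, 1 ≤ n ∧ Relation.EqvGen F (h • v) (k ^ n • u))
      rw [hu, hv]
      constructor
      · rintro ⟨n, _, e⟩
        exact ⟨n, e⟩
      · rintro ⟨n, e⟩
        refine ⟨n, ?_, e⟩
        rcases Nat.eq_zero_or_pos n with h3 | h3
        · exfalso
          apply hh1
          rw [e, h3, pow_zero]
        · exact h3
    · intro hcon
      have hu1 := hu 1
      have hv1 := hv 1
      rw [one_smul] at hu1 hv1
      have h4 : ∃ n : ℕ, (1 : H) = k ^ n := ⟨0, (pow_zero k).symm⟩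
      obtain ⟨n, hn, e⟩ := hu1.1 (hcon.2 (hv1.2 h4))
      exact hk1 (hT k n hn e.symm)
  · refine coloop_of_set hT hne hF1 hF2 hfr (fun z => Relation.EqvGen F z u) ?_ ?_ ?_
    · intro a b hab
      constructor
      · intro e
        exact Relation.EqvGen.trans _ _ _
          (Relation.EqvGen.symm _ _ (Relation.EqvGen.rel _ _ hab)) e
      · intro e
        exact Relation.EqvGen.trans _ _ _ (Relation.EqvGen.rel _ _ hab) e
    · intro h hh1
      constructor
      · intro e
        exact absurd (h1 h e) hh1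
      · intro e
        exfalso
        apply hc
        refine ⟨h⁻¹, ?_⟩
        have e2 := binc_smul inv h⁻¹ e
        rwa [inv_smul_smul] at e2
    · intro hcon
      exact h0 (Relation.EqvGen.symm _ _ (hcon.1 (Relation.EqvGen.refl _)))

theorem coloop_addE_delE {W : Set Z} {F : Z → Z → Prop} (g : Gr H W F) {u v : Z} (huv : F u v) :
    addE H (delE H F u v) u v = F := by
  funext a b
  apply propext
  constructor
  · rintro (e | ⟨h, rfl, rfl⟩ | ⟨h, rfl, rfl⟩)
    · exact e.1
    · exact g.inv h _ _ huv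
    · exact g.inv h _ _ (g.symm _ _ huv)
  · intro e
    by_cases h1 : ∃ h : H, h • u = a ∧ h • v = b
    · exact Or.inr (Or.inl h1)
    · by_cases h2 : ∃ h : H, h • v = a ∧ h • u = b
      · exact Or.inr (Or.inr h2)
      · exact Or.inl ⟨e, h1, h2⟩

theorem coloop (hT : TF H) {W : Set Z} {F : Z → Z → Prop} (g : Gr H W F) {u v : Z}
    (huv : F u v) (hfr : FrE H u v) (hN : N2 H W F ≤ N2 H W (delE H F u v)) :
    ∃ σ : Z → ZMod 2, ∀ a b, F a b →
      σ a + σ b = 1 ∧ ((a = u ∧ b = v) ∨ (a = v ∧ b = u)) ∨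
      σ a + σ b = 0 ∧ ¬ ((a = u ∧ b = v) ∨ (a = v ∧ b = u)) := by
  have g' := Gr.delE g u v
  have hadd := coloop_addE_delE g huv
  have hu : u ∈ W := g.mem _ _ huv
  have hv : v ∈ W := g.mem _ _ (g.symm _ _ huv)
  have hne : u ≠ v := by
    rintro rfl
    exact g.irr _ huv
  have hF' : ¬ delE H F u v u v := fun k => k.2.1 ⟨1, one_smul _ _, one_smul _ _⟩
  have hcl : ¬ Cl H (delE H F u v) u v := by
    intro hcl
    have := N2_addE_cl hT g' hu hv hne hF' hfr hcl
    rw [hadd] at this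
    omega
  have h0 : ¬ Relation.EqvGen (delE H F u v) u v := fun k => hcl (Or.inl k)
  by_cases h1 : FrC H (delE H F u v) u
  · have := coloop_core hT g'.inv h0 h1 hfr
    rw [hadd] at this
    exact this
  · have h2 : FrC H (delE H F u v) v := by
      by_contra h2
      exact hcl (Or.inr ⟨h1, h2⟩)
    have := coloop_core hT g'.inv (fun k => h0 (Relation.EqvGen.symm _ _ k)) h2
      (fun k k1 k2 => hfr k k2 k1)
    rw [← binc_addE_comm, hadd] at this
    obtain ⟨σ, hσ⟩ := this
    refine ⟨σ, fun a b hab => ?_⟩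
    rcases hσ a b hab with ⟨e1, e2⟩ | ⟨e1, e2⟩
    · exact Or.inl ⟨e1, e2.symm⟩
    · exact Or.inr ⟨e1, fun k => e2 k.symm⟩

end

end Pool.Agent.SAF
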