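import Pool.Agent.SAF.BLevel
import Pool.Agent.SAF.BBound
import Pool.Agent.SAF.BColoop

/-!
# SAF, module BBridge: the bridge property
-/

namespace Pool.Agent.SAF

open MulAction

section

variable {H : Type} [Group H] {Y : Type} [MulAction H Y] {K : KS H Y} {D : Decomp H}
  (S : Sys H Y K D)

theorem Sys.bridge (hT : TF H) (hL : S.NoLost) (hN : N2 H S.W1 S.F1 ≤ N2 H S.W2 S.F2) :
    S.Bridge := by
  intro l l' x y hFl hQ hJ
  obtain ⟨n, hn⟩ := S.bound hL
  have hlv : ¬ S.Lv n l l' x y := fun h => hQ (hn _ _ _ _ h)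
  have huv : S.F1 (l, l', x) (l, l', y) := ⟨rfl, rfl, hFl⟩
  have hfr : FrE H ((l, l', x) : S.LV × S.LV × Y) (l, l', y) := by
    intro h h1 h2
    have a1 : h • l = l := congrArg Prod.fst h1
    have a2 : h • l' = l' := congrArg (fun t : S.LV × S.LV × Y => t.2.1) h1
    have a3 : h • x = x := congrArg (fun t : S.LV × S.LV × Y => t.2.2) h1
    have a4 : h • y = y := congrArg (fun t : S.LV × S.LV × Y => t.2.2) h2
    exact hJ h ⟨a1, a2⟩ a3 a4
  have hsub : ∀ a b, S.FL n a b →
      delE H S.F1 ((l, l', x) : S.LV × S.LV × Y) (l, l', y) a b := by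
    rintro ⟨m, m', u⟩ ⟨k, k', v⟩ hab
    obtain ⟨e1, e2, e3⟩ := hab
    refine ⟨⟨e1, e2, S.bgr_Lv_Fl n e3⟩, ?_, ?_⟩
    · rintro ⟨h, h1, h2⟩
      have a1 : h • l = m := congrArg Prod.fst h1
      have a2 : h • l' = m' := congrArg (fun t : S.LV × S.LV × Y => t.2.1) h1
      have a3 : h • x = u := congrArg (fun t : S.LV × S.LV × Y => t.2.2) h1
      have a4 : h • y = v := congrArg (fun t : S.LV × S.LV × Y => t.2.2) h2
      have e3' : S.Lv n m m' u v := e3
      rw [← a1, ← a2, ← a3, ← a4] at e3'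
      apply hlv
      have := S.bgr_Lv_smul n h⁻¹ e3'
      simpa only [inv_smul_smul] using this
    · rintro ⟨h, h1, h2⟩
      have a1 : h • l = m := congrArg Prod.fst h1
      have a2 : h • l' = m' := congrArg (fun t : S.LV × S.LV × Y => t.2.1) h1
      have a3 : h • y = u := congrArg (fun t : S.LV × S.LV × Y => t.2.2) h1
      have a4 : h • x = v := congrArg (fun t : S.LV × S.LV × Y => t.2.2) h2
      have e3' : S.Lv n m m' u v := e3
      rw [← a1, ← a2, ← a3, ← a4] at e3'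
      apply hlv
      have := S.bgr_Lv_swap n (S.bgr_Lv_smul n h⁻¹ e3')
      simpa only [inv_smul_smul] using this
  have hle : N2 H S.W1 S.F1 ≤
      N2 H S.W1 (delE H S.F1 ((l, l', x) : S.LV × S.LV × Y) (l, l', y)) := by
    rw [← S.level hT hL hN n]
    exact N2_mono hT (Gr.delE (S.Gr1 hL) _ _) (S.GrFL hL n) hsub
  obtain ⟨σ, hσ⟩ := coloop hT (S.Gr1 hL) huv hfr hle
  refine ⟨fun a => σ (l, l', a), fun a b hab => ?_⟩
  have hpair : ∀ c d : Y, (((l, l', c) : S.LV × S.LV × Y) = (l, l', d)) ↔ c = d := by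
    intro c d
    constructor
    · intro e
      exact congrArg (fun t : S.LV × S.LV × Y => t.2.2) e
    · rintro rfl
      rfl
  have h := hσ (l, l', a) (l, l', b) ⟨rfl, rfl, hab⟩
  simp only [hpair] at h
  exact h

end

end Pool.Agent.SAF
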