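import Pool.Agent.SAF.BBasic
import Pool.Agent.SAF.A12

/-!
# SAF, module BTree: orientations and convex sets in trees (elementary lemmas)
-/

namespace Pool.Agent.SAF

open MulAction

section

variable {X : Type} {G : SimpleGraph X} (hG : G.IsTree) {f : X → X} (hf : Ori G f)

include hG hf

/-- towards a sink the distance decreases -/
theorem Ori.sink_dist {s : X} (hs : f s = s) {w : X} (hw : w ≠ s) :
    G.dist w s = G.dist (f w) s + 1 := by
  obtain ⟨g, hg, hgs, hgd⟩ := exists_ori_vertex hG s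
  have : f = g := Ori.eq_of_fix hG hf hg hs hgs
  rw [this]
  exact (hgd w hw).2

/-- a convex set contains at most one vertex whose successor is outside (or which is a sink) -/
theorem Ori.last_unique {C : Set X} (hC : Conv G C) {w w' : X} (h : w ∈ C) (h' : w' ∈ C)
    (hw : f w = w ∨ f w ∉ C) (hw' : f w' = w' ∨ f w' ∉ C) : w = w' := by
  by_contra hne
  have h1 : ¬ (G.Adj w' (f w') ∧ G.dist w (f w') + 1 = G.dist w w') := by
    rintro ⟨a, b⟩
    rcases hw' with e | e
    · rw [e] at a
      exact G.loopless.irrefl _ a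
    · apply e
      apply hC w h w' h'
      rw [SimpleGraph.dist_comm (u := f w') (v := w'), SimpleGraph.dist_eq_one_iff_adj.2 a]
      exact b
  obtain ⟨a, b⟩ := Ori.toward hG hf hne h1
  rcases hw with e | e
  · rw [e] at a
    exact G.loopless.irrefl _ a
  · apply e
    apply hC w h w' h'
    rw [SimpleGraph.dist_eq_one_iff_adj.2 a]
    omega

/-- iterates do not return -/
theorem Ori.iter_inj {w : X} {i j : ℕ} (hij : i < j) (h : f^[i] w = f^[j] w) :
    f (f^[i] w) = f^[i] w := by
  by_cases hs : ∃ s, f s = s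
  · obtain ⟨s, hs⟩ := hs
    have hle : ∀ (n : ℕ) (v : X), G.dist (f^[n] v) s ≤ G.dist v s := by
      intro n
      induction n with
      | zero => intro v; exact le_rfl
      | succ n ih =>
        intro v
        rw [Function.iterate_succ_apply]
        refine (ih (f v)).trans ?_
        by_cases hv : v = s
        · rw [hv, hs]
        · rw [Ori.sink_dist hG hf hs hv]
          omega
    obtain ⟨n, rfl⟩ : ∃ n, j = i + (n + 1) := ⟨j - i - 1, by omega⟩
    by_cases hv : f^[i] w = s
    · rw [hv, hs]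
    · exfalso
      have h1 : f^[i + (n + 1)] w = f^[n] (f (f^[i] w)) := by
        rw [add_comm, Function.iterate_add_apply, Function.iterate_succ_apply]
      rw [h1] at h
      have h2 := hle n (f (f^[i] w))
      rw [← h, Ori.sink_dist hG hf hs hv] at h2
      omega
  · push Not at hs
    exact absurd (Ori.iterate_inj hG hf hs w h) (by omega)

theorem Ori.exists_last_fin {C : Set X} (hC : C.Finite) (hne : C.Nonempty) :
    ∃ w ∈ C, f w = w ∨ f w ∉ C := by
  by_contra hcon
  push Not at hcon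
  obtain ⟨w, hw⟩ := hne
  have hmem : ∀ n : ℕ, f^[n] w ∈ C := by
    intro n
    induction n with
    | zero => exact hw
    | succ n ih =>
      rw [Function.iterate_succ_apply']
      exact (hcon _ ih).2
  have : Finite ↥C := hC
  obtain ⟨i, j, hij, e⟩ := Finite.exists_ne_map_eq_of_infinite
    (fun n : ℕ => (⟨f^[n] w, hmem n⟩ : ↥C))
  have e' : f^[i] w = f^[j] w := congrArg Subtype.val e
  rcases lt_or_gt_of_ne hij with h | h
  · exact (hcon _ (hmem i)).1 (Ori.iter_inj hG hf h e')
  · exact (hcon _ (hmem j)).1 (Ori.iter_inj hG hf h e'.symm)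

theorem Ori.exists_last_sink {C : Set X} (hne : C.Nonempty) (hs : ∃ s, f s = s) :
    ∃ w ∈ C, f w = w ∨ f w ∉ C := by
  obtain ⟨s, hs⟩ := hs
  obtain ⟨w, hw, hmin⟩ : ∃ w ∈ C, ∀ v ∈ C, G.dist w s ≤ G.dist v s := by
    classical
    have hex : ∃ n, ∃ w ∈ C, G.dist w s = n := by
      obtain ⟨w, hw⟩ := hne
      exact ⟨_, w, hw, rfl⟩
    obtain ⟨w, hw, e⟩ := Nat.find_spec hex
    refine ⟨w, hw, fun v hv => ?_⟩
    rw [e]
    exact Nat.find_min' hex ⟨v, hv, rfl⟩
  refine ⟨w, hw, ?_⟩
  by_cases h : w = s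
  · left
    rw [h, hs]
  · right
    intro hc
    have h1 := Ori.sink_dist hG hf hs h
    have h2 := hmin _ hc
    omega

theorem Ori.step_behind {w w' p : X} (hw : f w = w') (hadj : G.Adj w w')
    (hp : G.dist p w' = G.dist p w + 1) (hne : p ≠ w) :
    G.Adj p (f p) ∧ G.dist p w = G.dist (f p) w + 1 ∧
      G.dist (f p) w' = G.dist (f p) w + 1 := by
  have h1 : ¬ (G.Adj w (f w) ∧ G.dist p (f w) + 1 = G.dist p w) := by
    rintro ⟨-, b⟩
    rw [hw] at b
    omega
  obtain ⟨a, b⟩ := Ori.toward hG hf hne h1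
  refine ⟨a, b, ?_⟩
  rcases (dist_edge hG hadj (f p)).1 with h | h
  · exact h
  · exfalso
    have h2 : G.dist p w' ≤ G.dist p (f p) + G.dist (f p) w' := hG.connected.dist_triangle
    rw [SimpleGraph.dist_eq_one_iff_adj.2 a] at h2
    omega

/-- all vertices behind `w` lead to `w` -/
theorem Ori.reach {w w' p : X} (hw : f w = w') (hadj : G.Adj w w')
    (hp : G.dist p w' = G.dist p w + 1) : ∃ k, f^[k] p = w := by
  obtain ⟨n, hn⟩ : ∃ n, G.dist p w = n := ⟨_, rfl⟩
  induction n generalizing p with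
  | zero => exact ⟨0, (hG.connected.dist_eq_zero_iff).1 hn⟩
  | succ n ih =>
    have hne : p ≠ w := by
      rintro rfl
      rw [SimpleGraph.dist_self] at hn
      omega
    obtain ⟨-, h2, h3⟩ := Ori.step_behind hG hf hw hadj hp hne
    obtain ⟨k, hk⟩ := ih h3 (by omega)
    exact ⟨k + 1, by rw [Function.iterate_succ_apply]; exact hk⟩

/-- a vertex behind `w` is no sink and its successor lies on the way to `w'` -/
theorem Ori.behind {w w' p : X} (hw : f w = w') (hadj : G.Adj w w')
    (hp : G.dist p w' = G.dist p w + 1) :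
    f p ≠ p ∧ G.dist p (f p) + G.dist (f p) w' = G.dist p w' := by
  by_cases hne : p = w
  · subst hne
    rw [hw]
    exact ⟨hadj.ne', by rw [SimpleGraph.dist_self, add_zero]⟩
  · obtain ⟨h1, h2, h3⟩ := Ori.step_behind hG hf hw hadj hp hne
    refine ⟨h1.ne', ?_⟩
    rw [SimpleGraph.dist_eq_one_iff_adj.2 h1, h3, hp, h2]
    omega

end

section

variable {X : Type} {G : SimpleGraph X} (hG : G.IsTree)

include hG

/-- an edge of a hull has points of the set behind it -/
theorem hull_behind {s : Set X} {w w' : X} (hadj : G.Adj w w') (hw : w ∈ hull G s) :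
    ∃ a ∈ s, G.dist a w' = G.dist a w + 1 := by
  obtain ⟨a, ha, b, hb, h⟩ := hw
  rcases (dist_edge hG hadj a).1 with h1 | h1
  · exact ⟨a, ha, h1⟩
  · rcases (dist_edge hG hadj b).1 with h2 | h2
    · exact ⟨b, hb, h2⟩
    · exfalso
      have h3 : G.dist a b ≤ G.dist a w' + G.dist w' b := hG.connected.dist_triangle
      have h4 : G.dist w b = G.dist b w := SimpleGraph.dist_comm
      have h5 : G.dist w' b = G.dist b w' := SimpleGraph.dist_comm
      omega

theorem subset_hull_B (s : Set X) : s ⊆ hull G s := fun a ha =>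
  ⟨a, ha, a, ha, by rw [SimpleGraph.dist_self]⟩

/-- the hull of a subset of a point -/
theorem hull_single {s : Set X} {c : X} (h : ∀ a ∈ s, a = c) : ∀ w ∈ hull G s, w = c := by
  rintro w ⟨a, ha, b, hb, e⟩
  rw [h a ha, h b hb, SimpleGraph.dist_self] at e
  exact ((hG.connected.dist_eq_zero_iff).1 (by omega : G.dist c w = 0)).symm

end

section

variable {H : Type} [Group H] {Y : Type} [MulAction H Y] {K : KS H Y} {D : Decomp H}
  (S : Sys H Y K D)

/-- the subtree of `x` is not a point for some `x` -/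
theorem Sys.exists_nontrivial : ∃ x ∈ K.P, ∃ a ∈ S.SV x, ∃ b ∈ S.SV x, a ≠ b := by
  by_contra hcon
  push Not at hcon
  obtain ⟨x0, hx0⟩ := K.ne
  obtain ⟨c, hc⟩ := S.SV_ne x0 hx0
  have key : ∀ x, Relation.ReflTransGen K.E x0 x → c ∈ S.SV x := by
    intro x hx
    induction hx with
    | refl => exact hc
    | tail _ hbc ih =>
      rename_i b d _
      obtain ⟨e, he⟩ := S.SE_ne b d hbc
      have h1 : e ∈ S.SV b := S.SE_sub b d hbc he
      have h2 : e ∈ S.SV d := by
        apply S.SE_sub d b (K.E_symm _ _ hbc)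
        rw [← S.SE_symm b d hbc]
        exact he
      have h3 : c = e := hcon b (K.E_P _ _ hbc) c ih e h1
      rw [h3]
      exact h2
  obtain ⟨h, hh⟩ := D.nofix c
  apply hh
  have h1 : c ∈ S.SV (h • x0) := key _ (K.conn _ hx0 _ (K.P_smul h _ hx0))
  exact hcon _ (K.P_smul h _ hx0) _ (S.SV_smul h x0 c hx0 hc) _ h1

/-- if the subtree of `x` is not a point, some centre at `x` is followed by a point of the subtree -/
theorem Sys.exists_far_centre {x : Y} (hx : x ∈ K.P) {a b : D.X} (ha : a ∈ S.SV x)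
    (hb : b ∈ S.SV x) (hab : a ≠ b) :
    ∃ y z w, K.T x y z ∧ w ∈ S.ST x y z ∧ S.f x w ≠ w ∧ S.f x w ∈ S.SV x := by
  by_contra hcon
  push Not at hcon
  have hG := D.tree
  have hsub : ∀ w, (∃ y z, K.T x y z ∧ w ∈ S.ST x y z) → w ∈ S.SV x := by
    rintro w ⟨y, z, hT, hw⟩
    exact S.SE_sub x y (K.T_E _ _ _ hT) (S.ST_sub x y z hT hw)
  have hlast : ∀ w, (∃ y z, K.T x y z ∧ w ∈ S.ST x y z) → S.f x w = w ∨ S.f x w ∉ S.SV x := by
    rintro w ⟨y, z, hT, hw⟩
    by_cases e : S.f x w = w
    · exact Or.inl e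
    · exact Or.inr (hcon y z w hT hw e)
  have hhull := S.SV_hull x hx
  have hex : ∃ c, ∃ y z, K.T x y z ∧ c ∈ S.ST x y z := by
    rw [hhull] at ha
    obtain ⟨c, hc, -⟩ := ha
    exact ⟨c, hc⟩
  obtain ⟨c, hc⟩ := hex
  have hall : ∀ w ∈ {w | ∃ y z, K.T x y z ∧ w ∈ S.ST x y z}, w = c := fun w hw =>
    Ori.last_unique hG (S.ori x hx) (S.SV_conv x hx) (hsub w hw) (hsub c hc) (hlast w hw)
      (hlast c hc)
  have h1 := hull_single hG hall
  rw [hhull] at ha hb
  exact hab ((h1 a ha).trans (h1 b hb).symm)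

end

end Pool.Agent.SAF
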