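import Pool.Agent.SAF.BGr
import Pool.Agent.SAF.BTree

/-!
# SAF, module BCnt1: orbits of edges of `K` in terms of pieces and crossings
-/

namespace Pool.Agent.SAF

open MulAction

section

variable {H : Type} [Group H] {Y : Type} [MulAction H Y] {Z : Type} [MulAction H Z]

theorem c1_mk_eq_iff {a b : Y} :
    (Quotient.mk'' a : orbitRel.Quotient H Y) = Quotient.mk'' b ↔ ∃ h : H, h • b = a := by
  rw [Quotient.eq'']
  exact Iff.rfl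

/-- free orbits are counted by equivariant bijections -/
theorem c1_ocf_congr {s : Set Y} {t : Set Z} (φ : Y → Z)
    (hs : ∀ h : H, ∀ a ∈ s, h • a ∈ s)
    (hφ : ∀ h : H, ∀ a ∈ s, φ (h • a) = h • φ a)
    (hmap : ∀ a ∈ s, φ a ∈ t)
    (hinj : ∀ a ∈ s, ∀ b ∈ s, φ a = φ b → a = b)
    (hsurj : ∀ c ∈ t, Fr H c → ∃ a ∈ s, φ a = c) : ocf H s = ocf H t := by
  classical
  have hfr : ∀ a ∈ s, (Fr H a ↔ Fr H (φ a)) := by
    intro a ha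
    constructor
    · intro hf h e
      apply hf h
      apply hinj _ (hs h a ha) _ ha
      rw [hφ h a ha, e]
    · intro hf h e
      apply hf h
      rw [← hφ h a ha, e]
  unfold ocf oc
  apply Set.ncard_congr
    (fun q hq => (Quotient.mk'' (φ (Classical.choose hq)) : orbitRel.Quotient H Z))
  · intro q hq
    obtain ⟨h1, h2⟩ := Classical.choose_spec hq
    exact ⟨_, ⟨hmap _ h1.1, (hfr _ h1.1).1 h1.2⟩, rfl⟩
  · intro q q' hq hq' e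
    obtain ⟨h1, h2⟩ := Classical.choose_spec hq
    obtain ⟨h1', h2'⟩ := Classical.choose_spec hq'
    obtain ⟨h, hh⟩ := c1_mk_eq_iff.1 e
    rw [← hφ h _ h1'.1] at hh
    have := hinj _ (hs h _ h1'.1) _ h1.1 hh
    rw [← h2, ← h2']
    exact c1_mk_eq_iff.2 ⟨h, this⟩
  · rintro _ ⟨c, ⟨hc, hf⟩, rfl⟩
    obtain ⟨a, ha, rfl⟩ := hsurj c hc hf
    have hq : (Quotient.mk'' a : orbitRel.Quotient H Y) ∈ orbs H {y | y ∈ s ∧ Fr H y} :=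
      ⟨a, ⟨ha, (hfr a ha).2 hf⟩, rfl⟩
    refine ⟨_, hq, ?_⟩
    obtain ⟨h1, h2⟩ := Classical.choose_spec hq
    obtain ⟨h, hh⟩ := c1_mk_eq_iff.1 h2
    show (Quotient.mk'' (φ (Classical.choose hq)) : orbitRel.Quotient H Z) = Quotient.mk'' (φ a)
    apply c1_mk_eq_iff.2
    refine ⟨h, ?_⟩
    rw [← hφ h a ha, hh]

theorem c1_ocf_union {s t u : Set Y} (hs : ∀ h : H, ∀ a ∈ s, h • a ∈ s)
    (hu : ∀ a, a ∈ u ↔ a ∈ s ∨ a ∈ t) (hd : ∀ a ∈ s, a ∉ t) (hf : FinOrb H u) :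
    ocf H u = ocf H s + ocf H t := by
  have e : orbs H {y | y ∈ u ∧ Fr H y} =
      orbs H {y | y ∈ s ∧ Fr H y} ∪ orbs H {y | y ∈ t ∧ Fr H y} := by
    unfold orbs
    rw [← Set.image_union]
    congr 1
    ext y
    simp only [Set.mem_setOf_eq, Set.mem_union, hu]
    tauto
  have hfu : (orbs H {y | y ∈ u ∧ Fr H y}).Finite :=
    hf.subset (Set.image_mono (fun y hy => hy.1))
  unfold ocf oc
  rw [e]
  rw [e] at hfu
  apply Set.ncard_union_eq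
  · rw [Set.disjoint_left]
    rintro _ ⟨a, ha, rfl⟩ ⟨b, hb, e'⟩
    obtain ⟨h, hh⟩ := c1_mk_eq_iff.1 e'
    exact hd _ (hs h a ha.1) (hh ▸ hb.1)
  · exact hfu.subset Set.subset_union_left
  · exact hfu.subset Set.subset_union_right

end

section

variable {H : Type} [Group H] {Y : Type} [MulAction H Y] {K : KS H Y} {D : Decomp H}
  (S : Sys H Y K D)

/-- the pieces which cross an edge in whose direction `x` is far -/
def Sys.c1A : Set (S.LV × Y × Y) :=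
  {p | ∃ l', S.Fl p.1 l' p.2.1 p.2.2 ∧ S.Far p.1 l' p.2.1}

/-- the pieces which cross an edge in whose direction `y` is far -/
def Sys.c1B : Set (S.LV × Y × Y) :=
  {p | ∃ l', S.Fl p.1 l' p.2.1 p.2.2 ∧ S.Far p.1 l' p.2.2}

/-- all pieces -/
def Sys.c1P : Set (S.LV × Y × Y) := {p | S.PE p.1 p.2.1 p.2.2}

theorem Sys.c1A_smul (h : H) (p : S.LV × Y × Y) (hp : p ∈ S.c1A) : h • p ∈ S.c1A := by
  obtain ⟨l', h1, h2⟩ := hp
  exact ⟨h • l', S.Fl_smul h h1, S.Far_smul h _ _ _ h2⟩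

theorem Sys.c1B_smul (h : H) (p : S.LV × Y × Y) (hp : p ∈ S.c1B) : h • p ∈ S.c1B := by
  obtain ⟨l', h1, h2⟩ := hp
  exact ⟨h • l', S.Fl_smul h h1, S.Far_smul h _ _ _ h2⟩

theorem Sys.c1P_smul (h : H) (p : S.LV × Y × Y) (hp : p ∈ S.c1P) : h • p ∈ S.c1P :=
  S.PE_smul h _ _ _ hp

theorem Sys.c1A_iff_smul (h : H) (p : S.LV × Y × Y) : h • p ∈ S.c1A ↔ p ∈ S.c1A := by
  constructor
  · intro e
    have := S.c1A_smul h⁻¹ _ e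
    rwa [inv_smul_smul] at this
  · exact S.c1A_smul h p

theorem Sys.c1B_iff_smul (h : H) (p : S.LV × Y × Y) : h • p ∈ S.c1B ↔ p ∈ S.c1B := by
  constructor
  · intro e
    have := S.c1B_smul h⁻¹ _ e
    rwa [inv_smul_smul] at this
  · exact S.c1B_smul h p

theorem Sys.c1A_sub : S.c1A ⊆ S.c1P := by
  rintro p ⟨l', h1, h2⟩
  exact h1.2.1

theorem Sys.c1B_sub : S.c1B ⊆ S.c1P := by
  rintro p ⟨l', h1, h2⟩
  exact h1.2.1

/-- a piece is not in `c1A` iff its point is last in the subtree of the edge -/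
theorem Sys.c1_last {p : S.LV × Y × Y} (hp : p ∈ S.c1P) :
    p ∉ S.c1A ↔ (S.f p.2.1 (S.pr p.1) = S.pr p.1 ∨ S.f p.2.1 (S.pr p.1) ∉ S.SE p.2.1 p.2.2) := by
  have hpe : S.PE p.1 p.2.1 p.2.2 := hp
  constructor
  · intro hA
    by_contra hc
    push Not at hc
    have hx : p.2.1 ∈ K.P := K.E_P _ _ hpe.1
    have hadj : D.G.Adj (S.pr p.1) (S.f p.2.1 (S.pr p.1)) := by
      rcases (S.ori _ hx).ok (S.pr p.1) with e | e
      · exact absurd e hc.1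
      · exact e
    obtain ⟨l', h1, h2⟩ := S.Fl_exists hpe hadj hc.2
    apply hA
    refine ⟨l', h2, h2.1, ?_, ?_, h1.symm⟩
    · exact (S.Fl_In h2).1
    · exact (S.Fl_In h2).2.1
  · rintro hc ⟨l', h1, h2⟩
    rcases hc with e | e
    · have := h2.1.1.ne
      rw [← h2.2.2.2, e] at this
      exact this rfl
    · apply e
      rw [h2.2.2.2]
      exact h1.2.2.2.1

theorem Sys.c1_SE_finite (hL : S.NoLost) {x y : Y} (h : K.E x y) (hf : Fr H (x, y)) :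
    (S.SE x y).Finite := by
  apply Set.Finite.of_finite_image
    (f := fun w => (Quotient.mk'' (((x, y), w) : (Y × Y) × D.X) :
      orbitRel.Quotient H ((Y × Y) × D.X)))
  · apply Set.Finite.subset S.finE
    rintro _ ⟨w, hw, rfl⟩
    exact ⟨((x, y), w), ⟨h, hL x y h, hw⟩, rfl⟩
  · intro w _ w' _ e
    obtain ⟨g, hg⟩ := c1_mk_eq_iff.1 e
    have h1 : g • (x, y) = (x, y) := congrArg Prod.fst hg
    have h2 : g • w' = w := congrArg Prod.snd hg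
    have h3 := hf g h1
    rw [h3, one_smul] at h2
    exact h2.symm

theorem Sys.c1_ef (hL : S.NoLost) (hA : K.AllTri) :
    ocf H {p | p ∈ S.c1P ∧ p ∉ S.c1A} = K.ef := by
  unfold KS.ef
  apply c1_ocf_congr (fun p : S.LV × Y × Y => p.2)
  · intro h a ha
    exact ⟨S.c1P_smul h a ha.1, fun e => ha.2 ((S.c1A_iff_smul h a).1 e)⟩
  · intro h a _
    rfl
  · intro a ha
    have hpe : S.PE a.1 a.2.1 a.2.2 := ha.1
    exact ⟨hpe.1, hA _ _ hpe.1⟩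
  · rintro ⟨l, x, y⟩ ha ⟨l', x', y'⟩ hb e
    obtain ⟨rfl, rfl⟩ := Prod.mk.inj e
    have h1 := (S.c1_last ha.1).1 ha.2
    have h2 := (S.c1_last hb.1).1 hb.2
    have hpa : S.PE l x y := ha.1
    have hpb : S.PE l' x y := hb.1
    have hx : x ∈ K.P := K.E_P _ _ hpa.1
    have hpr : S.pr l = S.pr l' :=
      Ori.last_unique D.tree (S.ori x hx) (S.SE_conv x y hpa.1) hpa.2.1 hpb.2.1 h1 h2
    have : l = l' := S.In_eq hpa.2.2.1 hpb.2.2.1 hpr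
    rw [this]
  · rintro ⟨x, y⟩ hc hf
    have hE : K.E x y := hc.1
    have hx : x ∈ K.P := K.E_P _ _ hE
    have hy : y ∈ K.P := K.E_P _ _ (K.E_symm _ _ hE)
    obtain ⟨w, hw, hlast⟩ := Ori.exists_last_fin D.tree (S.ori x hx)
      (S.c1_SE_finite hL hE hf) (S.SE_ne x y hE)
    have hw' : w ∈ S.SE y x := by rw [← S.SE_symm x y hE]; exact hw
    let p : S.V1 := ⟨(x, w), ⟨hx, S.SE_sub x y hE hw⟩⟩
    let q : S.V1 := ⟨(y, w), ⟨hy, S.SE_sub y x (K.E_symm _ _ hE) hw'⟩⟩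
    have hpq : S.cm q = S.cm p :=
      Quotient.sound (Relation.EqvGen.symm _ _ (Relation.EqvGen.rel p q ⟨rfl, hE, hw⟩))
    have hpe : S.PE (S.cm p) x y := by
      refine ⟨hE, hw, S.In_cm p, ?_⟩
      rw [← hpq]
      exact S.In_cm q
    have hmem : ((S.cm p, x, y) : S.LV × Y × Y) ∈ S.c1P := hpe
    refine ⟨(S.cm p, x, y), ⟨hmem, ?_⟩, rfl⟩
    exact (S.c1_last hmem).2 hlast

theorem Sys.c1_swap : ocf H S.c1A = ocf H S.c1B := by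
  apply c1_ocf_congr (fun p : S.LV × Y × Y => (p.1, p.2.2, p.2.1))
  · intro h a ha
    exact S.c1A_smul h a ha
  · intro h a _
    rfl
  · rintro a ⟨l', h1, h2⟩
    exact ⟨l', S.Fl_swap h1, h2⟩
  · rintro ⟨l, x, y⟩ _ ⟨l', x', y'⟩ _ e
    simp only [Prod.mk.injEq] at e
    obtain ⟨rfl, rfl, rfl⟩ := e
    rfl
  · rintro ⟨l, x, y⟩ ⟨l', h1, h2⟩ _
    exact ⟨(l, y, x), ⟨l', S.Fl_swap h1, h2⟩, rfl⟩

theorem Sys.c1_F1a :
    ocf H {p : (S.LV × S.LV × Y) × (S.LV × S.LV × Y) | S.F1 p.1 p.2 ∧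
      S.Far p.1.1 p.1.2.1 p.1.2.2} = ocf H S.c1A := by
  apply c1_ocf_congr (fun p : (S.LV × S.LV × Y) × (S.LV × S.LV × Y) =>
    (p.1.1, p.1.2.2, p.2.2.2))
  · rintro h ⟨⟨l, l', x⟩, ⟨m, m', y⟩⟩ ⟨⟨h1, h2, h3⟩, h4⟩
    exact ⟨⟨congrArg (h • ·) h1, congrArg (h • ·) h2, S.Fl_smul h h3⟩, S.Far_smul h _ _ _ h4⟩
  · intro h a _
    rfl
  · rintro ⟨⟨l, l', x⟩, ⟨m, m', y⟩⟩ ⟨⟨h1, h2, h3⟩, h4⟩
    exact ⟨l', h3, h4⟩
  · rintro ⟨⟨l, l', x⟩, ⟨m, m', y⟩⟩ ⟨⟨h1, h2, h3⟩, h4⟩ ⟨⟨k, k', u⟩, ⟨n, n', v⟩⟩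
      ⟨⟨g1, g2, g3⟩, g4⟩ e
    simp only [Prod.mk.injEq] at e h1 h2 h4 g1 g2 g4 ⊢
    obtain ⟨rfl, rfl, rfl⟩ := e
    have := S.Far_eq h4 g4
    subst this
    subst h1 h2
    exact ⟨⟨rfl, rfl, rfl⟩, g1, g2, rfl⟩
  · rintro ⟨l, x, y⟩ ⟨l', h1, h2⟩ _
    exact ⟨((l, l', x), (l, l', y)), ⟨⟨rfl, rfl, h1⟩, h2⟩, rfl⟩

theorem Sys.c1_F1b :
    ocf H {p : (S.LV × S.LV × Y) × (S.LV × S.LV × Y) | S.F1 p.1 p.2 ∧
      S.Far p.1.1 p.1.2.1 p.2.2.2} = ocf H S.c1B := by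
  apply c1_ocf_congr (fun p : (S.LV × S.LV × Y) × (S.LV × S.LV × Y) =>
    (p.1.1, p.1.2.2, p.2.2.2))
  · rintro h ⟨⟨l, l', x⟩, ⟨m, m', y⟩⟩ ⟨⟨h1, h2, h3⟩, h4⟩
    exact ⟨⟨congrArg (h • ·) h1, congrArg (h • ·) h2, S.Fl_smul h h3⟩, S.Far_smul h _ _ _ h4⟩
  · intro h a _
    rfl
  · rintro ⟨⟨l, l', x⟩, ⟨m, m', y⟩⟩ ⟨⟨h1, h2, h3⟩, h4⟩
    exact ⟨l', h3, h4⟩
  · rintro ⟨⟨l, l', x⟩, ⟨m, m', y⟩⟩ ⟨⟨h1, h2, h3⟩, h4⟩ ⟨⟨k, k', u⟩, ⟨n, n', v⟩⟩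
      ⟨⟨g1, g2, g3⟩, g4⟩ e
    simp only [Prod.mk.injEq] at e h1 h2 h4 g1 g2 g4 ⊢
    obtain ⟨rfl, rfl, rfl⟩ := e
    have := S.Far_eq h4 g4
    subst this
    subst h1 h2
    exact ⟨⟨rfl, rfl, rfl⟩, g1, g2, rfl⟩
  · rintro ⟨l, x, y⟩ ⟨l', h1, h2⟩ _
    exact ⟨((l, l', x), (l, l', y)), ⟨⟨rfl, rfl, h1⟩, h2⟩, rfl⟩

theorem Sys.c1_F1 (hL : S.NoLost) :
    ocf H {p : (S.LV × S.LV × Y) × (S.LV × S.LV × Y) | S.F1 p.1 p.2} =
      ocf H S.c1A + ocf H S.c1B := by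
  rw [← S.c1_F1a, ← S.c1_F1b]
  apply c1_ocf_union
  · rintro h ⟨⟨l, l', x⟩, ⟨m, m', y⟩⟩ ⟨⟨h1, h2, h3⟩, h4⟩
    exact ⟨⟨congrArg (h • ·) h1, congrArg (h • ·) h2, S.Fl_smul h h3⟩, S.Far_smul h _ _ _ h4⟩
  · rintro ⟨⟨l, l', x⟩, ⟨m, m', y⟩⟩
    constructor
    · rintro ⟨h1, h2, h3⟩
      rcases S.Fl_far hL h3 with a | a
      · exact Or.inl ⟨⟨h1, h2, h3⟩, a.1⟩
      · exact Or.inr ⟨⟨h1, h2, h3⟩, a.1⟩
    · rintro (h | h)
      · exact h.1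
      · exact h.1
  · rintro ⟨⟨l, l', x⟩, ⟨m, m', y⟩⟩ ⟨⟨h1, h2, h3⟩, h4⟩ ⟨_, h5⟩
    rcases S.Fl_far hL h3 with a | a
    · exact S.not_both h5 a.2
    · exact S.not_both h4 a.2
  · exact (S.Gr1 hL).finF

theorem Sys.c1_F2a (hL : S.NoLost) :
    ocf H {p : (S.LV × S.LV × S.LV × Y) × (S.LV × S.LV × S.LV × Y) | S.F2 p.1 p.2 ∧
      S.Far p.1.2.1 p.1.1 p.1.2.2.2 ∧ S.Far p.1.2.1 p.1.2.2.1 p.2.2.2.2} =
    ocf H {p | p ∈ S.c1A ∧ p ∈ S.c1B} := by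
  apply c1_ocf_congr (fun p : (S.LV × S.LV × S.LV × Y) × (S.LV × S.LV × S.LV × Y) =>
    (p.1.2.1, p.1.2.2.2, p.2.2.2.2))
  · rintro h ⟨⟨l1, l, l2, x⟩, ⟨m1, m, m2, y⟩⟩ ⟨⟨h1, h2, h3, h4, h5, h6⟩, h7, h8⟩
    refine ⟨⟨congrArg (h • ·) h1, congrArg (h • ·) h2, congrArg (h • ·) h3, ?_,
      S.Fl_smul h h5, S.Fl_smul h h6⟩, S.Far_smul h _ _ _ h7, S.Far_smul h _ _ _ h8⟩
    intro e
    exact h4 (smul_left_cancel h e)
  · intro h a _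
    rfl
  · rintro ⟨⟨l1, l, l2, x⟩, ⟨m1, m, m2, y⟩⟩ ⟨⟨h1, h2, h3, h4, h5, h6⟩, h7, h8⟩
    exact ⟨⟨l1, h5, h7⟩, ⟨l2, h6, h8⟩⟩
  · rintro ⟨⟨l1, l, l2, x⟩, ⟨m1, m, m2, y⟩⟩ ⟨⟨h1, h2, h3, h4, h5, h6⟩, h7, h8⟩
      ⟨⟨k1, k, k2, u⟩, ⟨n1, n, n2, v⟩⟩ ⟨⟨g1, g2, g3, g4, g5, g6⟩, g7, g8⟩ e
    simp only [Prod.mk.injEq] at e h1 h2 h3 h7 h8 g1 g2 g3 g7 g8 ⊢
    obtain ⟨rfl, rfl, rfl⟩ := e
    have e1 := S.Far_eq h7 g7
    have e2 := S.Far_eq h8 g8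
    subst e1 e2
    subst h1 h2 h3
    exact ⟨⟨rfl, rfl, rfl, rfl⟩, g1, g2, g3, rfl⟩
  · rintro ⟨l, x, y⟩ ⟨⟨l1, h1, h2⟩, ⟨l2, h3, h4⟩⟩ _
    refine ⟨((l1, l, l2, x), (l1, l, l2, y)), ⟨⟨rfl, rfl, rfl, ?_, h1, h3⟩, h2, h4⟩, rfl⟩
    intro e
    have e' : l1 = l2 := e
    subst e'
    rcases S.Fl_far hL h1 with a | a
    · exact S.not_both h4 a.2
    · exact S.not_both h2 a.2

theorem Sys.c1_F2b (hL : S.NoLost) :
    ocf H {p : (S.LV × S.LV × S.LV × Y) × (S.LV × S.LV × S.LV × Y) | S.F2 p.1 p.2 ∧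
      S.Far p.1.2.1 p.1.2.2.1 p.1.2.2.2 ∧ S.Far p.1.2.1 p.1.1 p.2.2.2.2} =
    ocf H {p | p ∈ S.c1A ∧ p ∈ S.c1B} := by
  apply c1_ocf_congr (fun p : (S.LV × S.LV × S.LV × Y) × (S.LV × S.LV × S.LV × Y) =>
    (p.1.2.1, p.1.2.2.2, p.2.2.2.2))
  · rintro h ⟨⟨l1, l, l2, x⟩, ⟨m1, m, m2, y⟩⟩ ⟨⟨h1, h2, h3, h4, h5, h6⟩, h7, h8⟩
    refine ⟨⟨congrArg (h • ·) h1, congrArg (h • ·) h2, congrArg (h • ·) h3, ?_,
      S.Fl_smul h h5, S.Fl_smul h h6⟩, S.Far_smul h _ _ _ h7, S.Far_smul h _ _ _ h8⟩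
    intro e
    exact h4 (smul_left_cancel h e)
  · intro h a _
    rfl
  · rintro ⟨⟨l1, l, l2, x⟩, ⟨m1, m, m2, y⟩⟩ ⟨⟨h1, h2, h3, h4, h5, h6⟩, h7, h8⟩
    exact ⟨⟨l2, h6, h7⟩, ⟨l1, h5, h8⟩⟩
  · rintro ⟨⟨l1, l, l2, x⟩, ⟨m1, m, m2, y⟩⟩ ⟨⟨h1, h2, h3, h4, h5, h6⟩, h7, h8⟩
      ⟨⟨k1, k, k2, u⟩, ⟨n1, n, n2, v⟩⟩ ⟨⟨g1, g2, g3, g4, g5, g6⟩, g7, g8⟩ e
    simp only [Prod.mk.injEq] at e h1 h2 h3 h7 h8 g1 g2 g3 g7 g8 ⊢
    obtain ⟨rfl, rfl, rfl⟩ := e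
    have e1 := S.Far_eq h7 g7
    have e2 := S.Far_eq h8 g8
    subst e1 e2
    subst h1 h2 h3
    exact ⟨⟨rfl, rfl, rfl, rfl⟩, g1, g2, g3, rfl⟩
  · rintro ⟨l, x, y⟩ ⟨⟨l1, h1, h2⟩, ⟨l2, h3, h4⟩⟩ _
    refine ⟨((l2, l, l1, x), (l2, l, l1, y)), ⟨⟨rfl, rfl, rfl, ?_, h3, h1⟩, h2, h4⟩, rfl⟩
    intro e
    have e' : l2 = l1 := e
    subst e'
    rcases S.Fl_far hL h1 with a | a
    · exact S.not_both h4 a.2
    · exact S.not_both h2 a.2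

theorem Sys.c1_F2 (hL : S.NoLost) :
    ocf H {p : (S.LV × S.LV × S.LV × Y) × (S.LV × S.LV × S.LV × Y) | S.F2 p.1 p.2} =
      2 * ocf H {p | p ∈ S.c1A ∧ p ∈ S.c1B} := by
  rw [two_mul]
  conv_rhs => rw [← S.c1_F2a hL]
  conv_rhs => rw [show ocf H {p : (S.LV × S.LV × S.LV × Y) × (S.LV × S.LV × S.LV × Y) |
      S.F2 p.1 p.2 ∧
      S.Far p.1.2.1 p.1.1 p.1.2.2.2 ∧ S.Far p.1.2.1 p.1.2.2.1 p.2.2.2.2} +
      ocf H {p : (S.LV × S.LV × S.LV × Y) × (S.LV × S.LV × S.LV × Y) |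
      S.F2 p.1 p.2 ∧
      S.Far p.1.2.1 p.1.1 p.1.2.2.2 ∧ S.Far p.1.2.1 p.1.2.2.1 p.2.2.2.2} =
      ocf H {p : (S.LV × S.LV × S.LV × Y) × (S.LV × S.LV × S.LV × Y) |
      S.F2 p.1 p.2 ∧
      S.Far p.1.2.1 p.1.1 p.1.2.2.2 ∧ S.Far p.1.2.1 p.1.2.2.1 p.2.2.2.2} +
      ocf H {p : (S.LV × S.LV × S.LV × Y) × (S.LV × S.LV × S.LV × Y) | S.F2 p.1 p.2 ∧
      S.Far p.1.2.1 p.1.2.2.1 p.1.2.2.2 ∧ S.Far p.1.2.1 p.1.1 p.2.2.2.2} from by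
        rw [S.c1_F2b hL, S.c1_F2a hL]]
  apply c1_ocf_union
  · rintro h ⟨⟨l1, l, l2, x⟩, ⟨m1, m, m2, y⟩⟩ ⟨⟨h1, h2, h3, h4, h5, h6⟩, h7, h8⟩
    refine ⟨⟨congrArg (h • ·) h1, congrArg (h • ·) h2, congrArg (h • ·) h3, ?_,
      S.Fl_smul h h5, S.Fl_smul h h6⟩, S.Far_smul h _ _ _ h7, S.Far_smul h _ _ _ h8⟩
    intro e
    exact h4 (smul_left_cancel h e)
  · rintro ⟨⟨l1, l, l2, x⟩, ⟨m1, m, m2, y⟩⟩
    constructor
    · rintro ⟨h1, h2, h3, h4, h5, h6⟩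
      rcases S.Fl_corner hL h5 h6 h4 with a | a
      · exact Or.inl ⟨⟨h1, h2, h3, h4, h5, h6⟩, a.1, a.2⟩
      · exact Or.inr ⟨⟨h1, h2, h3, h4, h5, h6⟩, a.1, a.2⟩
    · rintro (h | h)
      · exact h.1
      · exact h.1
  · rintro ⟨⟨l1, l, l2, x⟩, ⟨m1, m, m2, y⟩⟩ ⟨⟨h1, h2, h3, h4, h5, h6⟩, h7, h8⟩ ⟨_, h9, _⟩
    exact h4 (S.Far_eq h7 h9)
  · exact (S.Gr2 hL).finF

/-- Proof: let `P` be the set of pieces `(l, x, y)`, `PE l x y`; `A` the pieces which cross some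
`l'` with `x` far, `B` the pieces which cross some `l'` with `y` far. A free edge `x y` of `K` has
exactly one piece not in `A` (`Ori.last_unique`, `Ori.exists_last_fin`, the set `SE x y` is
finite); a free piece not in `A` comes from a free edge. Hence `ocf P = ef + ocf A`. Swapping `x`
and `y`: `ocf B = ocf A`. `F1` is the disjoint union of its forward part (in bijection with `A`)
and the swapped forward part; `F2` the disjoint union of two copies of `A ∩ B`.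
`P0 = P \ (A ∪ B)`. -/
theorem Sys.cnt1 (hT : TF H) (hL : S.NoLost) (hA : K.AllTri) :
    2 * K.ef + ocf H {p : (S.LV × S.LV × S.LV × Y) × (S.LV × S.LV × S.LV × Y) | S.F2 p.1 p.2}
      = 2 * ocf H S.P0 + ocf H {p : (S.LV × S.LV × Y) × (S.LV × S.LV × Y) | S.F1 p.1 p.2} := by
  have hfP : FinOrb H S.c1P := S.finPE hL
  have hfA : FinOrb H S.c1A := hfP.subset (Set.image_mono S.c1A_sub)
  have hfB : FinOrb H S.c1B := hfP.subset (Set.image_mono S.c1B_sub)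
  have hAB : FinOrb H (S.c1A ∪ S.c1B) :=
    hfP.subset (Set.image_mono (Set.union_subset S.c1A_sub S.c1B_sub))
  have e1 : ocf H S.c1P = ocf H {p | p ∈ S.c1P ∧ p ∉ S.c1A} + ocf H S.c1A := by
    apply c1_ocf_union
    · intro h a ha
      exact ⟨S.c1P_smul h a ha.1, fun e => ha.2 ((S.c1A_iff_smul h a).1 e)⟩
    · intro a
      constructor
      · intro ha
        by_cases h : a ∈ S.c1A
        · exact Or.inr h
        · exact Or.inl ⟨ha, h⟩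
      · rintro (h | h)
        · exact h.1
        · exact S.c1A_sub h
    · intro a ha
      exact ha.2
    · exact hfP
  have e2 : ocf H S.c1P = ocf H S.P0 + ocf H (S.c1A ∪ S.c1B) := by
    apply c1_ocf_union
    · rintro h ⟨l, x, y⟩ ⟨h1, h2⟩
      refine ⟨S.PE_smul h _ _ _ h1, ?_⟩
      intro l' e
      apply h2 (h⁻¹ • l')
      have := S.Fl_smul h⁻¹ e
      change S.Fl (h⁻¹ • (h • l)) (h⁻¹ • l') (h⁻¹ • (h • x)) (h⁻¹ • (h • y)) at this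
      rwa [inv_smul_smul, inv_smul_smul, inv_smul_smul] at this
    · intro a
      constructor
      · intro ha
        by_cases h : a ∈ S.c1A ∪ S.c1B
        · exact Or.inr h
        · refine Or.inl ⟨ha, ?_⟩
          intro l' e
          apply h
          rcases S.Fl_far hL e with b | b
          · exact Or.inl ⟨l', e, b.1⟩
          · exact Or.inr ⟨l', e, b.1⟩
      · rintro (h | h | h)
        · exact h.1
        · exact S.c1A_sub h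
        · exact S.c1B_sub h
    · rintro a ha (⟨l', h, _⟩ | ⟨l', h, _⟩)
      · exact ha.2 l' h
      · exact ha.2 l' h
    · exact hfP
  have e3 : ocf H (S.c1A ∪ S.c1B) = ocf H S.c1A + ocf H {p | p ∈ S.c1B ∧ p ∉ S.c1A} := by
    apply c1_ocf_union
    · intro h a ha
      exact S.c1A_smul h a ha
    · intro a
      constructor
      · rintro (h | h)
        · exact Or.inl h
        · by_cases h' : a ∈ S.c1A
          · exact Or.inl h'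
          · exact Or.inr ⟨h, h'⟩
      · rintro (h | h)
        · exact Or.inl h
        · exact Or.inr h.1
    · intro a ha h
      exact h.2 ha
    · exact hAB
  have e4 : ocf H S.c1B = ocf H {p | p ∈ S.c1B ∧ p ∉ S.c1A} +
      ocf H {p | p ∈ S.c1A ∧ p ∈ S.c1B} := by
    apply c1_ocf_union
    · intro h a ha
      exact ⟨S.c1B_smul h a ha.1, fun e => ha.2 ((S.c1A_iff_smul h a).1 e)⟩
    · intro a
      constructor
      · intro ha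
        by_cases h : a ∈ S.c1A
        · exact Or.inr ⟨h, ha⟩
        · exact Or.inl ⟨ha, h⟩
      · rintro (h | h)
        · exact h.1
        · exact h.2
    · intro a ha h
      exact ha.2 h.1
    · exact hfB
  have e5 := S.c1_ef hL hA
  have e6 := S.c1_swap
  have e7 := S.c1_F1 hL
  have e8 := S.c1_F2 hL
  omega

end

end Pool.Agent.SAF
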