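import Pool.Agent.SAF.BGr
import Pool.Agent.SAF.AOrb

/-!
# SAF, module BCnt2: orbits of vertices of flags and corners
-/

namespace Pool.Agent.SAF

open MulAction

section Aux2

variable {H : Type} [Group H] {Y : Type} [MulAction H Y] {Y' : Type} [MulAction H Y']

theorem ocf_split2 {s s1 s2 : Set Y} (hs : FinOrb H s) (hu : ∀ y, y ∈ s ↔ (y ∈ s1 ∨ y ∈ s2))
    (hd : ∀ a ∈ s1, ∀ b ∈ s2, ∀ h : H, h • a ≠ b) : ocf H s = ocf H s1 + ocf H s2 := by
  have e : {y | y ∈ s ∧ Fr H y} = {y | y ∈ s1 ∧ Fr H y} ∪ {y | y ∈ s2 ∧ Fr H y} := by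
    ext y
    constructor
    · rintro ⟨h1, h2⟩
      rcases (hu y).1 h1 with h | h
      · exact Or.inl ⟨h, h2⟩
      · exact Or.inr ⟨h, h2⟩
    · rintro (⟨h1, h2⟩ | ⟨h1, h2⟩)
      · exact ⟨(hu y).2 (Or.inl h1), h2⟩
      · exact ⟨(hu y).2 (Or.inr h1), h2⟩
  have f1 : FinOrb H {y | y ∈ s1 ∧ Fr H y} := hs.mono (fun y h => (hu y).2 (Or.inl h.1))
  have f2 : FinOrb H {y | y ∈ s2 ∧ Fr H y} := hs.mono (fun y h => (hu y).2 (Or.inr h.1))
  unfold ocf oc
  rw [e]
  unfold orbs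
  rw [Set.image_union]
  apply Set.ncard_union_eq ?_ f1 f2
  rw [Set.disjoint_left]
  rintro _ ⟨a, ha, rfl⟩ ⟨b, hb, e'⟩
  obtain ⟨h, hh⟩ := mk_eq_iff.1 e'
  exact hd a ha.1 b hb.1 h hh

theorem ocf_le2 {s : Set Y} {s' : Set Y'} (hs' : FinOrb H s') (f : Y → Y') (g : Y' → Y)
    (hf : ∀ a ∈ s, f a ∈ s') (hg : ∀ (h : H) (b : Y'), g (h • b) = h • g b)
    (hgf : ∀ a ∈ s, g (f a) = a) : ocf H s ≤ ocf H s' := by
  unfold ocf
  apply oc_le_of_inj (hs'.mono (fun _ h => h.1)) f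
  · rintro a ⟨h1, h2⟩
    refine ⟨hf a h1, ?_⟩
    intro h hh
    apply h2 h
    have := congrArg g hh
    rw [hg, hgf a h1] at this
    exact this
  · rintro a ⟨h1, _⟩ b ⟨h3, _⟩ ⟨h, hh⟩
    refine ⟨h, ?_⟩
    have := congrArg g hh
    rw [hg, hgf a h1, hgf b h3] at this
    exact this

theorem ocf_eq2 {s : Set Y} {s' : Set Y'} (hs : FinOrb H s) (hs' : FinOrb H s') (f : Y → Y')
    (g : Y' → Y)
    (hf : ∀ a ∈ s, f a ∈ s') (hg : ∀ b ∈ s', g b ∈ s)
    (hfe : ∀ (h : H) (a : Y), f (h • a) = h • f a) (hge : ∀ (h : H) (b : Y'), g (h • b) = h • g b)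
    (hgf : ∀ a ∈ s, g (f a) = a) (hfg : ∀ b ∈ s', f (g b) = b) : ocf H s = ocf H s' :=
  le_antisymm (ocf_le2 hs' f g hf hge hgf) (ocf_le2 hs g f hg hfe hfg)

end Aux2

section

variable {H : Type} [Group H] {Y : Type} [MulAction H Y] {K : KS H Y} {D : Decomp H}
  (S : Sys H Y K D)

/-- Proof: a vertex `(l, l', x)` of `W1` is far (`Far l l' x`) or near (`Far l' l x`); swapping
`l` and `l'` exchanges the two kinds. A near one is in `Wns` or `x` is far at `l` in another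
direction `l2` (unique); the latter are in bijection with the corners `(l', l, l2, x)` with
`Far l l2 x`, which are half of `W2` (reversal). -/
theorem Sys.cnt2 (hL : S.NoLost) : ocf H S.W1 = ocf H S.W2 + 2 * ocf H S.Wns := by
  classical
  have hW1 : FinOrb H S.W1 := (S.Gr1 hL).finW
  have hW2 : FinOrb H S.W2 := (S.Gr2 hL).finW
  -- the pieces
  let A : Set (S.LV × S.LV × Y) := {z | S.Far z.1 z.2.1 z.2.2}
  let B : Set (S.LV × S.LV × Y) := {z | S.Far z.2.1 z.1 z.2.2}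
  let B2 : Set (S.LV × S.LV × Y) := {z | S.Far z.2.1 z.1 z.2.2 ∧ ∃ l2, S.Far z.1 l2 z.2.2}
  let C1 : Set (S.LV × S.LV × S.LV × Y) :=
    {z | S.Far z.1 z.2.1 z.2.2.2 ∧ S.Far z.2.1 z.2.2.1 z.2.2.2}
  let C2 : Set (S.LV × S.LV × S.LV × Y) :=
    {z | S.Far z.2.2.1 z.2.1 z.2.2.2 ∧ S.Far z.2.1 z.1 z.2.2.2}
  have hA1 : ∀ z ∈ A, z ∈ S.W1 := by
    rintro z hz
    exact ⟨hz.1, hz.2.1, hz.2.2.1⟩
  have hB1 : ∀ z ∈ B, z ∈ S.W1 := by
    rintro z hz
    exact ⟨S.LAdj_symm _ _ hz.1, hz.2.2.1, hz.2.1⟩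
  have hfA : FinOrb H A := hW1.mono hA1
  have hfB : FinOrb H B := hW1.mono hB1
  have e1 : ocf H S.W1 = ocf H A + ocf H B := by
    apply ocf_split2 hW1
    · intro z
      constructor
      · rintro ⟨h1, h2, h3⟩
        exact S.near_or_far h1 h2 h3
      · rintro (h | h)
        · exact hA1 z h
        · exact hB1 z h
    · rintro a ha b hb h rfl
      have := S.Far_smul h _ _ _ ha
      exact S.not_both this hb
  have e2 : ocf H A = ocf H B := by
    apply ocf_eq2 hfA hfB (fun z => (z.2.1, z.1, z.2.2)) (fun z => (z.2.1, z.1, z.2.2))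
    · intro a ha
      exact ha
    · intro b hb
      exact hb
    · intro h a
      rfl
    · intro h a
      rfl
    · intro a _
      rfl
    · intro a _
      rfl
  have e3 : ocf H B = ocf H S.Wns + ocf H B2 := by
    apply ocf_split2 hfB
    · intro z
      constructor
      · intro h
        by_cases hh : ∃ l2, S.Far z.1 l2 z.2.2
        · exact Or.inr ⟨h, hh⟩
        · exact Or.inl ⟨h, hh⟩
      · rintro (h | h)
        · exact h.1
        · exact h.1
    · rintro a ha b hb h rfl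
      apply ha.2
      obtain ⟨l2, hl2⟩ := hb.2
      have := S.Far_smul h⁻¹ _ _ _ hl2
      refine ⟨h⁻¹ • l2, ?_⟩
      have e4 : h⁻¹ • (h • a).1 = a.1 := inv_smul_smul h a.1
      have e5 : h⁻¹ • (h • a).2.2 = a.2.2 := inv_smul_smul h a.2.2
      rw [e4, e5] at this
      exact this
  have hC1 : ∀ z ∈ C1, z ∈ S.W2 := by
    rintro z ⟨h1, h2⟩
    refine ⟨?_, S.LAdj_symm _ _ h1.1, h2.1, h1.2.1, h1.2.2.1, h2.2.2.1, Or.inr h2⟩
    intro e
    rw [e] at h1
    exact S.not_both h1 h2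
  have hC2 : ∀ z ∈ C2, z ∈ S.W2 := by
    rintro z ⟨h1, h2⟩
    refine ⟨?_, h2.1, S.LAdj_symm _ _ h1.1, h2.2.2.1, h1.2.2.1, h1.2.1, Or.inl h2⟩
    intro e
    rw [← e] at h1
    exact S.not_both h1 h2
  have hfC1 : FinOrb H C1 := hW2.mono hC1
  have hfC2 : FinOrb H C2 := hW2.mono hC2
  have hfB2 : FinOrb H B2 := hfB.mono (fun z h => h.1)
  have e4 : ocf H S.W2 = ocf H C1 + ocf H C2 := by
    apply ocf_split2 hW2
    · intro z
      constructor
      · rintro ⟨h1, h2, h3, h4, h5, h6, h7 | h7⟩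
        · right
          refine ⟨?_, h7⟩
          rcases S.near_or_far h3 h5 h6 with h8 | h8
          · exact absurd (S.Far_eq h7 h8) h1
          · exact h8
        · left
          refine ⟨?_, h7⟩
          rcases S.near_or_far h2 h5 h4 with h8 | h8
          · exact absurd (S.Far_eq h8 h7) h1
          · exact h8
      · rintro (h | h)
        · exact hC1 z h
        · exact hC2 z h
    · rintro a ha b hb h rfl
      have := S.Far_smul h _ _ _ ha.1
      exact S.not_both this hb.2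
  have e5 : ocf H C2 = ocf H C1 := by
    apply ocf_eq2 hfC2 hfC1 (fun z => (z.2.2.1, z.2.1, z.1, z.2.2.2))
      (fun z => (z.2.2.1, z.2.1, z.1, z.2.2.2))
    · intro a ha
      exact ha
    · intro b hb
      exact hb
    · intro h a
      rfl
    · intro h a
      rfl
    · intro a _
      rfl
    · intro a _
      rfl
  have e6 : ocf H B2 = ocf H C1 := by
    apply le_antisymm
    · -- inverse map is only defined by choice
      unfold ocf
      apply oc_le_of_rel (hfC1.mono (fun _ h => h.1))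
        (fun (z : S.LV × S.LV × Y) (c : S.LV × S.LV × S.LV × Y) => z = (c.2.1, c.1, c.2.2.2))
      · rintro a ⟨⟨ha, l2, hl2⟩, hfr⟩
        refine ⟨(a.2.1, a.1, l2, a.2.2), ⟨⟨ha, hl2⟩, ?_⟩, rfl⟩
        intro h hh
        apply hfr h
        have h1 := congrArg (fun z : S.LV × S.LV × S.LV × Y => z.1) hh
        have h2 := congrArg (fun z : S.LV × S.LV × S.LV × Y => z.2.1) hh
        have h3 := congrArg (fun z : S.LV × S.LV × S.LV × Y => z.2.2.2) hh
        exact Prod.ext h2 (Prod.ext h1 h3)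
      · rintro a ⟨ha, _⟩ b ⟨hb, _⟩ a' _ b' _ rfl rfl ⟨h, rfl⟩
        exact ⟨h, rfl⟩
    · apply ocf_le2 hfB2 (fun c => (c.2.1, c.1, c.2.2.2))
        (fun z => (z.2.1, z.1, (if hh : ∃ l2, S.Far z.1 l2 z.2.2 then hh.choose else z.1), z.2.2))
      · rintro a ⟨h1, h2⟩
        exact ⟨h1, _, h2⟩
      · intro h b
        by_cases hh : ∃ l2, S.Far b.1 l2 b.2.2
        · have hh' : ∃ l2, S.Far (h • b).1 l2 (h • b).2.2 :=
            ⟨_, S.Far_smul h _ _ _ hh.choose_spec⟩
          have e7 : hh'.choose = h • hh.choose :=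
            S.Far_eq hh'.choose_spec (S.Far_smul h _ _ _ hh.choose_spec)
          simp only [dif_pos hh, dif_pos hh', e7]
          rfl
        · have hh' : ¬ ∃ l2, S.Far (h • b).1 l2 (h • b).2.2 := by
            rintro ⟨l2, hl2⟩
            have := S.Far_smul h⁻¹ _ _ _ hl2
            apply hh
            refine ⟨h⁻¹ • l2, ?_⟩
            have e4 : h⁻¹ • (h • b).1 = b.1 := inv_smul_smul h b.1
            have e5 : h⁻¹ • (h • b).2.2 = b.2.2 := inv_smul_smul h b.2.2
            rw [e4, e5] at this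
            exact this
          simp only [dif_neg hh, dif_neg hh']
          rfl
      · rintro a ⟨h1, h2⟩
        have hh : ∃ l2, S.Far a.2.1 l2 a.2.2.2 := ⟨_, h2⟩
        have e7 : hh.choose = a.2.2.1 := S.Far_eq hh.choose_spec h2
        simp only [dif_pos hh, e7]
  omega

end

end Pool.Agent.SAF
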