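import Pool.Agent.SAF.BGr
import Pool.Agent.SAF.AOrb

/-!
# SAF, module BCnt3: the number of orbits of free labels
-/

namespace Pool.Agent.SAF

open MulAction

/-- comparison of orbit numbers with a finite set by a relation -/
theorem oc_le_ncard_of_rel {H : Type} [Group H] {Z : Type} [MulAction H Z] {T : Type} {s : Set Z}
    {A : Set T} (hA : A.Finite) (R : Z → T → Prop) (h1 : ∀ a ∈ s, ∃ t ∈ A, R a t)
    (h2 : ∀ a ∈ s, ∀ b ∈ s, ∀ t, R a t → R b t → ∃ h : H, h • a = b) :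
    oc H s ≤ A.ncard := by
  classical
  obtain ⟨r, hr⟩ := exists_rep (H := H) s
  by_cases hne : A.Nonempty
  · obtain ⟨t0, ht0⟩ := hne
    have : ∀ a : Z, ∃ t : T, a ∈ s → t ∈ A ∧ R a t := by
      intro a
      by_cases ha : a ∈ s
      · obtain ⟨t, ht, hR⟩ := h1 a ha
        exact ⟨t, fun _ => ⟨ht, hR⟩⟩
      · exact ⟨t0, fun h => absurd h ha⟩
    choose g hg using this
    apply Set.ncard_le_ncard_of_injOn (fun q => g (r q)) ?_ ?_ hA
    · intro q hq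
      exact (hg _ (hr q hq).1).1
    · intro q hq q' hq' e
      have e' : g (r q) = g (r q') := e
      have hR := (hg _ (hr q hq).1).2
      rw [e'] at hR
      obtain ⟨h, hh⟩ := h2 _ (hr q' hq').1 _ (hr q hq).1 _ (hg _ (hr q' hq').1).2 hR
      rw [← (hr q hq).2, ← (hr q' hq').2]
      exact mk_eq_iff.2 ⟨h, hh⟩
  · have hs : s = ∅ := by
      ext a
      constructor
      · intro ha
        obtain ⟨t, ht, _⟩ := h1 a ha
        exact absurd ⟨t, ht⟩ hne
      · intro h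
        exact h.elim
    subst hs
    simp [oc, orbs]

section

variable {H : Type} [Group H] {Y : Type} [MulAction H Y] {K : KS H Y} {D : Decomp H}
  (S : Sys H Y K D)

theorem Sys.Wns_sub : S.Wns ⊆ S.W1 := by
  rintro ⟨l, l', x⟩ ⟨h, _⟩
  exact ⟨S.LAdj_symm _ _ h.1, h.2.2.1, h.2.1⟩

theorem Sys.c_far {p q : S.V1} {l l' : S.LV} (hp : S.cm p = l) (hq : S.cm q = l)
    (h1 : S.Far l l' p.1.1) (h2 : S.Far l l' q.1.1) : S.XR.c p = S.XR.c q := by
  apply Quotient.sound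
  refine Or.inr ⟨hp.trans hq.symm, l', ?_, ?_⟩
  · rw [hp]; exact h1
  · rw [hp]; exact h2

theorem Sys.F2_eqv {a b : S.LV × S.LV × S.LV × Y} (h : Relation.EqvGen S.F2 a b) :
    a.1 = b.1 ∧ a.2.1 = b.2.1 ∧ a.2.2.1 = b.2.2.1 := by
  induction h with
  | rel x y h => exact ⟨h.1, h.2.1, h.2.2.1⟩
  | refl x => exact ⟨rfl, rfl, rfl⟩
  | symm x y _ ih => exact ⟨ih.1.symm, ih.2.1.symm, ih.2.2.symm⟩
  | trans x y z _ _ ih1 ih2 =>
    exact ⟨ih1.1.trans ih2.1, ih1.2.1.trans ih2.2.1, ih1.2.2.trans ih2.2.2⟩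

theorem Sys.cs_F2 {a b : S.LV × S.LV × S.LV × Y} (h : cs H S.F2 a b) :
    ∃ g : H, g • a.1 = b.1 ∧ g • a.2.1 = b.2.1 ∧ g • a.2.2.1 = b.2.2.1 := by
  induction h with
  | rel x y h =>
    rcases h with h | ⟨g, rfl⟩
    · exact ⟨1, by rw [one_smul]; exact h.1, by rw [one_smul]; exact h.2.1,
        by rw [one_smul]; exact h.2.2.1⟩
    · exact ⟨g, rfl, rfl, rfl⟩
  | refl x => exact ⟨1, one_smul _ _, one_smul _ _, one_smul _ _⟩
  | symm x y _ ih =>
    obtain ⟨g, h1, h2, h3⟩ := ih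
    exact ⟨g⁻¹, by rw [← h1, inv_smul_smul], by rw [← h2, inv_smul_smul],
      by rw [← h3, inv_smul_smul]⟩
  | trans x y z _ _ ih1 ih2 =>
    obtain ⟨g, h1, h2, h3⟩ := ih1
    obtain ⟨g', h1', h2', h3'⟩ := ih2
    exact ⟨g' * g, by rw [mul_smul, h1, h1'], by rw [mul_smul, h2, h2'],
      by rw [mul_smul, h3, h3']⟩

/-- the piece `t` gives the label `a` -/
def Sys.r1 (a : S.XR.Q × S.XR.Q) (t : S.LV × Y × Y) : Prop :=
  ∃ p q : S.V1, S.cm p = t.1 ∧ S.cm q = t.1 ∧ p.1.1 = t.2.1 ∧ q.1.1 = t.2.2 ∧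
    S.XR.c p = a.1 ∧ S.XR.c q = a.2

/-- the near single vertex `t` gives the label `a` (single, far) -/
def Sys.r2 (a : S.XR.Q × S.XR.Q) (t : S.LV × S.LV × Y) : Prop :=
  ∃ p q : S.V1, S.cm p = t.1 ∧ S.cm q = t.1 ∧ p.1.1 = t.2.2 ∧ S.Far t.1 t.2.1 q.1.1 ∧
    S.XR.c p = a.1 ∧ S.XR.c q = a.2

/-- the corner `t` gives the label `a` (far, far) -/
def Sys.r4 (a : S.XR.Q × S.XR.Q) (t : S.LV × S.LV × S.LV × Y) : Prop :=
  ∃ p q : S.V1, S.cm p = t.2.1 ∧ S.cm q = t.2.1 ∧ S.Far t.2.1 t.1 p.1.1 ∧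
    S.Far t.2.1 t.2.2.1 q.1.1 ∧ S.XR.c p = a.1 ∧ S.XR.c q = a.2

theorem Sys.V1_ext {p q : S.V1} (h : S.cm p = S.cm q) (h' : p.1.1 = q.1.1) : p = q := by
  apply Subtype.ext
  apply Prod.ext h'
  exact S.hs_snd p q (Quotient.exact h)

theorem Sys.r1_inj {a b : S.XR.Q × S.XR.Q} {t t' : S.LV × Y × Y} (h : S.r1 a t) (h' : S.r1 b t')
    (g : H) (e : g • t = t') : g • a = b := by
  obtain ⟨p, q, h1, h2, h3, h4, h5, h6⟩ := h
  obtain ⟨p', q', h1', h2', h3', h4', h5', h6'⟩ := h'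
  subst e
  have e1 : g • p = p' := by
    apply S.V1_ext
    · rw [S.cm_smul, h1, h1']; rfl
    · rw [h3']; exact congrArg (fun y => g • y) h3
  have e2 : g • q = q' := by
    apply S.V1_ext
    · rw [S.cm_smul, h2, h2']; rfl
    · rw [h4']; exact congrArg (fun y => g • y) h4
  apply Prod.ext
  · change g • a.1 = b.1
    rw [← h5, ← h5', ← e1, IRel.c_smul]
  · change g • a.2 = b.2
    rw [← h6, ← h6', ← e2, IRel.c_smul]

theorem Sys.r2_inj {a b : S.XR.Q × S.XR.Q} {t t' : S.LV × S.LV × Y} (h : S.r2 a t)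
    (h' : S.r2 b t') (g : H) (e : g • t = t') : g • a = b := by
  obtain ⟨p, q, h1, h2, h3, h4, h5, h6⟩ := h
  obtain ⟨p', q', h1', h2', h3', h4', h5', h6'⟩ := h'
  subst e
  have e1 : g • p = p' := by
    apply S.V1_ext
    · rw [S.cm_smul, h1, h1']; rfl
    · rw [h3']; exact congrArg (fun y => g • y) h3
  have e2 : S.XR.c (g • q) = S.XR.c q' := by
    apply S.c_far (l := g • t.1) (l' := g • t.2.1)
    · rw [S.cm_smul, h2]
    · exact h2'
    · exact S.Far_smul g _ _ _ h4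
    · exact h4'
  apply Prod.ext
  · change g • a.1 = b.1
    rw [← h5, ← h5', ← e1, IRel.c_smul]
  · change g • a.2 = b.2
    rw [← h6, ← h6', ← e2, IRel.c_smul]

theorem Sys.r4_inj {a b : S.XR.Q × S.XR.Q} {t t' : S.LV × S.LV × S.LV × Y} (h : S.r4 a t)
    (h' : S.r4 b t') (g : H) (e1 : g • t.1 = t'.1) (e2 : g • t.2.1 = t'.2.1)
    (e3 : g • t.2.2.1 = t'.2.2.1) : g • a = b := by
  obtain ⟨p, q, h1, h2, h3, h4, h5, h6⟩ := h
  obtain ⟨p', q', h1', h2', h3', h4', h5', h6'⟩ := h'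
  have c1 : S.XR.c (g • p) = S.XR.c p' := by
    apply S.c_far (l := t'.2.1) (l' := t'.1)
    · rw [S.cm_smul, h1, e2]
    · exact h1'
    · rw [← e1, ← e2]; exact S.Far_smul g _ _ _ h3
    · exact h3'
  have c2 : S.XR.c (g • q) = S.XR.c q' := by
    apply S.c_far (l := t'.2.1) (l' := t'.2.2.1)
    · rw [S.cm_smul, h2, e2]
    · exact h2'
    · rw [← e3, ← e2]; exact S.Far_smul g _ _ _ h4
    · exact h4'
  apply Prod.ext
  · change g • a.1 = b.1
    rw [← h5, ← h5', ← c1, IRel.c_smul]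
  · change g • a.2 = b.2
    rw [← h6, ← h6', ← c2, IRel.c_smul]

/-- Proof: the classes of `XR` at `l` are singletons (`x` not far at `l`) and, for every `l'`,
the set of all `x` with `Far l l' x`. Labels are of type ss, sf, fs, ff. ss: the label is a piece
in `P0`. sf (and fs by symmetry), label `({x}, (l, l2))`: if some piece `(l, x, y)` of the label
crosses `l l2` then `(l, l2, x)` is in `Wns`, otherwise all its pieces are in `P0`. ff, label
`((l, l1), (l, l2))`: if some piece is in `P0` use it, otherwise `x` or `y` of some piece gives a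
vertex of `W2` over the corner `(l1, l, l2)`, whose component in `F2` has trivial stabiliser when
the label is free. The five parts of `P0`, and the components over different corners, are
different. -/
theorem Sys.cnt3 (hL : S.NoLost) :
    ocf H S.Lab ≤ ocf H S.P0 + 2 * ocf H S.Wns + c0 H S.W2 S.F2 := by
  classical
  -- the target
  let T := orbitRel.Quotient H (S.LV × Y × Y) ⊕ orbitRel.Quotient H (S.LV × S.LV × Y) ⊕
    orbitRel.Quotient H (S.LV × S.LV × Y) ⊕ Quotient (cs H S.F2)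
  let A1 : Set (orbitRel.Quotient H (S.LV × Y × Y)) := orbs H {y | y ∈ S.P0 ∧ Fr H y}
  let A2 : Set (orbitRel.Quotient H (S.LV × S.LV × Y)) := orbs H {y | y ∈ S.Wns ∧ Fr H y}
  let A4 : Set (Quotient (cs H S.F2)) :=
    (fun z => Quotient.mk (cs H S.F2) z) '' {z | z ∈ S.W2 ∧ FrC H S.F2 z}
  let i1 : orbitRel.Quotient H (S.LV × Y × Y) → T := Sum.inl
  let i2 : orbitRel.Quotient H (S.LV × S.LV × Y) → T := fun q => Sum.inr (Sum.inl q)
  let i3 : orbitRel.Quotient H (S.LV × S.LV × Y) → T := fun q => Sum.inr (Sum.inr (Sum.inl q))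
  let i4 : Quotient (cs H S.F2) → T := fun q => Sum.inr (Sum.inr (Sum.inr q))
  have f1 : A1.Finite := by
    have := S.finPE hL
    exact Set.Finite.subset this (Set.image_mono (fun y hy => hy.1.1))
  have f2 : A2.Finite := by
    have := (S.Gr1 hL).finW
    exact Set.Finite.subset this (Set.image_mono (fun y hy => S.Wns_sub hy.1))
  have f4 : A4.Finite := by
    obtain ⟨F, hF, hFs, h⟩ := FinOrb_iff.1 (S.Gr2 hL).finW
    apply (hF.image (fun z => Quotient.mk (cs H S.F2) z)).subset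
    rintro _ ⟨z, ⟨hz, _⟩, rfl⟩
    obtain ⟨f, hf, g, hg⟩ := h z hz
    exact ⟨f, hf, Quotient.sound (Relation.EqvGen.rel _ _ (Or.inr ⟨g, hg⟩))⟩
  let A : Set T := i1 '' A1 ∪ (i2 '' A2 ∪ (i3 '' A2 ∪ i4 '' A4))
  have fA : A.Finite := (f1.image _).union ((f2.image _).union ((f2.image _).union (f4.image _)))
  have hA : A.ncard ≤ A1.ncard + (A2.ncard + (A2.ncard + A4.ncard)) := by
    refine (Set.ncard_union_le _ _).trans (Nat.add_le_add (Set.ncard_image_le f1) ?_)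
    refine (Set.ncard_union_le _ _).trans (Nat.add_le_add (Set.ncard_image_le f2) ?_)
    exact (Set.ncard_union_le _ _).trans
      (Nat.add_le_add (Set.ncard_image_le f2) (Set.ncard_image_le f4))
  let R : S.XR.Q × S.XR.Q → T → Prop := fun a t =>
    (∃ u, t = i1 (Quotient.mk'' u) ∧ S.r1 a u) ∨
    (∃ u, t = i2 (Quotient.mk'' u) ∧ S.r2 a u) ∨
    (∃ u, t = i3 (Quotient.mk'' u) ∧ S.r2 a.swap u) ∨
    (∃ u, t = i4 (Quotient.mk _ u) ∧ S.r4 a u)
  have key : ocf H S.Lab ≤ A.ncard := by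
    apply oc_le_ncard_of_rel fA R
    · rintro ⟨c, c'⟩ ⟨⟨l, hne, p, q, hpq, hp, rfl, rfl⟩, hfr⟩
      change S.XR.c p ≠ S.XR.c q at hne
      have hq : S.cm q = l := by
        rw [← hp]
        exact Quotient.sound (Relation.EqvGen.symm _ _ (Relation.EqvGen.rel _ _ hpq))
      have hpl : p.1.2 = S.pr l := by rw [← hp]; rfl
      have hPE : S.PE l p.1.1 q.1.1 := by
        refine ⟨hpq.2.1, ?_, ?_, ?_⟩
        · rw [← hpl]; exact hpq.2.2
        · rw [← hp]; exact S.In_cm p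
        · rw [← hq]; exact S.In_cm q
      by_cases hP0 : ∀ l', ¬ S.Fl l l' p.1.1 q.1.1
      · refine ⟨i1 (Quotient.mk'' (l, p.1.1, q.1.1)), ?_, Or.inl ⟨_, rfl, p, q, hp, hq, rfl, rfl,
          rfl, rfl⟩⟩
        refine Or.inl ⟨_, ⟨(l, p.1.1, q.1.1), ⟨⟨hPE, hP0⟩, ?_⟩, rfl⟩, rfl⟩
        intro h hh
        apply hfr
        exact S.r1_inj (t := (l, p.1.1, q.1.1)) (t' := (l, p.1.1, q.1.1))
          ⟨p, q, hp, hq, rfl, rfl, rfl, rfl⟩ ⟨p, q, hp, hq, rfl, rfl, rfl, rfl⟩ h hh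
      · push Not at hP0
        obtain ⟨l', hl'⟩ := hP0
        rcases S.Fl_far hL hl' with ⟨h1, h2⟩ | ⟨h1, h2⟩
        · -- `p` far in direction `l'`, `q` near
          by_cases hs : ∃ l2, S.Far l l2 q.1.1
          · obtain ⟨l2, h3⟩ := hs
            have hne2 : l' ≠ l2 := by
              rintro rfl
              exact S.not_both h3 h2
            have hr : S.r4 (S.XR.c p, S.XR.c q) (l', l, l2, q.1.1) :=
              ⟨p, q, hp, hq, h1, h3, rfl, rfl⟩
            refine ⟨i4 (Quotient.mk _ (l', l, l2, q.1.1)), ?_, Or.inr (Or.inr (Or.inr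
              ⟨_, rfl, hr⟩))⟩
            refine Or.inr (Or.inr (Or.inr ⟨_, ⟨(l', l, l2, q.1.1), ⟨⟨hne2, h1.1, h3.1, h2.2.1,
              h2.2.2.1, h3.2.2.1, Or.inr h3⟩, ?_⟩, rfl⟩, rfl⟩))
            intro h hh
            obtain ⟨a1, a2, a3⟩ := S.F2_eqv hh
            exact hfr h (S.r4_inj hr hr h a1 a2 a3)
          · have hr : S.r2 (Prod.swap (S.XR.c p, S.XR.c q)) (l, l', q.1.1) :=
              ⟨q, p, hq, hp, rfl, h1, rfl, rfl⟩
            refine ⟨i3 (Quotient.mk'' (l, l', q.1.1)), ?_, Or.inr (Or.inr (Or.inl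
              ⟨_, rfl, hr⟩))⟩
            refine Or.inr (Or.inr (Or.inl ⟨_, ⟨(l, l', q.1.1), ⟨⟨h2, hs⟩, ?_⟩, rfl⟩, rfl⟩))
            intro h hh
            have e := S.r2_inj hr hr h hh
            apply hfr
            have e' := congrArg Prod.swap e
            exact e'
        · by_cases hs : ∃ l1, S.Far l l1 p.1.1
          · obtain ⟨l1, h3⟩ := hs
            have hne2 : l1 ≠ l' := by
              rintro rfl
              exact S.not_both h3 h2
            have hr : S.r4 (S.XR.c p, S.XR.c q) (l1, l, l', p.1.1) :=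
              ⟨p, q, hp, hq, h3, h1, rfl, rfl⟩
            refine ⟨i4 (Quotient.mk _ (l1, l, l', p.1.1)), ?_, Or.inr (Or.inr (Or.inr
              ⟨_, rfl, hr⟩))⟩
            refine Or.inr (Or.inr (Or.inr ⟨_, ⟨(l1, l, l', p.1.1), ⟨⟨hne2, h3.1, h1.1, h3.2.2.1,
              h2.2.2.1, h2.2.1, Or.inl h3⟩, ?_⟩, rfl⟩, rfl⟩))
            intro h hh
            obtain ⟨a1, a2, a3⟩ := S.F2_eqv hh
            exact hfr h (S.r4_inj hr hr h a1 a2 a3)
          · have hr : S.r2 (S.XR.c p, S.XR.c q) (l, l', p.1.1) :=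
              ⟨p, q, hp, hq, rfl, h1, rfl, rfl⟩
            refine ⟨i2 (Quotient.mk'' (l, l', p.1.1)), ?_, Or.inr (Or.inl ⟨_, rfl, hr⟩)⟩
            refine Or.inr (Or.inl ⟨_, ⟨(l, l', p.1.1), ⟨⟨h2, hs⟩, ?_⟩, rfl⟩, rfl⟩)
            intro h hh
            exact hfr h (S.r2_inj hr hr h hh)
    · rintro a - b - t ha hb
      rcases ha with ⟨u, rfl, hu⟩ | ⟨u, rfl, hu⟩ | ⟨u, rfl, hu⟩ | ⟨u, rfl, hu⟩
      · rcases hb with ⟨v, e, hv⟩ | ⟨v, e, hv⟩ | ⟨v, e, hv⟩ | ⟨v, e, hv⟩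
        · obtain ⟨g, hg⟩ := mk_eq_iff.1 (Sum.inl.inj e).symm
          exact ⟨g, S.r1_inj hu hv g hg⟩
        · exact (Sum.inl_ne_inr e).elim
        · exact (Sum.inl_ne_inr e).elim
        · exact (Sum.inl_ne_inr e).elim
      · rcases hb with ⟨v, e, hv⟩ | ⟨v, e, hv⟩ | ⟨v, e, hv⟩ | ⟨v, e, hv⟩
        · exact (Sum.inr_ne_inl e).elim
        · obtain ⟨g, hg⟩ := mk_eq_iff.1 (Sum.inl.inj (Sum.inr.inj e)).symm
          exact ⟨g, S.r2_inj hu hv g hg⟩
        · exact (Sum.inl_ne_inr (Sum.inr.inj e)).elim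
        · exact (Sum.inl_ne_inr (Sum.inr.inj e)).elim
      · rcases hb with ⟨v, e, hv⟩ | ⟨v, e, hv⟩ | ⟨v, e, hv⟩ | ⟨v, e, hv⟩
        · exact (Sum.inr_ne_inl e).elim
        · exact (Sum.inr_ne_inl (Sum.inr.inj e)).elim
        · obtain ⟨g, hg⟩ := mk_eq_iff.1 (Sum.inl.inj (Sum.inr.inj (Sum.inr.inj e))).symm
          have e' := congrArg Prod.swap (S.r2_inj hu hv g hg)
          exact ⟨g, e'⟩
        · exact (Sum.inl_ne_inr (Sum.inr.inj (Sum.inr.inj e))).elim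
      · rcases hb with ⟨v, e, hv⟩ | ⟨v, e, hv⟩ | ⟨v, e, hv⟩ | ⟨v, e, hv⟩
        · exact (Sum.inr_ne_inl e).elim
        · exact (Sum.inr_ne_inl (Sum.inr.inj e)).elim
        · exact (Sum.inr_ne_inl (Sum.inr.inj (Sum.inr.inj e))).elim
        · have e' := Quotient.exact (Sum.inr.inj (Sum.inr.inj (Sum.inr.inj e)))
          obtain ⟨g, g1, g2, g3⟩ := S.cs_F2 e'
          exact ⟨g, S.r4_inj hu hv g g1 g2 g3⟩
  refine key.trans (hA.trans (le_of_eq ?_))
  change A1.ncard + (A2.ncard + (A2.ncard + A4.ncard)) = A1.ncard + 2 * A2.ncard + A4.ncard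
  ring

end

end Pool.Agent.SAF
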