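import Pool.Agent.SAF.BCnt1
import Pool.Agent.SAF.BCnt2
import Pool.Agent.SAF.BCnt3
import Pool.Agent.SAF.BMain

/-!
# SAF, module BCount: the count
-/

namespace Pool.Agent.SAF

open MulAction

section

variable {H : Type} [Group H] {Y : Type} [MulAction H Y] {K : KS H Y} {D : Decomp H}
  (S : Sys H Y K D)

private theorem eqv_map_count {A B : Type} {F : A → A → Prop} {G : B → B → Prop} (f : A → B)
    (h : ∀ a b, F a b → G (f a) (f b)) {a b : A} (hab : Relation.EqvGen F a b) :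
    Relation.EqvGen G (f a) (f b) := by
  induction hab with
  | rel x y hxy => exact Relation.EqvGen.rel _ _ (h x y hxy)
  | refl x => exact Relation.EqvGen.refl _
  | symm x y _ ih => exact Relation.EqvGen.symm _ _ ih
  | trans x y z _ _ ih1 ih2 => exact Relation.EqvGen.trans _ _ _ ih1 ih2

theorem Sys.c0_F1 (hJ : S.JAll) (hD : S.DConn) : c0 H S.W1 S.F1 = 0 := by
  have hempty : {z : S.LV × S.LV × Y | z ∈ S.W1 ∧ FrC H S.F1 z} = ∅ := by
    ext z
    constructor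
    · rintro ⟨⟨h1, h2, h3⟩, h4⟩
      exfalso
      obtain ⟨l, l', x⟩ := z
      obtain ⟨j, ⟨hj1, hj2⟩, hj3⟩ := hJ l l' h1
      replace hj1 : j • l = l := hj1
      replace hj2 : j • l' = l' := hj2
      apply hj3
      apply h4 j
      have a1 : S.In (j • x) l := by
        have := S.In_smul j x l h2
        rwa [hj1] at this
      have a2 : S.In (j • x) l' := by
        have := S.In_smul j x l' h3
        rwa [hj2] at this
      have h5 := hD l l' (j • x) x h1 a1 a2 h2 h3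
      have h6 := eqv_map_count (G := S.F1) (fun y : Y => ((l, l', y) : S.LV × S.LV × Y))
        (fun a b hab => ⟨rfl, rfl, hab⟩) h5
      have h7 : j • ((l, l', x) : S.LV × S.LV × Y) = (l, l', j • x) := by
        change (j • l, j • l', j • x) = (l, l', j • x)
        rw [hj1, hj2]
      rw [h7]
      exact h6
    · intro h
      exact h.elim
  unfold c0
  rw [hempty, Set.image_empty, Set.ncard_empty]

theorem Sys.count (hT : TF H) (hL : S.NoLost) (hA : K.AllTri) (hJ : S.JAll) (hD : S.DConn) :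
    2 * (ocf H S.Lab : ℤ) + N2 H S.W1 S.F1 ≤ 2 * (K.ef : ℤ) + N2 H S.W2 S.F2 := by
  have h1 := S.cnt1 hT hL hA
  have h2 := S.cnt2 hL
  have h3 := S.cnt3 hL
  have h4 := S.c0_F1 hJ hD
  unfold N2
  rw [h4]
  omega

theorem Sys.N2_F2_le (hT : TF H) (hL : S.NoLost) : N2 H S.W2 S.F2 ≤ N2 H S.W1 S.F1 := by
  refine N2_le (Z := S.LV × S.LV × Y) (Z2 := S.LV × S.LV × S.LV × Y) hT
    (fun z => (z.2.1, z.1, z.2.2.2)) (fun _ _ => rfl) (S.Gr1 hL) (S.Gr2 hL) ?_ ?_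
  · rintro a b ⟨h1, h2, h3, h4, h5, h6⟩
    exact ⟨h2, h1, h5⟩
  · rintro ⟨l1, l, l2, x⟩ ⟨m1, m, m2, y⟩ ⟨l1', l', l2', x'⟩ ⟨m1', m', m2', y'⟩
      ⟨h1, h2, h3, h4, h5, h6⟩ ⟨k1, k2, k3, k4, k5, k6⟩ e1 e2
    simp only [Prod.mk.injEq] at e1 e2
    simp only at h1 h2 h3 h4 h5 h6 k1 k2 k3 k4 k5 k6
    obtain ⟨e11, e12, e13⟩ := e1
    obtain ⟨e21, e22, e23⟩ := e2
    subst e11 e12 e13 e21 e22 e23
    have h7 : l2' = l2 := S.Fl_third hL h6 h5 k6 (Ne.symm h4) (Ne.symm k4)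
    subst h7
    refine ⟨rfl, ?_⟩
    rw [← h3, ← k3]

/-- the edges of one quotient complex are among the labels -/
theorem Sys.ef_le_Lab (hL : S.NoLost) (l : S.LV) (K' : KS ↥(stabilizer H l) S.XR.Q)
    (hE : K'.E = S.XR.E l) (hT' : K'.T = S.XR.T l) : K'.ef ≤ ocf H S.Lab := by
  have key : ∀ (p p' : S.XR.Q × S.XR.Q) (h : H), S.XR.E l p.1 p.2 → S.XR.E l p'.1 p'.2 →
      h • p = p' → h • l = l := by
    rintro p p' h ⟨_, a, b, _, a2, a3, _⟩ ⟨_, a', b', _, a2', a3', _⟩ e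
    have e1 : h • p.1 = p'.1 := congrArg Prod.fst e
    rw [← a3, ← a3', ← S.XR.c_smul] at e1
    have e2 : S.cm (h • a) = S.cm a' := S.XR.comp _ _ (Quotient.exact e1)
    rw [S.cm_smul, a2, a2'] at e2
    exact e2
  have hsub : ∀ (p : S.XR.Q × S.XR.Q) (h : ↥(stabilizer H l)), h • p = (h : H) • p :=
    fun _ _ => rfl
  unfold KS.ef
  unfold ocf
  refine oc_le_of_inj (H := ↥(stabilizer H l)) (H' := H)
    (FinOrb.mono (fun y hy => hy.1) (S.finLab hL)) (fun p => p) ?_ ?_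
  · rintro p ⟨⟨h1, h2⟩, h3⟩
    rw [hE] at h1
    refine ⟨⟨l, h1⟩, ?_⟩
    intro h hh
    have h4 := key p p h h1 h1 hh
    have h5 := h3 ⟨h, h4⟩ hh
    exact congrArg Subtype.val h5
  · rintro p ⟨⟨h1, h2⟩, h3⟩ p' ⟨⟨h1', h2'⟩, h3'⟩ ⟨h, hh⟩
    rw [hE] at h1 h1'
    exact ⟨⟨h, key p p' h h1 h1' hh⟩, hh⟩

/-- consequence of minimality -/
theorem Sys.count_eq (hT : TF H) (hL : S.NoLost) (hA : K.AllTri) (hJ : S.JAll) (hD : S.DConn)
    (l : S.LV) (K' : KS ↥(stabilizer H l) S.XR.Q) (hE : K'.E = S.XR.E l)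
    (hT' : K'.T = S.XR.T l) (hmin : K.ef ≤ K'.ef) :
    N2 H S.W1 S.F1 ≤ N2 H S.W2 S.F2 ∧ K'.ef = K.ef := by
  have h1 := S.count hT hL hA hJ hD
  have h2 := S.N2_F2_le hT hL
  have h3 := S.ef_le_Lab hL l K' hE hT'
  constructor
  · omega
  · omega

end

end Pool.Agent.SAF
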