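import Pool.Agent.SAF.BBasic

/-!
# SAF, part B: critical complexes
-/

namespace Pool.Agent.SAF

open MulAction

/-- a minimal counterexample -/
structure Crit {H : Type} [Group H] {Y : Type} [MulAction H Y] (K : KS H Y) : Prop where
  tf : TF H
  bad : ¬ SA H
  allTri : K.AllTri
  link : K.LinkConn
  min : MinTEN K.t K.ef K.nv

/-- all centres are in the orbit of the component `l0`, whose stabiliser is bad -/
structure Sys.Ctr {H : Type} [Group H] {Y : Type} [MulAction H Y] {K : KS H Y} {D : Decomp H}
    (S : Sys H Y K D) (l0 : S.LV) : Prop where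
  bad : ¬ SA ↥(stabilizer H l0)
  noLost : S.NoLost
  ctr : ∀ p q s, S.Tp (S.cm p) p q s → ∃ h : H, S.cm p = h • l0

end Pool.Agent.SAF
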