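import Pool.Agent.SAF.BTc
import Pool.Agent.SAF.BTree
import Pool.Agent.SAF.A11

/-!
# SAF, module BEnd: the last contradiction

Proof of `nv_lt`. For `x` in `K.P` let `p x` be the unique vertex of `SV x` which is a sink or whose
successor is outside `SV x` (`exists_last_sink`, `last_unique`); it is equivariant.
(1) `p x` is a centre at `x` (a point of some `ST x y z`): otherwise, `p x` being in the hull of
the centres, there are centres `a`, `b` at `x` in different directions from `p x` (different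
neighbours of `p x` on the geodesics). But the centres of all triangles containing a given edge
`x y` lie in one direction from `p x`: they lie in `SE x y`, which is convex and contained in
`Zs (f x) (f y)`; if `p x` is in `SE x y` then all points of `SE x y` other than `p x` lie behind
`f y (p x)`, because the successor of `p x` under `f x` is not in `SE x y`, and a neighbour `v` of
`p x` in `Zs` is `f x (p x)` or `f y (p x)`; if `p x` is not in `SE x y`, use convexity. By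
connectedness of the link all centres at `x` lie in one direction: contradiction.
(2) The class of `(x, p x)` in `XR` is a singleton (it is not far), it lies in a triangle of the
complex at its component, which is in the orbit of `l0`. So `x` maps to an orbit of vertices in
triangles of `K'`, injectively on orbits.
(3) Some `x` has `SV x` not a point, hence (`exists_far_centre`) a centre `w` with `(x, w)` far:
its class lies in a triangle and consists of far vertices, so it is not in an orbit of (2).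
Use `oc_lt_of_inj`.
-/

namespace Pool.Agent.SAF

open MulAction

section

variable {H : Type} [Group H] {Y : Type} [MulAction H Y] {K : KS H Y} {D : Decomp H}
  (S : Sys H Y K D)

theorem KS.T_flip_bend {H : Type} [Group H] {Y : Type} [MulAction H Y] (K : KS H Y) {x y z : Y}
    (h : K.T x y z) : K.T x z y := K.T_rot _ _ _ (K.T_swap _ _ _ h)

theorem Sys.ST_flip_bend {x y z : Y} (h : K.T x y z) : S.ST x y z = S.ST x z y := by
  rw [S.ST_swap _ _ _ h, S.ST_rot _ _ _ (K.T_swap _ _ _ h)]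

/-- all points of `SE x y` other than the last point `w` of `SV x` lie in one direction from
`w` -/
theorem Sys.last_side_bend (hL : S.NoLost) {x y : Y} (hE : K.E x y) {w v : D.X}
    (hl : S.f x w = w ∨ S.f x w ∉ S.SV x) (hwv : D.G.Adj w v) {c c' : D.X}
    (hc : c ∈ S.SE x y) (hc' : c' ∈ S.SE x y)
    (h1 : D.G.dist c w = D.G.dist c v + 1) (hne : c' ≠ w) :
    D.G.dist c' w = D.G.dist c' v + 1 := by
  have hG := D.tree
  rcases (dist_edge hG hwv c').1 with h2 | h2
  swap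
  · exact h2
  exfalso
  have hx : x ∈ K.P := K.E_P _ _ hE
  have hy : y ∈ K.P := K.E_P _ _ (K.E_symm _ _ hE)
  have hconv := S.SE_conv x y hE
  obtain ⟨hw, hv⟩ := hconv.edge hG hwv hc' hc h2 h1
  obtain ⟨v', hwv', h3⟩ := exists_next hG (Ne.symm hne)
  have hv' : v' ∈ S.SE x y := by
    apply hconv w hw c' hc' v'
    rw [SimpleGraph.dist_eq_one_iff_adj.2 hwv', h3, add_comm]
  have hne' : v' ≠ v := by
    rintro rfl
    rw [SimpleGraph.dist_comm (u := c') (v := v'), SimpleGraph.dist_comm (u := c') (v := w)] at h2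
    omega
  have key : ∀ u, D.G.Adj w u → u ∈ S.SE x y → S.f y w = u := by
    intro u hwu hu
    have e1 : S.f x w ≠ u := by
      intro e
      rcases hl with h | h
      · rw [h] at e
        exact hwu.ne e
      · exact h (e ▸ S.SE_sub x y hE hu)
    have e2 : S.f x u = w := ((S.ori x hx).one _ _ hwu).resolve_left e1
    have e3 := S.SE_Z x y hE (hL x y hE) hu
    rcases (S.ori y hy).one _ _ hwu with e | e
    · exact e
    · exfalso
      apply e3
      rw [e2, e]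
      exact ⟨rfl, hwu.ne⟩
  exact hne' ((key v' hwv' hv').symm.trans (key v hwv hv))

theorem Sys.last_centre (hL : S.NoLost) (hA : K.AllTri) (hLk : K.LinkConn) {x : Y}
    (hx : x ∈ K.P) {w : D.X} (hw : w ∈ S.SV x) (hl : S.f x w = w ∨ S.f x w ∉ S.SV x) :
    ∃ y z, K.T x y z ∧ w ∈ S.ST x y z := by
  by_contra hno
  push Not at hno
  have hG := D.tree
  have hw' := hw
  rw [S.SV_hull x hx] at hw'
  obtain ⟨a, ⟨ya, za, hTa, ha⟩, b, ⟨yb, zb, hTb, hb⟩, hab⟩ := hw'
  have hane : a ≠ w := fun e => hno ya za hTa (e ▸ ha)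
  obtain ⟨v, hwv, h3⟩ := exists_next hG (Ne.symm hane)
  have haw : D.G.dist a w = D.G.dist a v + 1 := by
    rw [SimpleGraph.dist_comm, h3, SimpleGraph.dist_comm]
  have step : ∀ y, K.E x y → (∃ c ∈ S.SE x y, D.G.dist c w = D.G.dist c v + 1) →
      ∀ z, K.T x y z → ∀ c ∈ S.ST x y z, D.G.dist c w = D.G.dist c v + 1 := by
    rintro y hE ⟨c, hc, h1⟩ z hT c' hc'
    exact S.last_side_bend hL hE hl hwv hc (S.ST_sub x y z hT hc') h1
      (fun e => hno y z hT (e ▸ hc'))
  have chain : ∀ y, Relation.ReflTransGen (fun a b => K.T x a b) ya y →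
      ∀ z, K.T x y z → ∀ c ∈ S.ST x y z, D.G.dist c w = D.G.dist c v + 1 := by
    intro y hy
    induction hy with
    | refl => exact step ya (K.T_E _ _ _ hTa) ⟨a, S.ST_sub _ _ _ hTa ha, haw⟩
    | @tail y1 y2 _ h12 ih =>
      obtain ⟨c, hc⟩ := S.ST_ne x y1 y2 h12
      have h21 := K.T_flip_bend h12
      refine step y2 (K.T_E _ _ _ h21) ⟨c, ?_, ih y2 h12 c hc⟩
      rw [S.ST_flip_bend h12] at hc
      exact S.ST_sub _ _ _ h21 hc
  have hbw := chain yb (hLk x ya yb ⟨za, hTa⟩ ⟨zb, hTb⟩) zb hTb b hb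
  have t := hG.connected.dist_triangle (u := a) (v := v) (w := b)
  rw [SimpleGraph.dist_comm (u := w) (v := b)] at hab
  rw [SimpleGraph.dist_comm (u := v) (v := b)] at t
  omega

/-- a last point is not far -/
theorem Sys.last_not_far_bend {p : S.V1} (hl : S.f p.1.1 p.1.2 = p.1.2 ∨ S.f p.1.1 p.1.2 ∉ S.SV p.1.1)
    (l' : S.LV) : ¬ S.Far (S.cm p) l' p.1.1 := by
  intro h
  have e : S.f p.1.1 p.1.2 = S.pr l' := h.2.2.2
  have hadj : D.G.Adj p.1.2 (S.pr l') := h.1.1
  rcases hl with h1 | h1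
  · rw [h1] at e
    exact hadj.ne e
  · apply h1
    rw [e]
    exact S.In_SV h.2.2.1

theorem Sys.Tp_smul_bend (g : H) {l : S.LV} {p q s : S.V1} (h : S.Tp l p q s) :
    S.Tp (g • l) (g • p) (g • q) (g • s) := by
  obtain ⟨h1, h2, h3, h4, h5⟩ := h
  refine ⟨?_, ?_, ?_, ?_, ?_⟩
  · change g • p.1.2 = g • q.1.2
    rw [h1]
  · change g • q.1.2 = g • s.1.2
    rw [h2]
  · exact K.T_smul g _ _ _ h3
  · exact S.ST_smul g _ _ _ _ h3 h4
  · rw [S.cm_smul, h5]

/-- the triangle of the blown up complex given by a centre -/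
theorem Sys.exists_Tp_bend {x y z : Y} {w : D.X} (hT : K.T x y z) (hw : w ∈ S.ST x y z) :
    ∃ p q s : S.V1, S.Tp (S.cm p) p q s ∧ p.1 = (x, w) := by
  have hTy : K.T y x z := K.T_swap _ _ _ hT
  have hTz : K.T z x y := K.T_rot _ _ _ (K.T_rot _ _ _ hT)
  have hx : x ∈ K.P := K.E_P _ _ (K.T_E _ _ _ hT)
  have hy : y ∈ K.P := K.E_P _ _ (K.T_E _ _ _ hTy)
  have hz : z ∈ K.P := K.E_P _ _ (K.T_E _ _ _ hTz)
  have hwx : w ∈ S.SV x := S.SE_sub _ _ (K.T_E _ _ _ hT) (S.ST_sub _ _ _ hT hw)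
  have hwy : w ∈ S.SV y := by
    rw [S.ST_swap _ _ _ hT] at hw
    exact S.SE_sub _ _ (K.T_E _ _ _ hTy) (S.ST_sub _ _ _ hTy hw)
  have hwz : w ∈ S.SV z := by
    rw [S.ST_rot _ _ _ hT, S.ST_rot _ _ _ (K.T_rot _ _ _ hT)] at hw
    exact S.SE_sub _ _ (K.T_E _ _ _ hTz) (S.ST_sub _ _ _ hTz hw)
  exact ⟨⟨(x, w), hx, hwx⟩, ⟨(y, w), hy, hwy⟩, ⟨(z, w), hz, hwz⟩, ⟨rfl, rfl, hT, hw, rfl⟩, rfl⟩

theorem Sys.nv_lt (hK : Crit K) (l0 : S.LV) (hC : S.Ctr l0)
    (hs : ∀ x ∈ K.P, ∃ w, S.f x w = w)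
    (K' : KS ↥(stabilizer H l0) S.XR.Q) (hT' : K'.T = S.XR.T l0) (ht : K.t ≤ K'.t) :
    K.nv < K'.nv := by
  classical
  have hL := hC.noLost
  -- every centre gives a vertex of the quotient complex in a triangle
  have hcen : ∀ p q s : S.V1, S.Tp (S.cm p) p q s → ∃ g : H, S.cm (g • p) = l0 ∧
      S.XR.c (g • p) ∈ {c : S.XR.Q | ∃ y z, K'.T c y z} := by
    intro p q s hp
    obtain ⟨h, hh⟩ := hC.ctr p q s hp
    have e : h⁻¹ • S.cm p = l0 := by rw [hh, inv_smul_smul]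
    refine ⟨h⁻¹, by rw [S.cm_smul, e], S.XR.c (h⁻¹ • q), S.XR.c (h⁻¹ • s), ?_⟩
    have hp' := S.Tp_smul_bend h⁻¹ hp
    have hp'' : S.Tp (S.cm (h⁻¹ • p)) (h⁻¹ • p) (h⁻¹ • q) (h⁻¹ • s) := by
      rw [S.cm_smul]
      exact hp'
    obtain ⟨n1, n2, n3⟩ := S.XR.nondeg l0 hC K' hT' ht _ _ _ hp''
    rw [hT']
    rw [e] at hp'
    exact ⟨n1, n2, n3, _, _, _, hp', rfl, rfl, rfl⟩
  have hs' : FinOrb ↥(stabilizer H l0) {c : S.XR.Q | ∃ y z, K'.T c y z} := by
    apply K'.finT.image (fun p => p.1)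
    · rintro c ⟨y, z, h⟩
      exact ⟨(c, y, z), h, 1, one_smul _ _⟩
    · rintro a _ b _ ⟨h, e⟩
      exact ⟨h, congrArg Prod.fst e⟩
  -- the last point
  have hlast : ∀ x : Y, ∃ c : S.XR.Q, (∃ y z, K.T x y z) →
      c ∈ {c : S.XR.Q | ∃ y z, K'.T c y z} ∧
      ∃ (p : S.V1) (g : H), p.1.1 = x ∧ c = S.XR.c (g • p) ∧
        (S.f p.1.1 p.1.2 = p.1.2 ∨ S.f p.1.1 p.1.2 ∉ S.SV p.1.1) := by
    intro x
    by_cases hx : ∃ y z, K.T x y z
    · obtain ⟨y, z, hT⟩ := hx
      have hxP : x ∈ K.P := K.E_P _ _ (K.T_E _ _ _ hT)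
      obtain ⟨w, hw, hl⟩ := (S.ori x hxP).exists_last_sink D.tree (S.SV_ne x hxP) (hs x hxP)
      obtain ⟨y', z', hT2, hw2⟩ := S.last_centre hL hK.allTri hK.link hxP hw hl
      obtain ⟨p, q, s, hp, hp1⟩ := S.exists_Tp_bend hT2 hw2
      obtain ⟨g, hg, hg2⟩ := hcen p q s hp
      refine ⟨S.XR.c (g • p), fun _ => ⟨hg2, p, g, ?_, rfl, ?_⟩⟩
      · rw [hp1]
      · rw [hp1]
        exact hl
    · obtain ⟨c, hc⟩ := K'.ne
      exact ⟨c, fun h => absurd h hx⟩
  choose f hf using hlast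
  -- a far vertex in a triangle
  obtain ⟨x0, hx0, a0, ha0, b0, hb0, hab0⟩ := S.exists_nontrivial
  obtain ⟨y0, z0, w0, hT0, hw0, hf0, hf0'⟩ := S.exists_far_centre hx0 ha0 hb0 hab0
  obtain ⟨p0, q0, s0, hp0, hp01⟩ := S.exists_Tp_bend hT0 hw0
  obtain ⟨g0, hg0, hg02⟩ := hcen p0 q0 s0 hp0
  have hfar : ∃ l', S.Far (S.cm p0) l' p0.1.1 := by
    apply S.Far_exists
    · rw [hp01]; exact hf0
    · rw [hp01]; exact hf0'
  -- a class of last points is a single vertex
  have hsing : ∀ (p q : S.V1) (g h : H),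
      (S.f p.1.1 p.1.2 = p.1.2 ∨ S.f p.1.1 p.1.2 ∉ S.SV p.1.1) →
      S.XR.c (g • p) = S.XR.c (h • q) → g • p = h • q := by
    intro p q g h hl e
    have e2 : S.xr (g • p) (h • q) := Quotient.exact e
    rcases e2 with e2 | ⟨_, l', h1, _⟩
    · exact e2
    · exfalso
      have h2 := S.Far_smul g⁻¹ _ _ _ h1
      have e3 : g⁻¹ • S.cm (g • p) = S.cm p := by
        rw [← S.cm_smul, inv_smul_smul]
      have e4 : g⁻¹ • (g • p).1.1 = p.1.1 := by
        change g⁻¹ • (g • p.1.1) = p.1.1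
        rw [inv_smul_smul]
      rw [e3, e4] at h2
      exact S.last_not_far_bend hl _ h2
  unfold KS.nv
  refine oc_lt_of_inj hs' f (fun a ha => (hf a ha).1) ?_ hg02 ?_
  · rintro a ha b hb ⟨h, e⟩
    obtain ⟨p, g, hpa, hc, hl⟩ := (hf a ha).2
    obtain ⟨q, g', hqb, hc', hl'⟩ := (hf b hb).2
    rw [hc, hc'] at e
    have e1 : S.XR.c ((h.1 * g) • p) = S.XR.c (g' • q) := by
      rw [← e, mul_smul]
      rfl
    have e2 := hsing p q _ _ hl e1
    have e3 : (h.1 * g) • a = g' • b := by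
      have := congrArg (fun r : S.V1 => r.1.1) e2
      rw [← hpa, ← hqb]
      exact this
    refine ⟨g'⁻¹ * (h.1 * g), ?_⟩
    rw [mul_smul, e3, inv_smul_smul]
  · intro a ha h e
    obtain ⟨p, g, hpa, hc, hl⟩ := (hf a ha).2
    rw [hc] at e
    have e1 : S.XR.c ((h.1 * g) • p) = S.XR.c (g0 • p0) := by
      rw [← e, mul_smul]
      rfl
    have e2 := hsing p p0 _ _ hl e1
    have e3 : p = ((h.1 * g)⁻¹ * g0) • p0 := by
      rw [mul_smul, ← e2, inv_smul_smul]
    obtain ⟨l', hfr⟩ := hfar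
    have h2 := S.Far_smul ((h.1 * g)⁻¹ * g0) _ _ _ hfr
    have h3 : S.Far (S.cm p) (((h.1 * g)⁻¹ * g0) • l') p.1.1 := by
      rw [e3, S.cm_smul]
      exact h2
    exact S.last_not_far_bend hl _ h3

end

end Pool.Agent.SAF
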