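import Pool.Agent.SAF.BBasic

/-!
# SAF, module BPot: exactness of cochains over an edge of the new tree
-/

namespace Pool.Agent.SAF

open MulAction

private theorem bpot_self (a : ZMod 2) : a + a = 0 := by
  revert a; decide

private theorem bpot_one {a : ZMod 2} (h : a ≠ 0) : a = 1 := by
  revert h; revert a; decide

private theorem bpot_eq {a b : ZMod 2} (h : a + b = 0) : a = b := by
  revert h; revert a b; decide

private theorem bpot_four (r x y : ZMod 2) : r + x + (r + y) = x + y := by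
  revert r x y; decide

/-- a cochain all whose nonzero edges are bridges is a coboundary -/
theorem potential {Y : Type} (E : Y → Y → Prop) (hE : ∀ x y, E x y → E y x)
    (φ : Y → Y → ZMod 2) (hφ : ∀ x y, φ x y = φ y x)
    (h : ∀ x y, E x y → φ x y ≠ 0 → ∃ σ : Y → ZMod 2, ∀ a b, E a b →
      σ a + σ b = 1 ∧ ((a = x ∧ b = y) ∨ (a = y ∧ b = x)) ∨
      σ a + σ b = 0 ∧ ¬ ((a = x ∧ b = y) ∨ (a = y ∧ b = x))) :
    ∃ F : Y → ZMod 2, ∀ x y, E x y → φ x y = F x + F y := by
  classical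
  have _ := hE
  have hs : ∀ e : Sym2 Y, ∃ s : Y → ZMod 2, ∀ a b, E a b →
      s a + s b = if s(a, b) = e ∧ φ a b ≠ 0 then 1 else 0 := by
    intro e
    by_cases he : ∃ x y, e = s(x, y) ∧ E x y ∧ φ x y ≠ 0
    · obtain ⟨x, y, rfl, hxy, hne⟩ := he
      obtain ⟨σ, hσ⟩ := h x y hxy hne
      refine ⟨σ, fun a b hab => ?_⟩
      rcases hσ a b hab with ⟨h1, h2⟩ | ⟨h1, h2⟩
      · rw [if_pos]
        · exact h1
        · refine ⟨Sym2.eq_iff.2 h2, ?_⟩
          rcases h2 with ⟨rfl, rfl⟩ | ⟨rfl, rfl⟩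
          · exact hne
          · rw [hφ]; exact hne
      · rw [if_neg]
        · exact h1
        · rintro ⟨h3, -⟩
          exact h2 (Sym2.eq_iff.1 h3)
    · refine ⟨fun _ => 0, fun a b hab => ?_⟩
      rw [if_neg]
      · exact add_zero 0
      · rintro ⟨h3, h4⟩
        exact he ⟨a, b, h3.symm, hab, h4⟩
  choose σ hσ using hs
  have fin : ∀ y y', Relation.EqvGen E y y' → {e : Sym2 Y | σ e y + σ e y' ≠ 0}.Finite := by
    intro y y' hyy
    induction hyy with
    | rel a b hab =>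
      refine (Set.finite_singleton (s(a, b))).subset ?_
      intro e he
      change σ e a + σ e b ≠ 0 at he
      rw [hσ e a b hab] at he
      by_contra hne
      apply he
      rw [if_neg]
      rintro ⟨h1, -⟩
      exact hne h1.symm
    | refl a =>
      refine Set.finite_empty.subset ?_
      intro e he
      exact absurd (bpot_self _) he
    | symm a b _ ih =>
      refine ih.subset ?_
      intro e he
      change σ e b + σ e a ≠ 0 at he
      change σ e a + σ e b ≠ 0
      rwa [add_comm]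
    | trans a b c _ _ ih1 ih2 =>
      refine (ih1.union ih2).subset ?_
      intro e he
      change σ e a + σ e c ≠ 0 at he
      by_contra hne
      rw [Set.mem_union, not_or] at hne
      have h1 : σ e a + σ e b = 0 := not_not.1 hne.1
      have h2 : σ e b + σ e c = 0 := not_not.1 hne.2
      rw [bpot_eq h1, h2] at he
      exact he rfl
  let st : Setoid Y := Relation.EqvGen.setoid E
  let r : Y → Y := fun y => (Quotient.mk st y).out
  have hr : ∀ y, Relation.EqvGen E (r y) y := fun y =>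
    Quotient.exact (s := st) (Quotient.out_eq (Quotient.mk st y))
  refine ⟨fun y => ∑ᶠ e : Sym2 Y, (σ e (r y) + σ e y), fun x y hxy => ?_⟩
  have hrr : r x = r y := by
    have : Quotient.mk st x = Quotient.mk st y := Quotient.sound (Relation.EqvGen.rel x y hxy)
    change (Quotient.mk st x).out = (Quotient.mk st y).out
    rw [this]
  have h1 : (∑ᶠ e : Sym2 Y, (σ e (r x) + σ e x)) + (∑ᶠ e : Sym2 Y, (σ e (r y) + σ e y)) =
      ∑ᶠ e : Sym2 Y, ((σ e (r x) + σ e x) + (σ e (r y) + σ e y)) := by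
    exact (finsum_add_distrib (f := fun e => σ e (r x) + σ e x) (g := fun e => σ e (r y) + σ e y)
      (fin (r x) x (hr x)) (fin (r y) y (hr y))).symm
  change φ x y = (∑ᶠ e : Sym2 Y, (σ e (r x) + σ e x)) + (∑ᶠ e : Sym2 Y, (σ e (r y) + σ e y))
  rw [h1]
  have h2 : ∀ e : Sym2 Y, (σ e (r x) + σ e x) + (σ e (r y) + σ e y) =
      if s(x, y) = e ∧ φ x y ≠ 0 then 1 else 0 := by
    intro e
    rw [hrr, bpot_four, hσ e x y hxy]
  rw [finsum_congr h2]
  by_cases h0 : φ x y = 0
  · rw [h0]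
    simp
  · rw [finsum_eq_single _ (s(x, y))]
    · rw [if_pos ⟨rfl, h0⟩]
      exact bpot_one h0
    · intro e he
      rw [if_neg]
      rintro ⟨h3, -⟩
      exact he h3.symm

section

variable {H : Type} [Group H] {Y : Type} [MulAction H Y] {K : KS H Y} {D : Decomp H}
  (S : Sys H Y K D)

/-- the merges of the second quotient complexes over the edge `l l'` -/
def Sys.mg (p q : S.V1) (l' : S.LV) : Prop :=
  S.cm p = S.cm q ∧ ∃ n, S.Far (S.cm p) l' p.1.1 ∧ S.Far (S.cm p) l' q.1.1 ∧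
    S.DE (S.cm p) l' n p.1.1 ∧ S.DE (S.cm p) l' n q.1.1 ∧
    S.Jinf (S.cm p) l' n ∧ S.Jinf (S.cm p) l' p.1.1 ∧ S.Jinf (S.cm p) l' q.1.1

/-- the fixed vertex of an orientation is unique -/
private theorem bpot_sink {X : Type} {G : SimpleGraph X} (hG : G.IsTree) {f : X → X}
    (hf : Ori G f) {a b : X} (ha : f a = a) (hb : f b = b) : a = b := by
  by_contra hne
  obtain ⟨p, hp⟩ := hG.connected.exists_isPath a b
  -- along the path from `a` all edges point towards `a`
  have key : ∀ {u v : X} (w : G.Walk u v), w.IsPath → ∀ u', G.Adj u' u → f u = u' →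
      u' ∉ w.support → f v ≠ v := by
    intro u v w
    induction w with
    | nil =>
      intro _ u' hadj hfu _ hv
      rw [hfu] at hv
      exact hadj.ne hv
    | @cons u x v hux w ih =>
      intro hw u' hadj hfu hu'
      rw [SimpleGraph.Walk.cons_isPath_iff] at hw
      have hx : f x = u := by
        rcases hf.one u x hux with e | e
        · exfalso
          apply hu'
          rw [← hfu, e]
          simp
        · exact e
      exact ih hw.1 u hux hx hw.2
  cases p with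
  | nil => exact hne rfl
  | @cons _ x _ hax w =>
    rw [SimpleGraph.Walk.cons_isPath_iff] at hp
    have hx : f x = a := by
      rcases hf.one a x hax with e | e
      · exfalso
        rw [ha] at e
        exact hax.ne e
      · exact e
    exact key w hp.1 a hax hx hp.2 hb

private theorem Sys.bpot_J_pr {l l' : S.LV} {j : H} (hj : j ∈ S.J l l') :
    j • S.pr l = S.pr l := by
  have h1 : j • l = l := hj.1
  rw [← S.pr_smul, h1]

private theorem Sys.bpot_Qe_left {l l' : S.LV} {x y : Y} (hQ : S.Qe x y) :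
    ¬ S.Jinf l l' x := by
  rintro ⟨j, hj, j1, jx⟩
  rcases S.f_hyp x (K.E_P _ _ hQ.1) with ⟨w, hw⟩ | h
  · exact hQ.2.2 w hw
  · exact h j jx j1 _ (S.bpot_J_pr hj)

private theorem Sys.bpot_Qe_right {l l' : S.LV} {x y : Y} (hQ : S.Qe x y) :
    ¬ S.Jinf l l' y := by
  rintro ⟨j, hj, j1, jy⟩
  obtain ⟨hE, ⟨g, g1, gx, gy⟩, hx⟩ := hQ
  have hyP : y ∈ K.P := K.E_P _ _ (K.E_symm _ _ hE)
  have hg : ∀ w : D.X, g • w ≠ w := by
    rcases S.f_hyp x (K.E_P _ _ hE) with ⟨w, hw⟩ | h
    · exact absurd hw (hx w)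
    · exact h g gx g1
  rcases S.f_hyp y hyP with ⟨w, hw⟩ | h
  · apply hg w
    have h1 : S.f y (g • w) = g • w := by
      have := S.f_smul g y w
      rw [gy, hw] at this
      exact this
    exact bpot_sink D.tree (S.ori y hyP) h1 hw
  · exact h j jy j1 _ (S.bpot_J_pr hj)

/-- the vertex of the blown up complex over `x` in the component `l` -/
private def Sys.bpt {x : Y} {l : S.LV} (h : S.In x l) : S.V1 := ⟨(x, S.pr l), h.1⟩

private theorem Sys.bpt_eq {l : S.LV} {p : S.V1} (hp : S.cm p = l) (h : S.In p.1.1 l) :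
    S.bpt h = p := by
  apply Subtype.ext
  apply Prod.ext
  · rfl
  · change S.pr l = p.1.2
    rw [← hp]
    rfl

private theorem Sys.bpt_cm {x : Y} {l : S.LV} (h : S.In x l) : S.cm (S.bpt h) = l := h.2

open Classical in
/-- the pulled back cochain as a function on `Y` -/
private noncomputable def Sys.bψ (φ : S.KR.Q → S.KR.Q → ZMod 2) (l : S.LV) (x y : Y) : ZMod 2 :=
  if h : S.In x l ∧ S.In y l then S.KR.lift φ (S.bpt h.1) (S.bpt h.2) else 0

private theorem Sys.bψ_symm (φ : S.KR.Q → S.KR.Q → ZMod 2) (hφ : ∀ a b, φ a b = φ b a)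
    (l : S.LV) (x y : Y) : S.bψ φ l x y = S.bψ φ l y x := by
  classical
  unfold Sys.bψ
  by_cases h : S.In x l ∧ S.In y l
  · rw [dif_pos h, dif_pos h.symm]
    unfold IRel.lift
    by_cases e : S.KR.c (S.bpt h.1) = S.KR.c (S.bpt h.2)
    · rw [if_pos e, if_pos e.symm]
    · rw [if_neg e, if_neg (fun e' => e e'.symm), hφ]
  · rw [dif_neg h, dif_neg (fun h' => h h'.symm)]

private theorem Sys.bψ_eq (φ : S.KR.Q → S.KR.Q → ZMod 2) {l : S.LV} {p q : S.V1}
    (hp : S.cm p = l) (hq : S.cm q = l) : S.bψ φ l p.1.1 q.1.1 = S.KR.lift φ p q := by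
  classical
  have h1 : S.In p.1.1 l := by rw [← hp]; exact S.In_cm p
  have h2 : S.In q.1.1 l := by rw [← hq]; exact S.In_cm q
  unfold Sys.bψ
  rw [dif_pos ⟨h1, h2⟩, S.bpt_eq hp, S.bpt_eq hq]

/-- merged far vertices have the same class -/
private theorem Sys.bψ_merge (hL : S.NoLost) (φ : S.KR.Q → S.KR.Q → ZMod 2) {l l' : S.LV}
    {n y y' : Y} (hn : S.Far l' l n) (h : S.Fl l l' n y)
    (h' : S.Fl l l' n y') (jn : S.Jinf l l' n) (jy : S.Jinf l l' y) (jy' : S.Jinf l l' y') :
    S.bψ φ l n y = S.bψ φ l n y' := by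
  classical
  have hy : S.Far l l' y := by
    rcases S.Fl_far hL h with a | a
    · exact absurd hn (S.not_both a.1)
    · exact a.1
  have hy' : S.Far l l' y' := by
    rcases S.Fl_far hL h' with a | a
    · exact absurd hn (S.not_both a.1)
    · exact a.1
  have e : S.KR.c (S.bpt hy.2.1) = S.KR.c (S.bpt hy'.2.1) := by
    apply Quotient.sound
    apply Relation.EqvGen.rel
    refine Or.inr ⟨?_, l', n, ?_⟩
    · rw [S.bpt_cm, S.bpt_cm]
    · rw [S.bpt_cm]
      exact ⟨hy, hy', h.2, h'.2, jn, jy, jy'⟩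
  unfold Sys.bψ
  rw [dif_pos ⟨hn.2.2.1, hy.2.1⟩, dif_pos ⟨hn.2.2.1, hy'.2.1⟩]
  unfold IRel.lift
  rw [e]

open Classical in
/-- the correction -/
private noncomputable def Sys.bh (φ : S.KR.Q → S.KR.Q → ZMod 2) (l l' : S.LV) (x : Y) : ZMod 2 :=
  if h : S.Far l' l x ∧ S.Jinf l l' x ∧ ∃ y, S.Fl l l' x y ∧ S.Jinf l l' y then
    S.bψ φ l x h.2.2.choose else 0

/-- Proof: the graph over `l l'` is bipartite (near, far; `Fl_far`). `h n := lift φ (n) (y)` for a
near `n` with `Jinf` and any far neighbour `y` with `Jinf` (all these `y` are merged), `h := 0`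
elsewhere. Then `lift φ + dh` vanishes on edges with both ends `Jinf`, on `Q`-edges (their ends
are not `Jinf` because `J` fixes `pr l`, see `f_hyp`), so `potential` applies by `hB`. -/
theorem Sys.kr_exact (hL : S.NoLost) (hB : S.Bridge) (φ : S.KR.Q → S.KR.Q → ZMod 2)
    (hφ : ∀ a b, φ a b = φ b a) (l l' : S.LV) (hl : S.LAdj l l') :
    ∃ g : Y → ZMod 2,
      (∀ p q : S.V1, S.cm p = l → S.cm q = l → S.Fl l l' p.1.1 q.1.1 →
        S.KR.lift φ p q = g p.1.1 + g q.1.1) ∧
      ∀ p q : S.V1, S.cm p = l → S.mg p q l' → g p.1.1 = g q.1.1 := by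
  classical
  set h := S.bh φ l l' with hh
  -- values of `h`
  have hfar : ∀ x, S.Far l l' x → h x = 0 := by
    intro x hx
    rw [hh]
    unfold Sys.bh
    rw [dif_neg]
    rintro ⟨h1, -⟩
    exact S.not_both hx h1
  have hnj : ∀ x, ¬ S.Jinf l l' x → h x = 0 := by
    intro x hx
    rw [hh]
    unfold Sys.bh
    rw [dif_neg]
    rintro ⟨-, h1, -⟩
    exact hx h1
  have hnear : ∀ n y, S.Far l' l n → S.Fl l l' n y → S.Jinf l l' n → S.Jinf l l' y →
      h n = S.bψ φ l n y := by
    intro n y hn hny jn jy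
    have hex : S.Far l' l n ∧ S.Jinf l l' n ∧ ∃ y, S.Fl l l' n y ∧ S.Jinf l l' y :=
      ⟨hn, jn, y, hny, jy⟩
    rw [hh]
    unfold Sys.bh
    rw [dif_pos hex]
    exact S.bψ_merge hL φ hn hex.2.2.choose_spec.1 hny jn hex.2.2.choose_spec.2 jy
  -- the corrected cochain vanishes on edges with both ends `Jinf`
  have van1 : ∀ n y, S.Far l' l n → S.Fl l l' n y → S.Jinf l l' n → S.Jinf l l' y →
      S.bψ φ l n y + (h n + h y) = 0 := by
    intro n y hn hny jn jy
    have hy : S.Far l l' y := by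
      rcases S.Fl_far hL hny with a | a
      · exact absurd hn (S.not_both a.1)
      · exact a.1
    rw [hfar y hy, hnear n y hn hny jn jy, add_zero]
    exact bpot_self _
  have van2 : ∀ x y, S.Fl l l' x y → S.Jinf l l' x → S.Jinf l l' y →
      S.bψ φ l x y + (h x + h y) = 0 := by
    intro x y hxy jx jy
    rcases S.Fl_far hL hxy with a | a
    · have := van1 y x a.2 (S.Fl_swap hxy) jy jx
      rw [S.bψ_symm φ hφ l x y, add_comm (h x) (h y)]
      exact this
    · exact van1 x y a.2 hxy jx jy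
  -- and on `Q`-edges
  have vanQ : ∀ x y, S.Fl l l' x y → S.Qe x y → S.bψ φ l x y + (h x + h y) = 0 := by
    intro x y hxy hQ
    rw [hnj x (S.bpot_Qe_left hQ), hnj y (S.bpot_Qe_right hQ)]
    obtain ⟨h1, -, h3, -⟩ := S.Fl_In hxy
    unfold Sys.bψ
    rw [dif_pos ⟨h1, h3⟩]
    unfold IRel.lift
    rw [if_pos]
    · decide
    · apply Quotient.sound
      apply Relation.EqvGen.rel
      exact Or.inl ⟨⟨rfl, hxy.2.1.1, hxy.2.1.2.1⟩, hQ⟩
  obtain ⟨F, hF⟩ := potential (S.Fl l l') (fun x y e => S.Fl_swap e)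
    (fun x y => S.bψ φ l x y + (h x + h y))
    (fun x y => by
      rw [S.bψ_symm φ hφ l x y, add_comm (h x) (h y)])
    (by
      intro x y hxy hne
      have hQ : ¬ S.Qe x y := fun hQ => hne (vanQ x y hxy hQ)
      refine hB l l' x y hxy hQ ?_
      intro j hj jx jy
      by_contra j1
      exact hne (van2 x y hxy ⟨j, hj, j1, jx⟩ ⟨j, hj, j1, jy⟩))
  refine ⟨fun x => F x + h x, ?_, ?_⟩
  · intro p q hp hq hpq
    have e := hF _ _ hpq
    change S.bψ φ l p.1.1 q.1.1 + (h p.1.1 + h q.1.1) = F p.1.1 + F q.1.1 at e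
    rw [← S.bψ_eq φ hp hq]
    change S.bψ φ l p.1.1 q.1.1 = (F p.1.1 + h p.1.1) + (F q.1.1 + h q.1.1)
    have key : ∀ a b c d e : ZMod 2, a + (b + c) = d + e → a = (d + b) + (e + c) := by decide
    exact key _ _ _ _ _ e
  · rintro p q hp ⟨epq, n, h1, h2, h3, h4, h5, h6, h7⟩
    have hq : S.cm q = l := by rw [← epq]; exact hp
    rw [hp] at h1 h2 h3 h4 h5 h6 h7
    have f1 : S.Fl l l' n p.1.1 := ⟨hl, h3⟩
    have f2 : S.Fl l l' n q.1.1 := ⟨hl, h4⟩
    have e1 := hF _ _ f1
    have e2 := hF _ _ f2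
    change S.bψ φ l n p.1.1 + (h n + h p.1.1) = F n + F p.1.1 at e1
    change S.bψ φ l n q.1.1 + (h n + h q.1.1) = F n + F q.1.1 at e2
    rw [van2 n p.1.1 f1 h5 h6] at e1
    rw [van2 n q.1.1 f2 h5 h7] at e2
    change F p.1.1 + h p.1.1 = F q.1.1 + h q.1.1
    rw [hfar _ h1, hfar _ h2, add_zero, add_zero]
    have a1 := bpot_eq e1.symm
    have a2 := bpot_eq e2.symm
    rw [← a1, ← a2]

end

end Pool.Agent.SAF
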