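import Pool.Agent.SAF.BTc
import Pool.Agent.SAF.BTree
import Pool.Agent.SAF.BPot

/-!
# SAF, module BJinf: consequences of the second quotient complexes
-/

namespace Pool.Agent.SAF

open MulAction

section

variable {H : Type} [Group H] {Y : Type} [MulAction H Y] {K : KS H Y} {D : Decomp H}
  (S : Sys H Y K D)

theorem TF.subgroup (h : TF H) (L : Subgroup H) : TF ↥L := by
  intro g n hn e
  apply Subtype.ext
  apply h g n hn
  have := congrArg Subtype.val e
  simpa using this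

/-- a triangle of `K` and its centre -/
theorem Sys.exists_Tp (hL : S.NoLost) {x y z : Y} (hT : K.T x y z) {a : D.X}
    (ha : a ∈ S.ST x y z) : ∃ p q s : S.V1, p.1 = (x, a) ∧ q.1 = (y, a) ∧ s.1 = (z, a) ∧
      S.Tp (S.cm p) p q s ∧ S.hr p q := by
  have hxy : K.E x y := K.T_E _ _ _ hT
  have hyz : K.E y z := K.T_E _ _ _ (K.T_rot _ _ _ hT)
  have hzx : K.E z x := K.T_E _ _ _ (K.T_rot _ _ _ (K.T_rot _ _ _ hT))
  have h2 : a ∈ S.ST y z x := by rw [← S.ST_rot _ _ _ hT]; exact ha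
  have h3 : a ∈ S.ST z x y := by rw [← S.ST_rot _ _ _ (K.T_rot _ _ _ hT)]; exact h2
  refine ⟨⟨(x, a), K.E_P _ _ hxy, S.SE_sub _ _ hxy (S.ST_sub _ _ _ hT ha)⟩,
    ⟨(y, a), K.E_P _ _ hyz, S.SE_sub _ _ hyz (S.ST_sub _ _ _ (K.T_rot _ _ _ hT) h2)⟩,
    ⟨(z, a), K.E_P _ _ hzx, S.SE_sub _ _ hzx
      (S.ST_sub _ _ _ (K.T_rot _ _ _ (K.T_rot _ _ _ hT)) h3)⟩, rfl, rfl, rfl,
    ⟨rfl, rfl, hT, ha, rfl⟩, rfl, hxy, S.ST_sub _ _ _ hT ha⟩

/-- Proof: a `Q`-edge `x y` lies in a triangle `x y z` (`allTri`) with centre `c` in `SE x y`;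
`(x, c)` and `(y, c)` are merged, so the triangle is degenerate; use `IRel.nondeg` with
`K.t <= K'.t` from `hK.min`. -/
theorem Sys.no_Qe (hK : Crit K) (l0 : S.LV) (hC : S.Ctr l0)
    (K' : KS ↥(stabilizer H l0) S.KR.Q) (hT' : K'.T = S.KR.T l0) (x y : Y) : ¬ S.Qe x y := by
  intro hQ
  obtain ⟨z, hT⟩ := hK.allTri x y hQ.1
  obtain ⟨a, ha⟩ := S.ST_ne x y z hT
  obtain ⟨p, q, s, hp, hq, hs, hTp, hr⟩ := S.exists_Tp hC.noLost hT ha
  have ht : K.t ≤ K'.t := hK.min.1.1 _ _ K' (TF.subgroup hK.tf _) hC.bad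
  have h1 := S.KR.nondeg l0 hC K' hT' ht p q s hTp
  apply h1.1
  apply Quotient.sound
  apply Relation.EqvGen.rel
  refine Or.inl ⟨hr, ?_⟩
  rw [hp, hq]
  exact hQ

/-- without `Q`-edges a vertex of the blown up complex which is not `Jinf` in its far direction is
not merged -/
theorem Sys.kr_single (hQ : ∀ x y, ¬ S.Qe x y) {p q : S.V1}
    (hp : ∀ l', S.Far (S.cm p) l' p.1.1 → ¬ S.Jinf (S.cm p) l' p.1.1)
    (h : S.KR.c p = S.KR.c q) : p = q := by
  have key : ∀ a b : S.V1, Relation.EqvGen S.kr a b →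
      ((∀ l', S.Far (S.cm a) l' a.1.1 → ¬ S.Jinf (S.cm a) l' a.1.1) → a = b) ∧
      ((∀ l', S.Far (S.cm b) l' b.1.1 → ¬ S.Jinf (S.cm b) l' b.1.1) → a = b) := by
    intro a b hab
    induction hab with
    | rel a b hab =>
      rcases hab with ⟨-, h⟩ | ⟨e, l', n, h1, h2, h3, h4, h5, h6, h7⟩
      · exact absurd h (hQ _ _)
      · refine ⟨fun hg => absurd h6 (hg l' h1), fun hg => ?_⟩
        rw [e] at h2 h7
        exact absurd h7 (hg l' h2)
    | refl a => exact ⟨fun _ => rfl, fun _ => rfl⟩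
    | symm a b _ ih => exact ⟨fun hg => (ih.2 hg).symm, fun hg => (ih.1 hg).symm⟩
    | trans a b c _ _ ih1 ih2 =>
      refine ⟨fun hg => ?_, fun hg => ?_⟩
      · obtain rfl := ih1.1 hg
        exact ih2.1 hg
      · obtain rfl := ih2.2 hg
        exact ih1.2 hg
  exact (key p q (Quotient.exact h)).1 hp

/-- an element which fixes `x` and a point behind `w` fixes `w` and the next point -/
theorem Sys.fix_of_behind {l l' : S.LV} {x : Y} (h : S.Far l l' x) {a : D.X}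
    (ha : D.G.dist a (S.pr l') = D.G.dist a (S.pr l) + 1) {j : H} (hx : j • x = x)
    (hj : j • a = a) : j ∈ S.J l l' := by
  have hP : x ∈ K.P := S.In_P h.2.1
  have hf : ∀ u : D.X, j • u = u → j • S.f x u = S.f x u := by
    intro u hu
    have := S.f_smul j x u
    rw [hx, hu] at this
    exact this.symm
  have hk : ∀ k : ℕ, j • (S.f x)^[k] a = (S.f x)^[k] a := by
    intro k
    induction k with
    | zero => exact hj
    | succ k ih =>
      rw [Function.iterate_succ_apply']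
      exact hf _ ih
  obtain ⟨k, hk'⟩ := Ori.reach D.tree (S.ori x hP) h.2.2.2 h.1.1 ha
  have hw : j • S.pr l = S.pr l := by
    rw [← hk']
    exact hk k
  have hw' : j • S.pr l' = S.pr l' := by
    rw [← h.2.2.2]
    exact hf _ hw
  refine ⟨?_, ?_⟩
  · change j • l = l
    have h1 : S.In x (j • l) := by
      have := S.In_smul j x l h.2.1
      rwa [hx] at this
    refine S.In_eq h1 h.2.1 ?_
    rw [S.pr_smul, hw]
  · change j • l' = l'
    have h1 : S.In x (j • l') := by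
      have := S.In_smul j x l' h.2.2.1
      rwa [hx] at this
    refine S.In_eq h1 h.2.2.1 ?_
    rw [S.pr_smul, hw']

/-- Proof: suppose `x` in `l`, `l'` is not `Jinf l l'`. We may assume `Far l l' x` (swap). By
`hull_behind` there is a centre `a` at `x` (a triangle `x y z`, `ST x y z = {a}`) behind
`w := pr l`; `f x a` is in `SV x` and not `a` (`Ori.behind`, `SV_conv`), so `p := (x, a)` is far in
some direction `l''`, and it is not `Jinf` there: an element `j` fixing `x`, `a` fixes all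
`(f x)^[k] a`, hence `w` (`Ori.reach`) and `w' = f x w`, hence `l` and `l'`. So the class of `p` in
`KR` is `{p}` (`kr_single`) with trivial stabiliser (same argument), and it lies in a triangle of
the quotient complex at `cm p`, which is in the orbit of `l0` (`IRel.nondeg`: no triangle is
degenerate). Move `p` to `l0` by an element of `H`. Contradiction to `hfree` (no free vertex in a
triangle). -/
theorem Sys.all_Jinf (hK : Crit K) (l0 : S.LV) (hC : S.Ctr l0)
    (K' : KS ↥(stabilizer H l0) S.KR.Q) (hT' : K'.T = S.KR.T l0)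
    (hfree : ∀ a b c, K'.T a b c → ¬ Fr ↥(stabilizer H l0) a)
    (l l' : S.LV) (x : Y) (hl : S.LAdj l l') (hx : S.In x l) (hx' : S.In x l') :
    S.Jinf l l' x := by
  have main : ∀ l l' : S.LV, S.Far l l' x → S.Jinf l l' x := by
    intro l l' hF
    by_contra hJ
    have hP : x ∈ K.P := S.In_P hF.2.1
    have hw : S.pr l ∈ hull D.G {w | ∃ y z, K.T x y z ∧ w ∈ S.ST x y z} := by
      rw [← S.SV_hull x hP]
      exact S.In_SV hF.2.1
    obtain ⟨a, ⟨y, z, hT, ha⟩, hd⟩ := hull_behind D.tree hF.1.1 hw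
    obtain ⟨p, q, s, hp, hq, hs, hTp, hr⟩ := S.exists_Tp hC.noLost hT ha
    have hp1 : p.1.1 = x := by rw [hp]
    have hp2 : p.1.2 = a := by rw [hp]
    have hfix : ∀ j : H, j • x = x → j • a = a → j = 1 := by
      intro j hjx hja
      by_contra hj1
      exact hJ ⟨j, S.fix_of_behind hF hd hjx hja, hj1, hjx⟩
    have hpJ : ∀ l'', S.Far (S.cm p) l'' p.1.1 → ¬ S.Jinf (S.cm p) l'' p.1.1 := by
      rintro l'' - ⟨j, hj, hj1, hjx⟩
      apply hj1
      apply hfix j (by rw [← hp1]; exact hjx)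
      have h1 : j • S.cm p = S.cm p := hj.1
      have h2 := S.pr_smul j (S.cm p)
      rw [h1, S.pr_cm, hp2] at h2
      exact h2.symm
    have hQ : ∀ x y, ¬ S.Qe x y := S.no_Qe hK l0 hC K' hT'
    have ht : K.t ≤ K'.t := hK.min.1.1 _ _ K' (TF.subgroup hK.tf _) hC.bad
    have hnd := S.KR.nondeg l0 hC K' hT' ht p q s hTp
    obtain ⟨h, hh⟩ := hC.ctr p q s hTp
    have hcm : S.cm (h⁻¹ • p) = l0 := by
      rw [S.cm_smul, hh, inv_smul_smul]
    have hT2 : K'.T (S.KR.c (h⁻¹ • p)) (S.KR.c (h⁻¹ • q)) (S.KR.c (h⁻¹ • s)) := by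
      rw [hT']
      refine ⟨?_, ?_, ?_, h⁻¹ • p, h⁻¹ • q, h⁻¹ • s, ⟨?_, ?_, ?_, ?_, hcm⟩, rfl, rfl, rfl⟩
      · rw [IRel.c_smul, IRel.c_smul]
        exact fun e => hnd.1 (smul_left_cancel _ e)
      · rw [IRel.c_smul, IRel.c_smul]
        exact fun e => hnd.2.1 (smul_left_cancel _ e)
      · rw [IRel.c_smul, IRel.c_smul]
        exact fun e => hnd.2.2 (smul_left_cancel _ e)
      · change h⁻¹ • p.1.2 = h⁻¹ • q.1.2
        rw [hTp.1]
      · change h⁻¹ • q.1.2 = h⁻¹ • s.1.2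
        rw [hTp.2.1]
      · exact K.T_smul _ _ _ _ hTp.2.2.1
      · exact S.ST_smul _ _ _ _ _ hTp.2.2.1 hTp.2.2.2.1
    apply hfree _ _ _ hT2
    intro g hg
    have h1 : S.KR.c ((g : H) • h⁻¹ • p) = S.KR.c (h⁻¹ • p) := by
      rw [IRel.c_smul]
      exact hg
    have h2 : S.KR.c p = S.KR.c ((h * (g : H) * h⁻¹) • p) := by
      rw [mul_smul, mul_smul, IRel.c_smul, h1, IRel.c_smul, smul_inv_smul]
    have h3 := S.kr_single hQ hpJ h2
    have h4 : (h * (g : H) * h⁻¹) • p.1.1 = p.1.1 := by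
      have := congrArg (fun u : S.V1 => u.1.1) h3
      exact this.symm
    have h5 : (h * (g : H) * h⁻¹) • p.1.2 = p.1.2 := by
      have := congrArg (fun u : S.V1 => u.1.2) h3
      exact this.symm
    rw [hp1] at h4
    rw [hp2] at h5
    have h6 := hfix _ h4 h5
    apply Subtype.ext
    change (g : H) = 1
    have h7 : (g : H) = h⁻¹ * (h * (g : H) * h⁻¹) * h := by group
    rw [h7, h6]
    group
  rcases S.near_or_far hl hx hx' with h | h
  · exact main l l' h
  · obtain ⟨j, hj, hj1, hjx⟩ := main l' l h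
    exact ⟨j, ⟨hj.2, hj.1⟩, hj1, hjx⟩

/-- Proof: if `f x` has no sink, `fwd` gives `w`, `f x w` in `SV x`, so `x` is far over some edge
`l l'`, `Jinf l l' x`; the element `j` fixes `pr l`, against `f_hyp`. -/
theorem Sys.all_sink (hJ : ∀ (l l' : S.LV) (x : Y), S.LAdj l l' → S.In x l → S.In x l' →
    S.Jinf l l' x) (x : Y) (hx : x ∈ K.P) : ∃ w, S.f x w = w := by
  by_contra hs
  push Not at hs
  obtain ⟨w, hw⟩ := S.SV_ne x hx
  have hw' := S.fwd x hx hs w hw
  obtain ⟨l', hF⟩ := S.Far_exists (p := ⟨(x, w), hx, hw⟩) (hs w) hw'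
  obtain ⟨j, hj, hj1, hjx⟩ := hJ _ l' x hF.1 hF.2.1 hF.2.2.1
  rcases S.f_hyp x hx with ⟨u, hu⟩ | h
  · exact hs u hu
  · apply h j hjx hj1 w
    have h1 : j • S.cm (⟨(x, w), hx, hw⟩ : S.V1) = S.cm (⟨(x, w), hx, hw⟩ : S.V1) := hj.1
    have h2 := S.pr_smul j (S.cm (⟨(x, w), hx, hw⟩ : S.V1))
    rw [h1, S.pr_cm] at h2
    exact h2.symm

end

end Pool.Agent.SAF
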