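import Pool.Agent.SAF.BKRcyc
import Pool.Agent.SAF.BPot
import Pool.Agent.SAF.A50
import Pool.Agent.SAF.A51

/-!
# SAF, module BKR: the second quotient complexes exist

Proof: `IRel.exists_ks` for `S.KR`: `hlost` is vacuous by `hL`; `hcyc` from `Sys.kr_cyc` (a subgroup
of a cyclic group is cyclic); `hH1`: apply `Sys.merge` to `ψ := S.KR.lift φ` (`lift_symm`,
`lift_tri`) and to `hh l'` given by `Sys.kr_exact`; the function obtained is constant on classes of
`KR` by induction on `Relation.EqvGen`.
-/

namespace Pool.Agent.SAF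

open MulAction

section

variable {H : Type} [Group H] {Y : Type} [MulAction H Y] {K : KS H Y} {D : Decomp H}
  (S : Sys H Y K D)

theorem bkr_add_zero {a b : ZMod 2} (h : a + b = 0) : a = b := by
  revert h; revert a b; decide

theorem bkr_add_self (a : ZMod 2) : a + a = 0 := by
  revert a; decide

theorem Sys.KR_exists_ks (hT : TF H) (hL : S.NoLost) (hB : S.Bridge) (l : S.LV) :
    ∃ K' : KS ↥(stabilizer H l) S.KR.Q,
      K'.P = S.KR.P l ∧ K'.E = S.KR.E l ∧ K'.T = S.KR.T l := by
  classical
  apply S.KR.exists_ks l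
  · intro p q h hlo
    exact absurd hlo (hL _ _ h.2.1)
  · intro p hp A hA
    subst hp
    have hc := S.kr_cyc hT hL p
    refine krc_cyclic_of_mem A.subtype A.subtype_injective
      (C := stabilizer ↥(stabilizer H (S.cm p)) (S.KR.c p)) ?_ hc
    intro b
    have h1 : S.KR.r (b.1.1 • p) p := hA b.1 b.2
    have h2 : S.KR.c (b.1.1 • p) = S.KR.c p := Quotient.sound h1
    exact h2
  · intro φ hφ hT'
    have hex : ∀ l' : S.LV, ∃ g : Y → ZMod 2, S.LAdj l l' →
        (∀ p q : S.V1, S.cm p = l → S.cm q = l → S.Fl l l' p.1.1 q.1.1 →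
          S.KR.lift φ p q = g p.1.1 + g q.1.1) ∧
        ∀ p q : S.V1, S.cm p = l → S.mg p q l' → g p.1.1 = g q.1.1 := by
      intro l'
      by_cases h : S.LAdj l l'
      · obtain ⟨g, hg⟩ := S.kr_exact hL hB φ hφ l l' h
        exact ⟨g, fun _ => hg⟩
      · exact ⟨fun _ => 0, fun h' => absurd h' h⟩
    choose hh hhs using hex
    obtain ⟨g, hg1, hg2⟩ := S.merge l (S.KR.lift φ) (S.KR.lift_symm φ hφ)
      (S.KR.lift_tri l φ hφ hT') hh (by
        intro l' hl p q hr hp hD
        have hq : S.cm q = l := by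
          rw [← hp]
          exact (Quotient.sound (Relation.EqvGen.rel _ _ hr)).symm
        exact (hhs l' hl).1 p q hp hq ⟨hl, hD⟩)
    refine ⟨g, hg1, ?_⟩
    intro p q hpq hp
    have hpq' : Relation.EqvGen S.kr p q := hpq
    induction hpq' with
    | rel x y hxy =>
      rcases hxy with ⟨h1, h2⟩ | ⟨e, l', n, h1, h2, h3, h4, h5, h6, h7⟩
      · have e1 := hg1 x y h1 hp
        have e2 : S.KR.c x = S.KR.c y :=
          Quotient.sound (Relation.EqvGen.rel x y (Or.inl ⟨h1, h2⟩))
        have e3 : S.KR.lift φ x y = 0 := by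
          unfold IRel.lift
          rw [if_pos e2]
        rw [e3] at e1
        exact bkr_add_zero e1.symm
      · have hy : S.cm y = l := by rw [← e]; exact hp
        have hl : S.LAdj l l' := by rw [← hp]; exact h1.1
        have e1 := hg2 l' hl x y hp hy h1.2.2.1 h2.2.2.1
        have e2 := (hhs l' hl).2 x y hp ⟨e, n, h1, h2, h3, h4, h5, h6, h7⟩
        rw [e2, bkr_add_self] at e1
        exact bkr_add_zero e1
    | refl x => rfl
    | symm x y h ih =>
      have hx : S.cm x = l := by
        rw [← hp]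
        exact S.KR.comp x y h
      exact (ih h hx).symm
    | trans x y z h1 h2 ih1 ih2 =>
      have hy : S.cm y = l := by
        rw [← hp]
        exact (S.KR.comp x y h1).symm
      exact (ih1 h1 hp).trans (ih2 h2 hy)

end

end Pool.Agent.SAF
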