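import Pool.Agent.SAF.BTc
import Pool.Agent.SAF.BTree
import Pool.Agent.SAF.BColl
import Pool.Agent.SAF.A16
import Pool.Agent.SAF.A21
import Pool.Agent.SAF.A33
import Pool.Agent.SAF.A42
import Pool.Agent.SAF.A53

/-!
# SAF, module BStInf: all edges of the new tree have nontrivial stabilisers

Proof of `no_trivial`. `exists_sys` gives a system `S'` for `D'`, `exists_tight` an `l0`. By
`exists_nontrivial` and `exists_far_centre` there are a triangle `x y z` with centre `w` such that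
`f x w` is in `SV x`, not `w`; so `p = (x, w)` is far at `cm p` in some direction `l'`
(`Far_exists`). Its class in `XR` at `cm p` has trivial stabiliser: an element of the stabiliser of
`cm p` which fixes the class fixes `l'` (`Far_eq`), so it fixes the edge `pr (cm p)`, `pr l'` of
`D'`. The class lies in a triangle of the quotient complex at `cm p` (`IRel.nondeg`; the complex
at `cm p` or, after translation, at `l0`, has the same number of triangles by minimality).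
Contradiction to `no_free`.

Proof of `JAll_of_ctr`. Suppose `l`, `l'` adjacent, trivial `J`. Apply `tree_collapse` to
`S.LD`. The second case is excluded by `no_trivial`. In the first case let `x0` be a class fixed
by `H`. All translates of `l0` have nontrivial stabiliser (`¬ SA`), so they are in the class of
`x0` (`collapse_fixed`). Let `y` be in `l` and `l'`. By `hull_behind` there are centres `a`, `b` at
`y` on the two sides of the edge `pr l`, `pr l'`; `(y, a)` and `(y, b)` are in components in the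
orbit of `l0`. By `dist_lift` the geodesic of `LG` between these two components passes through
`l`, `l'`; by `collapse_sep` the edge `l l'` has nontrivial stabiliser.
-/

namespace Pool.Agent.SAF

open MulAction

section

variable {H : Type} [Group H] {Y : Type} [MulAction H Y] {K : KS H Y}

/-- distances between the lifts of points of one subtree -/
theorem Sys.dist_lift {D : Decomp H} (S : Sys H Y K D) (p q : S.V1) (h : p.1.1 = q.1.1) :
    S.LG.dist (S.cm p) (S.cm q) = D.G.dist p.1.2 q.1.2 := by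
  have hle : ∀ (n : ℕ) (p q : S.V1), p.1.1 = q.1.1 → D.G.dist p.1.2 q.1.2 = n →
      S.LG.dist (S.cm p) (S.cm q) ≤ n := by
    intro n
    induction n with
    | zero =>
      intro p q h1 h2
      have h3 : p.1.2 = q.1.2 := (D.tree.connected.dist_eq_zero_iff).1 h2
      have h4 : p = q := Subtype.ext (Prod.ext h1 h3)
      rw [h4, SimpleGraph.dist_self]
    | succ n ih =>
      intro p q h1 h2
      have hne : p.1.2 ≠ q.1.2 := by
        intro e
        rw [e, SimpleGraph.dist_self] at h2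
        omega
      obtain ⟨c, hc, ec⟩ := exists_next D.tree hne
      have hcS : c ∈ S.SV p.1.1 := by
        apply S.SV_conv _ p.2.1 _ p.2.2 q.1.2 (by rw [h1]; exact q.2.2)
        have : D.G.dist p.1.2 c = 1 := SimpleGraph.dist_eq_one_iff_adj.2 hc
        omega
      have hadj : S.LG.Adj (S.cm p) (S.cm ⟨(p.1.1, c), p.2.1, hcS⟩) := by
        refine ⟨hc, p.1.1, S.In_cm p, S.In_cm ⟨(p.1.1, c), p.2.1, hcS⟩⟩
      have h5 := ih ⟨(p.1.1, c), p.2.1, hcS⟩ q h1 (by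
        change D.G.dist c q.1.2 = n
        omega)
      have h6 : S.LG.dist (S.cm p) (S.cm ⟨(p.1.1, c), p.2.1, hcS⟩) = 1 :=
        SimpleGraph.dist_eq_one_iff_adj.2 hadj
      have h7 := S.LG_tree.connected.dist_triangle (u := S.cm p)
        (v := S.cm ⟨(p.1.1, c), p.2.1, hcS⟩) (w := S.cm q)
      omega
  refine le_antisymm (hle _ p q h rfl) ?_
  obtain ⟨W, hW⟩ := S.LG_tree.connected.exists_walk_length_eq_dist (S.cm p) (S.cm q)
  let φ : S.LG →g D.G := ⟨S.pr, fun {a b} h => h.1⟩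
  have := SimpleGraph.dist_le (W.map φ)
  rw [SimpleGraph.Walk.length_map, hW] at this
  exact this

theorem no_trivial (hK : Crit K) (h3 : ∃ x y z, K.T x y z) (D' : Decomp H)
    (hD : ∀ x y, D'.G.Adj x y → ∀ j : H, j • x = x → j • y = y → j = 1) : False := by
  obtain ⟨S⟩ := exists_sys hK.tf K D' hK.allTri hK.link h3
  obtain ⟨l0, ht⟩ := S.exists_tight hK.tf hK.bad hK.min.1.1 hK.allTri hK.link h3
  obtain ⟨x, hx, a, ha, b, hb, hab⟩ := S.exists_nontrivial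
  obtain ⟨y, z, w, hT, hw, hfw, hfw'⟩ := S.exists_far_centre hx ha hb hab
  have hC : S.Ctr l0 := ⟨ht.1, ht.2.1, ht.2.2⟩
  have hxy : K.E x y := K.T_E _ _ _ hT
  have hyz : K.E y z := K.T_E _ _ _ (K.T_rot _ _ _ hT)
  have hzx : K.E z x := K.T_E _ _ _ (K.T_rot _ _ _ (K.T_rot _ _ _ hT))
  have hwx : w ∈ S.SV x := S.SE_sub _ _ hxy (S.ST_sub _ _ _ hT hw)
  have hwE : w ∈ S.SE y z := by
    apply S.ST_sub y z x (K.T_rot _ _ _ hT)
    rw [← S.ST_rot x y z hT]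
    exact hw
  have hwz' : w ∈ S.SE z x := by
    apply S.ST_sub z x y (K.T_rot _ _ _ (K.T_rot _ _ _ hT))
    rw [← S.ST_rot y z x (K.T_rot _ _ _ hT), ← S.ST_rot x y z hT]
    exact hw
  have hwy : w ∈ S.SV y := S.SE_sub _ _ hyz hwE
  have hwz : w ∈ S.SV z := S.SE_sub _ _ hzx hwz'
  have hy : y ∈ K.P := K.E_P _ _ hyz
  have hz : z ∈ K.P := K.E_P _ _ hzx
  -- the triangle in the blown up complex
  obtain ⟨p, hp⟩ : ∃ p : S.V1, p.1 = (x, w) := ⟨⟨(x, w), hx, hwx⟩, rfl⟩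
  obtain ⟨q, hq⟩ : ∃ q : S.V1, q.1 = (y, w) := ⟨⟨(y, w), hy, hwy⟩, rfl⟩
  obtain ⟨s, hs⟩ : ∃ s : S.V1, s.1 = (z, w) := ⟨⟨(z, w), hz, hwz⟩, rfl⟩
  have hTp : S.Tp (S.cm p) p q s := by
    refine ⟨?_, ?_, ?_, ?_, rfl⟩
    · rw [hp, hq]
    · rw [hq, hs]
    · rw [hp, hq, hs]; exact hT
    · rw [hp, hq, hs]; exact hw
  obtain ⟨g, hg⟩ := ht.2.2 p q s hTp
  -- translate it to `l0`
  have hTp' : S.Tp l0 (g⁻¹ • p) (g⁻¹ • q) (g⁻¹ • s) := by
    refine ⟨congrArg (g⁻¹ • ·) hTp.1, congrArg (g⁻¹ • ·) hTp.2.1,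
      K.T_smul g⁻¹ _ _ _ hTp.2.2.1, S.ST_smul g⁻¹ _ _ _ _ hTp.2.2.1 hTp.2.2.2.1, ?_⟩
    rw [S.cm_smul, hg, inv_smul_smul]
  have hcm : S.cm (g⁻¹ • p) = l0 := hTp'.2.2.2.2
  obtain ⟨K', hP', hE', hT'⟩ := S.XR_exists_ks hK.tf l0
  have hle1 : K'.t ≤ K.t := (Sys.Tight.t_le S ht S.XR K' hT').1
  have hle2 : K.t ≤ K'.t := hK.min.1.1 _ _ K' (hK.tf.sub _) ht.1
  have heq : K'.t = K.t := le_antisymm hle1 hle2
  have hmin : MinT K'.t := by rw [heq]; exact hK.min.1.1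
  have hnd := S.XR.nondeg l0 hC K' hT' hle2 (g⁻¹ • p) (g⁻¹ • q) (g⁻¹ • s) (by
    rw [hcm]; exact hTp')
  have hTK : K'.T (S.XR.c (g⁻¹ • p)) (S.XR.c (g⁻¹ • q)) (S.XR.c (g⁻¹ • s)) := by
    rw [hT']
    exact ⟨hnd.1, hnd.2.1, hnd.2.2, _, _, _, hTp', rfl, rfl, rfl⟩
  apply no_free (hK.tf.sub _) ht.1 K' hmin hTK
  -- the stabiliser of the class is trivial
  have hx' : (g⁻¹ • p).1.1 ∈ K.P := (g⁻¹ • p).2.1
  have hfx : S.f (g⁻¹ • p).1.1 (g⁻¹ • p).1.2 = g⁻¹ • S.f x w := by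
    change S.f (g⁻¹ • p.1.1) (g⁻¹ • p.1.2) = _
    rw [S.f_smul, hp]
  have hfm : S.f (g⁻¹ • p).1.1 (g⁻¹ • p).1.2 ∈ S.SV (g⁻¹ • p).1.1 := by
    rw [hfx]
    change _ ∈ S.SV (g⁻¹ • p.1.1)
    rw [hp]
    exact S.SV_smul g⁻¹ x _ hx hfw'
  have hfn : S.f (g⁻¹ • p).1.1 (g⁻¹ • p).1.2 ≠ (g⁻¹ • p).1.2 := by
    rw [hfx]
    change _ ≠ g⁻¹ • p.1.2
    rw [hp]
    intro e
    exact hfw (smul_left_cancel _ e)
  generalize g⁻¹ • p = p' at *
  obtain ⟨l', hl'⟩ : ∃ l', l' = S.cm ⟨(p'.1.1, S.f p'.1.1 p'.1.2), hx', hfm⟩ := ⟨_, rfl⟩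
  have hadj : D'.G.Adj p'.1.2 (S.f p'.1.1 p'.1.2) := ((S.ori _ hx').ok p'.1.2).resolve_left hfn
  have hprl' : S.pr l' = S.f p'.1.1 p'.1.2 := by rw [hl']; rfl
  have hIn' : S.In p'.1.1 l' := by
    rw [hl']
    exact S.In_cm ⟨(p'.1.1, S.f p'.1.1 p'.1.2), hx', hfm⟩
  have hFar : S.Far (S.cm p') l' p'.1.1 := by
    refine ⟨⟨?_, p'.1.1, S.In_cm p', hIn'⟩, S.In_cm p', hIn', ?_⟩
    · rw [hprl']; exact hadj
    · rw [hprl']; rfl
  intro k hk
  have hk' : S.XR.r (k.1 • p') p' := Quotient.exact hk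
  have key : k.1 • p'.1.2 = p'.1.2 ∧ k.1 • S.f p'.1.1 p'.1.2 = S.f p'.1.1 p'.1.2 := by
    rcases hk' with e | ⟨e, l'', h1, h2⟩
    · have e1 : k.1 • p'.1.1 = p'.1.1 := congrArg (fun t : S.V1 => t.1.1) e
      have e2 : k.1 • p'.1.2 = p'.1.2 := congrArg (fun t : S.V1 => t.1.2) e
      refine ⟨e2, ?_⟩
      have := S.f_smul k.1 p'.1.1 p'.1.2
      rw [e1, e2] at this
      exact this.symm
    · have h3 := S.Far_smul k.1 _ _ _ hFar
      rw [← S.cm_smul] at h3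
      have h4 : k.1 • l' = l'' := S.Far_eq h3 h1
      have h5 : l'' = l' := by
        apply S.Far_eq h2
        rw [e]
        exact hFar
      have h6 : k.1 • l' = l' := h4.trans h5
      constructor
      · have := congrArg S.pr e
        exact this
      · rw [← hprl', ← S.pr_smul, h6]
  exact Subtype.ext (hD _ _ hadj k.1 key.1 key.2)

theorem Sys.JAll_of_ctr {D : Decomp H} (S : Sys H Y K D) (hK : Crit K)
    (h3 : ∃ x y z, K.T x y z) (l0 : S.LV) (hC : S.Ctr l0) : S.JAll := by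
  intro l l' hl
  by_contra hcon
  rcases tree_collapse (S.LD hK.tf) with ⟨x0, hx0⟩ | ⟨D', hD'⟩
  swap
  · exact no_trivial hK h3 D' hD'
  -- translates of `l0`
  have htr : ∀ g : H, Relation.EqvGen (Cj H S.LG) (g • l0) x0 := by
    intro g
    apply collapse_fixed (S.LD hK.tf) x0 hx0 (g • l0)
    by_contra hn
    push Not at hn
    apply hC.bad
    apply SA.of_trivial
    intro k
    by_contra hk
    apply hn (g * k.1 * g⁻¹)
    · intro e
      apply hk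
      apply Subtype.ext
      have : k.1 = g⁻¹ * (g * k.1 * g⁻¹) * g := by group
      rw [this, e]
      group
      rfl
    · have e0 : (g * k.1 * g⁻¹) • ((g • l0 : S.LV)) = g • l0 := by
        rw [mul_smul, mul_smul, inv_smul_smul, (k.2 : k.1 • l0 = l0)]
      exact e0
  obtain ⟨y, hy, hy'⟩ := hl.2
  obtain ⟨hyl, el⟩ := hy
  obtain ⟨hyl', el'⟩ := hy'
  have hcen : ∀ (c : D.X) (hc : c ∈ {w | ∃ y' z', K.T y y' z' ∧ w ∈ S.ST y y' z'}),
      ∃ (h : y ∈ K.P ∧ c ∈ S.SV y) (g : H), S.cm ⟨(y, c), h⟩ = g • l0 := by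
    rintro c ⟨y', z', hT, hc⟩
    have hxy : K.E y y' := K.T_E _ _ _ hT
    have hyz : K.E y' z' := K.T_E _ _ _ (K.T_rot _ _ _ hT)
    have hzx : K.E z' y := K.T_E _ _ _ (K.T_rot _ _ _ (K.T_rot _ _ _ hT))
    have hcE : c ∈ S.SE y' z' := by
      apply S.ST_sub y' z' y (K.T_rot _ _ _ hT)
      rw [← S.ST_rot y y' z' hT]
      exact hc
    have hcE' : c ∈ S.SE z' y := by
      apply S.ST_sub z' y y' (K.T_rot _ _ _ (K.T_rot _ _ _ hT))
      rw [← S.ST_rot y' z' y (K.T_rot _ _ _ hT), ← S.ST_rot y y' z' hT]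
      exact hc
    have h1 : c ∈ S.SV y := S.SE_sub _ _ hxy (S.ST_sub _ _ _ hT hc)
    refine ⟨⟨hyl.1, h1⟩, ?_⟩
    exact hC.ctr ⟨(y, c), hyl.1, h1⟩ ⟨(y', c), K.E_P _ _ hyz, S.SE_sub _ _ hyz hcE⟩
      ⟨(z', c), K.E_P _ _ hzx, S.SE_sub _ _ hzx hcE'⟩ ⟨rfl, rfl, hT, hc, rfl⟩
  have hh1 : S.pr l ∈ hull D.G {w | ∃ y' z', K.T y y' z' ∧ w ∈ S.ST y y' z'} := by
    rw [← S.SV_hull y hyl.1]; exact hyl.2
  have hh2 : S.pr l' ∈ hull D.G {w | ∃ y' z', K.T y y' z' ∧ w ∈ S.ST y y' z'} := by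
    rw [← S.SV_hull y hyl.1]; exact hyl'.2
  obtain ⟨a, ha, da⟩ := hull_behind D.tree hl.1 hh1
  obtain ⟨b, hb, db⟩ := hull_behind D.tree hl.1.symm hh2
  obtain ⟨hay, ga, ea⟩ := hcen a ha
  obtain ⟨hby, gb, eb⟩ := hcen b hb
  have hcr := fiv_dist_cross D.tree hl.1 da db
  have hEq : Relation.EqvGen (Cj H S.LG) (S.cm ⟨(y, a), hay⟩) (S.cm ⟨(y, b), hby⟩) := by
    rw [ea, eb]
    exact (htr ga).trans _ _ _ ((htr gb).symm _ _)
  have d1 := S.dist_lift ⟨(y, a), hay⟩ ⟨(y, S.pr l), hyl⟩ rfl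
  have d2 := S.dist_lift ⟨(y, S.pr l'), hyl'⟩ ⟨(y, b), hby⟩ rfl
  have d3 := S.dist_lift ⟨(y, a), hay⟩ ⟨(y, b), hby⟩ rfl
  rw [el] at d1
  rw [el'] at d2
  have hfin := collapse_sep (S.LD hK.tf) (a := S.cm ⟨(y, a), hay⟩) (b := S.cm ⟨(y, b), hby⟩)
    (u := l) (v := l') hEq hl (by
      change S.LG.dist _ _ + 1 + S.LG.dist _ _ = S.LG.dist _ _
      rw [d1, d2, d3]
      exact hcr.symm)
  obtain ⟨-, j, j1, j2, j3⟩ := hfin
  exact hcon ⟨j, ⟨j2, j3⟩, j1⟩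

end

end Pool.Agent.SAF
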