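import Pool.Agent.SAF.BMin
import Pool.Agent.SAF.BCount
import Pool.Agent.SAF.BBridge
import Pool.Agent.SAF.BKR
import Pool.Agent.SAF.BJinf
import Pool.Agent.SAF.BEnd
import Pool.Agent.SAF.BStInf

/-!
# SAF, module BFinal: every torsion-free finitely presented group is strongly accessible
-/

namespace Pool.Agent.SAF

open MulAction

theorem Crit.exists_T {H : Type} [Group H] {Y : Type} [MulAction H Y] {K : KS H Y}
    (hK : Crit K) : ∃ x y z, K.T x y z := by
  by_contra h
  push Not at h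
  apply hK.bad
  apply SA_of_t_zero K hK.tf
  have : {p : Y × Y × Y | K.T p.1 p.2.1 p.2.2} = ∅ := by
    ext p
    simp only [Set.mem_setOf_eq, Set.mem_empty_iff_false, iff_false]
    exact h _ _ _
  simp [KS.t, this, oc, orbs]

theorem Sys.dConn {H : Type} [Group H] {Y : Type} [MulAction H Y] {K : KS H Y} {D : Decomp H}
    (S : Sys H Y K D) : S.DConn := by
  intro l l' x y h hx hx' hy hy'
  have := S.strip_conn l l' h x y hx hx' hy hy'
  induction this with
  | refl => exact Relation.EqvGen.refl _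
  | tail _ hbc ih =>
    refine Relation.EqvGen.trans _ _ _ (ih ?_ ?_) (Relation.EqvGen.rel _ _ ⟨h, hbc⟩)
    · exact hbc.1.2.2.1
    · exact hbc.2.2.2.1

theorem Crit.false {H : Type} [Group H] {Y : Type} [MulAction H Y] {K : KS H Y}
    (hK : Crit K) : False := by
  have hT := hK.tf
  obtain ⟨D⟩ := exists_decomp hK.bad
  have h3 := hK.exists_T
  obtain ⟨S⟩ := exists_sys hT K D hK.allTri hK.link h3
  obtain ⟨l0, ht⟩ := S.exists_tight hT hK.bad hK.min.1.1 hK.allTri hK.link h3
  have hC : S.Ctr l0 := ⟨ht.1, ht.2.1, ht.2.2⟩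
  have hL : S.NoLost := hC.noLost
  have hT0 : TF ↥(stabilizer H l0) := hT.sub _
  have hJ : S.JAll := S.JAll_of_ctr hK h3 l0 hC
  obtain ⟨K1, -, hE1, hT1⟩ := S.XR_exists_ks hT l0
  have ht1 : K.t ≤ K1.t := hK.min.1.1 _ _ K1 hT0 hC.bad
  have ht1' : K1.t = K.t := le_antisymm (S.XR.t_le_ctr l0 hC K1 hT1) ht1
  have he1 : K.ef ≤ K1.ef := hK.min.1.2 _ _ K1 hT0 hC.bad ht1'
  obtain ⟨hN, he1'⟩ := S.count_eq hT hL hK.allTri hJ S.dConn l0 K1 hE1 hT1 he1
  have hB : S.Bridge := S.bridge hT hL hN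
  obtain ⟨K2, -, -, hT2⟩ := S.KR_exists_ks hT hL hB l0
  have hmin2 : MinT K2.t := by
    have h1 : K2.t ≤ K.t := S.KR.t_le_ctr l0 hC K2 hT2
    intro H' _ Y' _ K' a b
    exact h1.trans (hK.min.1.1 _ _ K' a b)
  have hfree : ∀ a b c, K2.T a b c → ¬ Fr ↥(stabilizer H l0) a := fun a b c h =>
    no_free hT0 hC.bad K2 hmin2 h
  have hJi := S.all_Jinf hK l0 hC K2 hT2 hfree
  have hs : ∀ x ∈ K.P, ∃ w, S.f x w = w := S.all_sink hJi
  have hnv := S.nv_lt hK l0 hC hs K1 hT1 ht1
  have := hK.min.2 _ _ K1 hT0 hC.bad ht1' he1'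
  omega

/-- Every torsion-free finitely presented group is strongly accessible over the class of finite and
virtually infinite cyclic groups. -/
theorem main (G : Type) [Group G] [Group.IsFinitelyPresented G] (hT : TF G) : SA G := by
  by_contra hb
  obtain ⟨H, _, Y, _, K, hK⟩ := exists_crit G hT hb
  exact hK.false

end Pool.Agent.SAF
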