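import Pool.Agent.SAF.BBasic
import Pool.Agent.SAF.AOrb

/-!
# SAF, module BGr: the graphs of flags and corners are cofinite graphs
-/

namespace Pool.Agent.SAF

open MulAction

section BGrAux

variable {H : Type} [Group H] {Y : Type} [MulAction H Y]
variable {H' : Type} [Group H'] {Y' : Type} [MulAction H' Y']

theorem bgr_union {s t : Set Y} (hs : FinOrb H s) (ht : FinOrb H t) : FinOrb H (s ∪ t) := by
  unfold FinOrb orbs
  rw [Set.image_union]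
  exact Set.Finite.union hs ht

theorem bgr_of_or {s t u : Set Y} (hs : FinOrb H s) (ht : FinOrb H t)
    (h : ∀ z ∈ u, z ∈ s ∨ z ∈ t) : FinOrb H u :=
  (bgr_union hs ht).mono (fun z hz => h z hz)

/-- finiteness of orbits through a relation which is injective on orbits -/
theorem bgr_of_rel {s : Set Y} {s' : Set Y'} (hs' : FinOrb H' s') (R : Y → Y' → Prop)
    (hf : ∀ a ∈ s, ∃ b ∈ s', R a b)
    (hinj : ∀ a ∈ s, ∀ b ∈ s, ∀ a' b', R a a' → R b b' →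
      (∃ h : H', h • a' = b') → ∃ h : H, h • a = b) : FinOrb H s := by
  classical
  by_cases hne : ∃ a, a ∈ s
  · obtain ⟨a0, ha0⟩ := hne
    obtain ⟨b0, _⟩ := hf a0 ha0
    have : ∀ a : Y, ∃ b : Y', a ∈ s → b ∈ s' ∧ R a b := by
      intro a
      by_cases ha : a ∈ s
      · obtain ⟨b, hb⟩ := hf a ha
        exact ⟨b, fun _ => hb⟩
      · exact ⟨b0, fun h => absurd h ha⟩
    choose f hf' using this
    exact FinOrb.of_inj hs' f (fun a ha => (hf' a ha).1)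
      (fun a ha b hb e => hinj a ha b hb _ _ (hf' a ha).2 (hf' b hb).2 e)
  · have : s = ∅ := by
      ext a; constructor
      · intro h; exact absurd ⟨a, h⟩ hne
      · intro h; exact h.elim
    subst this
    simp [FinOrb, orbs]

end BGrAux

section

variable {H : Type} [Group H] {Y : Type} [MulAction H Y] {K : KS H Y} {D : Decomp H}
  (S : Sys H Y K D)

theorem Sys.Far_In {l l' : S.LV} {x : Y} (h : S.Far l l' x) : S.In x l ∧ S.In x l' :=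
  ⟨h.2.1, h.2.2.1⟩

/-- transport of a component along a group element -/
theorem Sys.bgr_key {h : H} {l m : S.LV} {x y : Y} (hx : S.In x l) (hy : S.In y m)
    (e1 : h • x = y) (e2 : h • S.pr l = S.pr m) : h • l = m := by
  have h1 := S.In_smul h x l hx
  rw [e1] at h1
  exact S.In_eq h1 hy (by rw [S.pr_smul, e2])

theorem Sys.bgr_far {h : H} {l l' m m' : S.LV} {x y : Y} (hx : S.Far l l' x)
    (hy : S.Far m m' y) (e1 : h • x = y) (e2 : h • l = m) : h • l' = m' := by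
  have h1 := S.Far_smul h _ _ _ hx
  rw [e1, e2] at h1
  exact S.Far_eq h1 hy

theorem Sys.bgr_finFar : FinOrb H {z : S.LV × S.LV × Y | S.Far z.1 z.2.1 z.2.2} := by
  apply FinOrb.of_inj S.finV (fun z => (z.2.2, S.pr z.1))
  · rintro ⟨l, l', x⟩ hz
    exact ⟨S.In_P hz.2.1, S.In_SV hz.2.1⟩
  · rintro ⟨l, l', x⟩ ha ⟨m, m', y⟩ hb ⟨h, e⟩
    have e1 : h • x = y := congrArg Prod.fst e
    have e2 : h • S.pr l = S.pr m := congrArg Prod.snd e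
    have e3 := S.bgr_key ha.2.1 hb.2.1 e1 e2
    have e4 := S.bgr_far ha hb e1 e3
    exact ⟨h, Prod.ext e3 (Prod.ext e4 e1)⟩

theorem Sys.bgr_finFar' : FinOrb H {z : S.LV × S.LV × Y | S.Far z.2.1 z.1 z.2.2} := by
  apply FinOrb.of_inj S.finV (fun z => (z.2.2, S.pr z.2.1))
  · rintro ⟨l, l', x⟩ hz
    exact ⟨S.In_P hz.2.1, S.In_SV hz.2.1⟩
  · rintro ⟨l, l', x⟩ ha ⟨m, m', y⟩ hb ⟨h, e⟩
    have e1 : h • x = y := congrArg Prod.fst e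
    have e2 : h • S.pr l' = S.pr m' := congrArg Prod.snd e
    have e3 := S.bgr_key ha.2.1 hb.2.1 e1 e2
    have e4 := S.bgr_far ha hb e1 e3
    exact ⟨h, Prod.ext e4 (Prod.ext e3 e1)⟩

theorem Sys.bgr_finW1 : FinOrb H S.W1 := by
  apply bgr_of_or S.bgr_finFar S.bgr_finFar'
  rintro ⟨l, l', x⟩ hz
  exact S.near_or_far hz.1 hz.2.1 hz.2.2

/-- the edge pieces have finitely many orbits -/
theorem Sys.bgr_finPE (hL : S.NoLost) :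
    FinOrb H {p : S.LV × Y × Y | S.PE p.1 p.2.1 p.2.2} := by
  apply FinOrb.of_inj S.finE (fun z => ((z.2.1, z.2.2), S.pr z.1))
  · rintro ⟨l, x, y⟩ hz
    exact ⟨hz.1, hL _ _ hz.1, hz.2.1⟩
  · rintro ⟨l, x, y⟩ ha ⟨m, x', y'⟩ hb ⟨h, e⟩
    have e1 : h • x = x' := congrArg (fun t => t.1.1) e
    have e1' : h • y = y' := congrArg (fun t => t.1.2) e
    have e2 : h • S.pr l = S.pr m := congrArg Prod.snd e
    have e3 := S.bgr_key ha.2.2.1 hb.2.2.1 e1 e2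
    exact ⟨h, Prod.ext e3 (Prod.ext e1 e1')⟩

theorem Sys.bgr_finF1 (hL : S.NoLost) :
    FinOrb H {p : (S.LV × S.LV × Y) × (S.LV × S.LV × Y) | S.F1 p.1 p.2} := by
  have h1 : FinOrb H {p : (S.LV × S.LV × Y) × (S.LV × S.LV × Y) |
      S.F1 p.1 p.2 ∧ S.Far p.1.1 p.1.2.1 p.1.2.2} := by
    apply FinOrb.of_inj (S.bgr_finPE hL) (fun p => (p.1.1, p.1.2.2, p.2.2.2))
    · rintro ⟨⟨l, l', x⟩, ⟨m, m', y⟩⟩ ⟨⟨_, _, hz⟩, _⟩
      exact hz.2.1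
    · rintro ⟨⟨l, l', x⟩, ⟨m, m', y⟩⟩ ⟨⟨ea, eb, hz⟩, hf⟩ ⟨⟨k, k', x'⟩, ⟨n, n', y'⟩⟩
        ⟨⟨ea', eb', hz'⟩, hf'⟩ ⟨h, e⟩
      dsimp only at ea eb ea' eb' hz hz' hf hf'
      subst ea eb ea' eb'
      have e1 : h • l = k := congrArg (fun t => t.1) e
      have e2 : h • x = x' := congrArg (fun t => t.2.1) e
      have e3 : h • y = y' := congrArg (fun t => t.2.2) e
      have e4 := S.bgr_far hf hf' e2 e1
      exact ⟨h, Prod.ext (Prod.ext e1 (Prod.ext e4 e2)) (Prod.ext e1 (Prod.ext e4 e3))⟩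
  have h2 : FinOrb H {p : (S.LV × S.LV × Y) × (S.LV × S.LV × Y) |
      S.F1 p.1 p.2 ∧ S.Far p.1.1 p.1.2.1 p.2.2.2} := by
    apply FinOrb.of_inj (S.bgr_finPE hL) (fun p => (p.1.1, p.1.2.2, p.2.2.2))
    · rintro ⟨⟨l, l', x⟩, ⟨m, m', y⟩⟩ ⟨⟨_, _, hz⟩, _⟩
      exact hz.2.1
    · rintro ⟨⟨l, l', x⟩, ⟨m, m', y⟩⟩ ⟨⟨ea, eb, hz⟩, hf⟩ ⟨⟨k, k', x'⟩, ⟨n, n', y'⟩⟩
        ⟨⟨ea', eb', hz'⟩, hf'⟩ ⟨h, e⟩
      dsimp only at ea eb ea' eb' hz hz' hf hf'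
      subst ea eb ea' eb'
      have e1 : h • l = k := congrArg (fun t => t.1) e
      have e2 : h • x = x' := congrArg (fun t => t.2.1) e
      have e3 : h • y = y' := congrArg (fun t => t.2.2) e
      have e4 := S.bgr_far hf hf' e3 e1
      exact ⟨h, Prod.ext (Prod.ext e1 (Prod.ext e4 e2)) (Prod.ext e1 (Prod.ext e4 e3))⟩
  apply bgr_of_or h1 h2
  rintro ⟨⟨l, l', x⟩, ⟨m, m', y⟩⟩ hz
  rcases S.Fl_far hL hz.2.2 with a | a
  · exact Or.inl ⟨hz, a.1⟩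
  · exact Or.inr ⟨hz, a.1⟩

theorem Sys.Gr1 (hL : S.NoLost) : Gr H S.W1 S.F1 where
  symm := by
    rintro ⟨l, l', x⟩ ⟨m, m', y⟩ ⟨ea, eb, h⟩
    dsimp only at ea eb h
    subst ea eb
    exact ⟨rfl, rfl, S.Fl_swap h⟩
  irr := by
    rintro ⟨l, l', x⟩ ⟨_, _, h⟩
    exact K.E_irr _ h.2.1.1
  inv := by
    rintro h ⟨l, l', x⟩ ⟨m, m', y⟩ ⟨ea, eb, e⟩
    dsimp only at ea eb e
    subst ea eb
    exact ⟨rfl, rfl, S.Fl_smul h e⟩
  W_inv := by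
    rintro h ⟨l, l', x⟩ hz
    exact ⟨S.LAdj_smul h _ _ hz.1, S.In_smul h _ _ hz.2.1, S.In_smul h _ _ hz.2.2⟩
  mem := by
    rintro ⟨l, l', x⟩ ⟨m, m', y⟩ ⟨_, _, e⟩
    exact ⟨e.1, (S.Fl_In e).1, (S.Fl_In e).2.1⟩
  finW := S.bgr_finW1
  finF := S.bgr_finF1 hL

theorem Sys.bgr_finW2 : FinOrb H S.W2 := by
  have h1 : FinOrb H {z : S.LV × S.LV × S.LV × Y | z ∈ S.W2 ∧ S.Far z.2.1 z.1 z.2.2.2} := by
    apply FinOrb.of_inj S.finV (fun z => (z.2.2.2, S.pr z.2.2.1))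
    · rintro ⟨l1, l, l2, x⟩ hz
      exact ⟨S.In_P hz.2.2.1, S.In_SV hz.1.2.2.2.2.2.1⟩
    · rintro ⟨l1, l, l2, x⟩ ⟨ha, hf⟩ ⟨m1, m, m2, y⟩ ⟨hb, hg⟩ ⟨h, e⟩
      obtain ⟨ha1, ha2, ha3, ha4, ha5, ha6, ha7⟩ := ha
      obtain ⟨hb1, hb2, hb3, hb4, hb5, hb6, hb7⟩ := hb
      dsimp only at ha1 ha2 ha3 ha4 ha5 ha6 hb1 hb2 hb3 hb4 hb5 hb6 hf hg
      have e1 : h • x = y := congrArg Prod.fst e
      have e2 : h • S.pr l2 = S.pr m2 := congrArg Prod.snd e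
      have e3 := S.bgr_key ha6 hb6 e1 e2
      have n1 : S.Far l2 l x := by
        rcases S.near_or_far ha3 ha5 ha6 with a | a
        · exact absurd (S.Far_eq hf a) ha1
        · exact a
      have n2 : S.Far m2 m y := by
        rcases S.near_or_far hb3 hb5 hb6 with a | a
        · exact absurd (S.Far_eq hg a) hb1
        · exact a
      have e4 := S.bgr_far n1 n2 e1 e3
      have e5 := S.bgr_far hf hg e1 e4
      exact ⟨h, Prod.ext e5 (Prod.ext e4 (Prod.ext e3 e1))⟩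
  have h2 : FinOrb H {z : S.LV × S.LV × S.LV × Y | z ∈ S.W2 ∧ S.Far z.2.1 z.2.2.1 z.2.2.2} := by
    apply FinOrb.of_inj S.finV (fun z => (z.2.2.2, S.pr z.1))
    · rintro ⟨l1, l, l2, x⟩ hz
      exact ⟨S.In_P hz.2.2.1, S.In_SV hz.1.2.2.2.1⟩
    · rintro ⟨l1, l, l2, x⟩ ⟨ha, hf⟩ ⟨m1, m, m2, y⟩ ⟨hb, hg⟩ ⟨h, e⟩
      obtain ⟨ha1, ha2, ha3, ha4, ha5, ha6, ha7⟩ := ha
      obtain ⟨hb1, hb2, hb3, hb4, hb5, hb6, hb7⟩ := hb
      dsimp only at ha1 ha2 ha3 ha4 ha5 ha6 hb1 hb2 hb3 hb4 hb5 hb6 hf hg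
      have e1 : h • x = y := congrArg Prod.fst e
      have e2 : h • S.pr l1 = S.pr m1 := congrArg Prod.snd e
      have e3 := S.bgr_key ha4 hb4 e1 e2
      have n1 : S.Far l1 l x := by
        rcases S.near_or_far ha2 ha5 ha4 with a | a
        · exact absurd (S.Far_eq a hf) ha1
        · exact a
      have n2 : S.Far m1 m y := by
        rcases S.near_or_far hb2 hb5 hb4 with a | a
        · exact absurd (S.Far_eq a hg) hb1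
        · exact a
      have e4 := S.bgr_far n1 n2 e1 e3
      have e5 := S.bgr_far hf hg e1 e4
      exact ⟨h, Prod.ext e3 (Prod.ext e4 (Prod.ext e5 e1))⟩
  apply bgr_of_or h1 h2
  rintro ⟨l1, l, l2, x⟩ hz
  rcases hz.2.2.2.2.2.2 with a | a
  · exact Or.inl ⟨hz, a⟩
  · exact Or.inr ⟨hz, a⟩

theorem Sys.bgr_finF2 (hL : S.NoLost) :
    FinOrb H {p : (S.LV × S.LV × S.LV × Y) × (S.LV × S.LV × S.LV × Y) | S.F2 p.1 p.2} := by
  have h1 : FinOrb H {p : (S.LV × S.LV × S.LV × Y) × (S.LV × S.LV × S.LV × Y) |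
      S.F2 p.1 p.2 ∧ S.Far p.1.2.1 p.1.1 p.1.2.2.2 ∧ S.Far p.1.2.1 p.1.2.2.1 p.2.2.2.2} := by
    apply FinOrb.of_inj (S.bgr_finPE hL) (fun p => (p.1.2.1, p.1.2.2.2, p.2.2.2.2))
    · rintro ⟨⟨l1, l, l2, x⟩, ⟨m1, m, m2, y⟩⟩ ⟨⟨_, _, _, _, hz, _⟩, _⟩
      exact hz.2.1
    · rintro ⟨⟨l1, l, l2, x⟩, ⟨m1, m, m2, y⟩⟩ ⟨⟨ea, eb, ec, _, _, _⟩, hf, hg⟩
        ⟨⟨k1, k, k2, x'⟩, ⟨n1, n, n2, y'⟩⟩ ⟨⟨ea', eb', ec', _, _, _⟩, hf', hg'⟩ ⟨h, e⟩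
      dsimp only at ea eb ec ea' eb' ec' hf hg hf' hg'
      subst ea eb ec ea' eb' ec'
      have e1 : h • l = k := congrArg (fun t => t.1) e
      have e2 : h • x = x' := congrArg (fun t => t.2.1) e
      have e3 : h • y = y' := congrArg (fun t => t.2.2) e
      have e4 := S.bgr_far hf hf' e2 e1
      have e5 := S.bgr_far hg hg' e3 e1
      exact ⟨h, Prod.ext (Prod.ext e4 (Prod.ext e1 (Prod.ext e5 e2)))
        (Prod.ext e4 (Prod.ext e1 (Prod.ext e5 e3)))⟩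
  have h2 : FinOrb H {p : (S.LV × S.LV × S.LV × Y) × (S.LV × S.LV × S.LV × Y) |
      S.F2 p.1 p.2 ∧ S.Far p.1.2.1 p.1.2.2.1 p.1.2.2.2 ∧ S.Far p.1.2.1 p.1.1 p.2.2.2.2} := by
    apply FinOrb.of_inj (S.bgr_finPE hL) (fun p => (p.1.2.1, p.1.2.2.2, p.2.2.2.2))
    · rintro ⟨⟨l1, l, l2, x⟩, ⟨m1, m, m2, y⟩⟩ ⟨⟨_, _, _, _, hz, _⟩, _⟩
      exact hz.2.1
    · rintro ⟨⟨l1, l, l2, x⟩, ⟨m1, m, m2, y⟩⟩ ⟨⟨ea, eb, ec, _, _, _⟩, hf, hg⟩
        ⟨⟨k1, k, k2, x'⟩, ⟨n1, n, n2, y'⟩⟩ ⟨⟨ea', eb', ec', _, _, _⟩, hf', hg'⟩ ⟨h, e⟩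
      dsimp only at ea eb ec ea' eb' ec' hf hg hf' hg'
      subst ea eb ec ea' eb' ec'
      have e1 : h • l = k := congrArg (fun t => t.1) e
      have e2 : h • x = x' := congrArg (fun t => t.2.1) e
      have e3 : h • y = y' := congrArg (fun t => t.2.2) e
      have e4 := S.bgr_far hf hf' e2 e1
      have e5 := S.bgr_far hg hg' e3 e1
      exact ⟨h, Prod.ext (Prod.ext e5 (Prod.ext e1 (Prod.ext e4 e2)))
        (Prod.ext e5 (Prod.ext e1 (Prod.ext e4 e3)))⟩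
  apply bgr_of_or h1 h2
  rintro ⟨⟨l1, l, l2, x⟩, ⟨m1, m, m2, y⟩⟩ hz
  obtain ⟨ea, eb, ec, hne, hz1, hz2⟩ := hz
  rcases S.Fl_corner hL hz1 hz2 hne with a | a
  · exact Or.inl ⟨⟨ea, eb, ec, hne, hz1, hz2⟩, a⟩
  · exact Or.inr ⟨⟨ea, eb, ec, hne, hz1, hz2⟩, a⟩

theorem Sys.Gr2 (hL : S.NoLost) : Gr H S.W2 S.F2 where
  symm := by
    rintro ⟨l1, l, l2, x⟩ ⟨m1, m, m2, y⟩ ⟨ea, eb, ec, hne, h1, h2⟩
    dsimp only at ea eb ec hne h1 h2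
    subst ea eb ec
    exact ⟨rfl, rfl, rfl, hne, S.Fl_swap h1, S.Fl_swap h2⟩
  irr := by
    rintro ⟨l1, l, l2, x⟩ ⟨_, _, _, _, h, _⟩
    exact K.E_irr _ h.2.1.1
  inv := by
    rintro h ⟨l1, l, l2, x⟩ ⟨m1, m, m2, y⟩ ⟨ea, eb, ec, hne, h1, h2⟩
    dsimp only at ea eb ec hne h1 h2
    subst ea eb ec
    refine ⟨rfl, rfl, rfl, ?_, S.Fl_smul h h1, S.Fl_smul h h2⟩
    intro e
    exact hne (smul_left_cancel h e)
  W_inv := by
    rintro h ⟨l1, l, l2, x⟩ ⟨h1, h2, h3, h4, h5, h6, h7⟩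
    dsimp only at h1 h2 h3 h4 h5 h6 h7
    refine ⟨fun e => h1 (smul_left_cancel h e), S.LAdj_smul h _ _ h2, S.LAdj_smul h _ _ h3,
      S.In_smul h _ _ h4, S.In_smul h _ _ h5, S.In_smul h _ _ h6, ?_⟩
    rcases h7 with a | a
    · exact Or.inl (S.Far_smul h _ _ _ a)
    · exact Or.inr (S.Far_smul h _ _ _ a)
  mem := by
    rintro ⟨l1, l, l2, x⟩ ⟨m1, m, m2, y⟩ ⟨_, _, _, hne, h1, h2⟩
    dsimp only at hne h1 h2
    refine ⟨hne, h1.1, h2.1, (S.Fl_In h1).2.1, (S.Fl_In h1).1, (S.Fl_In h2).2.1, ?_⟩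
    rcases S.Fl_corner hL h1 h2 hne with a | a
    · exact Or.inl a.1
    · exact Or.inr a.1
  finW := S.bgr_finW2
  finF := S.bgr_finF2 hL

theorem Sys.bgr_Lv_Fl (n : ℕ) {l l' : S.LV} {x y : Y} (h : S.Lv n l l' x y) :
    S.Fl l l' x y := by
  cases n with
  | zero => exact h
  | succ n => exact h.1

theorem Sys.bgr_Lv_swap (n : ℕ) : ∀ {l l' : S.LV} {x y : Y}, S.Lv n l l' x y →
    S.Lv n l l' y x := by
  induction n with
  | zero =>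
    intro l l' x y h
    exact S.Fl_swap h
  | succ n ih =>
    rintro l l' x y ⟨h, l'', hne, h'⟩
    exact ⟨S.Fl_swap h, l'', hne, ih h'⟩

theorem Sys.bgr_Lv_smul (n : ℕ) (g : H) : ∀ {l l' : S.LV} {x y : Y}, S.Lv n l l' x y →
    S.Lv n (g • l) (g • l') (g • x) (g • y) := by
  induction n with
  | zero =>
    intro l l' x y h
    exact S.Fl_smul g h
  | succ n ih =>
    rintro l l' x y ⟨h, l'', hne, h'⟩
    exact ⟨S.Fl_smul g h, g • l'', fun e => hne (smul_left_cancel g e), ih h'⟩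

theorem Sys.GrFL (hL : S.NoLost) (n : ℕ) : Gr H S.W1 (S.FL n) where
  symm := by
    rintro ⟨l, l', x⟩ ⟨m, m', y⟩ ⟨ea, eb, h⟩
    dsimp only at ea eb h
    subst ea eb
    exact ⟨rfl, rfl, S.bgr_Lv_swap n h⟩
  irr := by
    rintro ⟨l, l', x⟩ ⟨_, _, h⟩
    exact K.E_irr _ (S.bgr_Lv_Fl n h).2.1.1
  inv := by
    rintro h ⟨l, l', x⟩ ⟨m, m', y⟩ ⟨ea, eb, e⟩
    dsimp only at ea eb e
    subst ea eb
    exact ⟨rfl, rfl, S.bgr_Lv_smul n h e⟩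
  W_inv := (S.Gr1 hL).W_inv
  mem := by
    rintro ⟨l, l', x⟩ ⟨m, m', y⟩ ⟨_, _, e⟩
    have e' := S.bgr_Lv_Fl n e
    exact ⟨e'.1, (S.Fl_In e').1, (S.Fl_In e').2.1⟩
  finW := S.bgr_finW1
  finF := by
    apply (S.bgr_finF1 hL).mono
    rintro ⟨a, b⟩ ⟨ea, eb, e⟩
    exact ⟨ea, eb, S.bgr_Lv_Fl n e⟩

/-- free pieces and labels have finitely many orbits -/
theorem Sys.finPE (hL : S.NoLost) :
    FinOrb H {p : S.LV × Y × Y | S.PE p.1 p.2.1 p.2.2} := S.bgr_finPE hL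

theorem Sys.finLab (hL : S.NoLost) : FinOrb H S.Lab := by
  apply bgr_of_rel S.finE (fun (p : S.XR.Q × S.XR.Q) (z : (Y × Y) × D.X) =>
    ∃ a b : S.V1, a.1 = (z.1.1, z.2) ∧ b.1 = (z.1.2, z.2) ∧ S.XR.c a = p.1 ∧ S.XR.c b = p.2)
  · rintro ⟨c, c'⟩ ⟨l, _, p, q, hr, _, e1, e2⟩
    obtain ⟨h1, h2, h3⟩ := hr
    refine ⟨((p.1.1, q.1.1), p.1.2), ⟨h2, hL _ _ h2, h3⟩, p, q, rfl, ?_, e1, e2⟩
    exact Prod.ext rfl h1.symm
  · rintro ⟨c, c'⟩ _ ⟨d, d'⟩ _ ⟨⟨x, y⟩, w⟩ ⟨⟨x', y'⟩, w'⟩ ⟨a, b, ha, hb, e1, e2⟩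
      ⟨a', b', ha', hb', e1', e2'⟩ ⟨h, e⟩
    dsimp only at ha hb ha' hb' e1 e2 e1' e2'
    have f1 : h • x = x' := congrArg (fun t => t.1.1) e
    have f2 : h • y = y' := congrArg (fun t => t.1.2) e
    have f3 : h • w = w' := congrArg Prod.snd e
    have g1 : h • a = a' := by
      apply Subtype.ext
      rw [S.smul_val, ha', ha, f1, f3]
    have g2 : h • b = b' := by
      apply Subtype.ext
      rw [S.smul_val, hb', hb, f2, f3]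
    refine ⟨h, Prod.ext ?_ ?_⟩
    · show h • c = d
      rw [← e1, ← e1', ← IRel.c_smul, g1]
    · show h • c' = d'
      rw [← e2, ← e2', ← IRel.c_smul, g2]

end

end Pool.Agent.SAF
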