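import Pool.Agent.SAF.BDefs

/-!
# SAF, module BInc: adding one orbit of edges to an invariant graph

Proof. Write `F'` for `addE H F u v`, `A`, `B` for the components of `u`, `v` in `F`.
* `u`, `v` not free as an edge: both ends have components with nontrivial stabiliser, `Cl` holds,
  the orbits of free darts are the same.
* `u`, `v` free: two new orbits of free darts, `(u, v)` and `(v, u)`: they are different from the
  old ones because `F` is invariant and symmetric, and from each other because `h u = v`,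
  `h v = u` gives `h * h = 1`, so `h = 1` (`TF`) and `u = v`.
* components: if `u` and `v` are in the same component nothing changes. If both components have
  nontrivial stabiliser: an `x` with `FrC H F x` is in no translate of `A` or `B`, so its component
  in `F'` is the component in `F`; hence `c0` does not change.
* otherwise `A` and `B` are different and one of them, say `A`, has trivial stabiliser; then `c0`
  drops by one: (i) `v` is in `g A`, `g` not `1`: in `F'` the component of `u` contains `A` and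
  `g A`, so all translates of `A` become non-free; (ii) `v` is in no translate of `A`, `B` with
  nontrivial stabiliser: the translates of `A` become non-free; (iii) `v` is in no translate of
  `A` and `B` has trivial stabiliser: the component of `u` in `F'` is the union of `A` and `B`,
  with trivial stabiliser, and two orbits of components become one. In all cases the components
  of the other `x` with `FrC H F x` (in no translate of `A`, `B`) stay the same.
-/

namespace Pool.Agent.SAF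

open MulAction

section

variable {H : Type} [Group H] {Z : Type} [MulAction H Z]

/-! ### general lemmas -/

theorem binc_mono {F F' : Z → Z → Prop} (hFF : ∀ a b, F a b → F' a b) {a b : Z}
    (h : Relation.EqvGen F a b) : Relation.EqvGen F' a b := by
  induction h with
  | rel x y hxy => exact Relation.EqvGen.rel _ _ (hFF _ _ hxy)
  | refl x => exact Relation.EqvGen.refl _
  | symm x y _ ih => exact Relation.EqvGen.symm _ _ ih
  | trans x y z _ _ ih1 ih2 => exact Relation.EqvGen.trans _ _ _ ih1 ih2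

theorem binc_prop {F : Z → Z → Prop} {P : Z → Prop} (hP : ∀ a b, F a b → (P a ↔ P b))
    {a b : Z} (h : Relation.EqvGen F a b) : P a ↔ P b := by
  induction h with
  | rel x y hxy => exact hP _ _ hxy
  | refl x => exact Iff.rfl
  | symm x y _ ih => exact ih.symm
  | trans x y z _ _ ih1 ih2 => exact ih1.trans ih2

theorem binc_smul {F : Z → Z → Prop} (inv : ∀ (h : H) (a b : Z), F a b → F (h • a) (h • b))
    (g : H) {a b : Z} (h : Relation.EqvGen F a b) : Relation.EqvGen F (g • a) (g • b) := by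
  induction h with
  | rel x y hxy => exact Relation.EqvGen.rel _ _ (inv g _ _ hxy)
  | refl x => exact Relation.EqvGen.refl _
  | symm x y _ ih => exact Relation.EqvGen.symm _ _ ih
  | trans x y z _ _ ih1 ih2 => exact Relation.EqvGen.trans _ _ _ ih1 ih2

theorem binc_cs_iff {F : Z → Z → Prop} (inv : ∀ (h : H) (a b : Z), F a b → F (h • a) (h • b))
    (a b : Z) : (cs H F) a b ↔ ∃ h : H, Relation.EqvGen F a (h • b) := by
  constructor
  · intro h
    change Relation.EqvGen _ a b at h
    induction h with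
    | rel x y hxy =>
      rcases hxy with e | ⟨h, e⟩
      · exact ⟨1, by rw [one_smul]; exact Relation.EqvGen.rel _ _ e⟩
      · exact ⟨h⁻¹, by rw [← e, inv_smul_smul]; exact Relation.EqvGen.refl _⟩
    | refl x => exact ⟨1, by rw [one_smul]; exact Relation.EqvGen.refl _⟩
    | symm x y _ ih =>
      obtain ⟨h, e⟩ := ih
      refine ⟨h⁻¹, ?_⟩
      have := binc_smul inv h⁻¹ e
      rw [inv_smul_smul] at this
      exact Relation.EqvGen.symm _ _ this
    | trans x y z _ _ ih1 ih2 =>
      obtain ⟨h1, e1⟩ := ih1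
      obtain ⟨h2, e2⟩ := ih2
      refine ⟨h1 * h2, ?_⟩
      rw [mul_smul]
      exact Relation.EqvGen.trans _ _ _ e1 (binc_smul inv h1 e2)
  · rintro ⟨h, e⟩
    change Relation.EqvGen _ a b
    refine Relation.EqvGen.trans _ (h • b) _ (binc_mono (fun _ _ e => Or.inl e) e) ?_
    exact Relation.EqvGen.symm _ _ (Relation.EqvGen.rel _ _ (Or.inr ⟨h, rfl⟩))

theorem binc_FrC_smul {F : Z → Z → Prop} (inv : ∀ (h : H) (a b : Z), F a b → F (h • a) (h • b))
    (g : H) {a : Z} (h : FrC H F a) : FrC H F (g • a) := by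
  intro k hk
  have h1 := binc_smul inv g⁻¹ hk
  rw [inv_smul_smul] at h1
  have h2 : (g⁻¹ * k * g) • a = g⁻¹ • k • g • a := by
    rw [mul_smul, mul_smul]
  rw [← h2] at h1
  have h3 := h _ h1
  have : k = g * (g⁻¹ * k * g) * g⁻¹ := by group
  rw [this, h3]
  group

theorem binc_FrC_eqv {F : Z → Z → Prop} (inv : ∀ (h : H) (a b : Z), F a b → F (h • a) (h • b))
    {a b : Z} (e : Relation.EqvGen F a b) (h : FrC H F a) : FrC H F b := by
  intro k hk
  apply h k
  exact Relation.EqvGen.trans _ _ _ (binc_smul inv k e)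
    (Relation.EqvGen.trans _ _ _ hk (Relation.EqvGen.symm _ _ e))

theorem binc_FrC_cs {F : Z → Z → Prop} (inv : ∀ (h : H) (a b : Z), F a b → F (h • a) (h • b))
    {a b : Z} {g : H} (e : Relation.EqvGen F a (g • b)) : FrC H F a ↔ FrC H F b := by
  constructor
  · intro h
    have := binc_FrC_smul inv g⁻¹ (binc_FrC_eqv inv e h)
    rwa [inv_smul_smul] at this
  · intro h
    exact binc_FrC_eqv inv (Relation.EqvGen.symm _ _ e) (binc_FrC_smul inv g h)

theorem binc_FrC_anti {F F' : Z → Z → Prop} (hFF : ∀ a b, F a b → F' a b) {a : Z}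
    (h : FrC H F' a) : FrC H F a := fun k hk => h k (binc_mono hFF hk)

theorem binc_ncard_image {α β γ : Type} (f : α → β) (g : α → γ) (s : Set α)
    (h : ∀ a ∈ s, ∀ b ∈ s, (f a = f b ↔ g a = g b)) : (f '' s).ncard = (g '' s).ncard := by
  refine Set.ncard_congr (fun b hb => g hb.choose) ?_ ?_ ?_
  · intro b hb
    exact ⟨_, hb.choose_spec.1, rfl⟩
  · intro b c hb hc e
    have h1 := (h _ hb.choose_spec.1 _ hc.choose_spec.1).2 e
    rw [← hb.choose_spec.2, ← hc.choose_spec.2]
    exact h1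
  · rintro _ ⟨a, ha, rfl⟩
    refine ⟨f a, ⟨a, ha, rfl⟩, ?_⟩
    have hb : f a ∈ f '' s := ⟨a, ha, rfl⟩
    exact (h _ hb.choose_spec.1 _ ha).1 hb.choose_spec.2

theorem binc_cs_finite {W : Set Z} (hW : FinOrb H W) (F : Z → Z → Prop) :
    ((fun z => Quotient.mk (cs H F) z) '' W).Finite := by
  have h1 : ∀ a b : Z, (orbitRel H Z) a b → (cs H F) a b := by
    rintro a b ⟨h, e⟩
    exact Relation.EqvGen.symm _ _ (Relation.EqvGen.rel _ _ (Or.inr ⟨h, e⟩))
  have h2 := hW.image (Quotient.map' (s₂ := cs H F) id (fun a b e => h1 a b e))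
  refine h2.subset ?_
  rintro _ ⟨z, hz, rfl⟩
  exact ⟨_, ⟨z, hz, rfl⟩, rfl⟩

theorem binc_mk_eq_iff {F : Z → Z → Prop} (inv : ∀ (h : H) (a b : Z), F a b → F (h • a) (h • b))
    (a b : Z) : (Quotient.mk (cs H F) a = Quotient.mk (cs H F) b) ↔
      ∃ h : H, Relation.EqvGen F a (h • b) := by
  rw [← binc_cs_iff inv]
  exact Quotient.eq

/-- the components of `z` which are in no translate of the components of `u` and `v` -/
theorem binc_eqv_local {F : Z → Z → Prop} (inv : ∀ (h : H) (a b : Z), F a b → F (h • a) (h • b))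
    {u v z : Z} (h1 : ∀ h : H, ¬ Relation.EqvGen F z (h • u))
    (h2 : ∀ h : H, ¬ Relation.EqvGen F z (h • v)) (w : Z) :
    Relation.EqvGen (addE H F u v) z w ↔ Relation.EqvGen F z w := by
  constructor
  · intro h
    have hP : ∀ a b, addE H F u v a b →
        (Relation.EqvGen F z a ↔ Relation.EqvGen F z b) := by
      rintro a b (e | ⟨g, rfl, rfl⟩ | ⟨g, rfl, rfl⟩)
      · exact ⟨fun k => Relation.EqvGen.trans _ _ _ k (Relation.EqvGen.rel _ _ e),
          fun k => Relation.EqvGen.trans _ _ _ k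
            (Relation.EqvGen.symm _ _ (Relation.EqvGen.rel _ _ e))⟩
      · exact ⟨fun k => absurd k (h1 g), fun k => absurd k (h2 g)⟩
      · exact ⟨fun k => absurd k (h2 g), fun k => absurd k (h1 g)⟩
    exact (binc_prop hP h).1 (Relation.EqvGen.refl _)
  · exact binc_mono (fun _ _ e => Or.inl e)

theorem binc_addE_inv {F : Z → Z → Prop} (inv : ∀ (h : H) (a b : Z), F a b → F (h • a) (h • b))
    {u v : Z} : ∀ (h : H) (a b : Z), addE H F u v a b → addE H F u v (h • a) (h • b) := by
  rintro h a b (e | ⟨g, rfl, rfl⟩ | ⟨g, rfl, rfl⟩)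
  · exact Or.inl (inv h _ _ e)
  · exact Or.inr (Or.inl ⟨h * g, mul_smul _ _ _, mul_smul _ _ _⟩)
  · exact Or.inr (Or.inr ⟨h * g, mul_smul _ _ _, mul_smul _ _ _⟩)

theorem Gr.addE {W : Set Z} {F : Z → Z → Prop} (g : Gr H W F) {u v : Z} (hu : u ∈ W)
    (hv : v ∈ W) (huv : u ≠ v) : Gr H W (addE H F u v) := by
  refine ⟨?_, ?_, binc_addE_inv g.inv, g.W_inv, ?_, g.finW, ?_⟩
  · rintro a b (e | ⟨h, rfl, rfl⟩ | ⟨h, rfl, rfl⟩)
    · exact Or.inl (g.symm _ _ e)
    · exact Or.inr (Or.inr ⟨h, rfl, rfl⟩)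
    · exact Or.inr (Or.inl ⟨h, rfl, rfl⟩)
  · rintro a (e | ⟨h, e1, e2⟩ | ⟨h, e1, e2⟩)
    · exact g.irr _ e
    · exact huv (MulAction.injective h (e1.trans e2.symm))
    · exact huv (MulAction.injective h (e2.trans e1.symm))
  · rintro a b (e | ⟨h, rfl, rfl⟩ | ⟨h, rfl, rfl⟩)
    · exact g.mem _ _ e
    · exact g.W_inv _ _ hu
    · exact g.W_inv _ _ hv
  · have h1 : (orbs H {p : Z × Z | F p.1 p.2} ∪ {(Quotient.mk'' (u, v) : orbitRel.Quotient H (Z × Z)),
        (Quotient.mk'' (v, u) : orbitRel.Quotient H (Z × Z))}).Finite :=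
      Set.Finite.union g.finF (Set.toFinite _)
    refine h1.subset ?_
    rintro _ ⟨⟨a, b⟩, (e | ⟨h, e1, e2⟩ | ⟨h, e1, e2⟩), rfl⟩
    · exact Or.inl ⟨(a, b), e, rfl⟩
    · refine Or.inr (Or.inl ?_)
      exact Quotient.sound' ⟨h, Prod.ext e1 e2⟩
    · refine Or.inr (Or.inr ?_)
      exact Quotient.sound' ⟨h, Prod.ext e1 e2⟩

theorem Gr.delE {W : Set Z} {F : Z → Z → Prop} (g : Gr H W F) (u v : Z) :
    Gr H W (delE H F u v) := by
  refine ⟨?_, ?_, ?_, g.W_inv, ?_, g.finW, ?_⟩
  · rintro a b ⟨e, h1, h2⟩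
    exact ⟨g.symm _ _ e, fun ⟨h, e1, e2⟩ => h2 ⟨h, e2, e1⟩, fun ⟨h, e1, e2⟩ => h1 ⟨h, e2, e1⟩⟩
  · rintro a ⟨e, -⟩
    exact g.irr _ e
  · rintro k a b ⟨e, h1, h2⟩
    refine ⟨g.inv k _ _ e, ?_, ?_⟩
    · rintro ⟨h, e1, e2⟩
      exact h1 ⟨k⁻¹ * h, by rw [mul_smul, e1, inv_smul_smul], by rw [mul_smul, e2, inv_smul_smul]⟩
    · rintro ⟨h, e1, e2⟩
      exact h2 ⟨k⁻¹ * h, by rw [mul_smul, e1, inv_smul_smul], by rw [mul_smul, e2, inv_smul_smul]⟩
  · rintro a b ⟨e, -⟩
    exact g.mem _ _ e
  · refine g.finF.subset ?_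
    rintro _ ⟨p, hp, rfl⟩
    exact ⟨p, hp.1, rfl⟩

/-! ### free darts -/

theorem binc_Fr_smul {Z : Type} [MulAction H Z] (g : H) {z : Z} (h : Fr H z) : Fr H (g • z) := by
  intro k hk
  have h1 : (g⁻¹ * k * g) • z = z := by
    rw [mul_smul, mul_smul, hk, inv_smul_smul]
  have h3 := h _ h1
  have : k = g * (g⁻¹ * k * g) * g⁻¹ := by group
  rw [this, h3]
  group

theorem binc_Fr_pair {u v : Z} : Fr H (u, v) ↔ FrE H u v := by
  constructor
  · intro h k h1 h2
    exact h k (Prod.ext h1 h2)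
  · intro h k hk
    exact h k (congrArg Prod.fst hk) (congrArg Prod.snd hk)

/-- no free edge: the free darts are the same -/
theorem binc_ocf_nfr {F : Z → Z → Prop} {u v : Z} (hfr : ¬ FrE H u v) :
    ocf H {p : Z × Z | addE H F u v p.1 p.2} = ocf H {p : Z × Z | F p.1 p.2} := by
  have : {y : Z × Z | y ∈ {p : Z × Z | addE H F u v p.1 p.2} ∧ Fr H y} =
      {y : Z × Z | y ∈ {p : Z × Z | F p.1 p.2} ∧ Fr H y} := by
    ext ⟨a, b⟩
    constructor
    · rintro ⟨(e | ⟨h, e1, e2⟩ | ⟨h, e1, e2⟩), hy⟩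
      · exact ⟨e, hy⟩
      · exfalso
        apply hfr
        rw [← binc_Fr_pair]
        have h3 : h⁻¹ • ((a, b) : Z × Z) = (u, v) := by
          rw [inv_smul_eq_iff]
          exact Prod.ext e1.symm e2.symm
        rw [← h3]
        exact binc_Fr_smul _ hy
      · exfalso
        apply hfr
        have h3 : h⁻¹ • ((a, b) : Z × Z) = (v, u) := by
          rw [inv_smul_eq_iff]
          exact Prod.ext e1.symm e2.symm
        have h4 : Fr H (v, u) := by
          rw [← h3]
          exact binc_Fr_smul _ hy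
        rw [binc_Fr_pair] at h4
        exact fun k k1 k2 => h4 k k2 k1
    · rintro ⟨e, hy⟩
      exact ⟨Or.inl e, hy⟩
  unfold ocf
  rw [this]

/-- free edge: two new orbits of darts -/
theorem binc_ocf_fr (hT : TF H) {W : Set Z} {F : Z → Z → Prop} (g : Gr H W F) {u v : Z}
    (huv : u ≠ v) (hF : ¬ F u v) (hfr : FrE H u v) :
    ocf H {p : Z × Z | addE H F u v p.1 p.2} = ocf H {p : Z × Z | F p.1 p.2} + 2 := by
  unfold ocf oc
  have hfr' : FrE H v u := fun k k1 k2 => hfr k k2 k1
  have e1 : orbs H {y : Z × Z | y ∈ {p : Z × Z | addE H F u v p.1 p.2} ∧ Fr H y} =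
      orbs H {y : Z × Z | y ∈ {p : Z × Z | F p.1 p.2} ∧ Fr H y} ∪
        {(Quotient.mk'' (u, v) : orbitRel.Quotient H (Z × Z)),
        (Quotient.mk'' (v, u) : orbitRel.Quotient H (Z × Z))} := by
    apply Set.Subset.antisymm
    · rintro _ ⟨⟨a, b⟩, ⟨(e | ⟨h, e1, e2⟩ | ⟨h, e1, e2⟩), hy⟩, rfl⟩
      · exact Or.inl ⟨(a, b), ⟨e, hy⟩, rfl⟩
      · refine Or.inr (Or.inl ?_)
        exact Quotient.sound' ⟨h, Prod.ext e1 e2⟩
      · refine Or.inr (Or.inr ?_)
        exact Quotient.sound' ⟨h, Prod.ext e1 e2⟩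
    · rintro c (⟨y, ⟨e, hy⟩, rfl⟩ | e | e)
      · exact ⟨y, ⟨Or.inl e, hy⟩, rfl⟩
      · rw [e]
        exact ⟨(u, v), ⟨Or.inr (Or.inl ⟨1, one_smul _ _, one_smul _ _⟩), binc_Fr_pair.2 hfr⟩, rfl⟩
      · rw [e]
        exact ⟨(v, u), ⟨Or.inr (Or.inr ⟨1, one_smul _ _, one_smul _ _⟩), binc_Fr_pair.2 hfr'⟩, rfl⟩
  have e2 : Disjoint (orbs H {y : Z × Z | y ∈ {p : Z × Z | F p.1 p.2} ∧ Fr H y})
        {(Quotient.mk'' (u, v) : orbitRel.Quotient H (Z × Z)),
        (Quotient.mk'' (v, u) : orbitRel.Quotient H (Z × Z))} := by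
    rw [Set.disjoint_left]
    rintro c ⟨⟨a, b⟩, ⟨e, hy⟩, rfl⟩ (h | h)
    · obtain ⟨k, hk⟩ := Quotient.exact' h
      have h1 : k • u = a := congrArg Prod.fst hk
      have h2 : k • v = b := congrArg Prod.snd hk
      apply hF
      have := g.inv k⁻¹ _ _ e
      rw [← h1, ← h2] at this
      change F (k⁻¹ • k • u) (k⁻¹ • k • v) at this
      rwa [inv_smul_smul, inv_smul_smul] at this
    · obtain ⟨k, hk⟩ := Quotient.exact' h
      have h1 : k • v = a := congrArg Prod.fst hk
      have h2 : k • u = b := congrArg Prod.snd hk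
      apply hF
      have := g.inv k⁻¹ _ _ e
      rw [← h1, ← h2] at this
      change F (k⁻¹ • k • v) (k⁻¹ • k • u) at this
      rw [inv_smul_smul, inv_smul_smul] at this
      exact g.symm _ _ this
  have e3 : (Quotient.mk'' (u, v) : orbitRel.Quotient H (Z × Z)) ≠
        (Quotient.mk'' (v, u) : orbitRel.Quotient H (Z × Z)) := by
    intro h
    obtain ⟨k, hk⟩ := Quotient.exact' h
    have h1 : k • v = u := congrArg Prod.fst hk
    have h2 : k • u = v := congrArg Prod.snd hk
    have h3 : k * k = 1 := by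
      apply hfr
      · rw [mul_smul, h2, h1]
      · rw [mul_smul, h1, h2]
    have h4 : k = 1 := hT k 2 (by norm_num) (by rw [pow_two]; exact h3)
    rw [h4, one_smul] at h1
    exact huv h1.symm
  have fin1 : (orbs H {y : Z × Z | y ∈ {p : Z × Z | F p.1 p.2} ∧ Fr H y}).Finite := by
    refine g.finF.subset ?_
    rintro _ ⟨p, hp, rfl⟩
    exact ⟨p, hp.1, rfl⟩
  rw [e1, Set.ncard_union_eq e2 fin1 (Set.toFinite _), Set.ncard_pair e3]

/-! ### components -/

/-- the classes of free components in translates of the components of `u`, `v` -/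
theorem binc_c0_split {W : Set Z} {F : Z → Z → Prop} (g : Gr H W F) {u v : Z} (P : Z → Prop)
    (hP : ∀ a b, P b → (∃ h : H, Relation.EqvGen F a (h • b)) → P a) :
    c0 H W F = ((fun z => Quotient.mk (cs H F) z) '' {z | z ∈ W ∧ FrC H F z ∧ ¬ P z}).ncard +
      ((fun z => Quotient.mk (cs H F) z) '' {z | z ∈ W ∧ FrC H F z ∧ P z}).ncard := by
  have fin : ∀ Q : Z → Prop, ((fun z => Quotient.mk (cs H F) z) ''
      {z | z ∈ W ∧ FrC H F z ∧ Q z}).Finite := by
    intro Q
    refine (binc_cs_finite g.finW F).subset ?_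
    rintro _ ⟨z, hz, rfl⟩
    exact ⟨z, hz.1, rfl⟩
  have dis : Disjoint ((fun z => Quotient.mk (cs H F) z) '' {z | z ∈ W ∧ FrC H F z ∧ ¬ P z})
      ((fun z => Quotient.mk (cs H F) z) '' {z | z ∈ W ∧ FrC H F z ∧ P z}) := by
    rw [Set.disjoint_left]
    rintro _ ⟨z, hz, rfl⟩ ⟨w, hw, e⟩
    rw [binc_mk_eq_iff g.inv] at e
    obtain ⟨h, e⟩ := e
    apply hz.2.2
    apply hP z w hw.2.2
    refine ⟨h⁻¹, ?_⟩
    have := binc_smul g.inv h⁻¹ e
    rw [inv_smul_smul] at this
    exact Relation.EqvGen.symm _ _ this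
  unfold c0
  rw [← Set.ncard_union_eq dis (fin _) (fin _)]
  congr 1
  rw [← Set.image_union]
  congr 1
  ext z
  simp only [Set.mem_ofPred_eq, Set.mem_union]
  tauto

/-- `z` is in a translate of the component of `u` or `v` -/
def BIncU (H : Type) [Group H] {Z : Type} [MulAction H Z] (F : Z → Z → Prop) (u v z : Z) : Prop :=
  (∃ h : H, Relation.EqvGen F z (h • u)) ∨ (∃ h : H, Relation.EqvGen F z (h • v))

theorem binc_c0_rest {W : Set Z} {F : Z → Z → Prop} (g : Gr H W F) {u v : Z} :
    ((fun z => Quotient.mk (cs H F) z) '' {z | z ∈ W ∧ FrC H F z ∧ ¬ BIncU H F u v z}).ncard =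
    ((fun z => Quotient.mk (cs H (addE H F u v)) z) ''
      {z | z ∈ W ∧ FrC H (addE H F u v) z ∧ ¬ BIncU H F u v z}).ncard := by
  have key : ∀ z, ¬ BIncU H F u v z → ∀ w, (Relation.EqvGen (addE H F u v) z w ↔
      Relation.EqvGen F z w) := by
    intro z hz w
    apply binc_eqv_local g.inv
    · exact fun h k => hz (Or.inl ⟨h, k⟩)
    · exact fun h k => hz (Or.inr ⟨h, k⟩)
  have e1 : {z | z ∈ W ∧ FrC H (addE H F u v) z ∧ ¬ BIncU H F u v z} =
      {z | z ∈ W ∧ FrC H F z ∧ ¬ BIncU H F u v z} := by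
    ext z
    constructor
    · rintro ⟨a, b, c⟩
      exact ⟨a, binc_FrC_anti (fun _ _ e => Or.inl e) b, c⟩
    · rintro ⟨a, b, c⟩
      refine ⟨a, ?_, c⟩
      intro h hh
      apply b
      have := (key z c _).1 (Relation.EqvGen.symm _ _ hh)
      exact Relation.EqvGen.symm _ _ this
  rw [e1]
  apply binc_ncard_image
  intro a ha b hb
  rw [binc_mk_eq_iff g.inv, binc_mk_eq_iff (binc_addE_inv g.inv)]
  constructor
  · rintro ⟨h, e⟩
    exact ⟨h, (key a ha.2.2 _).2 e⟩
  · rintro ⟨h, e⟩
    exact ⟨h, (key a ha.2.2 _).1 e⟩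

theorem binc_Uu_closed {F : Z → Z → Prop} (inv : ∀ (h : H) (a b : Z), F a b → F (h • a) (h • b))
    {u v : Z} {a b : Z} (hb : BIncU H F u v b) (hab : ∃ h : H, Relation.EqvGen F a (h • b)) :
    BIncU H F u v a := by
  obtain ⟨h, e⟩ := hab
  rcases hb with ⟨k, ek⟩ | ⟨k, ek⟩
  · left
    refine ⟨h * k, ?_⟩
    rw [mul_smul]
    exact Relation.EqvGen.trans _ _ _ e (binc_smul inv h ek)
  · right
    refine ⟨h * k, ?_⟩
    rw [mul_smul]
    exact Relation.EqvGen.trans _ _ _ e (binc_smul inv h ek)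

theorem binc_Uu_closed2 {F : Z → Z → Prop} (inv : ∀ (h : H) (a b : Z), F a b → F (h • a) (h • b))
    {u v : Z} {a b : Z} (hb : BIncU H F u v b)
    (hab : ∃ h : H, Relation.EqvGen (addE H F u v) a (h • b)) :
    BIncU H F u v a := by
  obtain ⟨h, e⟩ := hab
  have h1 : BIncU H F u v (h • b) := binc_Uu_closed inv hb ⟨h, Relation.EqvGen.refl _⟩
  have hP : ∀ a b, addE H F u v a b → (BIncU H F u v a ↔ BIncU H F u v b) := by
    rintro a b (e | ⟨g, rfl, rfl⟩ | ⟨g, rfl, rfl⟩)
    · constructor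
      · intro k
        refine binc_Uu_closed inv k ⟨1, ?_⟩
        rw [one_smul]
        exact Relation.EqvGen.symm _ _ (Relation.EqvGen.rel _ _ e)
      · intro k
        refine binc_Uu_closed inv k ⟨1, ?_⟩
        rw [one_smul]
        exact Relation.EqvGen.rel _ _ e
    · exact ⟨fun _ => Or.inr ⟨g, Relation.EqvGen.refl _⟩, fun _ => Or.inl ⟨g, Relation.EqvGen.refl _⟩⟩
    · exact ⟨fun _ => Or.inl ⟨g, Relation.EqvGen.refl _⟩, fun _ => Or.inr ⟨g, Relation.EqvGen.refl _⟩⟩
  exact (binc_prop hP e).2 h1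

/-- the change of `c0` is the change in the classes of `u` and `v` -/
theorem binc_c0_diff {W : Set Z} {F : Z → Z → Prop} (g : Gr H W F) {u v : Z} (hu : u ∈ W)
    (hv : v ∈ W) (huv : u ≠ v) (n m : ℕ)
    (hn : ((fun z => Quotient.mk (cs H F) z) '' {z | z ∈ W ∧ FrC H F z ∧ BIncU H F u v z}).ncard = n)
    (hm : ((fun z => Quotient.mk (cs H (addE H F u v)) z) ''
      {z | z ∈ W ∧ FrC H (addE H F u v) z ∧ BIncU H F u v z}).ncard = m) :
    c0 H W (addE H F u v) + n = c0 H W F + m := by
  rw [binc_c0_split g (u := u) (v := v) (BIncU H F u v) (fun a b hb hab => binc_Uu_closed g.inv hb hab),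
    binc_c0_split (g.addE hu hv huv) (u := u) (v := v) (BIncU H F u v)
      (fun a b hb hab => binc_Uu_closed2 g.inv hb hab), hn, hm, binc_c0_rest g (u := u) (v := v)]
  omega

/-- closure edge: `c0` does not change -/
theorem binc_c0_cl {W : Set Z} {F : Z → Z → Prop} (g : Gr H W F) {u v : Z} (hu : u ∈ W)
    (hv : v ∈ W) (huv : u ≠ v) (hcl : Cl H F u v) :
    c0 H W (addE H F u v) = c0 H W F := by
  rcases hcl with e | ⟨h1, h2⟩
  · have key : ∀ a b, Relation.EqvGen (addE H F u v) a b ↔ Relation.EqvGen F a b := by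
      intro a b
      constructor
      · intro h
        induction h with
        | rel x y hxy =>
          rcases hxy with k | ⟨h, rfl, rfl⟩ | ⟨h, rfl, rfl⟩
          · exact Relation.EqvGen.rel _ _ k
          · exact binc_smul g.inv h e
          · exact Relation.EqvGen.symm _ _ (binc_smul g.inv h e)
        | refl x => exact Relation.EqvGen.refl _
        | symm x y _ ih => exact Relation.EqvGen.symm _ _ ih
        | trans x y z _ _ ih1 ih2 => exact Relation.EqvGen.trans _ _ _ ih1 ih2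
      · exact binc_mono (fun _ _ e => Or.inl e)
    unfold c0
    have e1 : {z | z ∈ W ∧ FrC H (addE H F u v) z} = {z | z ∈ W ∧ FrC H F z} := by
      ext z
      constructor
      · rintro ⟨a, b⟩
        exact ⟨a, fun h hh => b h ((key _ _).2 hh)⟩
      · rintro ⟨a, b⟩
        exact ⟨a, fun h hh => b h ((key _ _).1 hh)⟩
    rw [e1]
    apply binc_ncard_image
    intro a _ b _
    rw [binc_mk_eq_iff g.inv, binc_mk_eq_iff (binc_addE_inv g.inv)]
    constructor
    · rintro ⟨h, e⟩
      exact ⟨h, (key _ _).1 e⟩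
    · rintro ⟨h, e⟩
      exact ⟨h, (key _ _).2 e⟩
  · have hno : ∀ z, BIncU H F u v z → ¬ FrC H F z := by
      rintro z (⟨h, e⟩ | ⟨h, e⟩) hz
      · exact h1 ((binc_FrC_cs g.inv e).1 hz)
      · exact h2 ((binc_FrC_cs g.inv e).1 hz)
    have := binc_c0_diff g hu hv huv 0 0 ?_ ?_
    · simpa using this
    · have e1 : {z | z ∈ W ∧ FrC H F z ∧ BIncU H F u v z} = (∅ : Set Z) := by
        ext z
        simp only [Set.mem_ofPred_eq, Set.mem_empty_iff_false, iff_false]
        rintro ⟨_, a, b⟩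
        exact hno z b a
      rw [e1, Set.image_empty]
      exact Set.ncard_empty _
    · have e1 : {z | z ∈ W ∧ FrC H (addE H F u v) z ∧ BIncU H F u v z} = (∅ : Set Z) := by
        ext z
        simp only [Set.mem_ofPred_eq, Set.mem_empty_iff_false, iff_false]
        rintro ⟨_, a, b⟩
        exact hno z b (binc_FrC_anti (fun _ _ e => Or.inl e) a)
      rw [e1, Set.image_empty]
      exact Set.ncard_empty _

/-- edge not in the closure, the component of `u` is free: `c0` drops by one -/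
theorem binc_c0_ncl {W : Set Z} {F : Z → Z → Prop} (g : Gr H W F) {u v : Z} (hu : u ∈ W)
    (hv : v ∈ W) (huv : u ≠ v) (h0 : ¬ Relation.EqvGen F u v) (h1 : FrC H F u) :
    c0 H W (addE H F u v) + 1 = c0 H W F := by
  have huv' : Relation.EqvGen (addE H F u v) u v :=
    Relation.EqvGen.rel _ _ (Or.inr (Or.inl ⟨1, one_smul _ _, one_smul _ _⟩))
  have hmono : ∀ {a b}, Relation.EqvGen F a b → Relation.EqvGen (addE H F u v) a b :=
    fun e => binc_mono (fun _ _ e => Or.inl e) e
  have hinv' := binc_addE_inv (u := u) (v := v) g.inv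
  by_cases hc : FrC H F v ∧ ¬ ∃ k : H, Relation.EqvGen F v (k • u)
  · obtain ⟨h2, h3⟩ := hc
    have h4 : FrC H (addE H F u v) u := by
      intro h hh
      have hP : ∀ a b, addE H F u v a b →
          ((Relation.EqvGen F a u ∨ Relation.EqvGen F a v) ↔
            (Relation.EqvGen F b u ∨ Relation.EqvGen F b v)) := by
        have hA : ∀ k : H, (Relation.EqvGen F (k • u) u ∨ Relation.EqvGen F (k • u) v) ↔ k = 1 := by
          intro k
          constructor
          · rintro (e | e)
            · exact h1 k e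
            · exact absurd ⟨k, Relation.EqvGen.symm _ _ e⟩ h3
          · rintro rfl
            left
            rw [one_smul]
            exact Relation.EqvGen.refl _
        have hB : ∀ k : H, (Relation.EqvGen F (k • v) u ∨ Relation.EqvGen F (k • v) v) ↔ k = 1 := by
          intro k
          constructor
          · rintro (e | e)
            · exfalso
              apply h3
              refine ⟨k⁻¹, ?_⟩
              have := binc_smul g.inv k⁻¹ e
              rwa [inv_smul_smul] at this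
            · exact h2 k e
          · rintro rfl
            right
            rw [one_smul]
            exact Relation.EqvGen.refl _
        rintro a b (e | ⟨k, rfl, rfl⟩ | ⟨k, rfl, rfl⟩)
        · have e' := Relation.EqvGen.rel _ _ e
          constructor
          · rintro (k | k)
            · exact Or.inl (Relation.EqvGen.trans _ _ _ (Relation.EqvGen.symm _ _ e') k)
            · exact Or.inr (Relation.EqvGen.trans _ _ _ (Relation.EqvGen.symm _ _ e') k)
          · rintro (k | k)
            · exact Or.inl (Relation.EqvGen.trans _ _ _ e' k)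
            · exact Or.inr (Relation.EqvGen.trans _ _ _ e' k)
        · rw [hA, hB]
        · rw [hA, hB]
      have h5 := (binc_prop hP hh).2 (Or.inl (Relation.EqvGen.refl _))
      rcases h5 with e | e
      · exact h1 h e
      · exact absurd ⟨h, Relation.EqvGen.symm _ _ e⟩ h3
    have h5 : FrC H (addE H F u v) v := binc_FrC_eqv hinv' huv' h4
    have e1 : (fun z => Quotient.mk (cs H F) z) '' {z | z ∈ W ∧ FrC H F z ∧ BIncU H F u v z} =
        {Quotient.mk (cs H F) u, Quotient.mk (cs H F) v} := by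
      apply Set.Subset.antisymm
      · rintro _ ⟨z, ⟨_, _, (hz | hz)⟩, rfl⟩
        · left
          exact (binc_mk_eq_iff g.inv _ _).2 hz
        · right
          exact (binc_mk_eq_iff g.inv _ _).2 hz
      · rintro _ (rfl | rfl)
        · exact ⟨u, ⟨hu, h1, Or.inl ⟨1, by rw [one_smul]; exact Relation.EqvGen.refl _⟩⟩, rfl⟩
        · exact ⟨v, ⟨hv, h2, Or.inr ⟨1, by rw [one_smul]; exact Relation.EqvGen.refl _⟩⟩, rfl⟩
    have e2 : (fun z => Quotient.mk (cs H (addE H F u v)) z) ''
        {z | z ∈ W ∧ FrC H (addE H F u v) z ∧ BIncU H F u v z} =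
        {Quotient.mk (cs H (addE H F u v)) u} := by
      apply Set.Subset.antisymm
      · rintro _ ⟨z, ⟨_, _, (⟨h, hz⟩ | ⟨h, hz⟩)⟩, rfl⟩
        · exact (binc_mk_eq_iff hinv' _ _).2 ⟨h, hmono hz⟩
        · exact (binc_mk_eq_iff hinv' _ _).2 ⟨h, Relation.EqvGen.trans _ _ _ (hmono hz)
            (Relation.EqvGen.symm _ _ (binc_smul hinv' h huv'))⟩
      · rintro _ rfl
        exact ⟨u, ⟨hu, h4, Or.inl ⟨1, by rw [one_smul]; exact Relation.EqvGen.refl _⟩⟩, rfl⟩
    have e3 : Quotient.mk (cs H F) u ≠ Quotient.mk (cs H F) v := by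
      intro e
      rw [binc_mk_eq_iff g.inv] at e
      obtain ⟨k, hk⟩ := e
      apply h3
      refine ⟨k⁻¹, ?_⟩
      have := binc_smul g.inv k⁻¹ hk
      rw [inv_smul_smul] at this
      exact Relation.EqvGen.symm _ _ this
    have := binc_c0_diff g hu hv huv 2 1 (by rw [e1]; exact Set.ncard_pair e3)
      (by rw [e2]; exact Set.ncard_singleton _)
    omega
  · have h4 : ¬ FrC H (addE H F u v) u := by
      intro h4
      have h5 : FrC H (addE H F u v) v := binc_FrC_eqv hinv' huv' h4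
      have h6 : FrC H F v := binc_FrC_anti (fun _ _ e => Or.inl e) h5
      have h7 : ∃ k : H, Relation.EqvGen F v (k • u) := by
        by_contra hcon
        exact hc ⟨h6, hcon⟩
      obtain ⟨k, hk⟩ := h7
      have h8 : k = 1 := by
        apply h4
        exact Relation.EqvGen.symm _ _ (Relation.EqvGen.trans _ _ _ huv' (hmono hk))
      rw [h8, one_smul] at hk
      exact h0 (Relation.EqvGen.symm _ _ hk)
    have h5 : ¬ FrC H (addE H F u v) v := fun h5 =>
      h4 (binc_FrC_eqv hinv' (Relation.EqvGen.symm _ _ huv') h5)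
    have e1 : (fun z => Quotient.mk (cs H F) z) '' {z | z ∈ W ∧ FrC H F z ∧ BIncU H F u v z} =
        {Quotient.mk (cs H F) u} := by
      apply Set.Subset.antisymm
      · rintro _ ⟨z, ⟨_, hfz, (hz | hz)⟩, rfl⟩
        · exact (binc_mk_eq_iff g.inv _ _).2 hz
        · obtain ⟨h, hz⟩ := hz
          have h6 : FrC H F v := (binc_FrC_cs g.inv hz).1 hfz
          have h7 : ∃ k : H, Relation.EqvGen F v (k • u) := by
            by_contra hcon
            exact hc ⟨h6, hcon⟩
          obtain ⟨k, hk⟩ := h7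
          refine (binc_mk_eq_iff g.inv _ _).2 ⟨h * k, ?_⟩
          rw [mul_smul]
          exact Relation.EqvGen.trans _ _ _ hz (binc_smul g.inv h hk)
      · rintro _ rfl
        exact ⟨u, ⟨hu, h1, Or.inl ⟨1, by rw [one_smul]; exact Relation.EqvGen.refl _⟩⟩, rfl⟩
    have e2 : {z | z ∈ W ∧ FrC H (addE H F u v) z ∧ BIncU H F u v z} = (∅ : Set Z) := by
      ext z
      simp only [Set.mem_ofPred_eq, Set.mem_empty_iff_false, iff_false]
      rintro ⟨_, a, (⟨h, b⟩ | ⟨h, b⟩)⟩
      · exact h4 ((binc_FrC_cs hinv' (hmono b)).1 a)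
      · exact h5 ((binc_FrC_cs hinv' (hmono b)).1 a)
    have := binc_c0_diff g hu hv huv 1 0 (by rw [e1]; exact Set.ncard_singleton _)
      (by rw [e2, Set.image_empty]; exact Set.ncard_empty _)
    omega

theorem binc_addE_comm (F : Z → Z → Prop) (u v : Z) : addE H F u v = addE H F v u := by
  funext a b
  apply propext
  constructor
  · rintro (e | e | e)
    · exact Or.inl e
    · exact Or.inr (Or.inr e)
    · exact Or.inr (Or.inl e)
  · rintro (e | e | e)
    · exact Or.inl e
    · exact Or.inr (Or.inr e)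
    · exact Or.inr (Or.inl e)

/-- adding a free edge of the closure raises `N2` by two -/
theorem N2_addE_cl (hT : TF H) {W : Set Z} {F : Z → Z → Prop} (g : Gr H W F) {u v : Z}
    (hu : u ∈ W) (hv : v ∈ W) (huv : u ≠ v) (hF : ¬ F u v) (hfr : FrE H u v)
    (hcl : Cl H F u v) : N2 H W (addE H F u v) = N2 H W F + 2 := by
  unfold N2
  rw [binc_ocf_fr hT g huv hF hfr, binc_c0_cl g hu hv huv hcl]
  push_cast
  ring

/-- all other edges do not change `N2` -/
theorem N2_addE_ncl (hT : TF H) {W : Set Z} {F : Z → Z → Prop} (g : Gr H W F) {u v : Z}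
    (hu : u ∈ W) (hv : v ∈ W) (huv : u ≠ v) (hF : ¬ F u v)
    (h : ¬ (FrE H u v ∧ Cl H F u v)) : N2 H W (addE H F u v) = N2 H W F := by
  by_cases hfr : FrE H u v
  · have hcl : ¬ Cl H F u v := fun k => h ⟨hfr, k⟩
    have h0 : ¬ Relation.EqvGen F u v := fun k => hcl (Or.inl k)
    have h1 : c0 H W (addE H F u v) + 1 = c0 H W F := by
      by_cases hu1 : FrC H F u
      · exact binc_c0_ncl g hu hv huv h0 hu1
      · have hv1 : FrC H F v := by
          by_contra hv1
          exact hcl (Or.inr ⟨hu1, hv1⟩)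
        rw [binc_addE_comm]
        exact binc_c0_ncl g hv hu huv.symm (fun k => h0 (Relation.EqvGen.symm _ _ k)) hv1
    unfold N2
    rw [binc_ocf_fr hT g huv hF hfr, ← h1]
    push_cast
    ring
  · have hcl : Cl H F u v := by
      unfold FrE at hfr
      push Not at hfr
      obtain ⟨k, k1, k2, k3⟩ := hfr
      refine Or.inr ⟨fun e => k3 (e k ?_), fun e => k3 (e k ?_)⟩
      · rw [k1]; exact Relation.EqvGen.refl _
      · rw [k2]; exact Relation.EqvGen.refl _
    unfold N2
    rw [binc_ocf_nfr hfr, binc_c0_cl g hu hv huv hcl]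

end

end Pool.Agent.SAF
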