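import Pool.Agent.SAF.BPot
import Pool.Agent.SAF.BTree
import Pool.Agent.SAF.ABase
import Pool.Agent.SAF.A13

/-!
# SAF, module BKRcyc: the classes of the second quotient complexes have cyclic stabilisers

Proof. Let `w := p.1.2`. (1) `J (cm p) l'` fixes `w`; so if `x` has no sink (`f_hyp`) then `x` is
not `Jinf`. Hence the two kinds of generators of `kr` never meet: along a class either all steps
are `Q`-edges (all vertices without sink) or all steps are merges over one and the same `l'`.
(2) Merge classes: all elements are far in the direction `l'` (`Far_eq`), so the stabiliser of the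
class in the stabiliser of `l` fixes `l'`, hence it is contained in `J l l'`, which is contained in
the stabiliser of an edge of `D.X`: `InC`, cyclic by `TF`.
(3) `Q`-classes: `x y` a `Q`-edge at `w`, `h` not `1` fixing `x`, `y`: `f x` and `f y` have no sink
and are different (nothing lost). If `y z` is another `Q`-edge at `w` with `f z` different from
`f x` and `f y`, then a common nontrivial element `h` of the stabilisers (`exists_common` in the
cyclic stabiliser of `y`) fixes the centre of `f x`, `f y`, `f z` (the unique vertex where the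
majority successor is a sink), against `f_hyp`. So all `z` in the class have `f z = f x` or
`f z = f y`, and the stabiliser of the class permutes the two neighbours `f x w`, `f y w` of `w`:
its subgroup fixing `f x w` has index at most two and lies in an edge stabiliser of `D.X`
(`cyclic_of_index` or `cyclic_of_relIndex`).
(4) Singletons: the stabiliser is contained in the stabiliser of `x` (`K.cyc`).
-/

namespace Pool.Agent.SAF

open MulAction

/-- subgroups of subgroups contained in a cyclic subgroup are cyclic -/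
theorem krc_cyclic_of_mem {G B : Type} [Group G] [Group B] (f : B →* G)
    (hf : Function.Injective f) {C : Subgroup G} (h : ∀ b, f b ∈ C) (hC : IsCyclic C) :
    IsCyclic B := by
  refine isCyclic_of_injective (f.codRestrict C h) ?_
  intro a b e
  exact hf (congrArg Subtype.val e)

section

variable {H : Type} [Group H] {Y : Type} [MulAction H Y] {K : KS H Y} {D : Decomp H}
  (S : Sys H Y K D)

theorem Sys.krc_f_fix {g : H} {x : Y} (hx : g • x = x) (w : D.X) :
    S.f x (g • w) = g • S.f x w := by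
  have := S.f_smul g x w
  rwa [hx] at this

theorem Sys.krc_Zs {g : H} {x y : Y} (hx : g • x = x) (hy : g • y = y) {w : D.X}
    (hw : w ∈ Zs (S.f x) (S.f y)) : g • w ∈ Zs (S.f x) (S.f y) := by
  rintro ⟨h1, h2⟩
  apply hw
  rw [S.krc_f_fix hx, S.krc_f_fix hy] at h1
  rw [S.krc_f_fix hx] at h2
  exact ⟨smul_left_cancel g h1, fun e => h2 (by rw [e])⟩

/-- three points without sink along `Q`-edges: the third is the first -/
theorem Sys.krc_three (hT : TF H) (hL : S.NoLost) {x y z : Y} (hxy : S.Qe x y)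
    (hyz : S.Qe y z) : S.f z = S.f x := by
  by_contra hne
  obtain ⟨e1, ⟨h, h1, hx, hy⟩, hs⟩ := hxy
  obtain ⟨e2, ⟨k, k1, ky, kz⟩, hs'⟩ := hyz
  have xP : x ∈ K.P := K.E_P _ _ e1
  have yP : y ∈ K.P := K.E_P _ _ e2
  have zP : z ∈ K.P := K.E_P _ _ (K.E_symm _ _ e2)
  have hy' : h ∈ stabilizer H y := hy
  have ky' : k ∈ stabilizer H y := ky
  obtain ⟨i, j, eij, hij⟩ := exists_common (hT.sub (stabilizer H y)) (K.cyc y yP)
    (a := ⟨h, hy'⟩) (b := ⟨k, ky'⟩) (fun e => h1 (congrArg Subtype.val e))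
    (fun e => k1 (congrArg Subtype.val e))
  have ecd : h ^ i = k ^ j := by simpa using congrArg Subtype.val eij
  have c1 : h ^ i ≠ 1 := fun e => hij (Subtype.ext (by simpa using e))
  have cx : h ^ i • x = x := (stabilizer H x).zpow_mem hx i
  have cy : h ^ i • y = y := (stabilizer H y).zpow_mem hy i
  have cz : h ^ i • z = z := by
    rw [ecd]; exact (stabilizer H z).zpow_mem kz j
  have hf : ∀ w : D.X, h ^ i • w ≠ w := by
    rcases S.f_hyp x xP with ⟨w, hw⟩ | hh
    · exact absurd hw (hs w)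
    · exact hh _ cx c1
  obtain ⟨c, c12, c23, c13⟩ := exists_centre D.tree (S.ori x xP) (S.ori y yP) (S.ori z zP)
    (hL x y e1) (hL y z e2) (fun hl => hne hl.1.symm)
  exact hf c (centre_unique D.tree (S.ori x xP) (S.ori y yP) (S.ori z zP)
    ⟨S.krc_Zs cx cy c12, S.krc_Zs cy cz c23, S.krc_Zs cx cz c13⟩ ⟨c12, c23, c13⟩)

theorem Sys.krc_Qe_symm {x y : Y} (h : S.Qe x y) : S.Qe y x := by
  obtain ⟨e1, ⟨g, g1, gx, gy⟩, hs⟩ := h
  refine ⟨K.E_symm _ _ e1, ⟨g, g1, gy, gx⟩, ?_⟩
  have xP : x ∈ K.P := K.E_P _ _ e1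
  have yP : y ∈ K.P := K.E_P _ _ (K.E_symm _ _ e1)
  have hf : ∀ w : D.X, g • w ≠ w := by
    rcases S.f_hyp x xP with ⟨w, hw⟩ | hh
    · exact absurd hw (hs w)
    · exact hh _ gx g1
  intro v hv
  refine hf v ((S.ori y yP).fix_unique D.tree ?_ hv)
  rw [S.krc_f_fix gy, hv]

theorem Sys.krc_hr_symm {p q : S.V1} (h : S.hr p q) : S.hr q p := by
  obtain ⟨h1, h2, h3⟩ := h
  refine ⟨h1.symm, K.E_symm _ _ h2, ?_⟩
  rw [← h1, ← S.SE_symm _ _ h2]
  exact h3

theorem Sys.krc_symm {p q : S.V1} (h : S.kr p q) : S.kr q p := by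
  rcases h with ⟨h1, h2⟩ | ⟨e, l', n, h1, h2, h3, h4, h5, h6, h7⟩
  · exact Or.inl ⟨S.krc_hr_symm h1, S.krc_Qe_symm h2⟩
  · rw [e] at h1 h2 h3 h4 h5 h6 h7
    exact Or.inr ⟨e.symm, l', n, h2, h1, h4, h3, h5, h7, h6⟩

theorem Sys.krc_sink {l l' : S.LV} {x : Y} (hx : x ∈ K.P) (h : S.Jinf l l' x) :
    ∃ w, S.f x w = w := by
  obtain ⟨j, hj, j1, jx⟩ := h
  rcases S.f_hyp x hx with hw | hh
  · exact hw
  · exfalso
    apply hh j jx j1 (S.pr l)
    rw [← S.pr_smul]
    congr 1
    exact hj.1

/-- a predicate which is invariant under `kr` is invariant on the classes -/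
theorem Sys.krc_ind (I : S.V1 → Prop) (hI : ∀ q r, S.kr q r → I q → I r) {p q : S.V1}
    (h : S.KR.c p = S.KR.c q) (hp : I p) : I q := by
  have e : Relation.EqvGen S.kr p q := Quotient.exact h
  have key : ∀ a b, Relation.EqvGen S.kr a b → (I a ↔ I b) := by
    intro a b hab
    induction hab with
    | rel x y hxy => exact ⟨hI x y hxy, hI y x (S.krc_symm hxy)⟩
    | refl x => exact Iff.rfl
    | symm x y _ ih => exact ih.symm
    | trans x y z _ _ ih1 ih2 => exact ih1.trans ih2
  exact (key p q e).1 hp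

theorem Sys.kr_cyc (hT : TF H) (hL : S.NoLost) (p : S.V1) :
    IsCyclic ↥(stabilizer ↥(stabilizer H (S.cm p)) (S.KR.c p)) := by
  have xP : p.1.1 ∈ K.P := p.2.1
  -- the elements of the stabiliser
  have hcm : ∀ g : ↥(stabilizer ↥(stabilizer H (S.cm p)) (S.KR.c p)),
      (g : ↥(stabilizer H (S.cm p))).1 • S.cm p = S.cm p := fun g => g.1.2
  have hw : ∀ g : ↥(stabilizer ↥(stabilizer H (S.cm p)) (S.KR.c p)),
      (g : ↥(stabilizer H (S.cm p))).1 • p.1.2 = p.1.2 := by
    intro g
    have := congrArg S.pr (hcm g)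
    rw [S.pr_smul, S.pr_cm] at this
    exact this
  have hc : ∀ g : ↥(stabilizer ↥(stabilizer H (S.cm p)) (S.KR.c p)),
      S.KR.c p = S.KR.c ((g : ↥(stabilizer H (S.cm p))).1 • p) := by
    intro g
    rw [IRel.c_smul]
    exact (g.2 : (g : ↥(stabilizer H (S.cm p))) • S.KR.c p = S.KR.c p).symm
  by_cases hA : ∃ q, S.kr p q
  · obtain ⟨q, hq | ⟨e, l', n, h1, h2, h3, h4, h5, h6, h7⟩⟩ := hA
    · -- `Q`-classes
      obtain ⟨hqr, hqe⟩ := hq
      have hns : ∀ w, S.f p.1.1 w ≠ w := hqe.2.2
      let I : S.V1 → Prop := fun r => (∀ w, S.f r.1.1 w ≠ w) ∧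
        (S.f r.1.1 = S.f p.1.1 ∨ S.f r.1.1 = S.f q.1.1) ∧
        ∀ r' : S.V1, S.Qe r.1.1 r'.1.1 → (S.f r'.1.1 = S.f p.1.1 ∨ S.f r'.1.1 = S.f q.1.1)
      have hI : ∀ a b, S.kr a b → I a → I b := by
        rintro a b (⟨_, hab⟩ | ⟨e, l', n, h1, h2, h3, h4, h5, h6, h7⟩) ⟨i1, i2, i3⟩
        · refine ⟨(S.krc_Qe_symm hab).2.2, i3 b hab, ?_⟩
          intro r' hr'
          rw [S.krc_three hT hL hab hr']
          exact i2
        · obtain ⟨w, hw⟩ := S.krc_sink a.2.1 h6
          exact absurd hw (i1 w)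
      have hp : I p := by
        refine ⟨hns, Or.inl rfl, ?_⟩
        intro r' hr'
        right
        exact S.krc_three hT hL (S.krc_Qe_symm hqe) hr'
      have hadj : D.G.Adj p.1.2 (S.f p.1.1 p.1.2) := by
        rcases (S.ori _ xP).ok p.1.2 with e | e
        · exact absurd e (hns _)
        · exact e
      have hor : ∀ g : ↥(stabilizer ↥(stabilizer H (S.cm p)) (S.KR.c p)),
          (g : ↥(stabilizer H (S.cm p))).1 • S.f p.1.1 p.1.2 = S.f p.1.1 p.1.2 ∨
          (g : ↥(stabilizer H (S.cm p))).1 • S.f p.1.1 p.1.2 = S.f q.1.1 p.1.2 := by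
        intro g
        have h := S.krc_ind I hI (hc g) hp
        have h0 : S.f ((g : ↥(stabilizer H (S.cm p))).1 • p.1.1) p.1.2 =
            (g : ↥(stabilizer H (S.cm p))).1 • S.f p.1.1 p.1.2 := by
          have := S.f_smul (g : ↥(stabilizer H (S.cm p))).1 p.1.1 p.1.2
          rwa [hw g] at this
        rw [← h0]
        rcases h.2.1 with e | e
        · left
          exact congrFun e p.1.2
        · right
          exact congrFun e p.1.2
      refine cyclic_of_index ((hT.sub _).sub _)
        (stabilizer ↥(stabilizer ↥(stabilizer H (S.cm p)) (S.KR.c p)) (S.f p.1.1 p.1.2)) ?_ ?_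
      · have hC : IsCyclic ↥(stabilizer H p.1.2 ⊓ stabilizer H (S.f p.1.1 p.1.2)) :=
          InC.cyclic (hT.sub _) (D.edgeC _ _ hadj)
        refine krc_cyclic_of_mem (((stabilizer H (S.cm p)).subtype.comp
          (stabilizer ↥(stabilizer H (S.cm p)) (S.KR.c p)).subtype).comp (Subgroup.subtype _))
          ?_ ?_ hC
        · intro a b e
          exact Subtype.ext (Subtype.ext (Subtype.ext e))
        · intro b
          exact ⟨hw b.1, b.2⟩
      · rw [MulAction.index_stabilizer]
        have hsub : orbit ↥(stabilizer ↥(stabilizer H (S.cm p)) (S.KR.c p))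
            (S.f p.1.1 p.1.2) ⊆ {S.f p.1.1 p.1.2, S.f q.1.1 p.1.2} := by
          rintro _ ⟨g, rfl⟩
          exact hor g
        have hfin := (Set.toFinite {S.f p.1.1 p.1.2, S.f q.1.1 p.1.2}).subset hsub
        rw [Ne, Set.ncard_eq_zero hfin]
        exact (nonempty_orbit _).ne_empty
    · -- merge classes
      let I : S.V1 → Prop := fun r => S.cm r = S.cm p ∧ (∃ w, S.f r.1.1 w = w) ∧
        S.Far (S.cm p) l' r.1.1
      have hI : ∀ a b, S.kr a b → I a → I b := by
        rintro a b (⟨_, hab⟩ | ⟨e, l'', n, h1, h2, h3, h4, h5, h6, h7⟩) ⟨i1, ⟨w, i2⟩, i3⟩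
        · exact absurd i2 (hab.2.2 w)
        · refine ⟨e.symm.trans i1, S.krc_sink b.2.1 h7, ?_⟩
          rw [i1] at h1 h2
          rw [S.Far_eq i3 h1]
          exact h2
      have hp : I p := ⟨rfl, S.krc_sink xP h6, h1⟩
      have hl : ∀ g : ↥(stabilizer ↥(stabilizer H (S.cm p)) (S.KR.c p)),
          (g : ↥(stabilizer H (S.cm p))).1 • l' = l' := by
        intro g
        have h := S.krc_ind I hI (hc g) hp
        have h0 := S.Far_smul (g : ↥(stabilizer H (S.cm p))).1 _ _ _ h1
        rw [hcm g] at h0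
        exact S.Far_eq h0 h.2.2
      have hC : IsCyclic ↥(stabilizer H p.1.2 ⊓ stabilizer H (S.pr l')) :=
        InC.cyclic (hT.sub _) (D.edgeC _ _ h1.1.1)
      refine krc_cyclic_of_mem ((stabilizer H (S.cm p)).subtype.comp
        (stabilizer ↥(stabilizer H (S.cm p)) (S.KR.c p)).subtype) ?_ ?_ hC
      · intro a b e
        exact Subtype.ext (Subtype.ext e)
      · intro b
        refine ⟨hw b, ?_⟩
        have := congrArg S.pr (hl b)
        rw [S.pr_smul] at this
        exact this
  · -- singletons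
    let I : S.V1 → Prop := fun r => r = p
    have hI : ∀ a b, S.kr a b → I a → I b := by
      intro a b hab ha
      change a = p at ha
      subst ha
      exact absurd ⟨b, hab⟩ hA
    refine krc_cyclic_of_mem ((stabilizer H (S.cm p)).subtype.comp
      (stabilizer ↥(stabilizer H (S.cm p)) (S.KR.c p)).subtype) ?_ ?_ (K.cyc p.1.1 xP)
    · intro a b e
      exact Subtype.ext (Subtype.ext e)
    · intro b
      have h := S.krc_ind I hI (hc b) rfl
      exact congrArg (fun r : S.V1 => r.1.1) h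

end

end Pool.Agent.SAF
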