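import Pool.Agent.SAF.BGr
import Pool.Agent.SAF.BMain

/-!
# SAF, module BLevel: all levels have the same `N2`
-/

namespace Pool.Agent.SAF

open MulAction

section

variable {H : Type} [Group H] {Y : Type} [MulAction H Y] {K : KS H Y} {D : Decomp H}
  (S : Sys H Y K D)

/-- reversal of flags -/
private def blv_swap : (S.LV × S.LV × Y) ≃ (S.LV × S.LV × Y) where
  toFun z := (z.2.1, z.1, z.2.2)
  invFun z := (z.2.1, z.1, z.2.2)
  left_inv _ := rfl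
  right_inv _ := rfl

/-- reversal of corners -/
private def blv_rev : (S.LV × S.LV × S.LV × Y) ≃ (S.LV × S.LV × S.LV × Y) where
  toFun z := (z.2.2.1, z.2.1, z.1, z.2.2.2)
  invFun z := (z.2.2.1, z.2.1, z.1, z.2.2.2)
  left_inv _ := rfl
  right_inv _ := rfl

private theorem blv_swap_W1 (a : S.LV × S.LV × Y) : a ∈ S.W1 ↔ blv_swap S a ∈ S.W1 := by
  obtain ⟨l, l', x⟩ := a
  constructor
  · rintro ⟨h1, h2, h3⟩
    exact ⟨S.LAdj_symm _ _ h1, h3, h2⟩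
  · rintro ⟨h1, h2, h3⟩
    exact ⟨S.LAdj_symm _ _ h1, h3, h2⟩

private theorem blv_rev_W2' {l1 l l2 : S.LV} {x : Y}
    (h : ((l1, l, l2, x) : S.LV × S.LV × S.LV × Y) ∈ S.W2) :
    ((l2, l, l1, x) : S.LV × S.LV × S.LV × Y) ∈ S.W2 := by
  obtain ⟨h1, h2, h3, h4, h5, h6, h7⟩ := h
  exact ⟨fun e => h1 e.symm, h3, h2, h6, h5, h4, h7.symm⟩

private theorem blv_rev_W2 (a : S.LV × S.LV × S.LV × Y) : a ∈ S.W2 ↔ blv_rev S a ∈ S.W2 := by
  obtain ⟨l1, l, l2, x⟩ := a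
  exact ⟨fun h => blv_rev_W2' S h, fun h => blv_rev_W2' S h⟩

private theorem blv_rev_F2 (a b : S.LV × S.LV × S.LV × Y) (h : S.F2 a b) :
    S.F2 (blv_rev S a) (blv_rev S b) := by
  obtain ⟨l1, l, l2, x⟩ := a
  obtain ⟨m1, m, m2, y⟩ := b
  obtain ⟨h1, h2, h3, h4, h5, h6⟩ := h
  exact ⟨h3, h2, h1, fun e => h4 e.symm, h6, h5⟩

/-- the reversed graph of level `n` -/
private def blv_G (n : ℕ) (a b : S.LV × S.LV × Y) : Prop :=
  S.FL n (blv_swap S a) (blv_swap S b)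

private theorem blv_GrG (hL : S.NoLost) (n : ℕ) : Gr H S.W1 (blv_G S n) where
  symm := fun a b h => (S.GrFL hL n).symm _ _ h
  irr := fun a h => (S.GrFL hL n).irr _ h
  inv := fun h a b e => (S.GrFL hL n).inv h _ _ e
  W_inv := (S.GrFL hL n).W_inv
  mem := fun a b h => (blv_swap_W1 S a).2 ((S.GrFL hL n).mem _ _ h)
  finW := (S.GrFL hL n).finW
  finF := by
    apply (S.bgr_finF1 hL).mono
    rintro ⟨⟨l, l', x⟩, ⟨m, m', y⟩⟩ ⟨ea, eb, e⟩
    exact ⟨eb, ea, S.Fl_symm (S.bgr_Lv_Fl n e)⟩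

private theorem blv_third (hL : S.NoLost) {l l1 l2 l3 : S.LV} {x y : Y} (h1 : S.Fl l l1 x y)
    (h2 : S.Fl l l2 x y) (h3 : S.Fl l l3 x y) (n2 : l1 ≠ l2) (n3 : l1 ≠ l3) : l2 = l3 := by
  by_contra hne
  have := S.Fl_third hL h1 h2 h3 n2 (fun e => hne e.symm)
  exact n3 this.symm

/-- Proof: use `N2_eq` for `π (l1, l, l2, x) = (l1, l, x)` (injective on `F2` by `Fl_third`).
With `G = FL (n + 1)` the preimage is `F2` and `Lv n l l2 x y`; with
`G = fun a b => FL n (swap a) (swap b)` the preimage is `F2` and `Lv n l l1 x y`; reversal of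
corners (`N2_iso`) exchanges the two, and `N2_iso` for the swap of flags gives
`N2 G = N2 (FL n)`. -/
theorem Sys.level (hT : TF H) (hL : S.NoLost) (hN : N2 H S.W1 S.F1 ≤ N2 H S.W2 S.F2) (n : ℕ) :
    N2 H S.W1 (S.FL n) = N2 H S.W1 S.F1 := by
  induction n with
  | zero => rfl
  | succ n ih =>
    rw [← ih]
    let π : S.LV × S.LV × S.LV × Y → S.LV × S.LV × Y := fun z => (z.1, z.2.1, z.2.2.2)
    have hπ : ∀ (h : H) (z : S.LV × S.LV × S.LV × Y), π (h • z) = h • π z := fun _ _ => rfl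
    have hF : ∀ a b, S.F2 a b → S.F1 (π a) (π b) := by
      rintro ⟨l1, l, l2, x⟩ ⟨m1, m, m2, y⟩ ⟨h1, h2, h3, h4, h5, h6⟩
      exact ⟨h1, h2, S.Fl_symm h5⟩
    have hinj : ∀ a b a' b', S.F2 a b → S.F2 a' b' → π a = π a' → π b = π b' →
        a = a' ∧ b = b' := by
      rintro ⟨l1, l, l2, x⟩ ⟨m1, m, m2, y⟩ ⟨k1, k, k2, x'⟩ ⟨n1, n', n2, y'⟩
        ⟨h1, h2, h3, h4, h5, h6⟩ ⟨h1', h2', h3', h4', h5', h6'⟩ e e'
      dsimp only at h1 h2 h3 h4 h5 h6 h1' h2' h3' h4' h5' h6'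
      subst h1 h2 h3 h1' h2' h3'
      have e1 : l1 = k1 := congrArg Prod.fst e
      have e2 : l = k := congrArg (fun t => t.2.1) e
      have e3 : x = x' := congrArg (fun t => t.2.2) e
      have e4 : y = y' := congrArg (fun t => t.2.2) e'
      subst e1 e2 e3 e4
      have := blv_third S hL h5 h6 h6' h4 h4'
      subst this
      exact ⟨rfl, rfl⟩
    have A := N2_eq hT π hπ (S.Gr1 hL) (S.Gr2 hL) hF hinj hN (G := S.FL (n + 1))
      (S.GrFL hL (n + 1)) (by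
        rintro a b ⟨h1, h2, h3⟩
        exact ⟨h1, h2, S.bgr_Lv_Fl (n + 1) h3⟩)
    have B := N2_eq hT π hπ (S.Gr1 hL) (S.Gr2 hL) hF hinj hN (G := blv_G S n)
      (blv_GrG S hL n) (by
        rintro a b ⟨h1, h2, h3⟩
        exact ⟨h2, h1, S.Fl_symm (S.bgr_Lv_Fl n h3)⟩)
    rw [A]
    have C : N2 H S.W1 (blv_G S n) = N2 H S.W1 (S.FL n) :=
      N2_iso (blv_swap S) (fun _ _ => rfl) (blv_swap_W1 S) (fun _ _ => Iff.rfl)
    rw [← C, B]
    apply N2_iso (blv_rev S) (fun _ _ => rfl) (blv_rev_W2 S)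
    rintro ⟨l1, l, l2, x⟩ ⟨m1, m, m2, y⟩
    constructor
    · rintro ⟨hf, h1, h2, h3⟩
      refine ⟨blv_rev_F2 S _ _ hf, ?_⟩
      obtain ⟨f1, f2, f3, f4, f5, f6⟩ := hf
      obtain ⟨_, l'', hne, hl⟩ := h3
      have := blv_third S hL f5 f6 (S.bgr_Lv_Fl n hl) f4 (fun e => hne e.symm)
      refine ⟨f2, f3, ?_⟩
      change S.Lv n l l2 x y
      change l2 = l'' at this
      rw [this]
      exact hl
    · rintro ⟨hf, h1, h2, h3⟩
      have hf' := blv_rev_F2 S _ _ hf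
      refine ⟨hf', ?_⟩
      obtain ⟨f1, f2, f3, f4, f5, f6⟩ := hf'
      exact ⟨f1, f2, S.Fl_symm f5, l2, fun e => f4 e.symm, h3⟩

end

end Pool.Agent.SAF
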