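import Pool.Agent.SAF.BCrit
import Pool.Agent.SAF.A22
import Pool.Agent.SAF.ARips

/-!
# SAF, module BMin: existence of a critical complex
-/

namespace Pool.Agent.SAF

open MulAction

theorem KS.nv_le_t {H : Type} [Group H] {Y : Type} [MulAction H Y] (K : KS H Y) :
    K.nv ≤ K.t := by
  unfold KS.nv KS.t
  refine oc_le_of_surj K.finT (fun p => p.1) ?_ ?_
  · rintro x ⟨y, z, h⟩
    exact ⟨(x, y, z), h, 1, one_smul _ _⟩
  · rintro a _ b _ ⟨h, e⟩
    exact ⟨h, congrArg Prod.fst e⟩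

theorem exists_crit (G : Type) [Group G] [Group.IsFinitelyPresented G] (hT : TF G)
    (hb : ¬ SA G) : ∃ (H : Type) (_ : Group H) (Y : Type) (_ : MulAction H Y) (K : KS H Y),
    Crit K := by
  classical
  obtain ⟨Y0, i0, ⟨K0⟩⟩ := exists_KS G
  -- minimal number of triangles
  have h1 : ∃ t : ℕ, ∃ (H : Type) (_ : Group H) (Y : Type) (_ : MulAction H Y) (K : KS H Y),
      TF H ∧ ¬ SA H ∧ K.t = t := ⟨K0.t, G, inferInstance, Y0, i0, K0, hT, hb, rfl⟩
  obtain ⟨H1, iH1, Y1, iY1, K1, hT1, hb1, ht1⟩ := Nat.find_spec h1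
  have m1 : MinT (Nat.find h1) := by
    intro H _ Y _ K hTH hbH
    exact Nat.find_min' h1 ⟨H, inferInstance, Y, inferInstance, K, hTH, hbH, rfl⟩
  generalize Nat.find h1 = t at ht1 m1
  clear h1
  -- minimal number of free edges
  have h2 : ∃ e : ℕ, ∃ (H : Type) (_ : Group H) (Y : Type) (_ : MulAction H Y) (K : KS H Y),
      TF H ∧ ¬ SA H ∧ K.t = t ∧ K.ef = e :=
    ⟨_, H1, iH1, Y1, iY1, K1, hT1, hb1, ht1, rfl⟩
  obtain ⟨H2, iH2, Y2, iY2, K2, hT2, hb2, ht2, he2⟩ := Nat.find_spec h2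
  have m2 : MinTE t (Nat.find h2) := by
    refine ⟨m1, ?_⟩
    intro H _ Y _ K hTH hbH htH
    exact Nat.find_min' h2 ⟨H, inferInstance, Y, inferInstance, K, hTH, hbH, htH, rfl⟩
  generalize Nat.find h2 = e at he2 m2
  clear h2
  -- maximal number of vertices
  have h3 : ∃ n : ℕ, ∃ (H : Type) (_ : Group H) (Y : Type) (_ : MulAction H Y) (K : KS H Y),
      TF H ∧ ¬ SA H ∧ K.t = t ∧ K.ef = e ∧ K.t - K.nv = n :=
    ⟨_, H2, iH2, Y2, iY2, K2, hT2, hb2, ht2, he2, rfl⟩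
  obtain ⟨H3, iH3, Y3, iY3, K3, hT3, hb3, ht3, he3, hn3⟩ := Nat.find_spec h3
  have m3 : MinTEN t e K3.nv := by
    refine ⟨m2, ?_⟩
    intro H _ Y _ K hTH hbH htH heH
    have h4 := Nat.find_min' h3 ⟨H, inferInstance, Y, inferInstance, K, hTH, hbH, htH, heH, rfl⟩
    have h5 := K.nv_le_t
    have h6 := K3.nv_le_t
    omega
  -- the block lemma
  obtain ⟨S, K', hbS, hA, hL, -, htS, heS, hnS⟩ := block_lemma K3 hT3 hb3
  have hTS : TF S := hT3.sub S
  have q1 : K'.t = t := le_antisymm (by rw [← ht3]; exact htS) (m1 _ _ K' hTS hbS)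
  have q2 : K'.ef = e := le_antisymm (by rw [← he3]; exact heS) (m2.2 _ _ K' hTS hbS q1)
  have q3 : K'.nv = K3.nv :=
    le_antisymm (m3.2 _ _ K' hTS hbS q1 q2) (hnS (q1.trans ht3.symm))
  refine ⟨S, inferInstance, Y3, inferInstance, K', hTS, hbS, hA, hL, ?_⟩
  rw [q1, q2, q3]
  exact m3

end Pool.Agent.SAF
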