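import Pool.Agent.SAF.Defs

/-!
# SAF: basic equivariance lemmas and the two relations
-/

namespace Pool.Agent.SAF

open MulAction

section

variable {H : Type} [Group H] {Y : Type} [MulAction H Y] {K : KS H Y} {D : Decomp H}
  (S : Sys H Y K D)

theorem Sys.smul_val (h : H) (p : S.V1) : (h • p).1 = (h • p.1.1, h • p.1.2) := rfl

theorem Sys.cm_smul (h : H) (p : S.V1) : S.cm (h • p) = h • S.cm p := rfl

theorem Sys.pr_cm (p : S.V1) : S.pr (S.cm p) = p.1.2 := rfl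

theorem Sys.pr_smul (h : H) (l : S.LV) : S.pr (h • l) = h • S.pr l := by
  induction l using Quotient.inductionOn with
  | h p => rfl

theorem Sys.In_iff (x : Y) (l : S.LV) :
    S.In x l ↔ ∃ p : S.V1, p.1.1 = x ∧ S.cm p = l := by
  constructor
  · rintro ⟨h, e⟩
    exact ⟨_, rfl, e⟩
  · rintro ⟨p, rfl, rfl⟩
    exact ⟨p.2, rfl⟩

theorem Sys.In_cm (p : S.V1) : S.In p.1.1 (S.cm p) := (S.In_iff _ _).2 ⟨p, rfl, rfl⟩

theorem Sys.In_smul (h : H) (x : Y) (l : S.LV) (e : S.In x l) : S.In (h • x) (h • l) := by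
  obtain ⟨p, rfl, rfl⟩ := (S.In_iff _ _).1 e
  exact (S.In_iff _ _).2 ⟨h • p, rfl, rfl⟩

theorem Sys.LAdj_smul (h : H) (l l' : S.LV) (e : S.LAdj l l') : S.LAdj (h • l) (h • l') := by
  refine ⟨?_, ?_⟩
  · rw [S.pr_smul, S.pr_smul]
    exact D.adj_smul h _ _ e.1
  · obtain ⟨x, hx, hx'⟩ := e.2
    exact ⟨h • x, S.In_smul h x l hx, S.In_smul h x l' hx'⟩

theorem Sys.LAdj_symm (l l' : S.LV) (e : S.LAdj l l') : S.LAdj l' l :=
  ⟨e.1.symm, e.2.imp (fun _ e => ⟨e.2, e.1⟩)⟩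

theorem Sys.PE_smul (h : H) (l : S.LV) (x y : Y) (e : S.PE l x y) :
    S.PE (h • l) (h • x) (h • y) := by
  refine ⟨K.E_smul h _ _ e.1, ?_, S.In_smul h _ _ e.2.2.1, S.In_smul h _ _ e.2.2.2⟩
  rw [S.pr_smul]
  exact S.SE_smul h _ _ _ e.1 e.2.1

theorem Sys.PE_symm (l : S.LV) (x y : Y) (e : S.PE l x y) : S.PE l y x := by
  refine ⟨K.E_symm _ _ e.1, ?_, e.2.2.2, e.2.2.1⟩
  rw [← S.SE_symm x y e.1]
  exact e.2.1

theorem Sys.PT_smul (h : H) (l : S.LV) (x y z : Y) (e : S.PT l x y z) :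
    S.PT (h • l) (h • x) (h • y) (h • z) := by
  refine ⟨K.T_smul h _ _ _ e.1, ?_, S.In_smul h _ _ e.2.2.1, S.In_smul h _ _ e.2.2.2.1,
    S.In_smul h _ _ e.2.2.2.2⟩
  rw [S.pr_smul]
  exact S.ST_smul h _ _ _ _ e.1 e.2.1

theorem Sys.DE_smul (h : H) (l l' : S.LV) (x y : Y) (e : S.DE l l' x y) :
    S.DE (h • l) (h • l') (h • x) (h • y) := ⟨S.PE_smul h _ _ _ e.1, S.PE_smul h _ _ _ e.2⟩

theorem Sys.DE_symm (l l' : S.LV) (x y : Y) (e : S.DE l l' x y) : S.DE l l' y x :=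
  ⟨S.PE_symm _ _ _ e.1, S.PE_symm _ _ _ e.2⟩

theorem Sys.DE_comm (l l' : S.LV) (x y : Y) (e : S.DE l l' x y) : S.DE l' l x y :=
  ⟨e.2, e.1⟩

theorem Sys.Far_smul (h : H) (l l' : S.LV) (x : Y) (e : S.Far l l' x) :
    S.Far (h • l) (h • l') (h • x) := by
  refine ⟨S.LAdj_smul h _ _ e.1, S.In_smul h _ _ e.2.1, S.In_smul h _ _ e.2.2.1, ?_⟩
  rw [S.pr_smul, S.f_smul, e.2.2.2, S.pr_smul]

theorem Sys.Qe_smul (h : H) (x y : Y) (e : S.Qe x y) : S.Qe (h • x) (h • y) := by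
  obtain ⟨e1, ⟨g, g1, gx, gy⟩, e3⟩ := e
  refine ⟨K.E_smul h _ _ e1, ⟨h * g * h⁻¹, ?_, ?_, ?_⟩, ?_⟩
  · intro e
    apply g1
    have : g = h⁻¹ * (h * g * h⁻¹) * h := by group
    rw [this, e]
    group
  · rw [mul_smul, mul_smul, inv_smul_smul, gx]
  · rw [mul_smul, mul_smul, inv_smul_smul, gy]
  · intro w hw
    apply e3 (h⁻¹ • w)
    have h2 : h • S.f x (h⁻¹ • w) = w := by
      have h3 := S.f_smul h x (h⁻¹ • w)
      rw [smul_inv_smul, hw] at h3
      exact h3.symm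
    exact eq_inv_smul_iff.2 h2

theorem Sys.J_smul (h : H) (l l' : S.LV) (j : H) (hj : j ∈ S.J l l') :
    h * j * h⁻¹ ∈ S.J (h • l) (h • l') := by
  obtain ⟨h1, h2⟩ := hj
  replace h1 : j • l = l := h1
  replace h2 : j • l' = l' := h2
  refine ⟨?_, ?_⟩
  · change (h * j * h⁻¹) • (h • l) = h • l
    rw [mul_smul, mul_smul, inv_smul_smul, h1]
  · change (h * j * h⁻¹) • (h • l') = h • l'
    rw [mul_smul, mul_smul, inv_smul_smul, h2]

theorem Sys.Jinf_smul (h : H) (l l' : S.LV) (x : Y) (e : S.Jinf l l' x) :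
    S.Jinf (h • l) (h • l') (h • x) := by
  obtain ⟨j, hj, j1, jx⟩ := e
  refine ⟨h * j * h⁻¹, S.J_smul h l l' j hj, ?_, ?_⟩
  · intro e
    apply j1
    have : j = h⁻¹ * (h * j * h⁻¹) * h := by group
    rw [this, e]
    group
  · rw [mul_smul, mul_smul, inv_smul_smul, jx]

/-- the relation of the first quotient complexes -/
def Sys.XR : IRel S where
  r :=
    { r := S.xr
      iseqv :=
        { refl := fun p => Or.inl rfl
          symm := by
            rintro p q (e | ⟨e, l', h1, h2⟩)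
            · exact Or.inl e.symm
            · refine Or.inr ⟨e.symm, l', ?_, ?_⟩
              · rw [← e]; exact h2
              · rw [← e]; exact h1
          trans := by
            rintro p q s (rfl | ⟨e, l', h1, h2⟩) (rfl | ⟨e', l'', h1', h2'⟩)
            · exact Or.inl rfl
            · exact Or.inr ⟨e', l'', h1', h2'⟩
            · exact Or.inr ⟨e, l', h1, h2⟩
            · refine Or.inr ⟨e.trans e', l', h1, ?_⟩
              rw [← e] at h1' h2'
              rw [S.Far_eq h2 h1']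
              exact h2' } }
  comp := by
    rintro p q (rfl | ⟨e, -⟩)
    · rfl
    · exact e
  inv := by
    rintro h p q (rfl | ⟨e, l', h1, h2⟩)
    · exact Or.inl rfl
    · refine Or.inr ⟨?_, h • l', ?_, ?_⟩
      · rw [S.cm_smul, S.cm_smul, e]
      · exact S.Far_smul h _ _ _ h1
      · exact S.Far_smul h _ _ _ h2

/-- the relation of the second quotient complexes -/
def Sys.KR : IRel S where
  r := Relation.EqvGen.setoid S.kr
  comp := by
    intro p q e
    induction e with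
    | rel x y hxy =>
      rcases hxy with ⟨e, -⟩ | ⟨e, -⟩
      · exact Quotient.sound (Relation.EqvGen.rel _ _ e)
      · exact e
    | refl x => rfl
    | symm x y _ ih => exact ih.symm
    | trans x y z _ _ ih1 ih2 => exact ih1.trans ih2
  inv := by
    intro h p q e
    induction e with
    | rel x y hxy =>
      apply Relation.EqvGen.rel
      rcases hxy with ⟨e, e'⟩ | ⟨e, l', n, h1, h2, h3, h4, h5, h6, h7⟩
      · exact Or.inl ⟨S.hr_smul h _ _ e, S.Qe_smul h _ _ e'⟩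
      · refine Or.inr ⟨?_, h • l', h • n, S.Far_smul h _ _ _ h1, S.Far_smul h _ _ _ h2,
          S.DE_smul h _ _ _ _ h3, S.DE_smul h _ _ _ _ h4, S.Jinf_smul h _ _ _ h5,
          S.Jinf_smul h _ _ _ h6, S.Jinf_smul h _ _ _ h7⟩
        rw [S.cm_smul, S.cm_smul, e]
    | refl x => exact Relation.EqvGen.refl _
    | symm x y _ ih => exact Relation.EqvGen.symm _ _ ih
    | trans x y z _ _ ih1 ih2 => exact Relation.EqvGen.trans _ _ _ ih1 ih2

theorem IRel.c_smul {S : Sys H Y K D} (R : IRel S) (h : H) (p : S.V1) :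
    R.c (h • p) = h • R.c p := rfl

end

end Pool.Agent.SAF
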