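import Mathlib

/-!
# Strong accessibility of torsion-free finitely presented groups (MP_92a43c_al): definitions

All modules of the folder `SAF` import this file.
-/

namespace Pool.Agent.SAF

open MulAction

/-! ### Groups -/

/-- finite or virtually infinite cyclic -/
def InC (G : Type) [Group G] : Prop :=
  Finite G ∨ ∃ g : G, (∀ n : ℕ, 0 < n → g ^ n ≠ 1) ∧ (Subgroup.zpowers g).FiniteIndex

/-- torsion-free -/
def TF (G : Type) [Group G] : Prop := ∀ (g : G) (n : ℕ), 0 < n → g ^ n = 1 → g = 1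

/-! ### Orbits of sets -/

section Orb

variable (H : Type) [Group H] {Y : Type} [MulAction H Y]

/-- the set of orbits which meet `s` -/
def orbs (s : Set Y) : Set (orbitRel.Quotient H Y) :=
  (fun y => (Quotient.mk'' y : orbitRel.Quotient H Y)) '' s

/-- `s` meets finitely many orbits -/
def FinOrb (s : Set Y) : Prop := (orbs H s).Finite

/-- the number of orbits which meet `s` -/
noncomputable def oc (s : Set Y) : ℕ := (orbs H s).ncard

/-- trivial stabiliser -/
def Fr (y : Y) : Prop := ∀ h : H, h • y = y → h = 1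

/-- the number of orbits of elements of `s` with trivial stabiliser -/
noncomputable def ocf (s : Set Y) : ℕ := oc H {y | y ∈ s ∧ Fr H y}

end Orb

/-! ### Decompositions and strong accessibility -/

/-- A decomposition of `H` over the class `InC`: an action on a tree without inversions, with
finitely many orbits of vertices and edges, edge stabilisers in the class, no fixed vertex. -/
structure Decomp (H : Type) [Group H] where
  X : Type
  [act : MulAction H X]
  G : SimpleGraph X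
  tree : G.IsTree
  adj_smul : ∀ (h : H) (x y : X), G.Adj x y → G.Adj (h • x) (h • y)
  noinv : ∀ (h : H) (x y : X), G.Adj x y → ¬ (h • x = y ∧ h • y = x)
  finV : FinOrb H (Set.univ : Set X)
  finE : FinOrb H {p : X × X | G.Adj p.1 p.2}
  edgeC : ∀ x y : X, G.Adj x y → InC ↥(stabilizer H x ⊓ stabilizer H y)
  nofix : ∀ x : X, ∃ h : H, h • x ≠ x

attribute [instance] Decomp.act

/-- a terminating hierarchy with at most `n` stages exists -/
def SAn : ℕ → ∀ (G : Type) [Group G], Prop
  | 0, G, _ => IsEmpty (Decomp G)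
  | n + 1, G, _ => IsEmpty (Decomp G) ∨ ∃ D : Decomp G, ∀ x : D.X, SAn n ↥(stabilizer G x)

/-- strongly accessible over the class of finite and virtually infinite cyclic groups -/
def SA (G : Type) [Group G] : Prop := ∃ n, SAn n G

/-! ### Complexes -/

/-- A complex for `H`: vertices `P` in an `H`-set `Y`, edges `E`, triangles `T` (ordered triples),
connected, first cohomology over `ZMod 2` zero, cofinite, cyclic vertex stabilisers. -/
structure KS (H : Type) [Group H] (Y : Type) [MulAction H Y] where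
  P : Set Y
  E : Y → Y → Prop
  T : Y → Y → Y → Prop
  E_symm : ∀ x y, E x y → E y x
  E_irr : ∀ x, ¬ E x x
  E_P : ∀ x y, E x y → x ∈ P
  T_swap : ∀ x y z, T x y z → T y x z
  T_rot : ∀ x y z, T x y z → T y z x
  T_E : ∀ x y z, T x y z → E x y
  P_smul : ∀ (h : H) (x : Y), x ∈ P → h • x ∈ P
  E_smul : ∀ (h : H) (x y : Y), E x y → E (h • x) (h • y)
  T_smul : ∀ (h : H) (x y z : Y), T x y z → T (h • x) (h • y) (h • z)
  ne : P.Nonempty
  conn : ∀ x ∈ P, ∀ y ∈ P, Relation.ReflTransGen E x y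
  H1 : ∀ φ : Y → Y → ZMod 2, (∀ x y, φ x y = φ y x) →
    (∀ x y z, T x y z → φ x y + φ y z + φ x z = 0) →
    ∃ h : Y → ZMod 2, ∀ x y, E x y → φ x y = h x + h y
  finP : FinOrb H P
  finE : FinOrb H {p : Y × Y | E p.1 p.2}
  finT : FinOrb H {p : Y × Y × Y | T p.1 p.2.1 p.2.2}
  cyc : ∀ x ∈ P, IsCyclic ↥(stabilizer H x)

section KSdefs

variable {H : Type} [Group H] {Y : Type} [MulAction H Y] (K : KS H Y)

/-- number of orbits of (ordered) triangles -/
noncomputable def KS.t : ℕ := oc H {p : Y × Y × Y | K.T p.1 p.2.1 p.2.2}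

/-- number of orbits of (ordered) edges with trivial stabiliser lying in a triangle -/
noncomputable def KS.ef : ℕ := ocf H {p : Y × Y | K.E p.1 p.2 ∧ ∃ z, K.T p.1 p.2 z}

/-- number of orbits of vertices lying in a triangle -/
noncomputable def KS.nv : ℕ := oc H {x : Y | ∃ y z, K.T x y z}

/-- every edge lies in a triangle -/
def KS.AllTri : Prop := ∀ x y, K.E x y → ∃ z, K.T x y z

/-- the link of every vertex (formed by the triangles) is connected -/
def KS.LinkConn : Prop := ∀ x y y', (∃ z, K.T x y z) → (∃ z, K.T x y' z) →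
  Relation.ReflTransGen (fun a b => K.T x a b) y y'

end KSdefs

/-- `t` is at most the number of triangles of any complex of a torsion-free group which is not
strongly accessible -/
def MinT (t : ℕ) : Prop := ∀ (H : Type) [Group H] (Y : Type) [MulAction H Y] (K : KS H Y),
  TF H → ¬ SA H → t ≤ K.t

def MinTE (t e : ℕ) : Prop := MinT t ∧
  ∀ (H : Type) [Group H] (Y : Type) [MulAction H Y] (K : KS H Y),
  TF H → ¬ SA H → K.t = t → e ≤ K.ef

def MinTEN (t e n : ℕ) : Prop := MinTE t e ∧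
  ∀ (H : Type) [Group H] (Y : Type) [MulAction H Y] (K : KS H Y),
  TF H → ¬ SA H → K.t = t → K.ef = e → K.nv ≤ n

/-! ### Orientations and convex sets in trees -/

/-- an orientation of all edges with at most one outgoing edge at each vertex, given by the
successor function (a fixed vertex is a sink); i.e. a vertex or an end of the tree -/
structure Ori {X : Type} (G : SimpleGraph X) (f : X → X) : Prop where
  ok : ∀ w, f w = w ∨ G.Adj w (f w)
  one : ∀ w w', G.Adj w w' → (f w = w' ∨ f w' = w)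
  ntwo : ∀ w w', G.Adj w w' → ¬ (f w = w' ∧ f w' = w)

/-- convex subset -/
def Conv {X : Type} (G : SimpleGraph X) (C : Set X) : Prop :=
  ∀ a ∈ C, ∀ b ∈ C, ∀ w, G.dist a w + G.dist w b = G.dist a b → w ∈ C

/-- convex hull (in a tree) -/
def hull {X : Type} (G : SimpleGraph X) (s : Set X) : Set X :=
  {w | ∃ a ∈ s, ∃ b ∈ s, G.dist a w + G.dist w b = G.dist a b}

/-- the vertices between the points (or ends) `f` and `g` -/
def Zs {X : Type} (f g : X → X) : Set X := {w | ¬ (f w = g w ∧ f w ≠ w)}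

/-- `f` and `g` are the same end -/
def LostF {X : Type} (f g : X → X) : Prop := f = g ∧ ∀ w, f w ≠ w

/-! ### The system of subtrees -/

structure Sys (H : Type) [Group H] (Y : Type) [MulAction H Y] (K : KS H Y) (D : Decomp H) where
  f : Y → D.X → D.X
  SV : Y → Set D.X
  SE : Y → Y → Set D.X
  ST : Y → Y → Y → Set D.X
  ori : ∀ x ∈ K.P, Ori D.G (f x)
  f_smul : ∀ (h : H) (x : Y) (w : D.X), f (h • x) (h • w) = h • f x w
  f_hyp : ∀ x ∈ K.P, (∃ w, f x w = w) ∨ (∀ h : H, h • x = x → h ≠ 1 → ∀ w : D.X, h • w ≠ w)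
  SV_conv : ∀ x ∈ K.P, Conv D.G (SV x)
  SE_conv : ∀ x y, K.E x y → Conv D.G (SE x y)
  ST_conv : ∀ x y z, K.T x y z → Conv D.G (ST x y z)
  SV_ne : ∀ x ∈ K.P, (SV x).Nonempty
  SE_ne : ∀ x y, K.E x y → (SE x y).Nonempty
  ST_ne : ∀ x y z, K.T x y z → (ST x y z).Nonempty
  SE_sub : ∀ x y, K.E x y → SE x y ⊆ SV x
  ST_sub : ∀ x y z, K.T x y z → ST x y z ⊆ SE x y
  SE_symm : ∀ x y, K.E x y → SE x y = SE y x
  ST_swap : ∀ x y z, K.T x y z → ST x y z = ST y x z
  ST_rot : ∀ x y z, K.T x y z → ST x y z = ST y z x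
  SV_smul : ∀ (h : H) (x : Y) (w : D.X), x ∈ K.P → w ∈ SV x → h • w ∈ SV (h • x)
  SE_smul : ∀ (h : H) (x y : Y) (w : D.X), K.E x y → w ∈ SE x y → h • w ∈ SE (h • x) (h • y)
  ST_smul : ∀ (h : H) (x y z : Y) (w : D.X), K.T x y z → w ∈ ST x y z →
    h • w ∈ ST (h • x) (h • y) (h • z)
  fwd : ∀ x ∈ K.P, (∀ u, f x u ≠ u) → ∀ w ∈ SV x, f x w ∈ SV x
  finV : FinOrb H {p : Y × D.X | p.1 ∈ K.P ∧ p.2 ∈ SV p.1}
  finE : FinOrb H {p : (Y × Y) × D.X | K.E p.1.1 p.1.2 ∧ ¬ LostF (f p.1.1) (f p.1.2) ∧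
    p.2 ∈ SE p.1.1 p.1.2}
  SE_lost : ∀ x y, K.E x y → LostF (f x) (f y) → SE x y = SV x ∩ SV y
  SE_Z : ∀ x y, K.E x y → ¬ LostF (f x) (f y) → SE x y ⊆ Zs (f x) (f y)
  ST_c : ∀ x y z, K.T x y z → LostF (f x) (f y) ∨ LostF (f y) (f z) ∨ LostF (f x) (f z) ∨
    ∃ c, ST x y z = {c}
  SV_hull : ∀ x ∈ K.P, SV x = hull D.G {w | ∃ y z, K.T x y z ∧ w ∈ ST x y z}
  SE_hull : ∀ x y, K.E x y → ¬ LostF (f x) (f y) →
    SE x y = hull D.G {w | ∃ z, K.T x y z ∧ w ∈ ST x y z}


/-! ### The blown up complex and the new tree -/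

section SysDefs

variable {H : Type} [Group H] {Y : Type} [MulAction H Y] {K : KS H Y} {D : Decomp H}
  (S : Sys H Y K D)

/-- vertices of the blown up complex: pairs (vertex `x`, point of the subtree of `x`) -/
def Sys.V1 : Type := {p : Y × D.X // p.1 ∈ K.P ∧ p.2 ∈ S.SV p.1}

instance Sys.actV1 : MulAction H S.V1 where
  smul h p := ⟨(h • p.1.1, h • p.1.2),
    ⟨K.P_smul h _ p.2.1, S.SV_smul h _ _ p.2.1 p.2.2⟩⟩
  one_smul p := Subtype.ext (Prod.ext (one_smul H p.1.1) (one_smul H p.1.2))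
  mul_smul a b p := Subtype.ext (Prod.ext (mul_smul a b p.1.1) (mul_smul a b p.1.2))

/-- horizontal edges of the blown up complex -/
def Sys.hr (p q : S.V1) : Prop :=
  p.1.2 = q.1.2 ∧ K.E p.1.1 q.1.1 ∧ p.1.2 ∈ S.SE p.1.1 q.1.1

/-- same component of the slice -/
def Sys.hs : Setoid S.V1 := Relation.EqvGen.setoid S.hr

theorem Sys.hr_smul (h : H) (p q : S.V1) (e : S.hr p q) : S.hr (h • p) (h • q) := by
  refine ⟨?_, ?_, ?_⟩
  · change h • p.1.2 = h • q.1.2
    rw [e.1]
  · exact K.E_smul h _ _ e.2.1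
  · exact S.SE_smul h _ _ _ e.2.1 e.2.2

theorem Sys.hs_smul (h : H) (p q : S.V1) (e : S.hs p q) : S.hs (h • p) (h • q) := by
  induction e with
  | rel x y hxy => exact Relation.EqvGen.rel _ _ (S.hr_smul h x y hxy)
  | refl x => exact Relation.EqvGen.refl _
  | symm x y _ ih => exact Relation.EqvGen.symm _ _ ih
  | trans x y z _ _ ih1 ih2 => exact Relation.EqvGen.trans _ _ _ ih1 ih2

/-- vertices of the new tree: components of the slices -/
def Sys.LV : Type := Quotient S.hs

/-- the component of a vertex of the blown up complex -/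
def Sys.cm (p : S.V1) : S.LV := Quotient.mk S.hs p

instance Sys.actLV : MulAction H S.LV where
  smul h := Quotient.map (fun p => h • p) (fun p q e => S.hs_smul h p q e)
  one_smul l := by
    induction l using Quotient.inductionOn with
    | h p => exact congrArg (Quotient.mk S.hs) (one_smul H p)
  mul_smul a b l := by
    induction l using Quotient.inductionOn with
    | h p => exact congrArg (Quotient.mk S.hs) (mul_smul a b p)

theorem Sys.hs_snd (p q : S.V1) (e : S.hs p q) : p.1.2 = q.1.2 := by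
  induction e with
  | rel x y hxy => exact hxy.1
  | refl x => rfl
  | symm x y _ ih => exact ih.symm
  | trans x y z _ _ ih1 ih2 => exact ih1.trans ih2

/-- the point of the old tree under a vertex of the new tree -/
def Sys.pr : S.LV → D.X := Quotient.lift (fun p => p.1.2) (fun p q e => S.hs_snd p q e)

/-- `x` occurs in the component `l` -/
def Sys.In (x : Y) (l : S.LV) : Prop :=
  ∃ h : x ∈ K.P ∧ S.pr l ∈ S.SV x, S.cm ⟨(x, S.pr l), h⟩ = l

/-- adjacency of the new tree -/
def Sys.LAdj (l l' : S.LV) : Prop := D.G.Adj (S.pr l) (S.pr l') ∧ ∃ x, S.In x l ∧ S.In x l'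

/-- the new tree -/
def Sys.LG : SimpleGraph S.LV where
  Adj := S.LAdj
  symm := ⟨fun _ _ h => ⟨h.1.symm, h.2.imp (fun _ e => ⟨e.2, e.1⟩)⟩⟩
  loopless := ⟨fun _ h => D.G.loopless.irrefl _ h.1⟩

/-- edges of the slice component `l` -/
def Sys.PE (l : S.LV) (x y : Y) : Prop := K.E x y ∧ S.pr l ∈ S.SE x y ∧ S.In x l ∧ S.In y l

/-- triangles of the slice component `l` -/
def Sys.PT (l : S.LV) (x y z : Y) : Prop :=
  K.T x y z ∧ S.pr l ∈ S.ST x y z ∧ S.In x l ∧ S.In y l ∧ S.In z l

/-- the graph over the edge `l l'` of the new tree -/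
def Sys.DE (l l' : S.LV) (x y : Y) : Prop := S.PE l x y ∧ S.PE l' x y

/-- pointwise stabiliser of the edge `l l'` of the new tree -/
def Sys.J (l l' : S.LV) : Subgroup H := stabilizer H l ⊓ stabilizer H l'

/-- seen from `l`, the vertex `x` lies beyond the edge `l l'` -/
def Sys.Far (l l' : S.LV) (x : Y) : Prop :=
  S.LAdj l l' ∧ S.In x l ∧ S.In x l' ∧ S.f x (S.pr l) = S.pr l'

/-- `x` and `y` span an edge with infinite stabiliser which acts without fixed vertex -/
def Sys.Qe (x y : Y) : Prop :=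
  K.E x y ∧ (∃ h : H, h ≠ 1 ∧ h • x = x ∧ h • y = y) ∧ ∀ w, S.f x w ≠ w

/-- the stabiliser of `x` is commensurable with the stabiliser of the edge `l l'` -/
def Sys.Jinf (l l' : S.LV) (x : Y) : Prop := ∃ j ∈ S.J l l', j ≠ 1 ∧ j • x = x

theorem Sys.In_eq {l l' : S.LV} {x : Y} (h : S.In x l) (h' : S.In x l')
    (e : S.pr l = S.pr l') : l = l' := by
  obtain ⟨a, ha⟩ := h
  obtain ⟨b, hb⟩ := h'
  rw [← ha, ← hb]
  exact congrArg S.cm (Subtype.ext (Prod.ext rfl e))

theorem Sys.Far_eq {l l' l'' : S.LV} {x : Y} (h : S.Far l l' x) (h' : S.Far l l'' x) :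
    l' = l'' := S.In_eq h.2.2.1 h'.2.2.1 (h.2.2.2.symm.trans h'.2.2.2)

/-! ### Quotient complexes -/

/-- an invariant equivalence relation on the vertices of the blown up complex which respects
components of slices -/
structure IRel (S : Sys H Y K D) where
  r : Setoid S.V1
  comp : ∀ p q, r p q → S.cm p = S.cm q
  inv : ∀ (h : H) (p q : S.V1), r p q → r (h • p) (h • q)

variable {S}

/-- the classes -/
def IRel.Q (R : IRel S) : Type := Quotient R.r

/-- the class of a vertex of the blown up complex -/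
def IRel.c (R : IRel S) (p : S.V1) : R.Q := Quotient.mk R.r p

instance IRel.actQ (R : IRel S) : MulAction H R.Q where
  smul h := Quotient.map (fun p => h • p) (fun p q e => R.inv h p q e)
  one_smul l := by
    induction l using Quotient.inductionOn with
    | h p => exact congrArg (Quotient.mk R.r) (one_smul H p)
  mul_smul a b l := by
    induction l using Quotient.inductionOn with
    | h p => exact congrArg (Quotient.mk R.r) (mul_smul a b p)

/-- vertices of the quotient complex at `l` -/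
def IRel.P (R : IRel S) (l : S.LV) : Set R.Q := {c | ∃ p, S.cm p = l ∧ R.c p = c}

/-- edges of the quotient complex at `l` -/
def IRel.E (R : IRel S) (l : S.LV) (c c' : R.Q) : Prop :=
  c ≠ c' ∧ ∃ p q, S.hr p q ∧ S.cm p = l ∧ R.c p = c ∧ R.c q = c'

/-- the triangle `p q s` of the blown up complex at `l` -/
def Sys.Tp (S : Sys H Y K D) (l : S.LV) (p q s : S.V1) : Prop :=
  p.1.2 = q.1.2 ∧ q.1.2 = s.1.2 ∧ K.T p.1.1 q.1.1 s.1.1 ∧
    p.1.2 ∈ S.ST p.1.1 q.1.1 s.1.1 ∧ S.cm p = l

/-- triangles of the quotient complex at `l` -/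
def IRel.T (R : IRel S) (l : S.LV) (c c' c'' : R.Q) : Prop :=
  c ≠ c' ∧ c' ≠ c'' ∧ c ≠ c'' ∧
    ∃ p q s, S.Tp l p q s ∧ R.c p = c ∧ R.c q = c' ∧ R.c s = c''

open Classical in
/-- pull back of a cochain -/
noncomputable def IRel.lift (R : IRel S) (φ : R.Q → R.Q → ZMod 2) (p q : S.V1) : ZMod 2 :=
  if R.c p = R.c q then 0 else φ (R.c p) (R.c q)

variable (S)

/-- the relation of the first quotient complexes: all far vertices of one edge are identified -/
def Sys.xr (p q : S.V1) : Prop :=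
  p = q ∨ (S.cm p = S.cm q ∧ ∃ l', S.Far (S.cm p) l' p.1.1 ∧ S.Far (S.cm p) l' q.1.1)

/-- the relation generating the second quotient complexes -/
def Sys.kr (p q : S.V1) : Prop :=
  (S.hr p q ∧ S.Qe p.1.1 q.1.1) ∨
  (S.cm p = S.cm q ∧ ∃ l' n, S.Far (S.cm p) l' p.1.1 ∧ S.Far (S.cm p) l' q.1.1 ∧
    S.DE (S.cm p) l' n p.1.1 ∧ S.DE (S.cm p) l' n q.1.1 ∧
    S.Jinf (S.cm p) l' n ∧ S.Jinf (S.cm p) l' p.1.1 ∧ S.Jinf (S.cm p) l' q.1.1)

end SysDefs

end Pool.Agent.SAF
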